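import Mathlib

/-! Abstract Lazard correspondence: a group whose law is given by Lie polynomials. -/

set_option autoImplicit false

namespace Pool.Agent.P78

open scoped commutatorElement

section ev
variable {L : Type*} [LieRing L]

def evW (w : List Bool) (a b : L) : L := w.foldl (fun v t => ⁅v, cond t a b⁆) ⁅a, b⁆

def evC (β : List Bool →₀ ℤ) (a b : L) : L := β.sum fun w n => n • evW w a b

lemma evW_nil (a b : L) : evW [] a b = ⁅a, b⁆ := rfl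

lemma evW_concat (w : List Bool) (t : Bool) (a b : L) :
    evW (w ++ [t]) a b = ⁅evW w a b, cond t a b⁆ := by simp [evW]

lemma evW_mem {a b : L} (M : ℕ → AddSubgroup L) (h0 : ⁅a, b⁆ ∈ M 0)
    (ha : ∀ n, ∀ v ∈ M n, ⁅v, a⁆ ∈ M (n + 1)) (hb : ∀ n, ∀ v ∈ M n, ⁅v, b⁆ ∈ M (n + 1))
    (w : List Bool) : evW w a b ∈ M w.length := by
  induction w using List.reverseRecOn with
  | nil => exact h0
  | append_singleton w t ih =>
    rw [evW_concat, List.length_append]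
    cases t
    exacts [hb _ _ ih, ha _ _ ih]

lemma evC_mem {a b : L} (β : List Bool →₀ ℤ) (M : AddSubgroup L) (h0 : ⁅a, b⁆ ∈ M)
    (ha : ∀ v ∈ M, ⁅v, a⁆ ∈ M) (hb : ∀ v ∈ M, ⁅v, b⁆ ∈ M) : evC β a b ∈ M :=
  sum_mem fun w _ => zsmul_mem (evW_mem (fun _ => M) h0 (fun _ => ha) (fun _ => hb) w) _

lemma evC_mem₁ {a b : L} {β : List Bool →₀ ℤ} (hβ : β [] = 0) (M M' : AddSubgroup L)
    (h0 : ⁅a, b⁆ ∈ M) (hle : M' ≤ M)
    (ha : ∀ v ∈ M, ⁅v, a⁆ ∈ M') (hb : ∀ v ∈ M, ⁅v, b⁆ ∈ M') : evC β a b ∈ M' := by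
  refine sum_mem fun w hw => zsmul_mem ?_ _
  have h := evW_mem (fun n => if n = 0 then M else M') (by simpa using h0)
    (fun n v hv => by
      simp only [Nat.add_eq_zero_iff, one_ne_zero, and_false, if_false]
      split_ifs at hv
      exacts [ha v hv, ha v (hle hv)])
    (fun n v hv => by
      simp only [Nat.add_eq_zero_iff, one_ne_zero, and_false, if_false]
      split_ifs at hv
      exacts [hb v hv, hb v (hle hv)]) w
  have : w.length ≠ 0 := fun h => by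
    rw [List.length_eq_zero_iff] at h
    subst h
    exact (Finsupp.mem_support_iff.1 hw) hβ
  simpa [this] using h

lemma map_evW {L' : Type*} [LieRing L'] (f : L →+ L') (hf : ∀ x y, f ⁅x, y⁆ = ⁅f x, f y⁆)
    (w : List Bool) (a b : L) : f (evW w a b) = evW w (f a) (f b) := by
  induction w using List.reverseRecOn with
  | nil => exact hf a b
  | append_singleton w t ih => rw [evW_concat, evW_concat, hf, ih]; cases t <;> rfl

lemma map_evC {L' : Type*} [LieRing L'] (f : L →+ L') (hf : ∀ x y, f ⁅x, y⁆ = ⁅f x, f y⁆)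
    (β : List Bool →₀ ℤ) (a b : L) : f (evC β a b) = evC β (f a) (f b) := by
  simp [evC, Finsupp.sum, map_sum, map_evW f hf]

end ev

/-- A bijection `ℓ` from a group onto a nilpotent Lie ring under which products and commutators
are given by fixed Lie polynomials. -/
structure Laz (G L : Type*) [Group G] [LieRing L] where
  ℓ : G ≃ L
  βm : List Bool →₀ ℤ
  βc : List Bool →₀ ℤ
  βc_nil : βc [] = 0
  c : ℕ
  Φ : ℕ → AddSubgroup L
  Φ_zero : Φ 0 = ⊤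
  Φ_top : Φ c = ⊥
  Φ_anti : Antitone Φ
  Φ_lie : ∀ k, ∀ a ∈ Φ k, ∀ b, ⁅a, b⁆ ∈ Φ (k + 1)
  zpow : ∀ g (n : ℤ), ℓ (g ^ n) = n • ℓ g
  mul : ∀ g h, ℓ (g * h) = ℓ g + ℓ h + evC βm (ℓ g) (ℓ h)
  comm : ∀ g h, ℓ ⁅g, h⁆ = ⁅ℓ g, ℓ h⁆ + evC βc (ℓ g) (ℓ h)

namespace Laz

variable {G L : Type*} [Group G] [LieRing L] (Z : Laz G L)

lemma one : Z.ℓ 1 = 0 := by simpa using Z.zpow 1 0

lemma inv (g : G) : Z.ℓ g⁻¹ = -Z.ℓ g := by simpa using Z.zpow g (-1)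

lemma pow (g : G) (n : ℕ) : Z.ℓ (g ^ n) = n • Z.ℓ g := by simpa using Z.zpow g n

lemma eq_one_iff (g : G) : Z.ℓ g = 0 ↔ g = 1 := by rw [← Z.one, Z.ℓ.apply_eq_iff_eq]

lemma Φ_eq_bot {k : ℕ} (hk : Z.c ≤ k) : Z.Φ k = ⊥ := eq_bot_iff.2 (Z.Φ_top ▸ Z.Φ_anti hk)

lemma Φ_lie' (k : ℕ) (a : L) (ha : a ∈ Z.Φ k) (b : L) : ⁅b, a⁆ ∈ Z.Φ (k + 1) := by
  rw [← lie_skew]; exact neg_mem (Z.Φ_lie k a ha b)

lemma sup_lie (I : AddSubgroup L) {a : L} (ha : ∀ v ∈ I, ⁅v, a⁆ ∈ I) (n : ℕ) :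
    ∀ v ∈ I ⊔ Z.Φ n, ⁅v, a⁆ ∈ I ⊔ Z.Φ (n + 1) := by
  intro v hv
  obtain ⟨x, hx, y, hy, rfl⟩ := AddSubgroup.mem_sup.1 hv
  rw [add_lie]
  exact AddSubgroup.add_mem_sup (ha x hx) (Z.Φ_lie n y hy a)

lemma lie_mem_of_comm (I : AddSubgroup L) {g h : G} (ha : ∀ v ∈ I, ⁅v, Z.ℓ g⁆ ∈ I)
    (hb : ∀ v ∈ I, ⁅v, Z.ℓ h⁆ ∈ I) (hc : Z.ℓ ⁅g, h⁆ ∈ I) : ⁅Z.ℓ g, Z.ℓ h⁆ ∈ I := by
  have key : ∀ n, ⁅Z.ℓ g, Z.ℓ h⁆ ∈ I ⊔ Z.Φ n := by
    intro n
    induction n with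
    | zero => rw [Z.Φ_zero]; simp
    | succ n ih =>
      have h1 := evC_mem₁ Z.βc_nil (I ⊔ Z.Φ n) (I ⊔ Z.Φ (n + 1)) ih
        (sup_le_sup_left (Z.Φ_anti (Nat.le_succ n)) I) (Z.sup_lie I ha n) (Z.sup_lie I hb n)
      have h2 : Z.ℓ ⁅g, h⁆ ∈ I ⊔ Z.Φ (n + 1) := AddSubgroup.mem_sup_left hc
      rw [Z.comm] at h2
      simpa using sub_mem h2 h1
  simpa [Z.Φ_top] using key Z.c

lemma comm_mem_iff (I : AddSubgroup L) {g h : G} (ha : ∀ v ∈ I, ⁅v, Z.ℓ g⁆ ∈ I)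
    (hb : ∀ v ∈ I, ⁅v, Z.ℓ h⁆ ∈ I) : Z.ℓ ⁅g, h⁆ ∈ I ↔ ⁅Z.ℓ g, Z.ℓ h⁆ ∈ I :=
  ⟨Z.lie_mem_of_comm I ha hb, fun h0 => by
    rw [Z.comm]; exact add_mem h0 (evC_mem _ I h0 ha hb)⟩

lemma commute_iff (g h : G) : Commute g h ↔ ⁅Z.ℓ g, Z.ℓ h⁆ = 0 := by
  rw [← commutatorElement_eq_one_iff_commute, ← Z.eq_one_iff, ← AddSubgroup.mem_bot,
    Z.comm_mem_iff ⊥ (by simp) (by simp), AddSubgroup.mem_bot]

lemma div_mem_iff (I : AddSubgroup L) {g h : G} (ha : ∀ v ∈ I, ⁅v, Z.ℓ g⁆ ∈ I)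
    (hb : ∀ v ∈ I, ⁅v, Z.ℓ h⁆ ∈ I) : Z.ℓ (h⁻¹ * g) ∈ I ↔ Z.ℓ g - Z.ℓ h ∈ I := by
  constructor
  · intro hr
    have e : g = h * (h⁻¹ * g) := by group
    have hI : ∀ v ∈ I, ⁅v, Z.ℓ (h⁻¹ * g)⁆ ∈ I := by
      intro v hv
      rw [Z.mul, Z.inv, lie_add, lie_add, lie_neg]
      refine add_mem (add_mem (neg_mem (hb v hv)) (ha v hv)) ?_
      let M : AddSubgroup L :=
        { carrier := {x | ∀ v ∈ I, ⁅v, x⁆ ∈ I}
          add_mem' := fun hx hy v hv => by rw [lie_add]; exact add_mem (hx v hv) (hy v hv)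
          zero_mem' := fun v _ => by simp
          neg_mem' := fun hx v hv => by rw [lie_neg]; exact neg_mem (hx v hv) }
      have hM : ∀ x ∈ M, ∀ y ∈ M, ⁅x, y⁆ ∈ M := fun x hx y hy v hv => by
        rw [leibniz_lie, ← lie_skew x]
        exact add_mem (hy _ (hx v hv)) (neg_mem (hx _ (hy v hv)))
      have h1 : -Z.ℓ h ∈ M := neg_mem (show Z.ℓ h ∈ M from hb)
      have h2 : Z.ℓ g ∈ M := ha
      exact evC_mem _ M (hM _ h1 _ h2) (fun x hx => hM _ hx _ h1) (fun x hx => hM _ hx _ h2) v hv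
    have h0 : ⁅Z.ℓ h, Z.ℓ (h⁻¹ * g)⁆ ∈ I := by rw [← lie_skew]; exact neg_mem (hb _ hr)
    have := evC_mem Z.βm I h0 hb hI
    have e2 := Z.mul h (h⁻¹ * g)
    rw [← e] at e2
    rw [e2, show ∀ x y z : L, x + y + z - x = y + z by intros; abel]
    exact add_mem hr this
  · intro hr
    have h0 : ⁅-Z.ℓ h, Z.ℓ g⁆ ∈ I := by
      have := ha _ hr
      rwa [sub_lie, lie_self, zero_sub, ← neg_lie] at this
    rw [Z.mul, Z.inv, neg_add_eq_sub]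
    exact add_mem hr (evC_mem _ I h0 (fun v hv => by rw [lie_neg]; exact neg_mem (hb v hv)) ha)

/-- main closure statement: logarithms of a subgroup `H` normalised by `K ≥ H`. -/
theorem log_closed {H K : Subgroup G} (hHK : H ≤ K) (hn : ∀ h ∈ H, ∀ k ∈ K, ⁅h, k⁆ ∈ H) :
    (∀ g ∈ H, ∀ g' ∈ H, Z.ℓ.symm (Z.ℓ g + Z.ℓ g') ∈ H) ∧
    (∀ g ∈ H, ∀ k ∈ K, Z.ℓ.symm ⁅Z.ℓ g, Z.ℓ k⁆ ∈ H) := by
  have hz : Z.ℓ.symm 0 ∈ H := by rw [← Z.one, Equiv.symm_apply_apply]; exact one_mem _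
  have hneg : ∀ a, Z.ℓ.symm a ∈ H → Z.ℓ.symm (-a) ∈ H := fun a ha => by
    have := Z.inv (Z.ℓ.symm a)
    rw [Equiv.apply_symm_apply] at this
    rw [← this, Equiv.symm_apply_apply]; exact inv_mem ha
  have key : ∀ d k, Z.c ≤ k + d →
      (∀ a ∈ Z.Φ k, Z.ℓ.symm a ∈ H → ∀ b ∈ Z.Φ k, Z.ℓ.symm b ∈ H → Z.ℓ.symm (a + b) ∈ H) ∧
      (∀ a ∈ Z.Φ k, Z.ℓ.symm a ∈ H → ∀ b, Z.ℓ.symm b ∈ K → Z.ℓ.symm ⁅a, b⁆ ∈ H) := by
    intro d
    induction d with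
    | zero =>
      intro k hk
      rw [Z.Φ_eq_bot (k := k) hk]
      simp only [AddSubgroup.mem_bot]
      constructor
      · rintro a rfl - b rfl -; simpa using hz
      · rintro a rfl - b -; simpa using hz
    | succ d ih =>
      intro k hk
      obtain ⟨ih1, ih2⟩ := ih (k + 1) (by omega)
      let I : AddSubgroup L :=
        { carrier := {a | a ∈ Z.Φ (k + 1) ∧ Z.ℓ.symm a ∈ H}
          add_mem' := fun ha hb => ⟨add_mem ha.1 hb.1, ih1 _ ha.1 ha.2 _ hb.1 hb.2⟩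
          zero_mem' := ⟨zero_mem _, hz⟩
          neg_mem' := fun ha => ⟨neg_mem ha.1, hneg _ ha.2⟩ }
      have hI : ∀ b, Z.ℓ.symm b ∈ K → ∀ v ∈ I, ⁅v, b⁆ ∈ I := fun b hb v hv =>
        ⟨Z.Φ_anti (by omega) (Z.Φ_lie _ _ hv.1 b), ih2 _ hv.1 hv.2 b hb⟩
      have hΦ : ∀ j (b : L), ∀ v ∈ Z.Φ j, ⁅v, b⁆ ∈ Z.Φ j := fun j b v hv =>
        Z.Φ_anti (Nat.le_succ j) (Z.Φ_lie _ _ hv b)
      have p2 : ∀ a ∈ Z.Φ k, Z.ℓ.symm a ∈ H → ∀ b, Z.ℓ.symm b ∈ K → ⁅a, b⁆ ∈ I := by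
        intro a ha haH b hb
        obtain ⟨g, rfl⟩ := Z.ℓ.surjective a
        obtain ⟨h, rfl⟩ := Z.ℓ.surjective b
        refine Z.lie_mem_of_comm I (hI _ (hHK haH)) (hI _ hb) ⟨?_, ?_⟩
        · exact (Z.comm_mem_iff _ (hΦ _ _) (hΦ _ _)).2 (Z.Φ_lie _ _ ha _)
        · simp only [Equiv.symm_apply_apply] at haH hb ⊢
          exact hn _ haH _ hb
      have hmul : ∀ a b, Z.ℓ.symm a ∈ H → Z.ℓ.symm b ∈ H →
          Z.ℓ.symm (a + b + evC Z.βm a b) ∈ H := by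
        intro a b ha hb
        have := Z.mul (Z.ℓ.symm a) (Z.ℓ.symm b)
        simp only [Equiv.apply_symm_apply] at this
        rw [← this, Equiv.symm_apply_apply]; exact mul_mem ha hb
      have q : ∀ e j, k + 1 ≤ j → Z.c ≤ j + e → ∀ s ∈ Z.Φ k, Z.ℓ.symm s ∈ H →
          ∀ r ∈ Z.Φ j, Z.ℓ.symm r ∈ H → Z.ℓ.symm (s + r) ∈ H := by
        intro e
        induction e with
        | zero =>
          intro j _ hj s _ hs r hr _
          rw [Z.Φ_eq_bot (k := j) hj, AddSubgroup.mem_bot] at hr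
          simpa [hr] using hs
        | succ e ihe =>
          intro j hkj hj s hs hsH r hr hrH
          have r1 : evC Z.βm s r ∈ I :=
            evC_mem _ I (p2 s hs hsH r (hHK hrH)) (hI _ (hHK hsH)) (hI _ (hHK hrH))
          have r2 : evC Z.βm s r ∈ Z.Φ (j + 1) :=
            evC_mem _ _ (Z.Φ_lie' _ _ hr s) (hΦ _ _) (hΦ _ _)
          have := ihe (j + 1) (by omega) (by omega) _
            (add_mem (add_mem hs (Z.Φ_anti (by omega) hr)) (Z.Φ_anti (by omega) r2))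
            (hmul s r hsH hrH) _ (neg_mem r2) (hneg _ r1.2)
          simpa using this
      refine ⟨fun a ha haH b hb hbH => ?_, fun a ha haH b hb => (p2 a ha haH b hb).2⟩
      have r1 : evC Z.βm a b ∈ I :=
        evC_mem _ I (p2 a ha haH b (hHK hbH)) (hI _ (hHK haH)) (hI _ (hHK hbH))
      have := q Z.c (k + 1) le_rfl (by omega) _
        (add_mem (add_mem ha hb) (Z.Φ_anti (by omega) r1.1)) (hmul a b haH hbH) _
        (neg_mem r1.1) (hneg _ r1.2)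
      simpa using this
  obtain ⟨k1, k2⟩ := key Z.c 0 (by omega)
  rw [Z.Φ_zero] at k1 k2
  exact ⟨fun g hg g' hg' => k1 _ trivial (by simpa) _ trivial (by simpa),
    fun g hg k hk => k2 _ trivial (by simpa) _ (by simpa)⟩

/-- the additive subgroup of logarithms of a subgroup -/
def log (H : Subgroup G) : AddSubgroup L where
  carrier := {a | Z.ℓ.symm a ∈ H}
  add_mem' := fun {a b} ha hb => by
    simpa using (Z.log_closed le_rfl (fun h hh k hk =>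
      mul_mem (mul_mem (mul_mem hh hk) (inv_mem hh)) (inv_mem hk))).1 _ ha _ hb
  zero_mem' := by
    show Z.ℓ.symm 0 ∈ H
    rw [← Z.one, Equiv.symm_apply_apply]; exact one_mem _
  neg_mem' := fun {a} ha => by
    have := Z.inv (Z.ℓ.symm a)
    rw [Equiv.apply_symm_apply] at this
    show Z.ℓ.symm (-a) ∈ H
    rw [← this, Equiv.symm_apply_apply]; exact inv_mem ha

lemma mem_log {H : Subgroup G} {a : L} : a ∈ Z.log H ↔ Z.ℓ.symm a ∈ H := Iff.rfl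

@[simp] lemma ℓ_mem_log {H : Subgroup G} {g : G} : Z.ℓ g ∈ Z.log H ↔ g ∈ H := by simp [mem_log]

lemma log_mono {H K : Subgroup G} (h : H ≤ K) : Z.log H ≤ Z.log K := fun _ ha => h ha

lemma log_lie {H K : Subgroup G} (hHK : H ≤ K) (hn : ∀ h ∈ H, ∀ k ∈ K, ⁅h, k⁆ ∈ H) {a b : L}
    (ha : a ∈ Z.log H) (hb : b ∈ Z.log K) : ⁅a, b⁆ ∈ Z.log H := by
  simpa [mem_log] using (Z.log_closed hHK hn).2 _ ha _ hb

lemma log_lie_self {H : Subgroup G} {a b : L} (ha : a ∈ Z.log H) (hb : b ∈ Z.log H) :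
    ⁅a, b⁆ ∈ Z.log H :=
  Z.log_lie le_rfl (fun _ hh _ hk =>
    mul_mem (mul_mem (mul_mem hh hk) (inv_mem hh)) (inv_mem hk)) ha hb

lemma log_lie_normal {H : Subgroup G} [hH : H.Normal] {a : L} (ha : a ∈ Z.log H) (b : L) :
    ⁅a, b⁆ ∈ Z.log H :=
  Z.log_lie (K := ⊤) le_top (fun h hh k _ => by
    rw [commutatorElement_def, mul_assoc, mul_assoc, ← mul_assoc k]
    exact mul_mem hh (hH.conj_mem _ (inv_mem hh) k)) ha trivial

lemma log_comm {H K N : Subgroup G} [N.Normal] (h : ⁅H, K⁆ ≤ N) {a b : L} (ha : a ∈ Z.log H)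
    (hb : b ∈ Z.log K) : ⁅a, b⁆ ∈ Z.log N := by
  obtain ⟨g, rfl⟩ := Z.ℓ.surjective a
  obtain ⟨k, rfl⟩ := Z.ℓ.surjective b
  rw [ℓ_mem_log] at ha hb
  exact Z.lie_mem_of_comm _ (fun v hv => Z.log_lie_normal hv _) (fun v hv => Z.log_lie_normal hv _)
    (by rw [ℓ_mem_log]; exact h (Subgroup.commutator_mem_commutator ha hb))

/-- the subgroup of exponentials of a Lie subring -/
def exp (I : AddSubgroup L) (hI : ∀ a ∈ I, ∀ b ∈ I, ⁅a, b⁆ ∈ I) : Subgroup G where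
  carrier := {g | Z.ℓ g ∈ I}
  mul_mem' := fun {g h} hg hh => by
    show Z.ℓ (g * h) ∈ I
    rw [Z.mul]
    exact add_mem (add_mem hg hh)
      (evC_mem _ I (hI _ hg _ hh) (fun v hv => hI _ hv _ hg) (fun v hv => hI _ hv _ hh))
  one_mem' := by show Z.ℓ 1 ∈ I; rw [Z.one]; exact zero_mem _
  inv_mem' := fun {g} hg => by show Z.ℓ g⁻¹ ∈ I; rw [Z.inv]; exact neg_mem hg

lemma mem_exp {I : AddSubgroup L} {hI} {g : G} : g ∈ Z.exp I hI ↔ Z.ℓ g ∈ I := Iff.rfl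

lemma exp_normal (I : AddSubgroup L) (hI : ∀ a ∈ I, ∀ b, ⁅a, b⁆ ∈ I) :
    (Z.exp I fun a ha b _ => hI a ha b).Normal := by
  refine ⟨fun g hg h => ?_⟩
  have e : h * g * h⁻¹ = ⁅h, g⁆ * g := by simp [commutatorElement_def]
  rw [e]
  refine mul_mem ?_ hg
  rw [mem_exp, Z.comm_mem_iff I (fun v hv => hI v hv _) (fun v hv => hI v hv _), ← lie_skew]
  exact neg_mem (hI _ hg _)

def prod : Laz (G × G) (L × L) where
  ℓ := Z.ℓ.prodCongr Z.ℓ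
  βm := Z.βm
  βc := Z.βc
  βc_nil := Z.βc_nil
  c := Z.c
  Φ k := (Z.Φ k).prod (Z.Φ k)
  Φ_zero := by rw [Z.Φ_zero]; simp
  Φ_top := by rw [Z.Φ_top]; simp
  Φ_anti _ _ h := AddSubgroup.prod_mono (Z.Φ_anti h) (Z.Φ_anti h)
  Φ_lie k a ha b := ⟨Z.Φ_lie k _ ha.1 _, Z.Φ_lie k _ ha.2 _⟩
  zpow g n := Prod.ext (Z.zpow g.1 n) (Z.zpow g.2 n)
  mul g h := Prod.ext
    (by
      have := map_evC (AddMonoidHom.fst L L) (fun _ _ => rfl) Z.βm
        (Z.ℓ.prodCongr Z.ℓ g) (Z.ℓ.prodCongr Z.ℓ h)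
      simp only [AddMonoidHom.coe_fst] at this
      rw [Prod.fst_add, this]
      exact Z.mul g.1 h.1)
    (by
      have := map_evC (AddMonoidHom.snd L L) (fun _ _ => rfl) Z.βm
        (Z.ℓ.prodCongr Z.ℓ g) (Z.ℓ.prodCongr Z.ℓ h)
      simp only [AddMonoidHom.coe_snd] at this
      rw [Prod.snd_add, this]
      exact Z.mul g.2 h.2)
  comm g h := Prod.ext
    (by
      have := map_evC (AddMonoidHom.fst L L) (fun _ _ => rfl) Z.βc
        (Z.ℓ.prodCongr Z.ℓ g) (Z.ℓ.prodCongr Z.ℓ h)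
      simp only [AddMonoidHom.coe_fst] at this
      rw [Prod.fst_add, this]
      exact Z.comm g.1 h.1)
    (by
      have := map_evC (AddMonoidHom.snd L L) (fun _ _ => rfl) Z.βc
        (Z.ℓ.prodCongr Z.ℓ g) (Z.ℓ.prodCongr Z.ℓ h)
      simp only [AddMonoidHom.coe_snd] at this
      rw [Prod.snd_add, this]
      exact Z.comm g.2 h.2)

lemma mem_log_graph (α : G →* G) (x : L × L) :
    x ∈ Z.prod.log α.graph ↔ Z.ℓ (α (Z.ℓ.symm x.1)) = x.2 := by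
  rw [mem_log, MonoidHom.mem_graph, ← Equiv.eq_symm_apply]; rfl

/-- an endomorphism of the group acts additively on logarithms -/
def hom (α : G →* G) : L →+ L where
  toFun a := Z.ℓ (α (Z.ℓ.symm a))
  map_zero' := (Z.mem_log_graph α 0).1 (zero_mem _)
  map_add' a b := (Z.mem_log_graph α ((a, _) + (b, _))).1
    (add_mem ((Z.mem_log_graph α (a, _)).2 rfl) ((Z.mem_log_graph α (b, _)).2 rfl))

lemma hom_ℓ (α : G →* G) (g : G) : Z.hom α (Z.ℓ g) = Z.ℓ (α g) := by simp [hom]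

lemma hom_lie (α : G →* G) (a b : L) : Z.hom α ⁅a, b⁆ = ⁅Z.hom α a, Z.hom α b⁆ :=
  (Z.mem_log_graph α ⁅(a, Z.hom α a), (b, Z.hom α b)⁆).1
    (Z.prod.log_lie_self ((Z.mem_log_graph α (a, _)).2 rfl) ((Z.mem_log_graph α (b, _)).2 rfl))

end Laz

end Pool.Agent.P78
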