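import Pool.Agent.Lib.MP_78c6b1_al.Neg.NS

/-! The Dynkin-Specht-Wever argument for the lower central series of a group. -/

set_option autoImplicit false

namespace Pool.Agent.P78

open scoped commutatorElement IsMulCommutative

variable {Γ : Type*} [Group Γ] {ι : Type*}

lemma exists_lev (S : NSer Γ) (w : ℕ) :
    ∃ φ : Γ → Additive (Subgroup.center (Γ ⧸ S.F (w + 1))), IsLev S w φ ∧
      ∀ a ∈ S.F w, φ a = 0 → a ∈ S.F (w + 1) := by
  classical
  have hc : ∀ a ∈ S.F w, (a : Γ ⧸ S.F (w + 1)) ∈ Subgroup.center (Γ ⧸ S.F (w + 1)) := by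
    intro a ha
    rw [Subgroup.mem_center_iff]
    intro g
    obtain ⟨g, rfl⟩ := QuotientGroup.mk_surjective g
    rw [← QuotientGroup.mk_mul, ← QuotientGroup.mk_mul, QuotientGroup.eq]
    have := NSer.comm_mem (inv_mem ha) (S.mem_one g⁻¹)
    simpa [commutatorElement_def, mul_assoc] using this
  refine ⟨fun a => if h : (a : Γ ⧸ S.F (w + 1)) ∈ Subgroup.center (Γ ⧸ S.F (w + 1)) then
    Additive.ofMul ⟨a, h⟩ else 0, ⟨fun a ha b hb => ?_, fun a ha => ?_⟩, fun a ha h => ?_⟩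
  · simp only [dif_pos (hc a ha), dif_pos (hc b hb), dif_pos (hc _ (mul_mem ha hb))]
    rfl
  · simp only [dif_pos (hc a (S.anti (Nat.le_succ w) ha))]
    rw [ofMul_eq_zero]
    exact Subtype.ext ((QuotientGroup.eq_one_iff a).2 ha)
  · simp only [dif_pos (hc a ha)] at h
    rw [ofMul_eq_zero] at h
    exact (QuotientGroup.eq_one_iff a).1 (congrArg Subtype.val h)

def cfold (γ : ι → Γ) (s : List ι) (a : Γ) : Γ := s.foldl (fun v h => ⁅v, γ h⁆) a

lemma cfold_cons (γ : ι → Γ) (h : ι) (s : List ι) (a : Γ) :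
    cfold γ (h :: s) a = cfold γ s ⁅a, γ h⁆ := rfl

lemma cfold_append (γ : ι → Γ) (s t : List ι) (a : Γ) :
    cfold γ (s ++ t) a = cfold γ t (cfold γ s a) := by simp [cfold]

lemma cfold_mem (S : NSer Γ) (γ : ι → Γ) (s : List ι) {m : ℕ} {a : Γ} (ha : a ∈ S.F m) :
    cfold γ s a ∈ S.F (m + s.length) := by
  induction s generalizing m a with
  | nil => exact ha
  | cons h s ih =>
    rw [cfold_cons]
    exact NSer.mono (ih (NSer.comm_mem ha (S.mem_one _))) (by simp; omega)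

lemma IsLev.cfold {A : Type*} [AddCommGroup A] {S : NSer Γ} {N : ℕ} {φ : Γ → A}
    (h : IsLev S N φ) (γ : ι → Γ) (s : List ι) {m : ℕ} (hm : m + s.length = N) :
    IsLev S m (fun a => φ (cfold γ s a)) := by
  induction s generalizing m with
  | nil => obtain rfl : m = N := hm; exact h
  | cons g s ih => exact (ih (m := m + 1) (by simp at hm; omega)).commL rfl (S.mem_one (γ g))

lemma lev_one_ext {A : Type*} [AddCommGroup A] {S : NSer Γ} {γ : ι → Γ}
    (hγ : Subgroup.closure (Set.range γ) = ⊤) {ψ : Γ → A} (h : IsLev S 1 ψ)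
    (h0 : ∀ g, ψ (γ g) = 0) (w : Γ) : ψ w = 0 :=
  h.eq_zero_of_closure (s := Set.range γ) (by rintro _ ⟨g, rfl⟩; exact ⟨S.mem_one _, h0 g⟩)
    (by rw [hγ]; trivial)

lemma lev_succ_ext {A : Type*} [AddCommGroup A] {γ : ι → Γ}
    (hγ : Subgroup.closure (Set.range γ) = ⊤) {n : ℕ} (hn : 1 ≤ n) {ψ : Γ → A}
    (h : IsLev (lcsN Γ) (n + 1) ψ) (h0 : ∀ w ∈ (lcsN Γ).F n, ∀ g, ψ ⁅w, γ g⁆ = 0) :
    ∀ w ∈ (lcsN Γ).F (n + 1), ψ w = 0 := by
  intro w hw
  rw [lcsN_succ n hn, Subgroup.commutator_def] at hw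
  refine h.eq_zero_of_closure ?_ hw
  rintro _ ⟨a, ha, b, -, rfl⟩
  exact ⟨NSer.comm_mem ha ((lcsN Γ).mem_one b),
    lev_one_ext hγ (h.commR (j := 1) (k := n) (by omega) ha) (h0 a ha) b⟩

noncomputable def wd (R : Type*) [CommRing R] (l : List ι) : MonoidAlgebra R (FreeMonoid ι) :=
  MonoidAlgebra.single (FreeMonoid.ofList l) 1

lemma wd_append (R : Type*) [CommRing R] (l l' : List ι) :
    wd R (l ++ l') = wd R l * wd R l' := by
  simp [wd, MonoidAlgebra.single_mul_single]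

lemma wd_nil (R : Type*) [CommRing R] : wd R ([] : List ι) = 1 := rfl

theorem dsw {R : Type*} [CommRing R] (γ : ι → Γ) (hγ : Subgroup.closure (Set.range γ) = ⊤)
    (k : ℕ → Γ → MonoidAlgebra R (FreeMonoid ι)) (N : ℕ)
    (hk : ∀ n, 1 ≤ n → n ≤ N → IsLev (lcsN Γ) n (k n)) (h1 : ∀ g, k 1 (γ g) = wd R [g])
    (hc : ∀ n, 1 ≤ n → n + 1 ≤ N → ∀ w ∈ (lcsN Γ).F n, ∀ g,
      k (n + 1) ⁅w, γ g⁆ = k n w * wd R [g] - wd R [g] * k n w)
    {M : Type*} [AddCommGroup M] [Module R M] {φ : Γ → M} (hφ : IsLev (lcsN Γ) N φ) (hN : 1 ≤ N)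
    {w : Γ} (hw : w ∈ (lcsN Γ).F N) (h0 : k N w = 0) : (N : R) • φ w = 0 := by
  let val : List ι → M := fun l => match l with
    | [] => 0
    | g :: s => φ (cfold γ s (γ g))
  let θ : MonoidAlgebra R (FreeMonoid ι) →ₗ[R] M :=
    (MonoidAlgebra.basis (FreeMonoid ι) R).constr R fun x => val x.toList
  have hθ : ∀ l, θ (wd R l) = val l := fun l => by
    have := (MonoidAlgebra.basis (FreeMonoid ι) R).constr_basis R (fun x => val x.toList)
      (FreeMonoid.ofList l)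
    rw [MonoidAlgebra.basis_apply] at this
    exact this
  have lin : ∀ n, 1 ≤ n → n ≤ N → ∀ x y, IsLev (lcsN Γ) n (fun w => θ (x * k n w * y)) :=
    fun n h1 h2 x y => ⟨fun a ha b hb => by rw [(hk n h1 h2).add a ha b hb]; simp [mul_add, add_mul],
      fun a ha => by rw [(hk n h1 h2).zero a ha]; simp⟩
  have hU : ∀ g u, cfold γ u (γ g) ∈ (lcsN Γ).F (1 + u.length) :=
    fun g u => cfold_mem _ γ u ((lcsN Γ).mem_one _)
  have hS : ∀ n, ∀ w ∈ (lcsN Γ).F (n + 1), ∀ g u s, 1 + u.length + (n + 1) + s.length = N →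
      θ (wd R (g :: u) * k (n + 1) w * wd R s) = φ (cfold γ s ⁅cfold γ u (γ g), w⁆) := by
    intro n
    induction n with
    | zero =>
      intro w _ g u s hl
      rw [← sub_eq_zero]
      refine lev_one_ext hγ ((lin 1 le_rfl hN _ _).sub_fun
        ((hφ.cfold γ s (m := 1 + u.length + 1) hl).commR (j := 1) (by omega) (hU g u))) ?_ w
      intro h
      rw [h1, ← wd_append, ← wd_append, hθ, sub_eq_zero]
      simp only [val, List.cons_append, cfold_append]
      rfl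
    | succ n ih =>
      intro w hw g u s hl
      rw [← sub_eq_zero]
      have hl' := hφ.cfold γ s (m := 1 + u.length + (n + 1 + 1)) hl
      refine lev_succ_ext hγ (by omega) ((lin _ (by omega) (by omega) _ _).sub_fun
        (hl'.commR (j := n + 1 + 1) (by omega) (hU g u))) ?_ w hw
      intro w hw h
      rw [hc _ (by omega) (by omega) w hw, sub_eq_zero, mul_sub, sub_mul, map_sub,
        hl'.leibniz (by omega) (hU g u) hw ((lcsN Γ).mem_one (γ h))]
      congr 1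
      · rw [← mul_assoc, mul_assoc _ _ (wd R s), ← wd_append,
          ih w hw g u _ (by simp; omega)]
        rfl
      · rw [← mul_assoc, ← wd_append, List.cons_append, ih w hw g _ s (by simp; omega),
          cfold_append]
        rfl
  have hT : ∀ n, ∀ w ∈ (lcsN Γ).F (n + 1), ∀ s, (n + 1) + s.length = N →
      θ (1 * k (n + 1) w * wd R s) = ((n + 1 : ℕ) : R) • φ (cfold γ s w) := by
    have sm : ∀ (r : R) m (ψ : Γ → M), IsLev (lcsN Γ) m ψ → IsLev (lcsN Γ) m (fun a => r • ψ a) :=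
      fun r m ψ h => h.map (DistribSMul.toAddMonoidHom M r)
    intro n
    induction n with
    | zero =>
      intro w _ s hl
      rw [← sub_eq_zero]
      refine lev_one_ext hγ ((lin 1 le_rfl hN _ _).sub_fun (sm _ _ _ (hφ.cfold γ s hl))) ?_ w
      intro h
      rw [h1, one_mul, ← wd_append, hθ, sub_eq_zero]
      simp [val]
    | succ n ih =>
      intro w hw s hl
      rw [← sub_eq_zero]
      have hl' := hφ.cfold γ s hl
      refine lev_succ_ext hγ (by omega) ((lin _ (by omega) (by omega) _ _).sub_fun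
        (sm _ _ _ hl')) ?_ w hw
      intro w hw h
      rw [hc _ (by omega) (by omega) w hw, sub_eq_zero, mul_sub, sub_mul, map_sub,
        ← mul_assoc, mul_assoc _ _ (wd R s), ← wd_append, ih w hw _ (by simp; omega),
        one_mul, hS n w hw h [] s (by simp; omega)]
      have := hl'.antisymm (j := n + 1) (k := 1) rfl hw ((lcsN Γ).mem_one (γ h))
      rw [show cfold γ [] (γ h) = γ h from rfl, this, List.singleton_append, cfold_cons]
      push_cast
      rw [sub_neg_eq_add, add_smul ((n : R) + 1) (1 : R), one_smul]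
  obtain ⟨n, rfl⟩ := Nat.exists_eq_add_of_le' hN
  have := hT n w hw [] rfl
  rw [h0] at this
  simpa [cfold] using this.symm

theorem dsw_step {m : ℕ} (hexp : ∀ w : Γ, w ^ m = 1) (γ : ι → Γ)
    (hγ : Subgroup.closure (Set.range γ) = ⊤)
    (k : ℕ → Γ → MonoidAlgebra (ZMod m) (FreeMonoid ι)) (N : ℕ)
    (hk : ∀ n, 1 ≤ n → n ≤ N → IsLev (lcsN Γ) n (k n)) (h1 : ∀ g, k 1 (γ g) = wd (ZMod m) [g])
    (hc : ∀ n, 1 ≤ n → n + 1 ≤ N → ∀ w ∈ (lcsN Γ).F n, ∀ g,
      k (n + 1) ⁅w, γ g⁆ = k n w * wd (ZMod m) [g] - wd (ZMod m) [g] * k n w)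
    (hN : 1 ≤ N) (hu : IsUnit (N : ZMod m))
    {w : Γ} (hw : w ∈ (lcsN Γ).F N) (h0 : k N w = 0) : w ∈ (lcsN Γ).F (N + 1) := by
  obtain ⟨φ, hφ, hφ0⟩ := exists_lev (lcsN Γ) N
  let _ : Module (ZMod m) (Additive (Subgroup.center (Γ ⧸ (lcsN Γ).F (N + 1)))) :=
    AddCommGroup.zmodModule fun a => by
      apply Additive.toMul.injective
      refine Subtype.ext ?_
      obtain ⟨v, hv⟩ := QuotientGroup.mk_surjective (a.toMul : Γ ⧸ (lcsN Γ).F (N + 1))
      simp only [toMul_nsmul, SubmonoidClass.coe_pow, toMul_zero, OneMemClass.coe_one]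
      rw [← hv, ← QuotientGroup.mk_pow, hexp, QuotientGroup.mk_one]
  have key := dsw γ hγ k N hk h1 hc hφ hN hw h0
  refine hφ0 w hw ?_
  obtain ⟨v, hv⟩ := hu
  rw [← hv] at key
  simpa using congrArg (fun t => (↑v⁻¹ : ZMod m) • t) key

end Pool.Agent.P78
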