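import Pool.Agent.Lib.MP_78c6b1_al.Neg.LazB
import Pool.Agent.Lib.MP_78c6b1_al.Neg.DSW

/-! Existence of the Lazard correspondence for finite `p`-groups of class less than `p`. -/

set_option autoImplicit false

namespace Pool.Agent.P78

open Finset Polynomial WF
open scoped commutatorElement IsMulCommutative

namespace Laz

variable {G G' L : Type*} [Group G] [Group G'] [LieRing L] (Z : Laz G L)

def ideal (N : Subgroup G) [N.Normal] : LieIdeal ℤ L where
  toSubmodule := (Z.log N).toIntSubmodule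
  lie_mem := fun {x m} hm => by
    show ⁅x, m⁆ ∈ Z.log N
    rw [← lie_skew]; exact neg_mem (Z.log_lie_normal hm x)

def mkQ (N : Subgroup G) [N.Normal] : L →+ L ⧸ Z.ideal N :=
  (Submodule.mkQ (Z.ideal N).toSubmodule).toAddMonoidHom

lemma mkQ_lie (N : Subgroup G) [N.Normal] (x y : L) :
    Z.mkQ N ⁅x, y⁆ = ⁅Z.mkQ N x, Z.mkQ N y⁆ := rfl

lemma mkQ_surjective (N : Subgroup G) [N.Normal] : Function.Surjective (Z.mkQ N) :=
  Submodule.mkQ_surjective _

lemma mkQ_eq (N : Subgroup G) [N.Normal] (g h : G) :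
    Z.mkQ N (Z.ℓ g) = Z.mkQ N (Z.ℓ h) ↔ h⁻¹ * g ∈ N := by
  rw [← Z.ℓ_mem_log, Z.div_mem_iff _ (fun v hv => Z.log_lie_normal hv _)
    (fun v hv => Z.log_lie_normal hv _)]
  exact Submodule.Quotient.eq _

lemma quot_aux (π : G →* G') (hπ : Function.Surjective π) (g : G) :
    Z.mkQ π.ker (Z.ℓ (Function.surjInv hπ (π g))) = Z.mkQ π.ker (Z.ℓ g) := by
  rw [mkQ_eq, MonoidHom.mem_ker, map_mul, map_inv, Function.surjInv_eq hπ, inv_mul_cancel]

noncomputable def quotE (π : G →* G') (hπ : Function.Surjective π) : G' ≃ L ⧸ Z.ideal π.ker :=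
  Equiv.ofBijective (fun x => Z.mkQ π.ker (Z.ℓ (Function.surjInv hπ x))) ⟨fun x y h => by
    simp only [mkQ_eq, MonoidHom.mem_ker, map_mul, map_inv, Function.surjInv_eq hπ] at h
    exact (inv_mul_eq_one.1 h).symm, fun v => by
    obtain ⟨a, rfl⟩ := Z.mkQ_surjective _ v
    obtain ⟨g, rfl⟩ := Z.ℓ.surjective a
    exact ⟨π g, Z.quot_aux π hπ g⟩⟩

lemma quotE_apply (π : G →* G') (hπ : Function.Surjective π) (g : G) :
    Z.quotE π hπ (π g) = Z.mkQ π.ker (Z.ℓ g) := Z.quot_aux π hπ g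

noncomputable def quot (π : G →* G') (hπ : Function.Surjective π) :
    Laz G' (L ⧸ Z.ideal π.ker) where
  ℓ := Z.quotE π hπ
  βm := Z.βm
  βc := Z.βc
  βc_nil := Z.βc_nil
  c := Z.c
  Φ k := (Z.Φ k).map (Z.mkQ π.ker)
  Φ_zero := by rw [Z.Φ_zero]; exact AddSubgroup.map_top_of_surjective _ (Z.mkQ_surjective _)
  Φ_top := by rw [Z.Φ_top, AddSubgroup.map_bot]
  Φ_anti _ _ h := AddSubgroup.map_mono (Z.Φ_anti h)
  Φ_lie k a ha b := by
    obtain ⟨a, ha, rfl⟩ := ha
    obtain ⟨b, rfl⟩ := Z.mkQ_surjective _ b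
    exact ⟨_, Z.Φ_lie k a ha b, rfl⟩
  zpow g n := by
    obtain ⟨g, rfl⟩ := hπ g
    rw [← map_zpow, quotE_apply, quotE_apply, Z.zpow, map_zsmul]
  mul g h := by
    obtain ⟨g, rfl⟩ := hπ g
    obtain ⟨h, rfl⟩ := hπ h
    rw [← map_mul, quotE_apply, quotE_apply, quotE_apply, Z.mul, map_add, map_add,
      map_evC _ (Z.mkQ_lie _)]
  comm g h := by
    obtain ⟨g, rfl⟩ := hπ g
    obtain ⟨h, rfl⟩ := hπ h
    rw [← map_commutatorElement, quotE_apply, quotE_apply, quotE_apply, Z.comm, map_add,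
      map_evC _ (Z.mkQ_lie _), mkQ_lie]

end Laz

attribute [local instance 100] LieRing.ofAssociativeRing

section expgroup

variable {R B : Type*} [CommRing R] [Ring B] [Algebra R B] {W : WF R B} {c : ℕ}

def lamGe (R : Type*) {B : Type*} [CommRing R] [Ring B] [Algebra R B] (S : Set B) (k : ℕ) :
    Submodule R B := ⨆ n : {n // k ≤ n}, lam R S n

lemma lamGe_lie {S : Set B} {i j : ℕ} {a b : B} (ha : a ∈ lamGe R S i) (hb : b ∈ lamGe R S j) :
    ⁅a, b⁆ ∈ lamGe R S (i + j) := by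
  induction ha using Submodule.iSup_induction' with
  | mem m a ha =>
    induction hb using Submodule.iSup_induction' with
    | mem n b hb =>
      exact Submodule.mem_iSup_of_mem ⟨m.1 + n.1, add_le_add m.2 n.2⟩ (lam_lie _ ha hb)
    | zero => simp
    | add x y _ _ hx hy => rw [lie_add]; exact add_mem hx hy
  | zero => simp
  | add x y _ _ hx hy => rw [add_lie]; exact add_mem hx hy

lemma lamGe_anti (S : Set B) : Antitone (lamGe R S) := fun _ _ h =>
  iSup_le fun n => le_iSup_of_le ⟨n.1, h.trans n.2⟩ le_rfl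

lemma lamGe_le {S : Set B} (hS : ∀ s ∈ S, s ∈ W.J 1) (k : ℕ) : lamGe R S k ≤ W.J k :=
  iSup_le fun n => (lam_le hS n).trans (W.anti n.2)

def lieS (R : Type*) {B : Type*} [CommRing R] [Ring B] [Algebra R B] (S : Set B) :
    LieSubalgebra R B where
  toSubmodule := lamGe R S 1
  lie_mem' := fun ha hb => lamGe_anti S (by omega) (lamGe_lie ha hb)

noncomputable def texpU (h : W.Nil c) (a : B) (ha : a ∈ W.J 1) : Bˣ :=
  ⟨texp R c a, texp R c (-a), h.texp_mul_neg ha, h.texp_neg_mul ha⟩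

lemma evC_coe {S : Set B} (β : List Bool →₀ ℤ) (a b : lieS R S) :
    ((evC β a b : lieS R S) : B) = evC β (a : B) (b : B) :=
  map_evC (lieS R S).toSubmodule.subtype.toAddMonoidHom (fun _ _ => rfl) β a b

theorem exists_laz_exp (h : W.Nil c) (hR : ∀ r : R, ∃ n : ℤ, (n : R) = r) {S : Set B}
    (hS : ∀ s ∈ S, s ∈ W.J 1) :
    ∃ (E : Subgroup Bˣ) (Z : Laz E (lieS R S)), Z.c = c ∧
      ∀ u : E, ((u : Bˣ) : B) = texp R c (Z.ℓ u : B) := by
  obtain ⟨βm, βc, h0, hb⟩ := bch h hR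
  have hL : ∀ a : lieS R S, (a : B) ∈ W.J 1 := fun a => lamGe_le hS 1 a.2
  let e : lieS R S → Bˣ := fun a => texpU h a (hL a)
  have he : ∀ a, (e a : B) = texp R c (a : B) := fun _ => rfl
  have e_inj : Function.Injective e := fun a b hab =>
    Subtype.ext (h.texp_inj (hL a) (hL b) (congrArg Units.val hab))
  have e_mul : ∀ a b, e (a + b + evC βm a b) = e a * e b := fun a b => Units.ext (by
    rw [Units.val_mul, he, he, he, ← (hb _ (hL a) _ (hL b)).1, ← evC_coe]; rfl)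
  have e_neg : ∀ a, e (-a) = (e a)⁻¹ := fun a => Units.ext rfl
  have e_comm : ∀ a b, e (⁅a, b⁆ + evC βc a b) = ⁅e a, e b⁆ := fun a b => Units.ext (by
    rw [commutatorElement_def, ← e_neg, ← e_neg]
    simp only [Units.val_mul, he]
    rw [show ((-a : lieS R S) : B) = -(a : B) from rfl, show ((-b : lieS R S) : B) = -(b : B) from rfl,
      ← (hb _ (hL a) _ (hL b)).2, ← evC_coe]; rfl)
  have e_nsmul : ∀ a (n : ℕ), e (n • a) = e a ^ n := fun a n => Units.ext (by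
    rw [Units.val_pow_eq_pow_val, he, he, ← h.texp_nsmul (hL a)]; rfl)
  have e_zsmul : ∀ a (n : ℤ), e (n • a) = e a ^ n := fun a n => by
    cases n with
    | ofNat n => simpa using e_nsmul a n
    | negSucc n => rw [negSucc_zsmul, e_neg, e_nsmul, zpow_negSucc]
  let E : Subgroup Bˣ :=
    { carrier := Set.range e
      mul_mem' := by rintro _ _ ⟨a, rfl⟩ ⟨b, rfl⟩; exact ⟨_, e_mul a b⟩
      one_mem' := ⟨0, by simpa using e_nsmul 0 0⟩
      inv_mem' := by rintro _ ⟨a, rfl⟩; exact ⟨_, e_neg a⟩ }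
  let q : lieS R S ≃ E := Equiv.ofInjective e e_inj
  have hq : ∀ a, (q a : Bˣ) = e a := fun _ => rfl
  refine ⟨E, {
    ℓ := q.symm, βm := βm, βc := βc, βc_nil := h0, c := c
    Φ := fun k => (lamGe R S (k + 1)).toAddSubgroup.comap
      (lieS R S).toSubmodule.subtype.toAddMonoidHom
    Φ_zero := eq_top_iff.2 fun a _ => a.2
    Φ_top := eq_bot_iff.2 fun a ha => Subtype.ext (h.eq_zero (lamGe_le hS _ ha) (by omega))
    Φ_anti := fun _ _ hk _ ha => lamGe_anti S (by omega) ha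
    Φ_lie := fun k a ha b => lamGe_lie (i := k + 1) (j := 1) ha b.2
    zpow := fun g n => ?_, mul := fun g g' => ?_, comm := fun g g' => ?_ }, rfl, fun u => ?_⟩
  · obtain ⟨a, rfl⟩ := q.surjective g
    rw [Equiv.symm_apply_eq, q.symm_apply_apply]
    exact Subtype.ext (e_zsmul a n).symm
  · obtain ⟨a, rfl⟩ := q.surjective g
    obtain ⟨b, rfl⟩ := q.surjective g'
    rw [Equiv.symm_apply_eq, q.symm_apply_apply, q.symm_apply_apply]
    exact Subtype.ext (e_mul a b).symm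
  · obtain ⟨a, rfl⟩ := q.surjective g
    obtain ⟨b, rfl⟩ := q.surjective g'
    rw [Equiv.symm_apply_eq, q.symm_apply_apply, q.symm_apply_apply]
    exact Subtype.ext (e_comm a b).symm
  · obtain ⟨a, rfl⟩ := q.surjective u
    simp only [Equiv.symm_apply_apply]
    rfl

lemma lieS_le (hR : ∀ r : R, ∃ n : ℤ, (n : R) = r) {S : Set B} (I : AddSubgroup (lieS R S))
    (hI : ∀ a ∈ I, ∀ b ∈ I, ⁅a, b⁆ ∈ I) (hS : ∀ a : lieS R S, (a : B) ∈ S → a ∈ I) : I = ⊤ := by
  let M : Submodule R B :=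
    { carrier := {x | ∃ a ∈ I, (a : B) = x}
      add_mem' := by rintro _ _ ⟨a, ha, rfl⟩ ⟨b, hb, rfl⟩; exact ⟨a + b, add_mem ha hb, rfl⟩
      zero_mem' := ⟨0, zero_mem _, rfl⟩
      smul_mem' := by
        rintro r _ ⟨a, ha, rfl⟩
        obtain ⟨n, rfl⟩ := hR r
        exact ⟨n • a, zsmul_mem ha n, by simp [Int.cast_smul_eq_zsmul]⟩ }
  have h1 : ∀ s ∈ S, s ∈ M := fun s hs =>
    ⟨⟨s, Submodule.mem_iSup_of_mem ⟨1, le_rfl⟩ (Submodule.subset_span hs)⟩, hS _ hs, rfl⟩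
  have key : ∀ n, lam R S (n + 1) ≤ M := by
    intro n
    induction n with
    | zero => exact Submodule.span_le.2 h1
    | succ n ih =>
      refine Submodule.span_le.2 ?_
      rintro _ ⟨u, hu, s, hs, rfl⟩
      obtain ⟨a, ha, rfl⟩ := ih hu
      obtain ⟨b, hb, rfl⟩ := h1 s hs
      exact ⟨⁅a, b⁆, hI a ha b hb, rfl⟩
  have h2 : lamGe R S 1 ≤ M := iSup_le fun n => by
    obtain ⟨n, hn⟩ := n
    obtain ⟨m, rfl⟩ := Nat.exists_eq_add_of_le' hn
    exact key m
  refine eq_top_iff.2 fun a _ => ?_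
  obtain ⟨b, hb, hab⟩ := h2 a.2
  rwa [← Subtype.ext hab]

end expgroup

section trunc

variable (R A : Type*) [CommRing R] [Ring A] [Algebra R A] (c : ℕ)

def trI : Ideal A[X] where
  carrier := (tF R A).J (c + 1)
  add_mem' := add_mem
  zero_mem' := zero_mem _
  smul_mem' := fun r _ hf => mul' ((tF R A).mem_zero r) hf (by omega)

instance : (trI R A c).IsTwoSided := ⟨fun b ha => mul' ha ((tF R A).mem_zero b) (by omega)⟩

noncomputable def trW : WF R (A[X] ⧸ trI R A c) where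
  J k := ((tF R A).J k).map (Ideal.Quotient.mkₐ R (trI R A c)).toLinearMap
  zero := by
    rw [(tF R A).zero, Submodule.map_top, LinearMap.range_eq_top]
    exact Ideal.Quotient.mkₐ_surjective R _
  anti _ _ h := Submodule.map_mono ((tF R A).anti h)
  mul := by
    rintro i j _ _ ⟨a, ha, rfl⟩ ⟨b, hb, rfl⟩
    exact ⟨a * b, (tF R A).mul ha hb, by simp⟩

noncomputable def trK (n : ℕ) (b : A[X] ⧸ trI R A c) : A :=
  (Function.surjInv (Ideal.Quotient.mk_surjective (I := trI R A c)) b).coeff n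

variable {R A c}

lemma trK_mk {n : ℕ} (hn : n ≤ c) (f : A[X]) :
    trK R A c n (Ideal.Quotient.mk (trI R A c) f) = f.coeff n := by
  have := Function.surjInv_eq (Ideal.Quotient.mk_surjective (I := trI R A c))
    (Ideal.Quotient.mk (trI R A c) f)
  rw [Ideal.Quotient.eq] at this
  have := this n (by omega)
  rwa [coeff_sub, sub_eq_zero] at this

lemma trK_add {n : ℕ} (hn : n ≤ c) (a b : A[X] ⧸ trI R A c) :
    trK R A c n (a + b) = trK R A c n a + trK R A c n b := by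
  obtain ⟨a, rfl⟩ := Ideal.Quotient.mk_surjective a
  obtain ⟨b, rfl⟩ := Ideal.Quotient.mk_surjective b
  rw [← map_add, trK_mk hn, trK_mk hn, trK_mk hn, coeff_add]

lemma trK_zero {n : ℕ} (hn : n ≤ c) {a : A[X] ⧸ trI R A c} (ha : a ∈ (trW R A c).J (n + 1)) :
    trK R A c n a = 0 := by
  obtain ⟨a, ha, rfl⟩ := ha
  exact (trK_mk hn a).trans (ha n (by omega))

lemma trK_congr {n : ℕ} (hn : n ≤ c) {a b : A[X] ⧸ trI R A c}
    (ha : a - b ∈ (trW R A c).J (n + 1)) : trK R A c n a = trK R A c n b := by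
  have := trK_add hn (a - b) b
  rwa [sub_add_cancel, trK_zero hn ha, zero_add] at this

lemma trK_lie {i j : ℕ} (hn : i + j ≤ c) {a b : A[X] ⧸ trI R A c} (ha : a ∈ (trW R A c).J i)
    (hb : b ∈ (trW R A c).J j) :
    trK R A c (i + j) ⁅a, b⁆ = ⁅trK R A c i a, trK R A c j b⁆ := by
  obtain ⟨a, ha, rfl⟩ := ha
  obtain ⟨b, hb, rfl⟩ := hb
  have e : ⁅(Ideal.Quotient.mkₐ R (trI R A c)).toLinearMap a,
      (Ideal.Quotient.mkₐ R (trI R A c)).toLinearMap b⁆ =
      Ideal.Quotient.mk (trI R A c) ⁅a, b⁆ := by simp [Ring.lie_def]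
  rw [e, trK_mk hn, coeff_lie]
  erw [trK_mk (by omega), trK_mk (by omega)]
  refine sum_eq_single (i, j) (fun x hx hx' => ?_) (by simp)
  rw [Finset.HasAntidiagonal.mem_antidiagonal] at hx
  by_cases h1 : x.1 < i
  · rw [ha _ h1, zero_lie]
  · rw [hb x.2 (by
      by_contra h2
      exact hx' (Prod.ext (by simp; omega) (by simp; omega))), lie_zero]

end trunc

/-- units congruent to `1` -/
def unitF {R B : Type*} [CommRing R] [Ring B] [Algebra R B] (W : WF R B) (n : ℕ) : Subgroup Bˣ where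
  carrier := {u | (u : B) - 1 ∈ W.J n}
  mul_mem' := fun hu hv => WF.mul_sub_one hu hv
  one_mem' := by simp
  inv_mem' := fun {u} hu => by
    have := neg_mem (mul' (W.mem_zero ((u⁻¹ : Bˣ) : B)) hu (by omega : n ≤ 0 + n))
    simpa [mul_sub] using this

lemma unitF_comm {R B : Type*} [CommRing R] [Ring B] [Algebra R B] {W : WF R B} {i j : ℕ}
    (hi : 1 ≤ i) (hj : 1 ≤ j) {u v : Bˣ} (hu : u ∈ unitF W i) (hv : v ∈ unitF W j) :
    ((⁅u, v⁆ : Bˣ) : B) - 1 - ⁅(u : B) - 1, (v : B) - 1⁆ ∈ W.J (i + j + 1) :=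
  WF.comm_lead hu hv (u' := ((u⁻¹ : Bˣ) : B)) (v' := ((v⁻¹ : Bˣ) : B)) (by simp)
    (WF.mul_sub_one (mono (inv_mem hu : u⁻¹ ∈ unitF W i) hi)
      (mono (inv_mem hv : v⁻¹ ∈ unitF W j) hj))

lemma unitF_lcs {R B : Type*} [CommRing R] [Ring B] [Algebra R B] {W : WF R B} {Γ : Type*} [Group Γ]
    (u : Γ →* Bˣ) (hu1 : ∀ w, u w ∈ unitF W 1) :
    ∀ n, 1 ≤ n → ∀ w ∈ (lcsN Γ).F n, u w ∈ unitF W n := by
  intro n hn
  induction n, hn using Nat.le_induction with
  | base => exact fun w _ => hu1 w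
  | succ n hn ih =>
    rw [lcsN_succ n hn]
    show _ ≤ (unitF W (n + 1)).comap u
    rw [Subgroup.commutator_le]
    intro a ha b _
    rw [Subgroup.mem_comap, map_commutatorElement]
    have := add_mem (mono (unitF_comm hn le_rfl (ih a ha) (hu1 b)) (by omega : n + 1 ≤ _))
      (lie_mem (ih a ha) (hu1 b))
    rwa [sub_add_cancel] at this

lemma magnus {m c : ℕ} (hc1 : 1 ≤ c) (hunit : ∀ k : ℕ, 1 ≤ k → k ≤ c → IsUnit (k : ZMod m))
    {ι Γ : Type*} [Group Γ] (hexp : ∀ w : Γ, w ^ m = 1) (γ : ι → Γ)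
    (hγ : Subgroup.closure (Set.range γ) = ⊤)
    (u : Γ →* ((MonoidAlgebra (ZMod m) (FreeMonoid ι))[X] ⧸ trI (ZMod m) _ c)ˣ)
    (hu1 : ∀ w, u w ∈ unitF (trW (ZMod m) _ c) 1)
    (hγu : ∀ g, trK (ZMod m) _ c 1 ((u (γ g) : _ ⧸ trI (ZMod m) _ c) - 1) = wd (ZMod m) [g])
    {w : Γ} (hw : u w = 1) : ∀ N, N ≤ c → w ∈ (lcsN Γ).F (N + 1) := by
  have hu := unitF_lcs u hu1
  intro N
  induction N with
  | zero => exact fun _ => (lcsN Γ).mem_one w
  | succ N ih =>
    intro hN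
    refine dsw_step hexp γ hγ (fun n w => trK (ZMod m) _ c n ((u w : _ ⧸ trI (ZMod m) _ c) - 1))
      (N + 1) (fun n h1 h2 => ⟨fun a ha b hb => ?_, fun a ha => ?_⟩) hγu
      (fun n h1 h2 a ha g => ?_) (by omega) (hunit _ (by omega) hN) (ih (by omega)) ?_
    · rw [← trK_add (by omega)]
      refine trK_congr (by omega) ?_
      have := mul' (W := trW (ZMod m) _ c) (hu n h1 a ha) (hu n h1 b hb) (by omega : n + 1 ≤ n + n)
      convert this using 1
      rw [map_mul, Units.val_mul]; noncomm_ring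
    · exact trK_zero (by omega) (hu _ (by omega) a ha)
    · rw [← hγu g, map_commutatorElement,
        trK_congr (by omega) (unitF_comm h1 le_rfl (hu n h1 a ha) (hu1 _)),
        trK_lie (by omega) (hu n h1 a ha) (hu1 _)]
      rfl
    · rw [hw]
      exact trK_zero (by omega) (by simp)

lemma exists_cover {E G ι : Type*} [Group E] [Group G] (γ₀ : ι → E × G)
    (hs : ∀ g, ∃ i, (γ₀ i).2 = g) (h1 : Subgroup.closure (Set.range fun i => (γ₀ i).1) = ⊤)
    (h2 : ∀ w ∈ Subgroup.closure (Set.range γ₀), w.1 = 1 → w.2 = 1) :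
    ∃ π : E →* G, Function.Surjective π := by
  let Γ := Subgroup.closure (Set.range γ₀)
  let f1 : Γ →* E := (MonoidHom.fst E G).comp Γ.subtype
  let f2 : Γ →* G := (MonoidHom.snd E G).comp Γ.subtype
  have hf1 : Function.Bijective f1 := by
    constructor
    · rw [injective_iff_map_eq_one]
      exact fun w hw => Subtype.ext (Prod.ext hw (h2 w w.2 hw))
    · rw [← MonoidHom.range_eq_top, eq_top_iff, ← h1, Subgroup.closure_le]
      rintro _ ⟨i, rfl⟩
      exact ⟨⟨γ₀ i, Subgroup.subset_closure ⟨i, rfl⟩⟩, rfl⟩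
  refine ⟨f2.comp (MulEquiv.ofBijective f1 hf1).symm.toMonoidHom, fun g => ?_⟩
  obtain ⟨i, rfl⟩ := hs g
  refine ⟨f1 ⟨γ₀ i, Subgroup.subset_closure ⟨i, rfl⟩⟩, ?_⟩
  have := (MulEquiv.ofBijective f1 hf1).symm_apply_apply ⟨γ₀ i, Subgroup.subset_closure ⟨i, rfl⟩⟩
  simp only [MonoidHom.comp_apply]
  erw [this]; rfl

theorem lazard (p : ℕ) [hp : Fact p.Prime] (G : Type) [Group G] [Finite G] (hG : IsPGroup p G)
    (c : ℕ) (hc1 : 1 ≤ c) (hcp : c < p) (hc : (⊤ : Subgroup G).lowerCentralSeries c = ⊥) :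
    ∃ (L : Type) (_ : LieRing L) (Z : Laz G L), Z.c = c := by
  obtain ⟨K, hK⟩ := IsPGroup.iff_card.1 hG
  have hGexp : ∀ g : G, g ^ (p ^ K) = 1 := fun g => by rw [← hK, pow_card_eq_one']
  have hunit : ∀ k : ℕ, 1 ≤ k → k ≤ c → IsUnit (k : ZMod (p ^ K)) := fun k h1 h2 =>
    (ZMod.isUnit_iff_coprime k (p ^ K)).2 (Nat.Coprime.pow_right _
      ((Nat.coprime_comm.1 ((Nat.Prime.coprime_iff_not_dvd hp.out).2
        (Nat.not_dvd_of_pos_of_lt h1 (by omega))))))
  generalize p ^ K = m at hGexp hunit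
  let R := ZMod m
  let A := MonoidAlgebra R (FreeMonoid G)
  let B := A[X] ⧸ trI R A c
  let W : WF R B := trW R A c
  have hR : ∀ r : R, ∃ n : ℤ, (n : R) = r := ZMod.intCast_surjective
  have h : W.Nil c := ⟨eq_bot_iff.2 (by
    rintro _ ⟨a, ha, rfl⟩
    exact Ideal.Quotient.eq_zero_iff_mem.2 ha), hunit, hc1⟩
  let x : G → B := fun g => Ideal.Quotient.mk _ (monomial 1 (wd R [g]))
  have hx : ∀ g, x g ∈ W.J 1 := fun g => ⟨monomial 1 (wd R [g]), fun n hn => by
    rw [coeff_monomial, if_neg (by omega)], rfl⟩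
  have hS : ∀ s ∈ Set.range x, s ∈ W.J 1 := by rintro _ ⟨g, rfl⟩; exact hx g
  obtain ⟨E, Z, hZc, hZ⟩ := exists_laz_exp h hR hS
  let y : G → lieS R (Set.range x) := fun g =>
    ⟨x g, Submodule.mem_iSup_of_mem ⟨1, le_rfl⟩ (Submodule.subset_span ⟨g, rfl⟩)⟩
  let γ₀ : G → E × G := fun g => (Z.ℓ.symm (y g), g)
  obtain ⟨π, hπ⟩ := exists_cover γ₀ (fun g => ⟨g, rfl⟩) (by
    have : Z.log (Subgroup.closure (Set.range fun i => (γ₀ i).1)) = ⊤ :=
      lieS_le hR _ (fun a ha b hb => Z.log_lie_self ha hb) (by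
        rintro a ⟨g, hg⟩
        exact Subgroup.subset_closure ⟨g, by rw [← show y g = a from Subtype.ext hg]⟩)
    refine eq_top_iff.2 fun v _ => ?_
    rw [← Z.ℓ_mem_log, this]; trivial) (by
    intro w hw hw1
    let Γ := Subgroup.closure (Set.range γ₀)
    let γ : G → Γ := fun g => ⟨γ₀ g, Subgroup.subset_closure ⟨g, rfl⟩⟩
    have hγ : Subgroup.closure (Set.range γ) = ⊤ := by
      have := Subgroup.closure_closure_coe_preimage (k := Set.range γ₀)
      rw [← this]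
      congr 1
      ext a
      exact ⟨by rintro ⟨g, rfl⟩; exact ⟨g, rfl⟩, by rintro ⟨g, hg⟩; exact ⟨g, Subtype.ext hg⟩⟩
    let f2 : Γ →* G := (MonoidHom.snd E G).comp Γ.subtype
    let u : Γ →* Bˣ := E.subtype.comp ((MonoidHom.fst E G).comp Γ.subtype)
    have hu : ∀ v : Γ, (u v : B) = texp R c (Z.ℓ (v : E × G).1 : B) := fun v => hZ _
    have hexp : ∀ w : Γ, w ^ m = 1 := fun w => by
      refine Subtype.ext (Prod.ext ?_ (hGexp _))
      show (w : E × G).1 ^ m = 1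
      rw [← Z.eq_one_iff, Z.pow, ← Nat.cast_smul_eq_nsmul R, ZMod.natCast_self, zero_smul]
    have key := magnus hc1 hunit hexp γ hγ u
      (fun v => by
        show (u v : B) - 1 ∈ W.J 1
        rw [hu]; exact texp_sub_one_mem hc1 (lamGe_le hS 1 (Z.ℓ _).2))
      (fun g => by
        have e : Z.ℓ (γ g : E × G).1 = y g := Z.ℓ.apply_symm_apply _
        rw [hu, e, trK_congr hc1 (texp_sub_mem hc1 (hx g)), trK_mk hc1, coeff_monomial, if_pos rfl])
      (w := ⟨w, hw⟩) (Units.ext (by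
        rw [hu]
        show texp R c (Z.ℓ w.1 : B) = 1
        rw [hw1, Z.one]; exact texp_zero c)) c le_rfl
    have h1 : f2 ⟨w, hw⟩ ∈ ((⊤ : Subgroup Γ).lowerCentralSeries c).map f2 := ⟨_, key, rfl⟩
    rw [Subgroup.map_lowerCentralSeries] at h1
    have h2 := Subgroup.lowerCentralSeries_mono c (le_top (a := (⊤ : Subgroup Γ).map f2)) h1
    simp only [hc, Subgroup.mem_bot] at h2
    exact h2)
  exact ⟨_, _, Z.quot π hπ, hZc⟩

end Pool.Agent.P78
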