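import Pool.Agent.Lib.MP_78c6b1_al.Neg.Exp

/-! The product of two truncated exponentials of Lie elements is an exponential of a Lie element. -/

set_option autoImplicit false

namespace Pool.Agent.P78

open Finset Polynomial

variable {R B : Type*} [CommRing R] [Ring B] [Algebra R B]

namespace WF

variable {W : WF R B} {c : ℕ}

def poly (W : WF R B) : WF R B[X] where
  J m :=
    { carrier := {f | ∀ n, f.coeff n ∈ W.J m}
      add_mem' := fun ha hb n => by rw [coeff_add]; exact add_mem (ha n) (hb n)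
      zero_mem' := fun n => by simp
      smul_mem' := fun r f hf n => by rw [coeff_smul]; exact Submodule.smul_mem _ _ (hf n) }
  zero := eq_top_iff.2 fun f _ n => W.mem_zero _
  anti _ _ h f hf n := mono (hf n) h
  mul := fun {i j a b} ha hb n => by
    rw [coeff_mul]; exact Submodule.sum_mem _ fun x _ => W.mul (ha _) (hb _)

lemma mem_poly {m : ℕ} {f : B[X]} : f ∈ W.poly.J m ↔ ∀ n, f.coeff n ∈ W.J m := Iff.rfl

lemma Nil.poly (h : W.Nil c) : W.poly.Nil c :=
  ⟨eq_bot_iff.2 fun f hf => by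
    rw [Submodule.mem_bot]; ext n; simpa using h.eq_zero (hf n) (by omega), h.unit, h.pos⟩

/-- order of vanishing in the variable -/
def tF (R B : Type*) [CommRing R] [Ring B] [Algebra R B] : WF R B[X] where
  J k :=
    { carrier := {f | ∀ n < k, f.coeff n = 0}
      add_mem' := fun ha hb n hn => by rw [coeff_add, ha n hn, hb n hn, add_zero]
      zero_mem' := fun n _ => by simp
      smul_mem' := fun r f hf n hn => by rw [coeff_smul, hf n hn, smul_zero] }
  zero := eq_top_iff.2 fun f _ n hn => absurd hn (by omega)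
  anti _ _ h f hf n hn := hf n (lt_of_lt_of_le hn h)
  mul := fun {i j a b} ha hb n hn => by
    rw [coeff_mul]
    refine sum_eq_zero fun x hx => ?_
    rw [Finset.HasAntidiagonal.mem_antidiagonal] at hx
    by_cases h1 : x.1 < i
    · rw [ha _ h1, zero_mul]
    · rw [hb _ (by omega), mul_zero]

lemma mem_tF {k : ℕ} {f : B[X]} : f ∈ (tF R B).J k ↔ ∀ n < k, f.coeff n = 0 := Iff.rfl

def rees (W : WF R B) : Subalgebra R B[X] where
  carrier := {f | ∀ n, f.coeff n ∈ W.J n}
  add_mem' := fun ha hb n => by rw [coeff_add]; exact add_mem (ha n) (hb n)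
  mul_mem' := fun ha hb n => by
    rw [coeff_mul]
    refine Submodule.sum_mem _ fun x hx => ?_
    rw [Finset.HasAntidiagonal.mem_antidiagonal] at hx
    exact mul' (ha _) (hb _) hx.ge
  algebraMap_mem' r n := by
    rw [Polynomial.algebraMap_apply, coeff_C]
    split_ifs with h
    · subst h; exact W.mem_zero _
    · exact zero_mem _

end WF

open WF

lemma coeff_lie (f g : B[X]) (n : ℕ) :
    (⁅f, g⁆ : B[X]).coeff n = ∑ x ∈ antidiagonal n, ⁅f.coeff x.1, g.coeff x.2⁆ := by
  rw [Ring.lie_def, coeff_sub, coeff_mul, coeff_mul,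
    ← Finset.Nat.sum_antidiagonal_swap (f := fun x => g.coeff x.1 * f.coeff x.2),
    ← sum_sub_distrib]
  rfl

/-- Euler derivation -/
noncomputable def eul (f : B[X]) : B[X] := derivative f * X

lemma coeff_eul (f : B[X]) (n : ℕ) : (eul f).coeff n = (n : R) • f.coeff n := by
  unfold eul
  cases n with
  | zero => simp
  | succ n =>
    rw [coeff_mul_X, coeff_derivative, Nat.cast_smul_eq_nsmul, nsmul_eq_mul, Nat.cast_comm]
    push_cast; rfl

lemma eul_mul (f g : B[X]) : eul (f * g) = eul f * g + f * eul g := by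
  unfold eul
  rw [derivative_mul, add_mul, mul_assoc, mul_assoc, ← X_mul, mul_assoc]

lemma eul_texp (c : ℕ) (Z : B[X]) :
    eul (texp R c Z) = ∑ j ∈ range (c + 1), finv R j • eul (Z ^ j) := by
  simp [eul, texp, sum_mul, derivative_smul]

lemma eul_mem_poly {W : WF R B} {m : ℕ} {f : B[X]} (hf : f ∈ W.poly.J m) : eul f ∈ W.poly.J m :=
  fun n => by rw [coeff_eul (R := R)]; exact Submodule.smul_mem _ _ (hf n)

/-- a graded family of Lie elements -/
structure GLie (W : WF R B) where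
  Λ : ℕ → Submodule R B
  zero : Λ 0 = ⊥
  le : ∀ n, Λ n ≤ W.J n
  lie : ∀ {i j : ℕ} {a b : B}, a ∈ Λ i → b ∈ Λ j → ⁅a, b⁆ ∈ Λ (i + j)

namespace GLie

variable {W : WF R B} {c : ℕ} (Γ : GLie W)

def approx (k : ℕ∞) : Submodule R B[X] where
  carrier := {f | ∀ n : ℕ, (n : ℕ∞) < k → f.coeff n ∈ Γ.Λ n}
  add_mem' := fun ha hb n hn => by rw [coeff_add]; exact add_mem (ha n hn) (hb n hn)
  zero_mem' := fun n _ => by simp
  smul_mem' := fun r f hf n hn => by rw [coeff_smul]; exact Submodule.smul_mem _ _ (hf n hn)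

variable {Γ}

lemma mem_top {f : B[X]} : f ∈ Γ.approx ⊤ ↔ ∀ n, f.coeff n ∈ Γ.Λ n :=
  ⟨fun h n => h n (ENat.natCast_lt_top n), fun h n _ => h n⟩

lemma mem_nat {k : ℕ} {f : B[X]} : f ∈ Γ.approx k ↔ ∀ n < k, f.coeff n ∈ Γ.Λ n :=
  ⟨fun h n hn => h n (by exact_mod_cast hn), fun h n hn => h n (by exact_mod_cast hn)⟩

lemma lie_top {f g : B[X]} (hf : f ∈ Γ.approx ⊤) (hg : g ∈ Γ.approx ⊤) : ⁅f, g⁆ ∈ Γ.approx ⊤ := by
  rw [mem_top] at *
  intro n
  rw [coeff_lie]
  refine Submodule.sum_mem _ fun x hx => ?_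
  rw [Finset.HasAntidiagonal.mem_antidiagonal] at hx
  rw [← hx]; exact Γ.lie (hf _) (hg _)

lemma coeff_zero_of {k : ℕ} (hk : 1 ≤ k) {f : B[X]} (hf : f ∈ Γ.approx k) : f.coeff 0 = 0 := by
  have := mem_nat.1 hf 0 hk
  rwa [Γ.zero, Submodule.mem_bot] at this

lemma lie_nat {k : ℕ} (hk : 1 ≤ k) {f g : B[X]} (hf : f ∈ Γ.approx k) (hg : g ∈ Γ.approx k) :
    ⁅f, g⁆ ∈ Γ.approx (k + 1 : ℕ) := by
  have f0 := coeff_zero_of hk hf
  have g0 := coeff_zero_of hk hg
  rw [mem_nat] at *
  intro n hn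
  rw [coeff_lie]
  refine Submodule.sum_mem _ fun x hx => ?_
  rw [Finset.HasAntidiagonal.mem_antidiagonal] at hx
  by_cases h1 : x.1 = 0
  · rw [h1, f0]; simp [Ring.lie_def]
  by_cases h2 : x.2 = 0
  · rw [h2, g0]; simp [Ring.lie_def]
  rw [← hx]; exact Γ.lie (hf _ (by omega)) (hg _ (by omega))

lemma approx_anti {k : ℕ} {f : B[X]} (hf : f ∈ Γ.approx (k + 1 : ℕ)) : f ∈ Γ.approx k := by
  rw [mem_nat] at *; exact fun n hn => hf n (by omega)

lemma eul_mem {k : ℕ∞} {f : B[X]} (hf : f ∈ Γ.approx k) : eul f ∈ Γ.approx k :=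
  fun n hn => by rw [coeff_eul (R := R)]; exact Submodule.smul_mem _ _ (hf n hn)

lemma top_poly {f : B[X]} (hf : f ∈ Γ.approx ⊤) : f ∈ W.poly.J 1 := by
  rw [mem_top] at hf
  intro n
  rcases Nat.eq_zero_or_pos n with rfl | hn
  · have := hf 0
    rw [Γ.zero, Submodule.mem_bot] at this
    rw [this]; exact zero_mem _
  · exact mono (Γ.le n (hf n)) hn

lemma top_rees {f : B[X]} (hf : f ∈ Γ.approx ⊤) : f ∈ W.rees :=
  fun n => Γ.le n (mem_top.1 hf n)

lemma top_tF {f : B[X]} (hf : f ∈ Γ.approx ⊤) : f ∈ (tF R B).J 1 := by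
  intro n hn
  obtain rfl : n = 0 := by omega
  have := mem_top.1 hf 0
  rwa [Γ.zero, Submodule.mem_bot] at this

lemma eul_pow_succ (Z : B[X]) (j : ℕ) : eul (Z ^ (j + 1)) = eul (Z ^ j) * Z + Z ^ j * eul Z := by
  rw [pow_succ, eul_mul]

lemma lam_eq (h : W.Nil c) {Z : B[X]} (hZ : Z ∈ W.poly.J 1) :
    texp R c (-Z) * eul (texp R c Z) =
      ∑ n ∈ range (c + 1), odeF R Z (fun j => eul (Z ^ j)) n := by
  rw [eul_texp, h.poly.ode_sum hZ (fun j => eul_mem_poly (pow_mem_one hZ j))]

lemma eul_one : eul (1 : B[X]) = 0 := by simp [eul]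

lemma lam_mem (h : W.Nil c) {U : B[X]} (hU : U ∈ Γ.approx ⊤) :
    texp R c (-U) * eul (texp R c U) ∈ Γ.approx ⊤ := by
  rw [lam_eq h (top_poly hU)]
  refine Submodule.sum_mem _ fun n hn => ?_
  exact h.poly.ode_mem _ (eul_pow_succ U) (by simp [eul_one]) (eul_mem hU)
    (fun v hv => lie_top hv hU) (by simp at hn; omega)

lemma mem_of_lam (h : W.Nil c) {Z : B[X]} (hZ : Z ∈ W.poly.J 1) (hr : Z ∈ W.rees)
    (h0 : Z.coeff 0 = 0) (hl : texp R c (-Z) * eul (texp R c Z) ∈ Γ.approx ⊤) :
    Z ∈ Γ.approx ⊤ := by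
  have key : ∀ k, k ≤ c → Z ∈ Γ.approx (k + 1 : ℕ) := by
    intro k
    induction k with
    | zero =>
      intro _
      rw [mem_nat]; intro n hn
      obtain rfl : n = 0 := by omega
      rw [h0]; exact zero_mem _
    | succ k ih =>
      intro hk
      replace ih := ih (by omega)
      have hF : ∀ n, n ≤ c → odeF R Z (fun j => eul (Z ^ j)) n ∈ Γ.approx (k + 1 : ℕ) :=
        fun n hn => h.poly.ode_mem _ (eul_pow_succ Z) (by simp [eul_one]) (eul_mem ih)
          (fun v hv => approx_anti (lie_nat (by omega) hv ih)) hn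
      have hF2 : ∀ n, n + 2 ≤ c →
          odeF R Z (fun j => eul (Z ^ j)) (n + 2) ∈ Γ.approx (k + 1 + 1 : ℕ) := by
        intro n hn
        refine h.poly.mem_of_smul _ (k := n + 2) (by omega) hn ?_
        rw [h.poly.ode_succ Z (eul Z) (δ := fun j => eul (Z ^ j)) (eul_pow_succ Z) hn,
          if_neg (by omega), add_zero]
        exact lie_nat (by omega) (hF _ (by omega)) ih
      have hF1 : odeF R Z (fun j => eul (Z ^ j)) 1 = eul Z := by
        have := h.poly.ode_succ Z (eul Z) (δ := fun j => eul (Z ^ j)) (eul_pow_succ Z) (n := 0) h.pos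
        simpa [odeF_zero, eul_one, Ring.lie_def] using this
      obtain ⟨d, rfl⟩ := Nat.exists_eq_add_of_le' h.pos
      rw [lam_eq h hZ, sum_range_succ', sum_range_succ', zero_add, hF1, odeF_zero] at hl
      simp only [pow_zero, eul_one, add_zero] at hl
      have h1 : ∑ n ∈ range d, odeF R Z (fun j => eul (Z ^ j)) (n + 1 + 1) ∈
          Γ.approx (k + 1 + 1 : ℕ) :=
        Submodule.sum_mem _ fun n hn => hF2 n (by simp at hn; omega)
      have h2 : eul Z ∈ Γ.approx (k + 1 + 1 : ℕ) := by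
        have h3 : _ ∈ Γ.approx (k + 1 + 1 : ℕ) := fun n _ => mem_top.1 hl n
        simpa using sub_mem h3 h1
      rw [mem_nat] at h2 ih ⊢
      intro n hn
      by_cases hn' : n < k + 1
      · exact ih n hn'
      obtain rfl : n = k + 1 := by omega
      have := h2 _ hn
      rw [coeff_eul (R := R)] at this
      exact h.mem_of_smul _ (by omega) hk this
  rw [mem_top]
  intro n
  by_cases hn : n ≤ c
  · exact mem_nat.1 (key c le_rfl) n (by omega)
  · rw [h.eq_zero (hr n) (by omega)]; exact zero_mem _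

theorem mul_closed (h : W.Nil c) {U V : B[X]} (hU : U ∈ Γ.approx ⊤) (hV : V ∈ Γ.approx ⊤) :
    ∃ Z ∈ Γ.approx ⊤, texp R c Z = texp R c U * texp R c V := by
  have hU1 := top_poly hU
  have hV1 := top_poly hV
  have prod : ∀ (W' : WF R B[X]), U ∈ W'.J 1 → V ∈ W'.J 1 →
      texp R c U * texp R c V - 1 ∈ W'.J 1 := by
    intro W' h1 h2
    have a := texp_sub_one_mem h.pos h1
    have b := texp_sub_one_mem h.pos h2
    have : texp R c U * texp R c V - 1 =
        (texp R c U - 1) * texp R c V + (texp R c V - 1) := by noncomm_ring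
    rw [this]
    exact add_mem (mul' a (W'.mem_zero _) (by omega)) b
  obtain ⟨Z, hZ, hr, hZe⟩ := h.poly.texp_surj W.rees (prod _ hU1 hV1)
    (mul_mem (texp_mem_sub _ (top_rees hU)) (texp_mem_sub _ (top_rees hV)))
  refine ⟨Z, mem_of_lam h hZ hr ?_ ?_, hZe⟩
  · let ev : B[X] →ₐ[R] B :=
      { Polynomial.constantCoeff with
        commutes' := fun r => by simp [Polynomial.algebraMap_apply] }
    have e : ∀ f, ev f = f.coeff 0 := fun f => rfl
    have h1 := congrArg ev hZe
    rw [map_mul, map_texp, map_texp, map_texp, e, e, e, top_tF hU 0 (by omega),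
      top_tF hV 0 (by omega), texp_zero, one_mul, ← texp_zero (R := R) c] at h1
    exact h.texp_inj (hZ 0) (zero_mem _) h1
  · have hinv : texp R c (-Z) = texp R c (-V) * texp R c (-U) := by
      have h1 := h.poly.texp_neg_mul hZ
      rw [hZe] at h1
      calc texp R c (-Z) = texp R c (-Z) * (texp R c U * (texp R c V * texp R c (-V))
            * texp R c (-U)) := by
            rw [h.poly.texp_mul_neg hV1, mul_one, h.poly.texp_mul_neg hU1, mul_one]
        _ = (texp R c (-Z) * (texp R c U * texp R c V)) * (texp R c (-V) * texp R c (-U)) := by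
            noncomm_ring
        _ = _ := by rw [h1, one_mul]
    rw [hinv, hZe, eul_mul]
    have : texp R c (-V) * texp R c (-U) *
        (eul (texp R c U) * texp R c V + texp R c U * eul (texp R c V)) =
        texp R c (-V) * (texp R c (-U) * eul (texp R c U)) * texp R c V +
          texp R c (-V) * (texp R c (-U) * texp R c U) * eul (texp R c V) := by noncomm_ring
    rw [this, h.poly.texp_neg_mul hU1, mul_one]
    exact add_mem (h.poly.conj_mem _ hV1 (lam_mem h hU) (fun v hv => lie_top hv hV))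
      (lam_mem h hV)

end GLie

end Pool.Agent.P78
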