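import Pool.Agent.Lib.MP_78c6b1_al.Neg.Iface

/-! More interfaces between the blocks of the negative answer. -/

set_option autoImplicit false

namespace Pool.Agent.P78

/-- Groups of bounded order: few or many classes. -/
def ShortStmt : Prop :=
  ∀ m : ℕ, ∃ C p₀ : ℕ, ∀ (p : ℕ) [Fact p.Prime], p₀ ≤ p →
    ∀ (G : Type) [Group G] [Finite G], IsPGroup p G → Nat.card G ≤ p ^ m →
      Nat.card (ConjClasses G) ≤ C * p ^ 3 ∨ 9 * p ^ 4 ≤ 10 * Nat.card (ConjClasses G)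

/-- First jump of centralisers in a bounded abelian normal subgroup. -/
def FJStmt : Prop :=
  ∀ c : ℕ, ∃ C p₀ : ℕ, ∀ (p : ℕ) [Fact p.Prime], p₀ ≤ p →
    ∀ (G : Type) [Group G] [Finite G], IsPGroup p G → ∀ (A H : Subgroup G) [A.Normal],
      (∀ a ∈ A, ∀ b ∈ A, a * b = b * a) → Nat.card A ≤ p ^ c →
      ∃ y₀ ∈ H, (∀ y ∈ H, Nat.card ↥(A ⊓ Subgroup.centralizer {y₀}) ≤
          Nat.card ↥(A ⊓ Subgroup.centralizer {y})) ∧
        p * Nat.card {y : G // y ∈ H ∧ Nat.card ↥(A ⊓ Subgroup.centralizer {y₀}) <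
          Nat.card ↥(A ⊓ Subgroup.centralizer {y})} ≤ C * Nat.card H

/-- A normal subgroup of order `p ^ 2` costs at least `p ^ 2 - 1` classes. -/
def HallStmt : Prop :=
  ∀ (p : ℕ) [Fact p.Prime] (G : Type) [Group G] [Finite G], IsPGroup p G →
    ∀ (N : Subgroup G) [N.Normal], Nat.card N = p ^ 2 →
      Nat.card (ConjClasses (G ⧸ N)) + p ^ 2 ≤ Nat.card (ConjClasses G) + 1

end Pool.Agent.P78
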