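import Pool.Agent.Lib.MP_78c6b1_al.Neg.Ext
import Pool.Agent.Lib.MP_78c6b1_al.Neg.Iface2

/-! Interfaces for the long groups. -/

set_option autoImplicit false

namespace Pool.Agent.P78

open scoped commutatorElement

/-- the start of the propagation -/
def BaseStmt : Prop :=
  ∀ R : ℕ, ∃ m p₀ : ℕ, ∀ (p : ℕ) [Fact p.Prime], p₀ ≤ p →
    ∀ (G : Type) [Group G] [Finite G], IsPGroup p G → p ^ m ≤ Nat.card G → Bud p G →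
      ∃ (X : Ctx p G) (T : St X R), T.Good

/-- `p`-th powers of elements of depth one are deep for at most one slope -/
def PowStmt : Prop :=
  ∀ (p : ℕ) [Fact p.Prime], 11 ≤ p → ∀ (G : Type) [Group G] [Finite G], IsPGroup p G →
    ∀ (X : Ctx p G) (r : ℕ) (T : St X r), X.μ = 2 → T.z ∈ X.S.F (T.w + 1) → p + 8 ≤ r →
      ∀ y y' : G, y ∉ X.S.F 2 → y' * y⁻¹ ∈ X.S.F 2 → y ^ p ∈ X.S.F (p + 2) →
        y' ^ p ∈ X.S.F (p + 2) → y' * y⁻¹ ∈ X.S.F 3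

/-- the nonstandard level `2 p` -/
def RigStmt : Prop :=
  ∃ p₀ : ℕ, ∀ (p : ℕ) [Fact p.Prime], p₀ ≤ p → ∀ (G : Type) [Group G] [Finite G], IsPGroup p G →
    ∀ (X : Ctx p G) (r : ℕ) (T : St X r), X.μ = 2 → T.z ∈ X.S.F (T.w + 1) → r + 1 = 2 * p →
      X.S.F (2 * p + 1) = ⊥ → Nat.card (X.S.F (2 * p)) ≤ p →
      ∀ i j, 2 ≤ i → 2 * i < p → i + j = 2 * p → (∀ a ∈ X.S.F i, ∀ b ∈ X.S.F j, ⁅a, b⁆ = 1) →
        (∀ y ∈ X.S.F i, ∃ u ∈ X.S.F (i + p), T.ε (i + p) u = T.ε i y ∧ ⁅y, u⁆ = 1) ∨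
        p * Nat.card {y : G // y ∈ X.S.F i ∧ y ∉ X.S.F (i + 1) ∧
          ∃ u ∈ X.S.F (i + p), u ∉ X.S.F (i + p + 1) ∧ ⁅y, u⁆ = 1} ≤ 2 * Nat.card (X.S.F i)

end Pool.Agent.P78
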