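import Pool.Agent.Lib.MP_78c6b1_al.Neg.Cy
import Pool.Agent.Lib.MP_78c6b1_al.Neg.Iface3

/-! The cost of a layer when the Witt part has length at most `p + 14`. -/

set_option autoImplicit false
set_option linter.unusedSectionVars false

namespace Pool.Agent.P78

open scoped commutatorElement
open Finset

variable {p : ℕ} {G : Type} [Group G] [hp : Fact p.Prime] {X : Ctx p G} {r : ℕ}

lemma St.dep_or (T : St X r) {m : ℕ} :
    (∀ φ l k φ' l' k', IsLev X.S m φ → T.Ty φ m l k → IsLev X.S m φ' → T.Ty φ' m l' k' →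
      l * k' - l' * k = 0) ∨ ∀ l k, ∃ φ, IsLev X.S m φ ∧ T.Ty φ m l k := by
  refine or_iff_not_imp_left.2 fun h l k => ?_
  push Not at h
  obtain ⟨φ, l₀, k₀, φ', l₁, k₁, hφ, t, hφ', t', hD⟩ := h
  have := t.comb t' ((l * k₁ - l₁ * k) / (l₀ * k₁ - l₁ * k₀))
    ((l₀ * k - l * k₀) / (l₀ * k₁ - l₁ * k₀))
  rw [show (l * k₁ - l₁ * k) / (l₀ * k₁ - l₁ * k₀) * l₀ +
      (l₀ * k - l * k₀) / (l₀ * k₁ - l₁ * k₀) * l₁ = l by
      rw [div_mul_eq_mul_div, div_mul_eq_mul_div, ← add_div, div_eq_iff hD]; ring,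
    show (l * k₁ - l₁ * k) / (l₀ * k₁ - l₁ * k₀) * k₀ +
      (l₀ * k - l * k₀) / (l₀ * k₁ - l₁ * k₀) * k₁ = k by
      rw [div_mul_eq_mul_div, div_mul_eq_mul_div, ← add_div, div_eq_iff hD]; ring] at this
  exact ⟨_, (hφ.smul _).add_fun (hφ'.smul _), this⟩

/-- level `m` is nontrivial and all its functionals vanish at `i` -/
def St.Zer (T : St X r) (m i : ℕ) : Prop :=
  ¬ X.S.F m ≤ X.S.F (m + 1) ∧ ∀ φ l k, IsLev X.S m φ → T.Ty φ m l k → Psi m l k i = 0

lemma cod_facts (μ i : ℕ) : (μ = 2 → wcod μ i = i - 1) ∧ (μ = 3 → i = 1 → wcod μ i = 0) ∧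
    (μ ≠ 2 → (3 ≤ i ∨ μ = 4) → wcod μ i = i - 2) :=
  ⟨by rintro rfl; exact cod_two i, by rintro rfl rfl; rfl, cod_ne⟩

lemma odd_p (h : 7 ≤ p) : p % 2 = 1 := (hp.out.eq_two_or_odd).resolve_left (by omega)

namespace Fn

variable {T : St X r} {N : Fn T} [Finite G]

lemma lv_or_zer (hp7 : 7 ≤ p) {y : G} {i m : ℕ} (hi : 1 ≤ i) (hi' : 2 * i ≤ r + 1) (hy : y ∈ N.S i)
    (hy' : y ∉ N.S (i + 1)) (hr : 80 ≤ r) (hm0 : r < m) (hm : m ≤ r + 8)
    (h2 : 2 * i < m ∨ T.Zer m i ∨ X.S.F m ≤ X.S.F (m + 1))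
    (hd : ¬ ∀ l k, ∃ φ, IsLev X.S m φ ∧ T.Ty φ m l k) : N.Lv y i m 0 ∨ T.Zer m i := by
  have hd := T.dep_or.resolve_right hd
  rcases h2 with h2 | h2 | h2
  swap
  · exact Or.inr h2
  swap
  · exact Or.inl (lv_triv h2 0)
  by_cases h : ∀ φ l k, IsLev X.S m φ → T.Ty φ m l k → (l ≠ 0 ∨ k ≠ 0) → Psi m l k i ≠ 0
  · exact Or.inl (lv_zero hp7 hi hi' hy hy' hr hm0 hm h2 (T.card_line hp7 (by omega) hm hd) h)
  by_cases ht : X.S.F m ≤ X.S.F (m + 1)
  · exact Or.inl (lv_triv ht 0)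
  push Not at h
  obtain ⟨φ, l, k, hφ, t, hne, h0⟩ := h
  refine Or.inr ⟨ht, fun φ' l' k' hφ' t' => ?_⟩
  have := hd φ l k φ' l' k' hφ t hφ' t'
  simp only [Psi] at h0 ⊢
  rcases em (l = 0) with hl | hl
  · have hk : k ≠ 0 := by simpa [hl] using hne
    refine mul_left_cancel₀ hk ?_
    linear_combination k' * h0 - ((m : ZMod p) - 2 * i) * this
  · refine mul_left_cancel₀ hl ?_
    linear_combination l' * h0 + (i : ZMod p) ^ 3 * this

section
variable (hG : IsPGroup p G) (hp' : 50 ≤ p) (hn : ¬ T.Std (r + 1)) (hr : 80 ≤ r) (hr' : r ≤ p + 14)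
include hG hp' hn hr hr'

lemma lv_gen {y : G} {i k : ℕ} (hi : 1 ≤ i) (hi' : 2 * i ≤ r + 1) (hy : y ∈ N.S i)
    (hy' : y ∉ N.S (i + 1)) (hk : k < 4) (h1 : r + 1 + k ≠ p) (h2 : r + 1 + k ≠ 2 * i + p) :
    N.Lv y i (r + 1 + k) 0 := by
  have h0 : ((r + 1 + k : ℕ) : ZMod p) ≠ 0 := fun h => by
    have := cast_eq_cases (b := 0) (h.trans Nat.cast_zero.symm) (by omega) (by omega); omega
  rcases Nat.eq_zero_or_pos k with rfl | hk0
  · exact lv_triv (T.triv_first (by omega) (by omega) (by omega) hn h0) 0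
  · exact lv_std (by omega) hi hi' hy hy' hr (by omega) (by omega) (by omega) h0 fun h => by
      have := cast_eq_cases h (by omega) (by omega); omega

lemma lv_one' {y : G} {i k : ℕ} (hi : 1 ≤ i) (hi' : 2 * i ≤ r + 1) (hy : y ∈ N.S i)
    (hy' : y ∉ N.S (i + 1)) (hk : k < 4) : N.Lv y i (r + 1 + k) 1 :=
  lv_one (by omega) hi hi' hy hy' hr (by omega) (by omega) fun h => by
    have := cast_eq_cases (b := 0) (h.trans Nat.cast_zero.symm) (by omega) (by omega)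
    have := odd_p (p := p) (by omega)
    exact ⟨by omega, cast_ne_zero' (by omega) (by omega)⟩

theorem boundA {y : G} {i : ℕ} (hS : inS X.μ i) (hi' : 2 * i ≤ r + 1) (hy : y ∈ N.S i)
    (hy' : y ∉ N.S (i + 1)) : Nat.card ↥(cen ⊥ y ⊓ N.S (i + 1)) ≤ p ^ (3 + wcod X.μ i) := by
  refine cy_bound hG (by omega) (by omega) (T.tail_bot (by omega) (by omega) hn) hS hi' hy hy'
    (fun k => if (r + 1 + k = p ∨ r + 1 + k = 2 * i + p) ∧ ¬ (X.μ = 2 ∧ 2 ≤ k) then 1 else 0)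
    (fun k hk => ?_) _ ?_
  · split_ifs with h
    · exact lv_one' hG hp' hn hr hr' hS.1 hi' hy hy' hk
    by_cases h2 : X.μ = 2 ∧ 2 ≤ k
    · obtain ⟨b, rfl⟩ : ∃ b, k = 1 + b := ⟨k - 1, by omega⟩
      exact lv_triv (T.triv_two (by omega) (by omega) hn ⟨by omega, by omega, by omega⟩
        ⟨by omega, by omega, by omega⟩ ⟨by omega, by omega, by omega⟩ (by omega)) 0
    · exact lv_gen hG hp' hn hr hr' hS.1 hi' hy hy' hk (by omega) (by omega)
  · have := cod_facts X.μ i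
    have := X.hμ
    have := N.x_le
    have := N.hx
    simp only [inS] at hS
    split_ifs <;> omega

theorem boundB (hB : Bud p G) {y : G} {i : ℕ} (hi : 10 ≤ i) (hi' : 2 * i ≤ r + 1) (hy : y ∈ N.S i)
    (hy' : y ∉ N.S (i + 1)) (hsp : X.μ = 4 → r + 2 = p → N.Lv y i (r + 1 + 1) 0) :
    Nat.card ↥(cen ⊥ y ⊓ N.S (i + 1)) ≤ p ^ (2 + wcod X.μ i) := by
  have hp7 : 7 ≤ p := by omega
  have hc := cod_facts X.μ i
  have hμ := X.hμ
  have hx := N.x_le
  have hx' := N.hx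
  have hodd := odd_p hp7
  have hσ := N.le_σ
  have hσ' := N.σ_le
  refine cy_bound hG (by omega) (by omega) (T.tail_bot (by omega) (by omega) hn)
    (inS_of_le (by omega)) hi' hy hy'
    (fun k => if r + 1 + k = p ∧ X.μ = 2 ∧ N.x = 0 then 1 else 0) (fun k hk => ?_) _ ?_
  swap
  · split_ifs <;> omega
  split_ifs with h
  · exact lv_one' hG hp' hn hr hr' (by omega) hi' hy hy' hk
  by_cases h1 : r + 1 + k = p
  swap
  · exact lv_gen hG hp' hn hr hr' (by omega) hi' hy hy' hk h1 (by omega)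
  have line : ∀ c, 1 ≤ c → c ≤ 3 →
      (∀ φ l κ, IsLev X.S (r + 1 + k) φ → T.Ty φ (r + 1 + k) l κ → Psi (r + 1 + k) l κ c = 0) →
      N.Lv y i (r + 1 + k) 0 := fun c c1 c3 h =>
    lv_line hp7 (by omega) hi' hy hy' hr (by omega) (by omega) (by omega)
      (cast_ne_zero' c1 (by omega)) (cast_ne_zero' (by omega) (by omega)) (by
        rintro (e | e)
        · have := cast_eq_cases e (by omega) (by omega); omega
        · have := cast_neg_cases e (by omega); omega) h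
  rcases Nat.eq_zero_or_pos k with rfl | hk0
  · refine (lv_or_zer hp7 (by omega) hi' hy hy' hr (by omega) (by omega) (Or.inl (by omega))
      fun h => hn (h 1 0)).resolve_right fun hz => ?_
    refine N.large hG hp7 hB (i := i) (j := r + 1 - i) (inS_of_le (by omega)) (by omega) (by omega)
      (X.S.F (r + 1 + 0 + 1)) (N.comm_deep (by omega) (by omega) (by omega)
        (St.comm_zero hp7 (by omega) (by omega) (by omega) (by omega) (by omega) (by omega)
          (by omega) hz.2)) ?_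
    rw [N.card_seg (a := r + 1 - i) (b := r + 1) (fun j hj => inS_of_le (by omega)) (by omega)
      le_rfl, N.top' (Nat.lt_succ_self r), if_pos (by omega)]
    refine le_trans ?_ (Nat.mul_le_mul_left _ (card_lt_mul hG (X.S.anti (Nat.le_succ _)) hz.1))
    rw [← mul_assoc, ← pow_succ]
    exact Nat.mul_le_mul_right _ (Nat.pow_le_pow_right hp.out.pos (by omega))
  by_cases hS : inS X.μ k
  · exact line k hk0 (by omega) fun φ l κ hφ t => t.rule hp7 (by omega) hφ hn hS (by omega) rfl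
  simp only [inS] at hS
  obtain ⟨h3, rfl⟩ | ⟨h4, rfl⟩ : (X.μ = 3 ∧ k = 2) ∨ (X.μ = 4 ∧ k = 1) := by omega
  · have h1S : inS X.μ 1 := ⟨le_rfl, by omega, by omega⟩
    refine line 1 le_rfl (by omega) fun φ l κ hφ t => t.rule hp7 (by omega) hφ
      (n := r + 1 + 1) (fun ⟨ψ, hψ, t'⟩ => ?_) h1S (by omega) rfl
    have e := t'.rule hp7 (by omega) hψ hn h1S (by omega) rfl
    have e' : ((r + 1 + 1 : ℕ) : ZMod p) = (2 : ℕ) := by
      simp only [Psi] at e; push_cast at e ⊢; linear_combination e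
    have := cast_eq_cases e' (by omega) (by omega); omega
  · exact hsp h4 (by omega)

end

end Fn

end Pool.Agent.P78
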