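import Pool.Agent.Lib.MP_78c6b1_al.Neg.Spec

/-! The cost of a layer when the Witt part is longer than `p + 14`. -/

set_option autoImplicit false
set_option linter.unusedSectionVars false

namespace Pool.Agent.P78

open scoped commutatorElement
open Finset

variable {p : ℕ} {G : Type} [Group G] [hp : Fact p.Prime] {X : Ctx p G} {r : ℕ}

def PowH (X : Ctx p G) : Prop :=
  ∀ y y' : G, y ∉ X.S.F 2 → y' * y⁻¹ ∈ X.S.F 2 → y ^ p ∈ X.S.F (p + 2) →
    y' ^ p ∈ X.S.F (p + 2) → y' * y⁻¹ ∈ X.S.F 3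

lemma card_zeros (hp7 : 7 ≤ p) {m : ℕ} {l k : ZMod p} (hk : k * m = 0) (hne : l ≠ 0 ∨ k ≠ 0)
    (Z : Finset ℕ) (hZ : ∀ i ∈ Z, 1 ≤ i ∧ i ≤ p + 1 ∧ Psi m l k i = 0) : Z.card ≤ 6 := by
  have h0 : ∀ i ∈ Z, (i : ZMod p) = 0 → i = p := fun i hi h => by
    have := hZ i hi
    have := cast_eq_cases (b := 0) (h.trans Nat.cast_zero.symm) (by omega) (by omega); omega
  by_cases h : ∀ i ∈ Z, (i : ZMod p) = 0
  · exact (card_le_card (t := {p}) fun i hi => by simp [h0 i hi (h i hi)]).trans (by simp)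
  push Not at h
  obtain ⟨j, hj, hj0⟩ := h
  refine (card_le_card (t := {p, j, j + p, j - p, p - j, 2 * p - j}) fun i hi => ?_).trans
    card_le_six
  simp only [mem_insert, mem_singleton]
  by_cases hi0 : (i : ZMod p) = 0
  · exact Or.inl (h0 i hi hi0)
  have a1 := hZ i hi
  have a2 := hZ j hj
  rcases two_zeros hp7 hk hne a1.2.2 a2.2.2 hi0 hj0 with e | e
  · by_cases hij : j < i + p
    · have := cast_eq_cases e (by omega) hij; omega
    · omega
  · have := cast_neg_cases e (by omega); omega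

lemma St.card_zer (T : St X r) (hp7 : 7 ≤ p) {m : ℕ} (hm0 : 77 ≤ m) (hm : m ≤ r + 8)
    (Z : Finset ℕ) (hZ : ∀ i ∈ Z, 1 ≤ i ∧ i ≤ p + 1 ∧ T.Zer m i) : Z.card ≤ 6 := by
  rcases Z.eq_empty_or_nonempty with rfl | ⟨i, hi⟩
  · simp
  obtain ⟨φ, l, k, hφ, t, hne⟩ := T.exists_ty_ne hp7 hm0 hm (hZ i hi).2.2.1
  exact card_zeros hp7 t.1 hne Z fun i hi =>
    ⟨(hZ i hi).1, (hZ i hi).2.1, (hZ i hi).2.2.2 φ l k hφ t⟩

lemma St.pow_large [Finite G] (T : St X r) (hG : IsPGroup p G) (hp' : 11 ≤ p) (hB : Bud p G)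
    (hμ : X.μ = 2) (hz : T.z ∈ X.S.F (T.w + 1)) (hP : PowH X) (M : Subgroup G) [M.Normal] :
    ¬ ∀ y, y ∉ X.S.F 2 → ∃ B, B ≤ X.S.F (p + 2) ∧ (∀ u ∈ B, ⁅y, u⁆ ∈ M) ∧
      p ^ 2 * Nat.card M ≤ Nat.card B := by
  classical
  intro h
  have := Fintype.ofFinite G
  have hw := T.w_ge
  have hw' := T.w_le
  have hl := T.lev 1 le_rfl (by omega)
  have hk : ∀ a, T.ε 1 a = 0 → a ∈ X.S.F 2 := fun a =>
    T.ker 1 le_rfl (by omega) (by omega) a (X.S.mem_one a)
  have c1 : Nat.card G = p * Nat.card (X.S.F 2) := by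
    rw [← T.card_pure hG (by omega) ⟨le_rfl, by omega, by omega⟩ (by omega), X.S.one,
      Subgroup.card_top]
  have c2 : Nat.card (X.S.F 2) = p * Nat.card (X.S.F 3) :=
    T.card_pure hG (by omega) ⟨by omega, by omega, by omega⟩ fun e => by rw [e]; exact hz
  let P : G → Prop := fun y => y ∉ X.S.F 2 ∧ y ^ p ∈ X.S.F (p + 2)
  have c3 : (univ.filter P).card ≤ p * Nat.card (X.S.F 3) := by
    let g : ZMod p → G := fun a => if h : ∃ y, P y ∧ T.ε 1 y = a then h.choose else 1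
    have hg : ∀ y, P y → P (g (T.ε 1 y)) ∧ T.ε 1 (g (T.ε 1 y)) = T.ε 1 y := fun y hy => by
      have : ∃ y', P y' ∧ T.ε 1 y' = T.ε 1 y := ⟨y, hy, rfl⟩
      simp only [g, dif_pos this]
      exact this.choose_spec
    have := Nat.card_le_card_of_injective (fun y : {y // P y} => (T.ε 1 y.1,
      (⟨y.1 * (g (T.ε 1 y.1))⁻¹, hP _ _ (hg _ y.2).1.1 (hk _ (by
        rw [hl.add _ (X.S.mem_one _) _ (X.S.mem_one _), hl.inv (X.S.mem_one _), (hg _ y.2).2,
          add_neg_cancel])) (hg _ y.2).1.2 y.2.2⟩ : X.S.F 3))) (fun a b e => by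
      have h1 : T.ε 1 a.1 = T.ε 1 b.1 := congrArg Prod.fst e
      have h2 : a.1 * (g (T.ε 1 a.1))⁻¹ = b.1 * (g (T.ε 1 b.1))⁻¹ := congrArg (fun t => t.2.1) e
      rw [h1] at h2
      exact Subtype.ext (mul_right_cancel h2))
    rwa [Nat.card_prod, Nat.card_zmod, Nat.card_eq_fintype_card, Fintype.card_subtype] at this
  refine hB.set M (univ.filter fun y => y ∉ X.S.F 2 ∧ y ^ p ∉ X.S.F (p + 2)) 0 ?_ fun y hy => ?_
  · have c4 : Nat.card G ≤ (univ.filter fun y => y ∉ X.S.F 2 ∧ y ^ p ∉ X.S.F (p + 2)).card +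
        (univ.filter P).card + Nat.card (X.S.F 2) := by
      rw [← card_filter_mem, Nat.card_eq_fintype_card, ← card_univ]
      refine le_trans (card_le_card fun y _ => ?_)
        ((card_union_le _ _).trans (Nat.add_le_add_right (card_union_le _ _) _))
      simp only [mem_union, mem_filter, mem_univ, true_and, P]
      tauto
    rw [c1, c2] at c4 ⊢
    nlinarith [Nat.mul_le_mul_right (p * Nat.card (X.S.F 3)) hp']
  · obtain ⟨h1, h2⟩ := (mem_filter.1 hy).2
    obtain ⟨B, b1, b2, b3⟩ := h y h1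
    refine le_trans ?_ (card_cen_two hG h1 (b1.trans (X.S.anti (by omega))) b2
      (hk (y ^ p) (by simp [hl.pow (X.S.mem_one y)])) (fun h => h2 (b1 h))
      (pow_mem (self_mem_cen M y) p))
    calc _ = p ^ 2 * (p ^ 2 * Nat.card M) := by ring
      _ ≤ _ := by gcongr

theorem St.bound_pure [Finite G] (T : St X r) (hG : IsPGroup p G) (hp' : 11 ≤ p) (hB : Bud p G)
    (hμ : X.μ = 2) (hw : T.w ≤ p) (hz : T.z ∈ X.S.F (T.w + 1)) (hP : PowH X) : r ≤ 2 * p + 1 := by
  by_contra hr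
  refine T.pow_large hG hp' hB hμ hz hP (X.S.F (1 + (2 * p + 1) + 1)) fun y _ =>
    ⟨X.S.F (2 * p + 1), X.S.anti (by omega), fun u hu => ?_, le_of_eq ?_⟩
  · refine T.ker _ (by omega) (by omega) (by omega) _ (NSer.comm_mem (X.S.mem_one y) hu) ?_
    rw [T.br 1 _ le_rfl (by omega) (by omega) _ (X.S.mem_one y) _ hu]
    simp
  · rw [T.card_pure hG (i := 2 * p + 1) (by omega) (inS_of_le (by omega)) (by omega),
      T.card_pure hG (i := 2 * p + 1 + 1) (by omega) (inS_of_le (by omega)) (by omega),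
      show 1 + (2 * p + 1) + 1 = 2 * p + 1 + 1 + 1 by ring]
    ring

namespace Fn

variable {T : St X r} (N : Fn T) [Fintype G]

section
variable (hG : IsPGroup p G) (hp' : 50 ≤ p) (hn : ¬ T.Std (r + 1)) (hr : p + 15 ≤ r)
  (hr0 : 80 ≤ r) (hr' : r ≤ 2 * p + 1) (hμ : X.μ = 2) (hx : N.x = 0)
include hp' hn hr hr0 hr' hμ

omit N in
lemma zer_first {i : ℕ} (h : T.Zer (r + 1) i) : r + 1 = 2 * p := by
  have h0 : ((r + 1 : ℕ) : ZMod p) = (0 : ℕ) := by
    by_contra h0
    exact h.1 (T.triv_first (by omega) (by omega) (by omega) hn (by simpa using h0))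
  have := cast_eq_cases h0 (by omega) (by omega)
  omega

omit N in
lemma triv_second (h : r + 1 = 2 * p) : X.S.F (r + 1 + 1) ≤ X.S.F (r + 1 + 1 + 1) := by
  by_contra h'
  rcases T.res_of_nontriv (k := 1) (by omega) (by omega) hn ⟨le_rfl, by omega, by omega⟩ (by omega)
    h' with e | e
  · have := cast_eq_cases e (by omega) (by omega); omega
  · have := cast_neg_cases e (by omega); omega

omit N in
lemma triv_late {k : ℕ} (h : 2 ≤ k) (h' : k < 4) : X.S.F (r + 1 + k) ≤ X.S.F (r + 1 + k + 1) := by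
  obtain ⟨b, rfl⟩ : ∃ b, k = 1 + b := ⟨k - 1, by omega⟩
  exact T.triv_two (by omega) (by omega) hn ⟨by omega, by omega, by omega⟩
    ⟨by omega, by omega, by omega⟩ ⟨by omega, by omega, by omega⟩ (by omega)

omit N in
lemma psi_second : ∀ φ l κ, IsLev X.S (r + 1 + 1) φ → T.Ty φ (r + 1 + 1) l κ →
    Psi (r + 1 + 1) l κ 1 = 0 := fun _ _ _ hφ t =>
  t.rule (by omega) (by omega) hφ hn ⟨le_rfl, by omega, by omega⟩ (by omega) rfl

include hG hx in
open Classical in
theorem boundC {y : G} {i : ℕ} (hi : 1 ≤ i) (hi' : 2 * i ≤ r + 1) (hy : y ∈ N.S i)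
    (hy' : y ∉ N.S (i + 1)) (e : ℕ) (he : i + (if 2 * i + p ≤ r then 1 else 0) +
      (if T.Zer (r + 1) i ∨ T.Zer (r + 1 + 1) i then 1 else 0) ≤ e) :
    Nat.card ↥(cen ⊥ y ⊓ N.S (i + 1)) ≤ p ^ e := by
  have hp7 : 7 ≤ p := by omega
  have l0 : N.Lv y i (r + 1) 0 ∨ T.Zer (r + 1) i := by
    refine lv_or_zer hp7 hi hi' hy hy' hr0 (by omega) (by omega) ?_ fun h => hn (h 1 0)
    by_cases h : X.S.F (r + 1) ≤ X.S.F (r + 1 + 1)
    · exact Or.inr (Or.inr h)
    by_cases h2 : 2 * i < r + 1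
    · exact Or.inl h2
    refine Or.inr (Or.inl ⟨h, fun φ l k _ _ => ?_⟩)
    have h0 : ((r + 1 : ℕ) : ZMod p) = (0 : ℕ) := by
      by_contra h0
      exact h (T.triv_first (by omega) (by omega) (by omega) hn (by simpa using h0))
    have := cast_eq_cases h0 (by omega) (by omega)
    obtain rfl : i = p := by omega
    simp [Psi, h0]
  have l1 : N.Lv y i (r + 1 + 1) 0 ∨ T.Zer (r + 1 + 1) i :=
    lv_or_zer hp7 hi hi' hy hy' hr0 (by omega) (by omega) (Or.inl (by omega)) fun h => by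
      obtain ⟨φ, hφ, t⟩ := h 0 1
      simpa [Psi] using psi_second hp' hn hr hr0 hr' hμ φ 0 1 hφ t
  have nb : ¬ (T.Zer (r + 1) i ∧ T.Zer (r + 1 + 1) i) := fun h =>
    h.2.1 (triv_second hp' hn hr hr0 hr' hμ (zer_first hp' hn hr hr0 hr' hμ h.1))
  refine cy_bound hG (by omega) hr' (T.tail_bot (by omega) (by omega) hn) ⟨hi, by omega, by omega⟩
    hi' hy hy' (fun k => if k ≤ 1 ∧ T.Zer (r + 1 + k) i then 1 else 0) (fun k hk => ?_) e ?_
  · obtain rfl | rfl | h : k = 0 ∨ k = 1 ∨ 2 ≤ k := by omega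
    · split_ifs with h
      · exact Or.inl (T.card_notStd hp7 (by omega) (by omega) hn)
      · exact l0.resolve_right fun h' => h ⟨by omega, h'⟩
    · split_ifs with h
      · exact Or.inl (T.card_zero hp7 (k := 1) (by omega) (by omega) (by simp)
          (psi_second hp' hn hr hr0 hr' hμ))
      · exact l1.resolve_right fun h' => h ⟨by omega, h'⟩
    · exact lv_triv (triv_late hp' hn hr hr0 hr' hμ h hk) _
  · refine le_trans ?_ he
    by_cases z0 : T.Zer (r + 1) i <;> by_cases z1 : T.Zer (r + 1 + 1) i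
    · exact absurd ⟨z0, z1⟩ nb
    all_goals simp [z0, z1, hx]; split_ifs <;> omega

include hG hx in
theorem cost_one (hB : Bud p G) (hz : T.z ∈ X.S.F (T.w + 1)) (hP : PowH X) {C : ℕ}
    (hF : FJ p C G) : N.W 1 ≤ (C + 1) * p ^ 2 * Nat.card G := by
  refine N.atl hG hp' hn hr0 hr' hF ⟨le_rfl, by omega, by omega⟩ (by omega) (fun y hy hy' =>
    N.boundC hG hp' hn hr hr0 hr' hμ hx le_rfl (by omega) hy hy' _ (by split_ifs <;> omega))
    fun h => T.pow_large hG (by omega) hB hμ hz hP ⊥ fun y _ => ⟨cen ⊥ y ⊓ N.S (r - 13),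
      inf_le_right.trans ?_, fun u hu => hu.1, ?_⟩
  · rw [N.eqF hx]; exact X.S.anti (by omega)
  · have := h y (by rw [N.one]; trivial)
    rw [if_pos (by omega), hμ, cod_two] at this
    rw [Subgroup.card_bot, mul_one]
    refine Nat.le_of_mul_le_mul_left (le_trans (le_of_eq ?_) this) (pow_pos hp.out.pos 1)
    ring

include hG hx in
theorem cost_zer (hB : Bud p G) (hz : T.z ∈ X.S.F (T.w + 1))
    (hR : r + 1 = 2 * p → X.S.F (2 * p + 1) = ⊥ → Nat.card (X.S.F (2 * p)) ≤ p →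
      ∀ i j, 2 ≤ i → 2 * i < p → i + j = 2 * p → (∀ a ∈ X.S.F i, ∀ b ∈ X.S.F j, ⁅a, b⁆ = 1) →
        (∀ y ∈ X.S.F i, ∃ u ∈ X.S.F (i + p), T.ε (i + p) u = T.ε i y ∧ ⁅y, u⁆ = 1) ∨
        p * Nat.card {y : G // y ∈ X.S.F i ∧ y ∉ X.S.F (i + 1) ∧
          ∃ u ∈ X.S.F (i + p), u ∉ X.S.F (i + p + 1) ∧ ⁅y, u⁆ = 1} ≤ 2 * Nat.card (X.S.F i))
    {i : ℕ} (hi : 2 ≤ i) (hi' : 2 * i ≤ r + 1) : N.W i ≤ (2 + 1) * p ^ 2 * Nat.card G := by
  classical
  have hp7 : 7 ≤ p := by omega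
  have hσ := N.le_σ
  have hcod : wcod X.μ i = i - 1 := by rw [hμ, cod_two]
  by_cases h : 2 * i + p ≤ r ∧ (T.Zer (r + 1) i ∨ T.Zer (r + 1 + 1) i)
  swap
  · refine (N.W_le (by omega) (by omega) 2 fun y hy hy' =>
      N.boundC hG hp' hn hr hr0 hr' hμ hx (by omega) hi' hy hy' _ ?_).trans
      (Nat.mul_le_mul_right _ (by omega))
    split_ifs with h1 h2
    · exact absurd ⟨h1, h2⟩ h
    all_goals omega
  obtain ⟨h1, h2⟩ := h
  have z0 : T.Zer (r + 1) i := h2.resolve_right fun z1 => by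
    obtain ⟨φ, l, k, hφ, t, hne⟩ := T.exists_ty_ne hp7 (by omega) (by omega) z1.1
    rcases two_zeros hp7 t.1 hne (z1.2 φ l k hφ t) (psi_second hp' hn hr hr0 hr' hμ φ l k hφ t)
      (cast_ne_zero' (by omega) (by omega)) (by simp) with e | e
    · have := cast_eq_cases e (by omega) (by omega); omega
    · have := cast_neg_cases e (by omega); omega
  have h2p := zer_first hp' hn hr hr0 hr' hμ z0
  have hbot5 := T.tail_bot (by omega) (by omega) hn
  have hbot : X.S.F (r + 1 + 1) = ⊥ := eq_bot_iff.2 ((triv_second hp' hn hr hr0 hr' hμ h2p).trans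
    ((triv_late hp' hn hr hr0 hr' hμ (k := 2) le_rfl (by omega)).trans
    ((triv_late hp' hn hr hr0 hr' hμ (k := 3) (by omega) (by omega)).trans hbot5.le)))
  have hc := T.card_notStd hp7 (by omega) (by omega) hn
  rw [hbot, Subgroup.card_bot, mul_one] at hc
  obtain ⟨j, hj⟩ : ∃ j, i + j = r + 1 := ⟨r + 1 - i, by omega⟩
  have hzero := St.comm_zero hp7 (m := r + 1) (i := i) (j := j) (by omega) (by omega) (by omega)
    (by omega) (by omega) (by omega) hj z0.2
  rw [hbot] at hzero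
  rcases hR h2p (by rw [← h2p, hbot]) (by rw [← h2p]; simpa using hc) i j hi (by omega) (by omega)
    hzero with h | h
  · refine (N.large' hG hp7 hB (i := i) ⟨by omega, by omega, by omega⟩ (by omega)
      fun y hy hy' => ?_).elim
    rw [N.eqF hx] at hy hy'
    obtain ⟨u, hu, e1, e2⟩ := h y hy
    refine le_trans ?_ (card_cen_two hG (B := X.S.F j) hy' (X.S.anti (by omega)) (hzero y hy)
      (X.S.anti (by omega) hu) (fun hj' => hy' ?_) e2)
    · have := N.card_seg (a := j) (b := r + 1) (fun a ha => inS_of_le (by omega)) (by omega) le_rfl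
      rw [hx, ite_self, N.eqF hx, N.eqF hx] at this
      have c := card_lt_mul hG (X.S.anti (Nat.le_succ _)) z0.1
      rw [Nat.succ_eq_add_one, hbot, Subgroup.card_bot, mul_one] at c
      rw [this, ← mul_assoc, ← pow_add]
      refine le_trans ?_ (Nat.mul_le_mul_left _ c)
      rw [← pow_succ]
      exact Nat.pow_le_pow_right hp.out.pos (by omega)
    · refine T.ker' (by omega) (by omega) le_rfl (fun e => by subst e; exact hz) hy ?_
      rw [← e1]
      exact (T.lev _ (by omega) (by omega)).zero _ (X.S.anti (by omega) hj')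
  · refine N.W_le' (by omega) (by omega) 2 2 _ (by rw [N.eqF hx]; exact h) fun y hy hy' =>
      ⟨N.boundC hG hp' hn hr hr0 hr' hμ hx (by omega) hi' hy hy' _ (by split_ifs <;> omega),
        fun hY => ?_⟩
    have ha : N.Act y (i + p) := fun hle => by
      have := hle (N.le _ (T.e_mem (i + p) (by omega)))
      rw [← SetLike.mem_coe, Subgroup.mul_normal] at this
      obtain ⟨c, hc, s, hs, e⟩ := this
      simp only [N.eqF hx] at hc hs hy hy'
      refine hY ⟨hy, hy', c, hc.2, fun hc' => ?_, hc.1⟩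
      exact T.e_not_mem (i := i + p) (by omega) (inS_of_le (by omega)) (e ▸ mul_mem hc' hs)
    refine cy_core hG (by omega) hr' hbot5 ⟨by omega, by omega, by omega⟩ hi' hy hy' {i + p} 0
      (fun a ha' => ?_) (by simpa using hc) _ ?_
    · obtain rfl := mem_singleton.1 ha'
      exact ⟨by omega, by omega, by omega, ha⟩
    · split_ifs <;> omega

end

end Fn

end Pool.Agent.P78
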