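import Mathlib

/-! Counting commuting pairs along a chain of normal subgroups. -/

set_option autoImplicit false
set_option linter.unusedSectionVars false

namespace Pool.Agent.P78

open scoped commutatorElement
open Finset

variable {G : Type} [Group G]

/-- elements commuting with `y` modulo `M` -/
def cen (M : Subgroup G) [hM : M.Normal] (y : G) : Subgroup G where
  carrier := {u | ⁅y, u⁆ ∈ M}
  one_mem' := by simp
  mul_mem' := fun {a b} ha hb => by
    show ⁅y, a * b⁆ ∈ M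
    rw [commutatorElement_mul_right_eq_mul_conj, mul_assoc, mul_assoc, ← mul_assoc a]
    exact mul_mem ha (hM.conj_mem _ hb a)
  inv_mem' := fun {a} ha => by
    show ⁅y, a⁻¹⁆ ∈ M
    have := hM.conj_mem _ (inv_mem ha) a⁻¹
    convert this using 1
    simp [commutatorElement_def, mul_assoc]

lemma mem_cen {M : Subgroup G} [M.Normal] {y u : G} : u ∈ cen M y ↔ ⁅y, u⁆ ∈ M := Iff.rfl

lemma self_mem_cen (M : Subgroup G) [M.Normal] (y : G) : y ∈ cen M y := by simp [mem_cen]

lemma cen_symm {M : Subgroup G} [M.Normal] {y u : G} : u ∈ cen M y ↔ y ∈ cen M u := by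
  rw [mem_cen, mem_cen, ← commutatorElement_inv, inv_mem_iff]

lemma cen_bot (y : G) : cen ⊥ y = Subgroup.centralizer {y} := by
  ext u
  rw [mem_cen, Subgroup.mem_bot, commutatorElement_eq_one_iff_mul_comm,
    Subgroup.mem_centralizer_singleton_iff, eq_comm]

/-- pairs commuting modulo `M` -/
noncomputable def cp (M : Subgroup G) : ℕ := Nat.card {x : G × G // ⁅x.1, x.2⁆ ∈ M}

/-- every quotient has fewer than `0.8 p ^ 4` classes -/
def Bud (p : ℕ) (G : Type) [Group G] : Prop :=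
  ∀ (M : Subgroup G) [M.Normal], 10 * cp M < 8 * p ^ 4 * Nat.card G * Nat.card M

lemma card_preimage_hom {H K : Type*} [Group H] [Group K] (f : H →* K)
    (hf : Function.Surjective f) (t : Set K) : Nat.card (f ⁻¹' t) = Nat.card f.ker * Nat.card t := by
  have e : f ⁻¹' t = QuotientGroup.mk ⁻¹'
      ((QuotientGroup.quotientKerEquivOfSurjective f hf) ⁻¹' t) := rfl
  rw [e, QuotientGroup.card_preimage_mk]
  congr 1
  exact Nat.card_congr ((QuotientGroup.quotientKerEquivOfSurjective f hf).toEquiv.subtypeEquiv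
    fun _ => Iff.rfl)

lemma cp_bot : cp (⊥ : Subgroup G) = Nat.card (ConjClasses G) * Nat.card G := by
  rw [← card_comm_eq_card_conjClasses_mul_card]
  exact Nat.card_congr (Equiv.subtypeEquivRight fun x => by
    rw [Subgroup.mem_bot, commutatorElement_eq_one_iff_commute])

lemma cp_comap {Q : Type} [Group Q] (π : G →* Q) (hπ : Function.Surjective π) (M : Subgroup Q) :
    cp (M.comap π) = Nat.card π.ker ^ 2 * cp M := by
  have h := card_preimage_hom (π.prodMap π) (hπ.prodMap hπ) {x | ⁅x.1, x.2⁆ ∈ M}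
  rw [MonoidHom.ker_prodMap, Nat.card_congr (Subgroup.prodEquiv _ _).toEquiv, Nat.card_prod] at h
  rw [sq, cp, cp]
  refine Eq.trans ?_ h
  exact Nat.card_congr (Equiv.subtypeEquivRight fun x => by
    simp [Subgroup.mem_comap, map_commutatorElement])

lemma cp_eq (M : Subgroup G) [M.Normal] :
    cp M = Nat.card (ConjClasses (G ⧸ M)) * Nat.card G * Nat.card M := by
  have h := cp_comap (QuotientGroup.mk' M) (QuotientGroup.mk'_surjective M) ⊥
  rw [MonoidHom.comap_bot, QuotientGroup.ker_mk', cp_bot] at h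
  rw [h, M.card_eq_card_quotient_mul_card_subgroup]; ring

lemma classes_quot_le [Finite G] {Q : Type} [Group Q] (π : G →* Q) (hπ : Function.Surjective π) :
    Nat.card (ConjClasses Q) ≤ Nat.card (ConjClasses G) :=
  Nat.card_le_card_of_surjective _ (ConjClasses.map_surjective hπ)

lemma bud_of_classes [Finite G] {p : ℕ} (h : 10 * Nat.card (ConjClasses G) < 8 * p ^ 4) :
    Bud p G := by
  intro M _
  have h1 := classes_quot_le (QuotientGroup.mk' M) (QuotientGroup.mk'_surjective M)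
  rw [cp_eq, ← mul_assoc, ← mul_assoc]
  exact Nat.mul_lt_mul_of_pos_right (Nat.mul_lt_mul_of_pos_right (by omega) Nat.card_pos)
    Nat.card_pos

variable [Finite G] {p : ℕ}

omit [Finite G] in
lemma card_relIndex {H K : Subgroup G} (h : H ≤ K) : Nat.card H * H.relIndex K = Nat.card K := by
  rw [← Subgroup.card_mul_index (H.subgroupOf K),
    Nat.card_congr (Subgroup.subgroupOfEquivOfLe h).toEquiv]
  rfl

lemma card_lt_mul [hp : Fact p.Prime] (hG : IsPGroup p G) {H K : Subgroup G} (h : H ≤ K)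
    (h' : ¬ K ≤ H) : p * Nat.card H ≤ Nat.card K := by
  obtain ⟨n, hn⟩ := (hG.to_subgroup K).index (H.subgroupOf K)
  have h1 : H.relIndex K ≠ 1 := fun e => h' (Subgroup.relIndex_eq_one.1 e)
  rw [← card_relIndex h, mul_comm]
  refine Nat.mul_le_mul_left _ ?_
  change H.relIndex K = p ^ n at hn
  rw [hn] at h1 ⊢
  rcases n with _ | n
  · simp at h1
  · exact Nat.le_self_pow (by omega) p

lemma card_le_of_fun {A : Type*} [AddGroup A] [Finite A] {H K : Subgroup G} (f : G → A)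
    (hf : ∀ a ∈ K, ∀ b ∈ K, f (a * b) = f a + f b) (hk : ∀ a ∈ K, f a = 0 → a ∈ H) :
    Nat.card K ≤ Nat.card A * Nat.card H := by
  let φ : K →* Multiplicative A := MonoidHom.mk' (fun a => Multiplicative.ofAdd (f a))
    (fun a b => by rw [← ofAdd_add, ← hf a a.2 b b.2]; rfl)
  rw [← φ.ker.card_mul_index, mul_comm]
  refine Nat.mul_le_mul ?_ ?_
  · rw [Subgroup.index_ker]
    exact Nat.card_le_card_of_injective (fun x => Multiplicative.toAdd x.1)
      (fun x y h => Subtype.ext (Multiplicative.toAdd.injective h))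
  · exact Nat.card_le_card_of_injective (fun x => (⟨x.1.1, hk _ x.1.2 x.2⟩ : H))
      (fun x y h => Subtype.ext (Subtype.ext (congrArg (fun t : H => t.1) h)))

lemma card_le_of_pow (hp : 0 < p) {H K : Subgroup G} {z : G} (hz : z ^ p ∈ H)
    (hk : ∀ a ∈ K, ∃ n : ℕ, a * (z ^ n)⁻¹ ∈ H) : Nat.card K ≤ p * Nat.card H := by
  have hk' : ∀ a : K, ∃ n : Fin p, a.1 * (z ^ n.1)⁻¹ ∈ H := fun a => by
    obtain ⟨n, hn⟩ := hk a a.2
    refine ⟨⟨n % p, Nat.mod_lt _ hp⟩, ?_⟩
    have := mul_mem hn (pow_mem hz (n / p))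
    have e : z ^ n = (z ^ p) ^ (n / p) * z ^ (n % p) := by
      rw [← pow_mul, ← pow_add, Nat.div_add_mod]
    have e2 : z ^ n = z ^ (n % p) * (z ^ p) ^ (n / p) := by
      rw [← pow_mul, ← pow_add, Nat.mod_add_div]
    have e3 : (z ^ n)⁻¹ * (z ^ p) ^ (n / p) = (z ^ (n % p))⁻¹ := by
      rw [inv_mul_eq_iff_eq_mul, e, mul_inv_cancel_right]
    rwa [mul_assoc, e3] at this
  choose n hn using hk'
  have := Nat.card_le_card_of_injective (fun a : K => (n a, (⟨_, hn a⟩ : H))) (fun a b h => by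
    have h1 : n a = n b := congrArg Prod.fst h
    have h2 : a.1 * (z ^ (n a).1)⁻¹ = b.1 * (z ^ (n b).1)⁻¹ := congrArg (fun t => t.2.1) h
    rw [h1] at h2
    exact Subtype.ext (mul_right_cancel h2))
  simpa using this

lemma card_inf_sup (C H : Subgroup G) [H.Normal] :
    Nat.card C * Nat.card H = Nat.card ↥(C ⊓ H) * Nat.card ↥(C ⊔ H) := by
  rw [← card_relIndex (inf_le_left : C ⊓ H ≤ C), ← card_relIndex (le_sup_right : H ≤ C ⊔ H),
    Subgroup.relIndex_sup_right, Subgroup.inf_relIndex_left]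
  ring

/-- the triangular bound for a subgroup along a chain -/
lemma tri_bound [hp : Fact p.Prime] (hG : IsPGroup p G) (S : ℕ → Subgroup G)
    (hn : ∀ i, (S i).Normal) (hS : Antitone S) (C : Subgroup G) (a b : ℕ) (hab : a ≤ b)
    (J : Finset ℕ) (hJ : ∀ j ∈ J, a ≤ j ∧ j < b ∧ ¬ S j ≤ (C ⊓ S j) ⊔ S (j + 1)) :
    Nat.card ↥(C ⊓ S a) * p ^ J.card * Nat.card (S b) ≤ Nat.card ↥(C ⊓ S b) * Nat.card (S a) := by
  induction b, hab using Nat.le_induction generalizing J with
  | base =>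
    have : J = ∅ := eq_empty_of_forall_notMem fun j hj => by have := hJ j hj; omega
    simp [this]
  | succ b hab ih =>
    have h1 := ih (J.erase b) fun j hj => by
      obtain ⟨h, hj⟩ := mem_erase.1 hj
      exact ⟨(hJ j hj).1, by have := (hJ j hj).2.1; omega, (hJ j hj).2.2⟩
    have := hn (b + 1)
    have h2 := card_inf_sup (C ⊓ S b) (S (b + 1))
    rw [inf_assoc, inf_eq_right.2 (hS (Nat.le_succ b))] at h2
    have hle : (C ⊓ S b) ⊔ S (b + 1) ≤ S b := sup_le inf_le_right (hS (Nat.le_succ b))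
    obtain ⟨t, ht, ht'⟩ : ∃ t, p ^ J.card = p ^ (J.erase b).card * t ∧
        t * Nat.card ↥((C ⊓ S b) ⊔ S (b + 1)) ≤ Nat.card (S b) := by
      by_cases hb : b ∈ J
      · exact ⟨p, by rw [← pow_succ, card_erase_add_one hb], card_lt_mul hG hle (hJ b hb).2.2⟩
      · exact ⟨1, by rw [erase_eq_of_notMem hb, mul_one], by
          rw [one_mul]; exact Subgroup.card_le_of_le hle⟩
    refine Nat.le_of_mul_le_mul_right ?_ (Nat.card_pos (α := S b))
    calc _ = (Nat.card ↥(C ⊓ S a) * p ^ (J.erase b).card * Nat.card (S b)) *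
          (t * Nat.card (S (b + 1))) := by rw [ht]; ring
      _ ≤ (Nat.card ↥(C ⊓ S b) * Nat.card (S a)) * (t * Nat.card (S (b + 1))) := by gcongr
      _ = Nat.card (S a) * t * (Nat.card ↥(C ⊓ S b) * Nat.card (S (b + 1))) := by ring
      _ = Nat.card ↥(C ⊓ S (b + 1)) * Nat.card (S a) *
          (t * Nat.card ↥((C ⊓ S b) ⊔ S (b + 1))) := by rw [h2]; ring
      _ ≤ _ := by gcongr

omit [Finite G] in
lemma act_of {H K M : Subgroup G} [K.Normal] [M.Normal] {y u : G} (hu : u ∈ H)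
    (hy : ∀ v ∈ K, ⁅y, v⁆ ∈ M) (h : ⁅y, u⁆ ∉ M) : ¬ H ≤ (cen ⊥ y ⊓ H) ⊔ K := fun hle =>
  h ((sup_le (fun v hv => by
    have : ⁅y, v⁆ = 1 := hv.1
    rw [mem_cen, this]; exact one_mem _) hy : _ ≤ cen M y) (hle hu))

section sums
variable [Fintype G]
open Classical

noncomputable def layer (H K : Subgroup G) : Finset G := univ.filter fun y => y ∈ H ∧ y ∉ K

lemma mem_layer {H K : Subgroup G} {y : G} : y ∈ layer H K ↔ y ∈ H ∧ y ∉ K := by simp [layer]

lemma card_filter_mem (H : Subgroup G) : (univ.filter fun y => y ∈ H).card = Nat.card H := by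
  rw [Nat.card_eq_fintype_card, Fintype.card_subtype]

lemma filter_eq_union {H K : Subgroup G} (h : K ≤ H) :
    (univ.filter fun y => y ∈ H) = layer H K ∪ univ.filter fun y => y ∈ K := by
  ext y
  simp only [mem_filter, mem_univ, true_and, mem_union, mem_layer]
  constructor
  · intro hy; by_cases hk : y ∈ K <;> simp [hy, hk]
  · rintro (hy | hy); exacts [hy.1, h hy]

lemma layer_disj (H K : Subgroup G) : Disjoint (layer H K) (univ.filter fun y => y ∈ K) :=
  disjoint_left.2 fun y hy hk => (mem_layer.1 hy).2 (mem_filter.1 hk).2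

lemma card_layer {H K : Subgroup G} (h : K ≤ H) : (layer H K).card + Nat.card K = Nat.card H := by
  rw [← card_filter_mem H, filter_eq_union h, card_union_of_disjoint (layer_disj H K),
    card_filter_mem]

lemma cp_eq_sum (M : Subgroup G) [M.Normal] : cp M = ∑ y, Nat.card (cen M y) := by
  rw [cp, Nat.card_congr (Equiv.subtypeProdEquivSigmaSubtype fun a b : G => ⁅a, b⁆ ∈ M),
    Nat.card_sigma]
  rfl

lemma card_cen_inf (y : G) (K : Subgroup G) :
    Nat.card ↥(cen ⊥ y ⊓ K) = ∑ u with u ∈ K, if u ∈ cen ⊥ y then 1 else 0 := by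
  rw [← card_filter_mem, ← card_filter, filter_filter]
  congr 1
  ext u
  simp [and_comm]

lemma swap_sum (Y : Finset G) (H : Subgroup G) :
    ∑ y with y ∈ H, (∑ u ∈ Y, if u ∈ cen ⊥ y then 1 else 0) =
      ∑ u ∈ Y, Nat.card ↥(cen ⊥ u ⊓ H) := by
  rw [sum_comm]
  refine sum_congr rfl fun u _ => ?_
  rw [card_cen_inf]
  exact sum_congr rfl fun y _ => by simp only [cen_symm (y := y)]

lemma upper_step {H K : Subgroup G} [K.Normal] (h : K ≤ H) (hc : Nat.card H ≤ p * Nat.card K) :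
    ∑ y with y ∈ H, Nat.card ↥(cen ⊥ y ⊓ H) ≤ (p + 1) * ∑ y ∈ layer H K, Nat.card ↥(cen ⊥ y ⊓ K) +
      ∑ y with y ∈ K, Nat.card ↥(cen ⊥ y ⊓ K) := by
  rw [filter_eq_union h, sum_union (layer_disj H K)]
  have h1 : ∑ y ∈ layer H K, Nat.card ↥(cen ⊥ y ⊓ H) ≤
      p * ∑ y ∈ layer H K, Nat.card ↥(cen ⊥ y ⊓ K) := by
    rw [mul_sum]
    refine sum_le_sum fun y _ => ?_
    have h2 := card_inf_sup (cen ⊥ y ⊓ H) K
    rw [inf_assoc, inf_eq_right.2 h] at h2
    have h3 := Subgroup.card_le_of_le (sup_le inf_le_right h : (cen ⊥ y ⊓ H) ⊔ K ≤ H)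
    refine Nat.le_of_mul_le_mul_right ?_ (Nat.card_pos (α := K))
    rw [h2, mul_comm p, mul_assoc]
    exact Nat.mul_le_mul_left _ (h3.trans hc)
  have h2 : ∑ y with y ∈ K, Nat.card ↥(cen ⊥ y ⊓ H) =
      ∑ y ∈ layer H K, Nat.card ↥(cen ⊥ y ⊓ K) + ∑ y with y ∈ K, Nat.card ↥(cen ⊥ y ⊓ K) := by
    rw [← swap_sum (layer H K) K, ← sum_add_distrib]
    refine sum_congr rfl fun y _ => ?_
    rw [card_cen_inf, card_cen_inf, filter_eq_union h, sum_union (layer_disj H K)]
  rw [h2]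
  nlinarith

theorem upper_bound (S : ℕ → Subgroup G) (hn : ∀ i, (S i).Normal) (hS : Antitone S)
    (h1 : S 1 = ⊤) (n : ℕ) (hn1 : 1 ≤ n)
    (hc : ∀ i, 1 ≤ i → i < n → Nat.card (S i) ≤ p * Nat.card (S (i + 1))) :
    cp (⊥ : Subgroup G) ≤ (p + 1) * ∑ i ∈ Ico 1 n, ∑ y ∈ layer (S i) (S (i + 1)),
      Nat.card ↥(cen ⊥ y ⊓ S (i + 1)) + Nat.card (S n) ^ 2 := by
  have key : cp (⊥ : Subgroup G) ≤ (p + 1) * ∑ i ∈ Ico 1 n, ∑ y ∈ layer (S i) (S (i + 1)),
      Nat.card ↥(cen ⊥ y ⊓ S (i + 1)) + ∑ y with y ∈ S n, Nat.card ↥(cen ⊥ y ⊓ S n) := by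
    induction n, hn1 using Nat.le_induction with
    | base => simp [cp_eq_sum, h1]
    | succ n hn1 ih =>
      have := hn (n + 1)
      have h2 := upper_step (hS (Nat.le_succ n)) (hc n hn1 (by omega))
      have h3 := ih fun i h h' => hc i h (by omega)
      rw [sum_Ico_succ_top hn1, mul_add]
      simp only [Nat.succ_eq_add_one] at h2
      omega
  refine key.trans (Nat.add_le_add_left ?_ _)
  rw [sq, ← card_filter_mem (S n), ← smul_eq_mul]
  refine sum_le_card_nsmul _ _ _ fun y _ => ?_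
  rw [card_filter_mem]
  exact Subgroup.card_le_of_le inf_le_right

lemma lower_bound (M : Subgroup G) [M.Normal] (S : ℕ → Subgroup G) (hS : Antitone S)
    (I : Finset ℕ) : ∑ i ∈ I, ∑ y ∈ layer (S i) (S (i + 1)), Nat.card (cen M y) ≤ cp M := by
  rw [cp_eq_sum, ← sum_biUnion]
  · exact sum_le_sum_of_subset (subset_univ _)
  · intro i _ j _ hij
    refine disjoint_left.2 fun y hi hj => ?_
    rw [mem_layer] at hi hj
    rcases lt_or_gt_of_ne hij with h | h
    exacts [hi.2 (hS h hj.1), hj.2 (hS h hi.1)]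

lemma Bud.set (h : Bud p G) (M : Subgroup G) [M.Normal] (Y : Finset G) (c : ℕ)
    (hY : 8 * Nat.card G ≤ 10 * p ^ c * Y.card)
    (hc : ∀ y ∈ Y, p ^ (4 + c) * Nat.card M ≤ Nat.card (cen M y)) : False := by
  have h1 := h M
  have h2 : Y.card * (p ^ (4 + c) * Nat.card M) ≤ cp M := by
    rw [cp_eq_sum, ← smul_eq_mul]
    exact (card_nsmul_le_sum _ _ _ hc).trans (sum_le_sum_of_subset (subset_univ _))
  have h3 : 8 * p ^ 4 * Nat.card G * Nat.card M ≤ 10 * (Y.card * (p ^ (4 + c) * Nat.card M)) :=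
    calc _ = 8 * Nat.card G * (p ^ 4 * Nat.card M) := by ring
      _ ≤ 10 * p ^ c * Y.card * (p ^ 4 * Nat.card M) := by gcongr
      _ = _ := by ring
  omega

end sums

lemma card_cen_ge [Fact p.Prime] (hG : IsPGroup p G) {M B : Subgroup G} [M.Normal] {y : G}
    (hy : y ∉ B) (hB : ∀ u ∈ B, ⁅y, u⁆ ∈ M) : p * Nat.card B ≤ Nat.card (cen M y) :=
  card_lt_mul hG hB fun h => hy (h (self_mem_cen M y))

/-- the basic largeness criterion -/
lemma Bud.large [Fact p.Prime] (hG : IsPGroup p G) (hp : 5 ≤ p) (h : Bud p G)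
    {M B J' J : Subgroup G} [M.Normal] (hB : B ≤ J') (hJ : J' ≤ J) (hJ' : ¬ J ≤ J')
    (hc : ∀ y ∈ J, ∀ u ∈ B, ⁅y, u⁆ ∈ M) (c : ℕ) (h1 : Nat.card G ≤ p ^ c * Nat.card J)
    (h2 : p ^ (3 + c) * Nat.card M ≤ Nat.card B) : False := by
  have := Fintype.ofFinite G
  refine h.set M (layer J J') c ?_ fun y hy => ?_
  · have e1 := card_layer hJ
    have e2 := card_lt_mul hG hJ hJ'
    have : 8 * Nat.card J ≤ 10 * (layer J J').card := by nlinarith
    calc _ ≤ 8 * (p ^ c * Nat.card J) := by gcongr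
      _ = p ^ c * (8 * Nat.card J) := by ring
      _ ≤ p ^ c * (10 * (layer J J').card) := by gcongr
      _ = _ := by ring
  · rw [mem_layer] at hy
    refine le_trans ?_ (card_cen_ge hG (fun hb => hy.2 (hB hb)) (hc y hy.1))
    rw [show 4 + c = (3 + c) + 1 by ring, pow_succ', mul_assoc]
    gcongr

end Pool.Agent.P78
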