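import Pool.Agent.Lib.MP_78c6b1_al.Neg.CaseA

/-! Total cost of a layer. -/

set_option autoImplicit false
set_option linter.unusedSectionVars false

namespace Pool.Agent.P78

open scoped commutatorElement
open Finset

variable {p : ℕ} {G : Type} [Group G] [hp : Fact p.Prime] {X : Ctx p G} {r : ℕ}

/-- the first jump property with constant `C` -/
def FJ (p C : ℕ) (G : Type) [Group G] : Prop :=
  ∀ (A H : Subgroup G) [A.Normal], (∀ a ∈ A, ∀ b ∈ A, a * b = b * a) → Nat.card A ≤ p ^ 20 →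
    ∃ y₀ ∈ H, (∀ y ∈ H, Nat.card ↥(A ⊓ Subgroup.centralizer {y₀}) ≤
        Nat.card ↥(A ⊓ Subgroup.centralizer {y})) ∧
      p * Nat.card {y : G // y ∈ H ∧ Nat.card ↥(A ⊓ Subgroup.centralizer {y₀}) <
        Nat.card ↥(A ⊓ Subgroup.centralizer {y})} ≤ C * Nat.card H

lemma card_le_comm [Finite G] {K B : Subgroup G} (hK : ∀ k ∈ K, ∀ g, g * k * g⁻¹ = k) {y : G}
    (h : ∀ u ∈ B, ⁅y, u⁆ ∈ K) : Nat.card B ≤ Nat.card K * Nat.card ↥(cen ⊥ y ⊓ B) := by
  classical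
  refine card_le_of_fun (A := Additive K)
    (fun u => if h : ⁅y, u⁆ ∈ K then Additive.ofMul ⟨_, h⟩ else 0) (fun a ha b hb => ?_)
    fun a ha h0 => ⟨?_, ha⟩
  · simp only [dif_pos (h a ha), dif_pos (h b hb), dif_pos (h _ (mul_mem ha hb))]
    rw [← ofMul_mul]
    congr 1
    refine Subtype.ext ?_
    show ⁅y, a * b⁆ = ⁅y, a⁆ * ⁅y, b⁆
    rw [commutatorElement_mul_right_eq_mul_conj, mul_assoc, mul_assoc, ← mul_assoc a,
      hK _ (h b hb)]
  · simp only [dif_pos (h a ha), ofMul_eq_zero] at h0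
    exact congrArg Subtype.val h0

lemma card_cen_two [Finite G] (hG : IsPGroup p G) {M B K : Subgroup G} [M.Normal] {y u : G}
    (hy : y ∉ K) (hBK : B ≤ K) (hB : ∀ v ∈ B, ⁅y, v⁆ ∈ M) (hu : u ∈ K) (hu' : u ∉ B)
    (hc : ⁅y, u⁆ ∈ M) : p ^ 2 * Nat.card B ≤ Nat.card (cen M y) := by
  have h1 := card_lt_mul hG (H := B) (K := cen M y ⊓ K) (le_inf hB hBK) fun h => hu' (h ⟨hc, hu⟩)
  have h2 := card_cen_ge hG (M := M) (B := cen M y ⊓ K) (fun h => hy h.2) fun v hv => hv.1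
  calc _ = p * (p * Nat.card B) := by ring
    _ ≤ p * Nat.card ↥(cen M y ⊓ K) := by gcongr
    _ ≤ _ := h2

namespace Fn

variable {T : St X r} (N : Fn T) [Fintype G]

noncomputable def W (i : ℕ) : ℕ :=
  ∑ y ∈ layer (N.S i) (N.S (i + 1)), Nat.card ↥(cen ⊥ y ⊓ N.S (i + 1))

lemma W_gap {i : ℕ} (h1 : 1 ≤ i) (hi : i < N.σ) (hS : ¬ inS X.μ i) : N.W i = 0 := by
  have h := N.card i h1 (by have := N.σ_le; omega)
  rw [if_neg hS, if_neg hi.ne] at h
  have e := Subgroup.eq_of_le_of_card_ge (N.anti (Nat.le_succ i)) (by simpa using h.le)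
  refine sum_eq_zero fun y hy => ?_
  rw [mem_layer] at hy
  exact absurd (e ▸ hy.1) hy.2

lemma W_le' {i : ℕ} (h1 : 1 ≤ i) (hi : i ≤ N.σ) (t C : ℕ) (Y : G → Prop)
    (hY : p * Nat.card {y // Y y} ≤ C * Nat.card (N.S i))
    (h : ∀ y ∈ N.S i, y ∉ N.S (i + 1) →
      Nat.card ↥(cen ⊥ y ⊓ N.S (i + 1)) ≤ p ^ (t + 1 + wcod X.μ i) ∧
        (¬ Y y → Nat.card ↥(cen ⊥ y ⊓ N.S (i + 1)) ≤ p ^ (t + wcod X.μ i))) :
    N.W i ≤ (C + 1) * p ^ t * Nat.card G := by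
  classical
  have h2 : N.W i ≤ ∑ y ∈ layer (N.S i) (N.S (i + 1)),
      (p ^ (t + wcod X.μ i) + if Y y then p ^ (t + 1 + wcod X.μ i) else 0) := by
    refine sum_le_sum fun y hy => ?_
    rw [mem_layer] at hy
    have := h y hy.1 hy.2
    split_ifs with hc
    · omega
    · simpa using this.2 hc
  rw [sum_add_distrib, ← sum_filter, sum_const, sum_const, smul_eq_mul, smul_eq_mul] at h2
  have h3 : (layer (N.S i) (N.S (i + 1))).card ≤ Nat.card (N.S i) := by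
    have := card_layer (N.anti (Nat.le_succ i)); simp only [Nat.succ_eq_add_one] at this; omega
  have h4 : ((layer (N.S i) (N.S (i + 1))).filter Y).card ≤ Nat.card {y // Y y} := by
    rw [Nat.card_eq_fintype_card, Fintype.card_subtype]
    exact card_le_card (filter_subset_filter _ (subset_univ _))
  rw [N.card_top h1 hi]
  calc _ ≤ _ := h2
    _ ≤ Nat.card (N.S i) * p ^ (t + wcod X.μ i) +
        Nat.card {y // Y y} * p ^ (t + 1 + wcod X.μ i) := by gcongr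
    _ = Nat.card (N.S i) * p ^ (t + wcod X.μ i) +
        p * Nat.card {y // Y y} * p ^ (t + wcod X.μ i) := by ring
    _ ≤ Nat.card (N.S i) * p ^ (t + wcod X.μ i) +
        C * Nat.card (N.S i) * p ^ (t + wcod X.μ i) := by gcongr
    _ = _ := by ring

lemma W_le {i : ℕ} (h1 : 1 ≤ i) (hi : i ≤ N.σ) (t : ℕ)
    (h : ∀ y ∈ N.S i, y ∉ N.S (i + 1) → Nat.card ↥(cen ⊥ y ⊓ N.S (i + 1)) ≤ p ^ (t + wcod X.μ i)) :
    N.W i ≤ p ^ t * Nat.card G := by
  simpa using N.W_le' h1 hi t 0 (fun _ => False) (by simp) fun y hy hy' =>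
    ⟨(h y hy hy').trans (Nat.pow_le_pow_right hp.out.pos (by omega)), fun _ => h y hy hy'⟩

lemma large' (hG : IsPGroup p G) (hp7 : 7 ≤ p) (hB : Bud p G) {i : ℕ} (hS : inS X.μ i)
    (hi : i ≤ N.σ) (h : ∀ y ∈ N.S i, y ∉ N.S (i + 1) → p ^ (4 + wcod X.μ i) ≤ Nat.card (cen ⊥ y)) :
    False := by
  refine hB.set ⊥ (layer (N.S i) (N.S (i + 1))) (wcod X.μ i) ?_ fun y hy => ?_
  · have e1 := card_layer (N.anti (Nat.le_succ i))
    have e2 := card_lt_mul hG (N.anti (Nat.le_succ i)) (N.not_le hS (hi.trans N.σ_le))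
    simp only [Nat.succ_eq_add_one] at e1 e2
    have : 8 * Nat.card (N.S i) ≤ 10 * (layer (N.S i) (N.S (i + 1))).card := by nlinarith
    rw [N.card_top hS.1 hi]
    calc _ = p ^ wcod X.μ i * (8 * Nat.card (N.S i)) := by ring
      _ ≤ p ^ wcod X.μ i * (10 * (layer (N.S i) (N.S (i + 1))).card) := by gcongr
      _ = _ := by ring
  · rw [mem_layer] at hy
    simpa using h y hy.1 hy.2

theorem atl (hG : IsPGroup p G) (hp' : 50 ≤ p) (hn : ¬ T.Std (r + 1)) (hr : 80 ≤ r)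
    (hr' : r ≤ 2 * p + 1) {C : ℕ} (hF : FJ p C G) {i : ℕ} (hS : inS X.μ i) (hi : i ≤ 9)
    (hA : ∀ y ∈ N.S i, y ∉ N.S (i + 1) → Nat.card ↥(cen ⊥ y ⊓ N.S (i + 1)) ≤ p ^ (3 + wcod X.μ i))
    (hl : ¬ ∀ y ∈ N.S i, p ^ (3 + wcod X.μ i) ≤
      p ^ (if i + p < r - 13 then 1 else 0) * Nat.card ↥(cen ⊥ y ⊓ N.S (r - 13))) :
    N.W i ≤ (C + 1) * p ^ 2 * Nat.card G := by
  have hσ := N.le_σ
  have hσ' := N.σ_le
  have hx := N.x_le
  obtain ⟨y₀, -, h1, h2⟩ := hF (N.S (r - 13)) (N.S i) (fun a ha b hb => by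
    have := X.S.anti (by omega : r + 5 ≤ _) (N.comm _ _ (by omega) (by omega) a ha b hb)
    rwa [T.tail_bot (by omega) (by omega) hn, Subgroup.mem_bot,
      commutatorElement_eq_one_iff_mul_comm] at this) (by
    rw [N.card_seg (a := r - 13) (b := r + 1) (fun j hj => inS_of_le (by omega)) (by omega) le_rfl,
      N.top' (Nat.lt_succ_self r), if_pos (by omega)]
    refine (Nat.mul_le_mul_left _ (T.card_tail (by omega) (by omega) hr' hn)).trans ?_
    rw [← pow_add]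
    exact Nat.pow_le_pow_right hp.out.pos (by omega))
  simp only [← cen_bot, inf_comm (N.S (r - 13))] at h1 h2
  obtain ⟨t, ht⟩ := IsPGroup.iff_card.1 (hG.to_subgroup (cen ⊥ y₀ ⊓ N.S (r - 13)))
  rw [ht] at h1 h2
  refine N.W_le' hS.1 (by omega) 2 C _ h2 fun y hy hy' => ⟨hA y hy hy', fun hY => ?_⟩
  refine (cy_atl hG (by omega) hr' hS hi hy hy').trans ?_
  refine (Nat.mul_le_mul_left _ (not_lt.1 fun h => hY ⟨hy, h⟩)).trans ?_
  rw [← pow_add]
  refine Nat.pow_le_pow_right hp.out.pos (not_lt.1 fun h => hl fun y hy => ?_)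
  refine le_trans ?_ (Nat.mul_le_mul_left _ (h1 y hy))
  rw [← pow_add]
  exact Nat.pow_le_pow_right hp.out.pos (by omega)

theorem cost_small (hG : IsPGroup p G) (hp' : 50 ≤ p) (hB : Bud p G) (hn : ¬ T.Std (r + 1))
    (hr : 80 ≤ r) (hr' : r ≤ p + 14) {C : ℕ} (hF : FJ p C G) {i : ℕ} (h1 : 1 ≤ i) (hi : i ≤ 9) :
    N.W i ≤ (C + 1) * p ^ 2 * Nat.card G := by
  have hσ := N.le_σ
  by_cases hS : inS X.μ i
  swap
  · rw [N.W_gap h1 (by omega) hS]; exact Nat.zero_le _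
  refine N.atl hG hp' hn hr (by omega) hF hS hi
    (fun y hy hy' => boundA hG hp' hn hr hr' hS (by omega) hy hy') fun h => ?_
  refine N.large' hG (by omega) hB hS (by omega) fun y hy hy' => ?_
  have := h y hy
  rw [if_neg (by omega), pow_zero, one_mul] at this
  refine le_trans ?_ (card_cen_ge hG (B := cen ⊥ y ⊓ N.S (r - 13))
    (fun h => hy' (N.anti (by omega) h.2)) fun u hu => hu.1)
  rw [show 4 + wcod X.μ i = 3 + wcod X.μ i + 1 by ring, pow_succ']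
  exact Nat.mul_le_mul_left _ this

end Fn

end Pool.Agent.P78
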