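import Pool.Agent.Lib.MP_78c6b1_al.Neg.Tail

/-! Upper bounds for centralisers. -/

set_option autoImplicit false
set_option linter.unusedSectionVars false

namespace Pool.Agent.P78

open scoped commutatorElement
open Finset

variable {p : ℕ} {G : Type} [Group G] [hp : Fact p.Prime] {X : Ctx p G} {r : ℕ}

namespace Fn

variable {T : St X r} (N : Fn T)

def Act (y : G) (j : ℕ) : Prop := ¬ N.S j ≤ (cen ⊥ y ⊓ N.S j) ⊔ N.S (j + 1)

def Lv (y : G) (i m b : ℕ) : Prop :=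
  Nat.card (X.S.F m) ≤ p ^ b * Nat.card (X.S.F (m + 1)) ∨
    (2 * i < m ∧ N.Act y (m - i) ∧ Nat.card (X.S.F m) ≤ p ^ (b + 1) * Nat.card (X.S.F (m + 1)))

variable {N}

lemma act_gen {y : G} {i j : ℕ} (hi : 1 ≤ i) (hj : 1 ≤ j) (hσ : i < N.σ) (hy : y ∈ N.S i)
    (hy' : y ∉ N.S (i + 1))
    (h : ∀ f ∈ X.S.F i, T.ε i f ≠ 0 → ∃ u ∈ X.S.F j, ⁅f, u⁆ ∉ X.S.F (i + j + 1)) : N.Act y j := by
  obtain ⟨f, hf, h1, h2⟩ := N.dec i hi hσ y hy
  obtain ⟨u, hu, h3⟩ := h f hf (h1 hy')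
  refine act_of (M := X.S.F (i + j + 1)) (N.le j hu)
    (fun v hv => N.comm i (j + 1) hi (by omega) y hy v hv) fun hc => h3 ?_
  have := mul_mem (inv_mem (X.S.anti (by omega : i + j + 1 ≤ N.σ + j) (h2 j hj u (N.le j hu)))) hc
  rwa [mul_inv_rev, inv_inv, inv_mul_cancel_right] at this

lemma act_std {y : G} {i j : ℕ} (hi : 1 ≤ i) (hj : inS X.μ j) (hσ : i < N.σ) (hy : y ∈ N.S i)
    (hy' : y ∉ N.S (i + 1)) (hij : i + j ≤ r) (hne : (j : ZMod p) - i ≠ 0) : N.Act y j :=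
  act_gen hi hj.1 hσ hy hy' fun f hf h => ⟨_, T.e_mem j (by omega), fun hc => by
    have := T.br i j hi hj.1 hij f hf _ (T.e_mem j (by omega))
    rw [(T.lev _ (by omega) hij).zero _ hc, T.e_one j (by omega) hj, mul_one] at this
    exact mul_ne_zero hne h this.symm⟩

lemma act_tail (hp7 : 7 ≤ p) {y : G} {i m : ℕ} (hi : 1 ≤ i) (hσ : i < N.σ) (hy : y ∈ N.S i)
    (hy' : y ∉ N.S (i + 1)) (hm0 : i + 35 ≤ m) (hm : m ≤ r + 8) {φ : G → ZMod p}
    (hφ : IsLev X.S m φ) {l k : ZMod p} (t : T.Ty φ m l k) (hne : Psi m l k i ≠ 0) :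
    N.Act y (m - i) :=
  act_gen hi (by omega) hσ hy hy' fun f hf h => by
    obtain ⟨u, hu, h1⟩ := (t.comm hp7 hm hφ hi (n := m - i) (by omega) hf).exists_ne hp7 (by omega)
      (by omega) (neg_ne_zero.2 (mul_ne_zero hne h))
    refine ⟨u, hu, fun hc => h1 (hφ.zero _ ?_)⟩
    rw [show i + (m - i) = m by omega] at hc
    exact comm_symm hc

variable [Finite G]

lemma exists_start (N : Fn T) (hr : 20 ≤ r) {i : ℕ} (hS : inS X.μ i) :
    ∃ a, i < a ∧ a ≤ i + 2 ∧ (a = i + 1 ∨ i = 1) ∧ (∀ j, a ≤ j → inS X.μ j) ∧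
      N.S (i + 1) = N.S a := by
  have := hS.1
  by_cases h : X.μ = 3 ∧ i = 1
  · obtain ⟨h, rfl⟩ := h
    refine ⟨3, by omega, by omega, by omega, fun j hj => inS_of_le hj, ?_⟩
    have h1 := N.card 2 (by omega) (by omega)
    have := N.le_σ
    rw [if_neg (fun e => e.2.1 h rfl), if_neg (by omega)] at h1
    exact (Subgroup.eq_of_le_of_card_ge (N.anti (by omega)) (by simpa using h1.le)).symm
  · exact ⟨i + 1, by omega, by omega, by omega, fun j hj => ⟨by omega, by omega, by omega⟩, rfl⟩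

lemma std_set {y : G} {i a b : ℕ} (hi : 1 ≤ i) (hσ : i < N.σ) (hy : y ∈ N.S i)
    (hy' : y ∉ N.S (i + 1)) (hr : r ≤ 2 * p + 1) (ha : i < a) (hS : ∀ j, a ≤ j → inS X.μ j)
    (hb : i + b ≤ r + 1) : ∃ J : Finset ℕ, (∀ j ∈ J, a ≤ j ∧ j < b ∧ N.Act y j) ∧ i + p ∉ J ∧
      b - a ≤ J.card + if i + p < b then 1 else 0 := by
  refine ⟨(Ico a b).erase (i + p), fun j hj => ?_, notMem_erase _ _, ?_⟩
  · rw [mem_erase, mem_Ico] at hj
    refine ⟨hj.2.1, hj.2.2, act_std hi (hS j hj.2.1) hσ hy hy' (by omega) fun h => ?_⟩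
    have := cast_eq_cases (sub_eq_zero.1 h) (by omega) (by omega)
    omega
  · rw [card_erase_eq_ite, Nat.card_Ico]
    simp only [mem_Ico]
    split_ifs <;> omega

lemma tail_set {y : G} {i : ℕ} (hi : i ≤ r) (b : ℕ → ℕ) (K : ℕ)
    (h : ∀ k, k < K → N.Lv y i (r + 1 + k) (b k)) :
    ∃ J : Finset ℕ, (∀ j ∈ J, r + 1 - i ≤ j ∧ j < r + 1 - i + K ∧ i < j ∧ N.Act y j) ∧
      Nat.card (X.S.F (r + 1)) ≤
        p ^ (J.card + ∑ k ∈ range K, b k) * Nat.card (X.S.F (r + 1 + K)) := by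
  induction K with
  | zero => exact ⟨∅, by simp, by simp⟩
  | succ K ih =>
    obtain ⟨J, h1, h2⟩ := ih fun k hk => h k (by omega)
    rcases h K (by omega) with h3 | ⟨h3, h4, h5⟩
    · refine ⟨J, fun j hj => ?_, h2.trans ?_⟩
      · have := h1 j hj
        exact ⟨this.1, by omega, this.2.2⟩
      · rw [sum_range_succ, ← add_assoc, pow_add _ _ (b K), mul_assoc]
        exact Nat.mul_le_mul_left _ h3
    · refine ⟨insert (r + 1 + K - i) J, fun j hj => ?_, h2.trans ?_⟩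
      · rcases mem_insert.1 hj with rfl | hj
        · exact ⟨by omega, by omega, by omega, h4⟩
        · have := h1 j hj
          exact ⟨this.1, by omega, this.2.2⟩
      · rw [card_insert_of_notMem fun hj => by have := h1 _ hj; omega, sum_range_succ,
          show J.card + 1 + (∑ k ∈ range K, b k + b K) = J.card + ∑ k ∈ range K, b k + (b K + 1) by
            ring, pow_add _ _ (b K + 1), mul_assoc]
        exact Nat.mul_le_mul_left _ h5

theorem cy_core (hG : IsPGroup p G) (hr0 : 20 ≤ r) (hr : r ≤ 2 * p + 1) (hbot : X.S.F (r + 5) = ⊥)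
    {y : G} {i : ℕ} (hS : inS X.μ i) (hi : 2 * i ≤ r + 1) (hy : y ∈ N.S i) (hy' : y ∉ N.S (i + 1))
    (J' : Finset ℕ) (B : ℕ)
    (J1' : ∀ j ∈ J', (r + 1 - i ≤ j ∨ j = i + p) ∧ j < r + 5 ∧ i < j ∧ N.Act y j)
    (J2' : Nat.card (X.S.F (r + 1)) ≤ p ^ (J'.card + B)) (e : ℕ)
    (he : (if 2 * i ≤ r then i else i - 1) + N.x + (if 2 * i + p ≤ r then 1 else 0) + B ≤ e) :
    Nat.card ↥(cen ⊥ y ⊓ N.S (i + 1)) ≤ p ^ e := by
  have h1 := hS.1
  have hσ := N.le_σ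
  have hσ' := N.σ_le
  have hp2 := hp.out.two_le
  obtain ⟨a, a1, a2, a3, a4, a5⟩ := N.exists_start hr0 hS
  obtain ⟨J, J1, J0, J2⟩ := std_set (b := r + 1 - i) h1 (by omega) hy hy' hr a1 a4 (by omega)
  have hd : Disjoint J J' := disjoint_left.2 fun j h h' => by
    have := J1 j h
    rcases (J1' j h').1 with h2 | rfl
    exacts [by omega, J0 h]
  have t := tri_bound hG N.S N.normal N.anti (cen ⊥ y) a (r + 5) (by omega) (J ∪ J') fun j hj => by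
    rcases mem_union.1 hj with hj | hj
    · have := J1 j hj; exact ⟨this.1, by omega, this.2.2⟩
    · have := J1' j hj; exact ⟨by omega, by omega, this.2.2.2⟩
  rw [N.top' (i := r + 5) (by omega), hbot, inf_bot_eq, Subgroup.card_bot, mul_one, one_mul,
    N.card_seg (a := a) (b := r + 1) a4 (by omega) le_rfl, N.top' (Nat.lt_succ_self r),
    if_pos (by omega), card_union_of_disjoint hd] at t
  have t2 := t.trans (Nat.mul_le_mul_left _ J2')
  rw [← pow_add] at t2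
  rw [a5]
  refine Nat.le_of_mul_le_mul_right (t2.trans ?_) (pow_pos hp.out.pos (J.card + J'.card))
  rw [← pow_add]
  refine Nat.pow_le_pow_right hp.out.pos ?_
  split_ifs at he J2 <;> omega

theorem cy_bound (hG : IsPGroup p G) (hr0 : 20 ≤ r) (hr : r ≤ 2 * p + 1) (hbot : X.S.F (r + 5) = ⊥)
    {y : G} {i : ℕ} (hS : inS X.μ i) (hi : 2 * i ≤ r + 1) (hy : y ∈ N.S i) (hy' : y ∉ N.S (i + 1))
    (b : ℕ → ℕ) (h : ∀ k, k < 4 → N.Lv y i (r + 1 + k) (b k)) (e : ℕ)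
    (he : (if 2 * i ≤ r then i else i - 1) + N.x + (if 2 * i + p ≤ r then 1 else 0) +
      (b 0 + b 1 + b 2 + b 3) ≤ e) : Nat.card ↥(cen ⊥ y ⊓ N.S (i + 1)) ≤ p ^ e := by
  have h1 := hS.1
  obtain ⟨J', J1', J2'⟩ := tail_set (by omega) b 4 h
  rw [show r + 1 + 4 = r + 5 by ring, hbot, Subgroup.card_bot, mul_one] at J2'
  refine cy_core hG hr0 hr hbot hS hi hy hy' J' _ (fun j hj => ?_) J2' e ?_
  · have := J1' j hj
    exact ⟨Or.inl this.1, by omega, this.2.2⟩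
  · simpa only [sum_range_succ, range_zero, sum_empty, zero_add] using he

theorem cy_atl (hG : IsPGroup p G) (hr0 : 30 ≤ r) (hr : r ≤ 2 * p + 1)
    {y : G} {i : ℕ} (hS : inS X.μ i) (hi : i ≤ 9) (hy : y ∈ N.S i) (hy' : y ∉ N.S (i + 1)) :
    Nat.card ↥(cen ⊥ y ⊓ N.S (i + 1)) ≤
      p ^ (if i + p < r - 13 then 1 else 0) * Nat.card ↥(cen ⊥ y ⊓ N.S (r - 13)) := by
  have h1 := hS.1
  have hσ := N.le_σ
  obtain ⟨a, a1, a2, a3, a4, a5⟩ := N.exists_start (by omega) hS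
  obtain ⟨J, J1, -, J2⟩ := std_set (b := r - 13) h1 (by omega) hy hy' hr a1 a4 (by omega)
  have t := tri_bound hG N.S N.normal N.anti (cen ⊥ y) a (r - 13) (by omega) J J1
  rw [N.card_seg (a := a) (b := r - 13) a4 (by omega) (by omega), if_neg (by omega), ← mul_assoc] at t
  have t2 := Nat.le_of_mul_le_mul_right t Nat.card_pos
  rw [a5]
  refine Nat.le_of_mul_le_mul_right (t2.trans ?_) (pow_pos hp.out.pos J.card)
  rw [mul_comm (p ^ _), mul_assoc, ← pow_add]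
  exact Nat.mul_le_mul_left _ (Nat.pow_le_pow_right hp.out.pos (by omega))

/-! the possible behaviour of one level -/

lemma lv_triv {y : G} {i m : ℕ} (h : X.S.F m ≤ X.S.F (m + 1)) (b : ℕ) : N.Lv y i m b :=
  Or.inl (St.card_of_le h b)

section
variable (hp7 : 7 ≤ p) {y : G} {i m : ℕ} (hi : 1 ≤ i) (hi' : 2 * i ≤ r + 1) (hy : y ∈ N.S i)
  (hy' : y ∉ N.S (i + 1)) (hr : 80 ≤ r) (hm0 : r < m) (hm : m ≤ r + 8)
include hp7 hi hi' hy hy' hr hm0 hm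

lemma lv_zero (h2 : 2 * i < m)
    (hc : Nat.card (X.S.F m) ≤ p ^ 1 * Nat.card (X.S.F (m + 1)))
    (h : ∀ φ l k, IsLev X.S m φ → T.Ty φ m l k → (l ≠ 0 ∨ k ≠ 0) → Psi m l k i ≠ 0) :
    N.Lv y i m 0 := by
  by_cases ht : X.S.F m ≤ X.S.F (m + 1)
  · exact lv_triv ht 0
  obtain ⟨φ, l, k, hφ, t, hne⟩ := T.exists_ty_ne hp7 (by omega) hm ht
  exact Or.inr ⟨h2, act_tail hp7 hi (by have := N.le_σ; omega) hy hy' (by omega) hm hφ t
    (h φ l k hφ t hne), hc⟩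

lemma lv_std (h2 : 2 * i < m) (h0 : (m : ZMod p) ≠ 0) (h1 : (m : ZMod p) ≠ (2 * i : ℕ)) :
    N.Lv y i m 0 := by
  refine lv_zero hp7 hi hi' hy hy' hr hm0 hm h2
    ((T.card_or hp7 (by omega) hm).resolve_right fun h => h0 h.1) fun φ l k hφ t hne => ?_
  obtain rfl := (mul_eq_zero.1 t.1).resolve_right h0
  have hl : l ≠ 0 := by simpa using hne
  simpa [Psi, hl, sub_eq_zero] using h1

lemma lv_one (h2 : (m : ZMod p) = 0 → 2 * i < m ∧ ((2 * i : ℕ) : ZMod p) ≠ 0) : N.Lv y i m 1 := by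
  rcases T.card_or hp7 (by omega) hm with h | ⟨h0, h, h'⟩
  · exact Or.inl h
  obtain ⟨φ, hφ, t⟩ := h' 1 0
  refine Or.inr ⟨(h2 h0).1, act_tail hp7 hi (by have := N.le_σ; omega) hy hy' (by omega) hm hφ t
    ?_, h⟩
  simpa [Psi, h0] using (h2 h0).2

lemma lv_line (h2 : 2 * i < m) {k : ℕ} (hk : (k : ZMod p) ≠ 0) (hi0 : (i : ZMod p) ≠ 0)
    (hik : ¬ ((i : ZMod p) = k ∨ (i : ZMod p) = -k))
    (h : ∀ φ l κ, IsLev X.S m φ → T.Ty φ m l κ → Psi m l κ k = 0) : N.Lv y i m 0 :=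
  lv_zero hp7 hi hi' hy hy' hr hm0 hm h2 (T.card_zero hp7 (by omega) hm hk h)
    fun φ l κ hφ t hne hc => hik (two_zeros hp7 t.1 hne hc (h φ l κ hφ t) hi0 hk)

end

end Fn

lemma St.comm_zero {T : St X r} (hp7 : 7 ≤ p) {m i j : ℕ} (hm0 : 78 ≤ m) (hm : m ≤ r + 8)
    (hi : 1 ≤ i) (hj : 1 ≤ j) (hir : i ≤ r) (hjr : j ≤ r) (hij : i + j = m)
    (h : ∀ φ l k, IsLev X.S m φ → T.Ty φ m l k → Psi m l k i = 0) :
    ∀ f ∈ X.S.F i, ∀ f' ∈ X.S.F j, ⁅f, f'⁆ ∈ X.S.F (m + 1) := fun f hf f' hf' =>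
  St.mem_of_all (T := T) hp7 (by omega) hm (NSer.comm_mem' hf hf' hij.ge) fun φ l k hφ t => by
    rw [t.full hp7 hm0 hm hφ hi hj hir hjr hij hf hf', h φ l k hφ t, zero_mul, zero_mul]

end Pool.Agent.P78
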