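import Mathlib

/-! Truncated exponential in a filtered nilpotent algebra. -/

set_option autoImplicit false

namespace Pool.Agent.P78

open Finset

variable {R B : Type*} [CommRing R] [Ring B] [Algebra R B]

/-- multiplicative descending family of submodules -/
structure WF (R B : Type*) [CommRing R] [Ring B] [Algebra R B] where
  J : ℕ → Submodule R B
  zero : J 0 = ⊤
  anti : Antitone J
  mul : ∀ {i j : ℕ} {a b : B}, a ∈ J i → b ∈ J j → a * b ∈ J (i + j)

/-- nilpotent of length `c`, with `1, …, c` invertible -/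
structure WF.Nil (W : WF R B) (c : ℕ) : Prop where
  top : W.J (c + 1) = ⊥
  unit : ∀ k : ℕ, 1 ≤ k → k ≤ c → IsUnit (k : R)
  pos : 1 ≤ c

noncomputable def finv (R : Type*) [CommRing R] (k : ℕ) : R := Ring.inverse (k.factorial : R)

noncomputable def texp (R : Type*) {B : Type*} [CommRing R] [Ring B] [Algebra R B] (c : ℕ)
    (a : B) : B := ∑ k ∈ range (c + 1), finv R k • a ^ k

@[simp] lemma finv_zero : finv R 0 = 1 := by simp [finv]
@[simp] lemma finv_one : finv R 1 = 1 := by simp [finv]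

namespace WF

variable {W : WF R B} {c : ℕ}

lemma mem_zero (W : WF R B) (a : B) : a ∈ W.J 0 := by rw [W.zero]; trivial

lemma mono {i j : ℕ} {a : B} (ha : a ∈ W.J i) (h : j ≤ i) : a ∈ W.J j := W.anti h ha

lemma mul' {i j k : ℕ} {a b : B} (ha : a ∈ W.J i) (hb : b ∈ W.J j) (h : k ≤ i + j) :
    a * b ∈ W.J k := mono (W.mul ha hb) h

lemma pow_mem {i : ℕ} {a : B} (ha : a ∈ W.J i) (n : ℕ) : a ^ n ∈ W.J (n * i) := by
  induction n with
  | zero => simpa using W.mem_zero _
  | succ n ih => rw [pow_succ, add_mul, one_mul]; exact W.mul ih ha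

lemma pow_mem_one {a : B} (ha : a ∈ W.J 1) (n : ℕ) : a ^ n ∈ W.J n := by
  simpa using pow_mem ha n

lemma lie_mem {i j : ℕ} {a b : B} (ha : a ∈ W.J i) (hb : b ∈ W.J j) : ⁅a, b⁆ ∈ W.J (i + j) := by
  rw [Ring.lie_def]
  exact sub_mem (W.mul ha hb) (mul' hb ha (by omega))

lemma Nil.eq_zero (h : W.Nil c) {k : ℕ} {a : B} (ha : a ∈ W.J k) (hk : c < k) : a = 0 := by
  have := mono ha hk
  rwa [Nat.succ_eq_add_one, h.top, Submodule.mem_bot] at this

lemma Nil.unit_fact (h : W.Nil c) {k : ℕ} (hk : k ≤ c) : IsUnit (k.factorial : R) := by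
  induction k with
  | zero => simp
  | succ k ih =>
    rw [Nat.factorial_succ, Nat.cast_mul]
    exact (h.unit _ (by omega) hk).mul (ih (by omega))

lemma Nil.fact_mul_finv (h : W.Nil c) {k : ℕ} (hk : k ≤ c) : (k.factorial : R) * finv R k = 1 :=
  Ring.mul_inverse_cancel _ (h.unit_fact hk)

lemma Nil.succ_mul_finv (h : W.Nil c) {k : ℕ} (hk : k + 1 ≤ c) :
    ((k + 1 : ℕ) : R) * finv R (k + 1) = finv R k := by
  have h1 := h.fact_mul_finv hk
  have h2 := h.fact_mul_finv (k := k) (by omega)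
  rw [Nat.factorial_succ, Nat.cast_mul] at h1
  calc ((k + 1 : ℕ) : R) * finv R (k + 1)
      = ((k + 1 : ℕ) : R) * finv R (k + 1) * ((k.factorial : R) * finv R k) := by rw [h2, mul_one]
    _ = (((k + 1 : ℕ) : R) * (k.factorial : R) * finv R (k + 1)) * finv R k := by ring
    _ = finv R k := by rw [h1, one_mul]

lemma Nil.finv_mul (h : W.Nil c) {i j : ℕ} (hij : i + j ≤ c) :
    finv R i * finv R j = finv R (i + j) * ((i + j).choose i : R) := by
  have h1 := h.fact_mul_finv hij
  have h2 := h.fact_mul_finv (k := i) (by omega)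
  have h3 := h.fact_mul_finv (k := j) (by omega)
  have h4 : ((i + j).factorial : R) = ((i + j).choose i : R) * i.factorial * j.factorial := by
    have := Nat.add_choose_mul_factorial_mul_factorial i j
    rw [← this, add_comm i j, ← Nat.choose_symm_add]
    push_cast; rw [add_comm j i]
  calc finv R i * finv R j = finv R i * finv R j * (((i + j).factorial : R) * finv R (i + j)) := by
        rw [h1, mul_one]
    _ = finv R (i + j) * ((i + j).choose i : R) * ((i.factorial : R) * finv R i)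
          * ((j.factorial : R) * finv R j) := by rw [h4]; ring
    _ = _ := by rw [h2, h3]; ring

lemma Nil.sum_mul_sum (h : W.Nil c) {α β : ℕ → B} (hα : ∀ i, α i ∈ W.J i) (hβ : ∀ j, β j ∈ W.J j) :
    (∑ i ∈ range (c + 1), α i) * (∑ j ∈ range (c + 1), β j) =
      ∑ n ∈ range (c + 1), ∑ x ∈ antidiagonal n, α x.1 * β x.2 := by
  simp_rw [Finset.Nat.sum_antidiagonal_eq_sum_range_succ (fun i j => α i * β j)]
  rw [Finset.sum_range_diag_flip (c + 1) (fun i j => α i * β j), Finset.sum_mul_sum]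
  refine sum_congr rfl fun i hi => ?_
  symm
  refine sum_subset (fun j hj => by simp at hj ⊢; omega) fun j hj hj' => ?_
  simp at hi hj hj'
  exact h.eq_zero (W.mul (hα i) (hβ j)) (by omega)

lemma Nil.texp_add (h : W.Nil c) {a b : B} (ha : a ∈ W.J 1) (hb : b ∈ W.J 1) (hab : Commute a b) :
    texp R c (a + b) = texp R c a * texp R c b := by
  unfold texp
  rw [h.sum_mul_sum (fun i => Submodule.smul_mem _ _ (pow_mem_one ha i))
    (fun i => Submodule.smul_mem _ _ (pow_mem_one hb i))]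
  refine sum_congr rfl fun n hn => ?_
  rw [hab.add_pow', smul_sum]
  refine sum_congr rfl fun x hx => ?_
  rw [Finset.HasAntidiagonal.mem_antidiagonal] at hx
  simp only [mem_range] at hn
  rw [smul_mul_smul_comm, h.finv_mul (by omega), hx, mul_smul, Nat.cast_smul_eq_nsmul]

lemma texp_zero (c : ℕ) : texp R c (0 : B) = 1 := by
  unfold texp
  rw [sum_range_succ']
  simp

lemma Nil.texp_neg_mul (h : W.Nil c) {a : B} (ha : a ∈ W.J 1) :
    texp R c (-a) * texp R c a = 1 := by
  rw [← h.texp_add (neg_mem ha) ha (Commute.refl a).neg_left, neg_add_cancel, texp_zero]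

lemma Nil.texp_mul_neg (h : W.Nil c) {a : B} (ha : a ∈ W.J 1) :
    texp R c a * texp R c (-a) = 1 := by
  rw [← h.texp_add ha (neg_mem ha) (Commute.refl a).neg_right, add_neg_cancel, texp_zero]

lemma Nil.texp_nsmul (h : W.Nil c) {a : B} (ha : a ∈ W.J 1) (n : ℕ) :
    texp R c (n • a) = texp R c a ^ n := by
  induction n with
  | zero => simp [texp_zero]
  | succ n ih =>
    rw [succ_nsmul, h.texp_add (nsmul_mem ha n) ha ((Commute.refl a).smul_left n), ih, pow_succ]

lemma texp_eq (hc : 1 ≤ c) (a : B) :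
    texp R c a = 1 + a + ∑ k ∈ range (c - 1), finv R (k + 2) • a ^ (k + 2) := by
  obtain ⟨d, rfl⟩ := Nat.exists_eq_add_of_le' hc
  unfold texp
  rw [sum_range_succ', sum_range_succ']
  simp only [Nat.add_sub_cancel, zero_add, finv_one, pow_one, one_smul, finv_zero, pow_zero]
  abel

lemma texp_sub_mem (hc : 1 ≤ c) {k : ℕ} {a : B} (ha : a ∈ W.J k) :
    texp R c a - 1 - a ∈ W.J (2 * k) := by
  rw [texp_eq hc, show ∀ x y z : B, x + y + z - x - y = z by intros; abel]
  exact Submodule.sum_mem _ fun i _ => Submodule.smul_mem _ _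
    (mono (pow_mem ha (i + 2)) (Nat.mul_le_mul_right _ (by omega)))

lemma texp_sub_one_mem (hc : 1 ≤ c) {k : ℕ} {a : B} (ha : a ∈ W.J k) :
    texp R c a - 1 ∈ W.J k := by
  have := add_mem (mono (texp_sub_mem hc ha) (by omega : k ≤ 2 * k)) ha
  simpa using this

lemma mem_of_texp_sub_one_mem (hc : 1 ≤ c) {k : ℕ} {a : B} (ha : a ∈ W.J 1)
    (h : texp R c a - 1 ∈ W.J k) : a ∈ W.J k := by
  induction k with
  | zero => exact W.mem_zero a
  | succ k ih =>
    rcases Nat.eq_zero_or_pos k with rfl | hk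
    · exact ha
    have h1 := ih (mono h (by omega))
    have h2 := mono (texp_sub_mem hc h1) (by omega : k + 1 ≤ 2 * k)
    have := sub_mem h h2
    simpa using this

lemma add_pow_sub_mem {k : ℕ} (hk : 1 ≤ k) {a d : B} (ha : a ∈ W.J 1) (hd : d ∈ W.J k) (n : ℕ) :
    (a + d) ^ (n + 1) - a ^ (n + 1) ∈ W.J (k + n) := by
  induction n with
  | zero => simpa using hd
  | succ n ih =>
    have : (a + d) ^ (n + 1 + 1) - a ^ (n + 1 + 1) =
        ((a + d) ^ (n + 1) - a ^ (n + 1)) * (a + d) + a ^ (n + 1) * d := by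
      rw [pow_succ (a + d) (n + 1), pow_succ a (n + 1)]; noncomm_ring
    rw [this]
    exact add_mem (mul' ih (add_mem ha (mono hd hk)) (by omega))
      (mul' (pow_mem_one ha _) hd (by omega))

lemma texp_add_sub_mem (hc : 1 ≤ c) {k : ℕ} (hk : 1 ≤ k) {a d : B} (ha : a ∈ W.J 1)
    (hd : d ∈ W.J k) : texp R c (a + d) - texp R c a - d ∈ W.J (k + 1) := by
  rw [texp_eq hc, texp_eq hc,
    show ∀ x y z w : B, 1 + (x + y) + z - (1 + x + w) - y = z - w by intros; abel,
    ← sum_sub_distrib]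
  refine Submodule.sum_mem _ fun i _ => ?_
  rw [← smul_sub]
  exact Submodule.smul_mem _ _ (mono (add_pow_sub_mem hk ha hd (i + 1)) (by omega))

lemma Nil.texp_inj (h : W.Nil c) {a b : B} (ha : a ∈ W.J 1) (hb : b ∈ W.J 1)
    (hab : texp R c a = texp R c b) : a = b := by
  have key : ∀ k, b - a ∈ W.J (k + 1) := by
    intro k
    induction k with
    | zero => exact sub_mem hb ha
    | succ k ih =>
      have := texp_add_sub_mem h.pos (by omega) ha ih
      rw [add_sub_cancel, hab, sub_self, zero_sub] at this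
      exact (neg_mem_iff).1 this
  have := h.eq_zero (key c) (by omega)
  exact (sub_eq_zero.1 this).symm

lemma texp_mem_sub (P : Subalgebra R B) {a : B} (ha : a ∈ P) : texp R c a ∈ P :=
  P.sum_mem fun i _ => P.smul_mem (P.pow_mem ha i) _

lemma Nil.texp_surj (h : W.Nil c) (P : Subalgebra R B) {g : B} (hg : g - 1 ∈ W.J 1) (hP : g ∈ P) :
    ∃ a ∈ W.J 1, a ∈ P ∧ texp R c a = g := by
  have key : ∀ k, ∃ a ∈ W.J 1, a ∈ P ∧ g - texp R c a ∈ W.J (k + 1) := by
    intro k
    induction k with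
    | zero => exact ⟨0, zero_mem _, zero_mem _, by rwa [texp_zero]⟩
    | succ k ih =>
      obtain ⟨a, ha, haP, hd⟩ := ih
      refine ⟨a + (g - texp R c a), add_mem ha (mono hd (by omega)),
        add_mem haP (sub_mem hP (texp_mem_sub P haP)), ?_⟩
      have := texp_add_sub_mem h.pos (by omega) ha hd
      have := neg_mem this
      convert this using 1
      abel
  obtain ⟨a, ha, haP, hd⟩ := key c
  exact ⟨a, ha, haP, (sub_eq_zero.1 (h.eq_zero hd (by omega))).symm⟩

lemma map_texp {B' : Type*} [Ring B'] [Algebra R B'] (φ : B →ₐ[R] B') (a : B) :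
    φ (texp R c a) = texp R c (φ a) := by
  simp [texp, map_sum, map_pow]

/-- terms of the expansion of `exp (-Z) * ∑ δ j / j!` -/
noncomputable def odeF (R : Type*) {B : Type*} [CommRing R] [Ring B] [Algebra R B] (Z : B)
    (δ : ℕ → B) (n : ℕ) : B :=
  ∑ x ∈ antidiagonal n, (finv R x.1 • (-Z) ^ x.1) * (finv R x.2 • δ x.2)

lemma odeF_zero (Z : B) (δ : ℕ → B) : odeF R Z δ 0 = δ 0 := by simp [odeF]

lemma Nil.ode_sum (h : W.Nil c) {Z : B} (hZ : Z ∈ W.J 1) {δ : ℕ → B} (hδ : ∀ j, δ j ∈ W.J j) :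
    texp R c (-Z) * ∑ j ∈ range (c + 1), finv R j • δ j =
      ∑ n ∈ range (c + 1), odeF R Z δ n :=
  h.sum_mul_sum (fun i => Submodule.smul_mem _ _ (pow_mem_one (neg_mem hZ) i))
    (fun i => Submodule.smul_mem _ _ (hδ i))

lemma Nil.ode_succ (h : W.Nil c) (Z w : B) {δ : ℕ → B} (hδ : ∀ j, δ (j + 1) = δ j * Z + Z ^ j * w)
    {n : ℕ} (hn : n + 1 ≤ c) :
    ((n + 1 : ℕ) : R) • odeF R Z δ (n + 1) =
      ⁅odeF R Z δ n, Z⁆ + if n = 0 then w else 0 := by
  have e1 : ((n + 1 : ℕ) : R) • odeF R Z δ (n + 1) =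
      ∑ x ∈ antidiagonal (n + 1), (((x.1 : R) * finv R x.1) • (-Z) ^ x.1) * (finv R x.2 • δ x.2) +
      ∑ x ∈ antidiagonal (n + 1), (finv R x.1 • (-Z) ^ x.1) * (((x.2 : R) * finv R x.2) • δ x.2) := by
    unfold odeF
    rw [smul_sum, ← sum_add_distrib]
    refine sum_congr rfl fun x hx => ?_
    rw [Finset.HasAntidiagonal.mem_antidiagonal] at hx
    rw [← hx]
    simp only [smul_mul_smul_comm, smul_smul, ← add_smul]
    congr 1; push_cast; ring
  have e2 : ∑ x ∈ antidiagonal (n + 1),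
      (((x.1 : R) * finv R x.1) • (-Z) ^ x.1) * (finv R x.2 • δ x.2) = -(Z * odeF R Z δ n) := by
    rw [Finset.Nat.sum_antidiagonal_succ]
    simp only [Nat.cast_zero, zero_mul, zero_smul, zero_add]
    unfold odeF
    rw [mul_sum, ← sum_neg_distrib]
    refine sum_congr rfl fun x hx => ?_
    rw [Finset.HasAntidiagonal.mem_antidiagonal] at hx
    rw [h.succ_mul_finv (by omega), pow_succ']
    simp only [smul_mul_assoc, mul_smul_comm, neg_mul, mul_assoc, smul_neg]
  have e3 : ∑ x ∈ antidiagonal (n + 1),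
      (finv R x.1 • (-Z) ^ x.1) * (((x.2 : R) * finv R x.2) • δ x.2) =
      odeF R Z δ n * Z + (finv R n • (-Z + Z) ^ n) * w := by
    rw [Finset.Nat.sum_antidiagonal_succ']
    simp only [Nat.cast_zero, zero_mul, zero_smul, mul_zero, zero_add]
    unfold odeF
    rw [((Commute.refl Z).neg_left).add_pow', smul_sum, sum_mul, sum_mul, ← sum_add_distrib]
    refine sum_congr rfl fun x hx => ?_
    rw [Finset.HasAntidiagonal.mem_antidiagonal] at hx
    rw [h.succ_mul_finv (by omega), hδ, ← hx, ← Nat.cast_smul_eq_nsmul R, smul_smul,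
      ← h.finv_mul (by omega)]
    simp only [mul_smul_comm, smul_add, mul_add, smul_mul_assoc, mul_assoc, smul_smul,
      mul_comm (finv R x.2)]
  rw [e1, e2, e3, Ring.lie_def, neg_add_cancel]
  split_ifs with h0
  · subst h0; simp; abel
  · rw [zero_pow h0]; simp; abel

lemma Nil.mem_of_smul (h : W.Nil c) (M : Submodule R B) {k : ℕ} (hk : 1 ≤ k) (hkc : k ≤ c) {v : B}
    (hv : (k : R) • v ∈ M) : v ∈ M := by
  obtain ⟨u, hu⟩ := h.unit k hk hkc
  have := M.smul_mem (↑u⁻¹ : R) hv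
  rwa [← hu, smul_smul, Units.inv_mul, one_smul] at this

lemma Nil.ode_mem (h : W.Nil c) (M : Submodule R B) {Z w : B} {δ : ℕ → B}
    (hδ : ∀ j, δ (j + 1) = δ j * Z + Z ^ j * w) (h0 : δ 0 ∈ M) (hw : w ∈ M)
    (hM : ∀ v ∈ M, ⁅v, Z⁆ ∈ M) {n : ℕ} (hn : n ≤ c) : odeF R Z δ n ∈ M := by
  induction n with
  | zero => rwa [odeF_zero]
  | succ n ih =>
    refine h.mem_of_smul M (by omega) hn ?_
    rw [h.ode_succ Z w hδ hn]
    refine add_mem (hM _ (ih (by omega))) ?_
    split_ifs
    exacts [hw, zero_mem _]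

/-- conjugation by an exponential preserves a submodule stable under `ad`. -/
lemma Nil.conj_mem (h : W.Nil c) (M : Submodule R B) {Z v : B} (hZ : Z ∈ W.J 1) (hv : v ∈ M)
    (hM : ∀ v ∈ M, ⁅v, Z⁆ ∈ M) : texp R c (-Z) * v * texp R c Z ∈ M := by
  have e : v * texp R c Z = ∑ j ∈ range (c + 1), finv R j • (v * Z ^ j) := by
    simp [texp, mul_sum]
  rw [mul_assoc, e, h.ode_sum hZ (fun j => mul' (W.mem_zero v) (pow_mem_one hZ j) (by omega))]
  refine Submodule.sum_mem _ fun n hn => ?_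
  refine h.ode_mem M (w := 0) (fun j => by simp [pow_succ, mul_assoc]) (by simpa using hv)
    (zero_mem _) hM (by simp at hn; omega)

end WF

end Pool.Agent.P78
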