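import Pool.Agent.Lib.MP_78c6b1_al.Neg.Fn

/-! Orders of the layers, largeness, and the extension step. -/

set_option autoImplicit false
set_option linter.unusedSectionVars false

namespace Pool.Agent.P78

open scoped commutatorElement

variable {p : ℕ} {G : Type} [Group G] [hp : Fact p.Prime] {X : Ctx p G} {r : ℕ}

/-- number of weights below `i` -/
def wcod (μ i : ℕ) : ℕ := if μ = 2 ∨ (μ = 3 ∧ i ≤ 2) then i - 1 else i - 2

lemma cod_succ {μ i : ℕ} (hμ : μ = 2 ∨ μ = 3 ∨ μ = 4) (hi : 1 ≤ i) :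
    wcod μ (i + 1) = wcod μ i + if inS μ i then 1 else 0 := by
  obtain rfl | rfl | h : i = 1 ∨ i = 2 ∨ 3 ≤ i := by omega
  · rcases hμ with rfl | rfl | rfl <;> decide
  · rcases hμ with rfl | rfl | rfl <;> decide
  · rw [if_pos (inS_of_le h)]
    unfold wcod
    split_ifs <;> omega

lemma cod_two (i : ℕ) : wcod 2 i = i - 1 := by simp [wcod]

lemma cod_ne {μ i : ℕ} (h : μ ≠ 2) (hi : 3 ≤ i ∨ μ = 4) : wcod μ i = i - 2 := by
  unfold wcod; rw [if_neg (by omega)]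

lemma comm_symm {M : Subgroup G} {a b : G} (h : ⁅a, b⁆ ∈ M) : ⁅b, a⁆ ∈ M := by
  rw [← commutatorElement_inv]; exact inv_mem h

namespace Fn

variable {T : St X r} (N : Fn T)

instance (i : ℕ) : (N.S i).Normal := N.normal i

lemma card_top {i : ℕ} (h1 : 1 ≤ i) (hi : i ≤ N.σ) :
    Nat.card G = p ^ wcod X.μ i * Nat.card (N.S i) := by
  induction i, h1 using Nat.le_induction with
  | base => rw [N.one]; unfold wcod; split_ifs <;> simp
  | succ i h1 ih =>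
    rw [ih (by omega), N.card i h1 (by have := N.σ_le; omega), if_neg (by omega : i ≠ N.σ),
      ← mul_assoc, ← pow_add, cod_succ X.hμ h1, add_zero]

lemma card_seg {a b : ℕ} (ha : ∀ j, a ≤ j → inS X.μ j) (hab : a ≤ b) (hb : b ≤ r + 1) :
    Nat.card (N.S a) = p ^ (b - a + if a ≤ N.σ ∧ N.σ < b then N.x else 0) * Nat.card (N.S b) := by
  induction b, hab using Nat.le_induction with
  | base => simp
  | succ b hab ih =>
    rw [ih (by omega), N.card b (ha b hab).1 (by omega), if_pos (ha b hab), ← mul_assoc, ← pow_add]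
    congr 2
    split_ifs <;> omega

lemma top' {i : ℕ} (h : r < i) : N.S i = X.S.F i := N.top i (by have := N.σ_le; omega)

lemma not_le [Finite G] {i : ℕ} (hS : inS X.μ i) (hi : i ≤ r) : ¬ N.S i ≤ N.S (i + 1) := fun h => by
  have h1 := Subgroup.card_le_of_le h
  rw [N.card i hS.1 hi, if_pos hS] at h1
  have h2 : 1 < p ^ (1 + if i = N.σ then N.x else 0) := Nat.one_lt_pow (by omega) hp.out.one_lt
  have := Nat.card_pos (α := N.S (i + 1))
  nlinarith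

lemma comm_deep {i j m : ℕ} (hi : 1 ≤ i) (hj : 1 ≤ j)
    (h : N.x = 0 ∨ (i < N.σ ∧ j < N.σ ∧ m ≤ N.σ + i ∧ m ≤ N.σ + j))
    (hF : ∀ f ∈ X.S.F i, ∀ f' ∈ X.S.F j, ⁅f, f'⁆ ∈ X.S.F m) :
    ∀ y ∈ N.S i, ∀ u ∈ N.S j, ⁅y, u⁆ ∈ X.S.F m := by
  rcases h with h | ⟨h1, h2, h3, h4⟩
  · simpa only [N.eqF h] using hF
  intro y hy u hu
  obtain ⟨f, hf, -, e1⟩ := N.dec i hi h1 y hy
  obtain ⟨f', hf', -, e2⟩ := N.dec j hj h2 u hu
  have a1 := X.S.anti h4 (e1 j hj u hu)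
  have a2 := X.S.anti h3 (e2 i hi f (N.le i hf))
  have a3 := mul_mem a2 (comm_symm (hF f hf f' hf'))
  rw [inv_mul_cancel_right] at a3
  have a4 := mul_mem a1 (comm_symm a3)
  rwa [inv_mul_cancel_right] at a4

lemma large [Finite G] (hG : IsPGroup p G) (hp7 : 7 ≤ p) (hB : Bud p G) {i j : ℕ} (hS : inS X.μ i)
    (hi : i ≤ N.σ) (hij : i < j) (M : Subgroup G) [M.Normal]
    (hc : ∀ y ∈ N.S i, ∀ u ∈ N.S j, ⁅y, u⁆ ∈ M)
    (h : p ^ (3 + wcod X.μ i) * Nat.card M ≤ Nat.card (N.S j)) : False :=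
  hB.large hG (by omega) (N.anti hij) (N.anti (Nat.le_succ i)) (N.not_le hS (hi.trans N.σ_le)) hc _
    (N.card_top hS.1 hi).le h

end Fn

lemma Bud.agg [Fintype G] (h : Bud p G) (M : Subgroup G) [M.Normal] (S : ℕ → Subgroup G)
    (hS : Antitone S) (I : Finset ℕ) (t : ℕ) (ht : 8 * p ^ 3 ≤ 10 * (I.card * t))
    (hI : ∀ i ∈ I, t * p * Nat.card G * Nat.card M ≤
      ∑ y ∈ layer (S i) (S (i + 1)), Nat.card (cen M y)) : False := by
  have h1 := h M
  have h2 := (Finset.card_nsmul_le_sum _ _ _ hI).trans (lower_bound M S hS I)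
  have h3 : 8 * p ^ 4 * Nat.card G * Nat.card M ≤
      10 * (I.card • (t * p * Nat.card G * Nat.card M)) :=
    calc _ = 8 * p ^ 3 * (p * Nat.card G * Nat.card M) := by ring
      _ ≤ 10 * (I.card * t) * (p * Nat.card G * Nat.card M) := by gcongr
      _ = _ := by rw [smul_eq_mul]; ring
  omega

namespace St

variable (T : St X r)

lemma exists_fn [Finite G] (hG : IsPGroup p G) (hp7 : 7 ≤ p)
    (h : X.μ ≠ 2 → T.z ∈ X.S.F (T.w + 1)) :
    ∃ N : Fn T, (T.z ∈ X.S.F (T.w + 1) → N.x = 0) ∧ (T.z ∉ X.S.F (T.w + 1) → N.x = 1) := by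
  by_cases hz : T.z ∈ X.S.F (T.w + 1)
  · obtain ⟨N, hN⟩ := T.fn_pure hG hz
    exact ⟨N, fun _ => hN, fun h => absurd hz h⟩
  · obtain ⟨N, hN⟩ := T.fn_extra hG hp7 (by_contra fun e => hz (h e)) hz
    exact ⟨N, fun h => absurd h hz, fun _ => hN⟩

lemma zero_lev {i j : ℕ} (hi : 1 ≤ i) (hj : j = i + p) (h : i + j ≤ r) (hw : i + j ≠ T.w) :
    ∀ f ∈ X.S.F i, ∀ f' ∈ X.S.F j, ⁅f, f'⁆ ∈ X.S.F (i + j + 1) := fun f hf f' hf' =>
  T.ker _ (by omega) h hw _ (NSer.comm_mem hf hf') (by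
    rw [T.br i j hi (by omega) h f hf f' hf', hj]; simp)

/-- some functional on level `m` has the standard values -/
def Std (m : ℕ) : Prop := ∃ φ, IsLev X.S m φ ∧ T.Ty φ m 1 0

variable {T}

lemma mem_of_all (hp7 : 7 ≤ p) {n : ℕ} (h0 : 77 ≤ n) (hn : n ≤ r + 8) {a : G} (ha : a ∈ X.S.F n)
    (h : ∀ φ l k, IsLev X.S n φ → T.Ty φ n l k → φ a = 0) : a ∈ X.S.F (n + 1) := by
  by_contra hc
  obtain ⟨φ, hφ, h1⟩ := exists_fun X.S (X.elem n (by rcases X.hμ with h | h | h <;> omega)) ha hc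
  obtain ⟨l, k, hlk⟩ := T.exists_ty hp7 h0 hn hφ
  exact h1 (h φ l k hφ hlk)

lemma Ty.ne (hp7 : 7 ≤ p) {n : ℕ} (h0 : 77 ≤ n) (hn : n ≤ r + 8) {φ : G → ZMod p}
    (hφ : IsLev X.S n φ) {l k : ZMod p} (h : T.Ty φ n l k) {a : G} (ha : a ∈ X.S.F n)
    (h1 : φ a ≠ 0) : l ≠ 0 ∨ k ≠ 0 := by
  by_contra hc
  simp only [not_or, not_not] at hc
  obtain ⟨rfl, rfl⟩ := hc
  exact h1 (h.zero hp7 (by omega) hn (by omega) (by omega) hφ ha)

lemma span2 (hp7 : 7 ≤ p) {n : ℕ} (h0 : 77 ≤ n) (hn : n ≤ r + 8) {φ₀ φ₁ : G → ZMod p}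
    (hφ₀ : IsLev X.S n φ₀) (hφ₁ : IsLev X.S n φ₁) {l₀ k₀ l₁ k₁ : ZMod p} (t₀ : T.Ty φ₀ n l₀ k₀)
    (t₁ : T.Ty φ₁ n l₁ k₁) (hD : l₀ * k₁ - l₁ * k₀ ≠ 0) {a : G} (ha : a ∈ X.S.F n)
    (a₀ : φ₀ a = 0) (a₁ : φ₁ a = 0) : a ∈ X.S.F (n + 1) := by
  refine mem_of_all (T := T) hp7 h0 hn ha fun φ l k hφ t => ?_
  have := t₀.comb t₁ ((l * k₁ - l₁ * k) / (l₀ * k₁ - l₁ * k₀))
    ((l₀ * k - l * k₀) / (l₀ * k₁ - l₁ * k₀))
  rw [show (l * k₁ - l₁ * k) / (l₀ * k₁ - l₁ * k₀) * l₀ +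
      (l₀ * k - l * k₀) / (l₀ * k₁ - l₁ * k₀) * l₁ = l by
      rw [div_mul_eq_mul_div, div_mul_eq_mul_div, ← add_div, div_eq_iff hD]; ring,
    show (l * k₁ - l₁ * k) / (l₀ * k₁ - l₁ * k₀) * k₀ +
      (l₀ * k - l * k₀) / (l₀ * k₁ - l₁ * k₀) * k₁ = k by
      rw [div_mul_eq_mul_div, div_mul_eq_mul_div, ← add_div, div_eq_iff hD]; ring] at this
  rw [Ty.eq hp7 (by omega) hn (by omega) hφ ((hφ₀.smul _).add_fun (hφ₁.smul _)) t this ha, a₀, a₁]
  ring

lemma span1 (hp7 : 7 ≤ p) {n : ℕ} (h0 : 77 ≤ n) (hn : n ≤ r + 8) {φ₀ : G → ZMod p}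
    (hφ₀ : IsLev X.S n φ₀) {l₀ k₀ : ZMod p} (t₀ : T.Ty φ₀ n l₀ k₀) (hne : l₀ ≠ 0 ∨ k₀ ≠ 0)
    (hD : ∀ φ l k, IsLev X.S n φ → T.Ty φ n l k → l₀ * k - l * k₀ = 0) {a : G}
    (ha : a ∈ X.S.F n) (a₀ : φ₀ a = 0) : a ∈ X.S.F (n + 1) := by
  refine mem_of_all (T := T) hp7 h0 hn ha fun φ l k hφ t => ?_
  obtain ⟨c, rfl, rfl⟩ : ∃ c, l = c * l₀ ∧ k = c * k₀ := by
    have := hD φ l k hφ t
    rcases hne with h | h
    · exact ⟨l / l₀, by field_simp, by field_simp; linear_combination this⟩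
    · exact ⟨k / k₀, by field_simp; linear_combination -this, by field_simp⟩
  have := t₀.comb t₀ c 0
  simp only [zero_mul, add_zero] at this
  rw [Ty.eq hp7 (by omega) hn (by omega) hφ (hφ₀.smul _) t this ha, a₀, mul_zero]

lemma exists_ext (hp7 : 7 ≤ p) (hr : 77 ≤ r) {φ : G → ZMod p} (hφ : IsLev X.S (r + 1) φ)
    (t : T.Ty φ (r + 1) 1 0) (z : G) (w : ℕ) (h2 : 2 ≤ w) (hw : w ≤ r + 1)
    (k1 : ∀ i, 1 ≤ i → i ≤ r → i ≠ w → ∀ a ∈ X.S.F i, T.ε i a = 0 → a ∈ X.S.F (i + 1))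
    (k2 : r + 1 ≠ w → ∀ a ∈ X.S.F (r + 1), φ a = 0 → a ∈ X.S.F (r + 1 + 1))
    (hz : z ∈ X.S.F w) (hz0 : (if w = r + 1 then φ else T.ε w) z = 0) (hzp : z ^ p ∈ X.S.F (w + 1))
    (k3 : ∀ a ∈ X.S.F w, (if w = r + 1 then φ else T.ε w) a = 0 →
      ∃ n : ℕ, a * (z ^ n)⁻¹ ∈ X.S.F (w + 1)) : ∃ T' : St X (r + 1), T'.z = z ∧ T'.w = w := by
  obtain ⟨u, hu, hu1⟩ : ∃ u ∈ X.S.F (r + 1), φ u = 1 := by
    obtain ⟨i, j, hi, hj, hij, hne⟩ := exists_split (p := p) hp7 (C := 17) (k := r + 1) (by omega)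
    have hm := NSer.comm_mem' (T.e_mem i (by omega)) (T.e_mem j (by omega)) hij.ge
    refine ⟨_, pow_mem hm ((j : ZMod p) - i)⁻¹.val, ?_⟩
    rw [hφ.pow_val hm, t.2 i j hi hj hij, ← hij, Psi, inv_mul_eq_one₀ hne]
    push_cast; ring
  refine ⟨⟨fun i => if i = r + 1 then φ else T.ε i, fun i => if i = r + 1 then u else T.e i, z, w,
    fun i h1 hi => ?_, fun i hi => ?_, fun i hi hS => ?_, fun i j hi hj h a ha b hb => ?_,
    fun i h1 hi hiw a ha => ?_, hz, hz0, hzp, k3, h2, hw⟩, rfl, rfl⟩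
  · split_ifs with h
    exacts [h ▸ hφ, T.lev i h1 (by omega)]
  · split_ifs with h
    exacts [h ▸ hu, T.e_mem i (by omega)]
  · split_ifs with h
    exacts [hu1, T.e_one i (by omega) hS]
  · rw [if_neg (by omega : i ≠ r + 1), if_neg (by omega : j ≠ r + 1)]
    split_ifs with h'
    · rw [t.full hp7 (by omega) (by omega) hφ hi hj (by omega) (by omega) h' ha hb, ← h', Psi]
      push_cast; ring
    · exact T.br i j hi hj (by omega) a ha b hb
  · split_ifs with h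
    · subst h; exact k2 hiw a ha
    · exact k1 i h1 (by omega) hiw a ha

/-- the standing side conditions -/
def Good (T : St X r) : Prop := T.w ≤ p ∧ (X.μ ≠ 2 → T.z ∈ X.S.F (T.w + 1))

theorem ext_step [Finite G] (hG : IsPGroup p G) (hp11 : 11 ≤ p) (hB : Bud p G) (hr : 77 ≤ r)
    (hg : T.Good) (hs : T.Std (r + 1)) : ∃ T' : St X (r + 1), T'.Good := by
  have hp7 : 7 ≤ p := by omega
  obtain ⟨φ, hφ, t⟩ := hs
  have hw := T.w_le
  by_cases hk : ∀ a ∈ X.S.F (r + 1), φ a = 0 → a ∈ X.S.F (r + 1 + 1)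
  · obtain ⟨T', h1, h2⟩ := exists_ext hp7 hr hφ t T.z T.w T.w_ge (by omega) T.ker
      (fun _ => hk) T.z_mem (by rw [if_neg (by omega)]; exact T.z_eps) T.z_pow
      (by rw [if_neg (by omega)]; exact T.kerw)
    exact ⟨T', by rw [h2]; exact hg.1, by rw [h1, h2]; exact hg.2⟩
  push Not at hk
  obtain ⟨z, hz, hz0, hz1⟩ := hk
  have hel := X.elem (r + 1) (by rcases X.hμ with h | h | h <;> omega)
  obtain ⟨ψ, hψ, hψz⟩ := exists_fun X.S hel hz hz1
  obtain ⟨l, k, t'⟩ := T.exists_ty hp7 (by omega) (by omega) hψ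
  have hk : k ≠ 0 := by
    rintro rfl
    have := t.comb t l 0
    simp only [zero_mul, add_zero, mul_one, mul_zero] at this
    rw [Ty.eq hp7 (by omega) (by omega) (by omega) hψ (hφ.smul _) t' this hz, hz0, mul_zero] at hψz
    exact hψz rfl
  have hdv : p ∣ r + 1 := (ZMod.natCast_eq_zero_iff _ _).1 ((mul_eq_zero.1 t'.1).resolve_left hk)
  have hc : p ^ 2 * Nat.card (X.S.F (r + 1 + 1)) ≤ Nat.card (X.S.F (r + 1)) := by
    have c1 := card_lt_mul hG (H := X.S.F (r + 1 + 1)) (K := hφ.kerSub)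
      (fun a ha => ⟨X.S.anti (Nat.le_succ _) ha, hφ.zero a ha⟩) fun h => hz1 (h ⟨hz, hz0⟩)
    have c2 := card_lt_mul hG (H := hφ.kerSub) (K := X.S.F (r + 1)) (fun a ha => ha.1) fun h => by
      obtain ⟨i, j, hi, hj, hij, hne⟩ := exists_split (p := p) hp7 (C := 17) (k := r + 1) (by omega)
      have := (h (NSer.comm_mem' (T.e_mem i (by omega)) (T.e_mem j (by omega)) hij.ge)).2
      rw [t.2 i j hi hj hij, ← hij, Psi] at this
      apply hne
      rw [← this]; push_cast; ring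
    calc _ = p * (p * Nat.card (X.S.F (r + 1 + 1))) := by ring
      _ ≤ p * Nat.card hφ.kerSub := by gcongr
      _ ≤ _ := c2
  obtain ⟨N, hN0, hN1⟩ := T.exists_fn hG hp7 hg.2
  have hσ := N.σ_le
  have hσ' := N.le_σ
  have seg : ∀ j, 1 ≤ j → (X.μ = 2 ∨ 3 ≤ j) → j ≤ r + 1 →
      p ^ (r + 1 - j + (if j ≤ N.σ then N.x else 0) + 2) * Nat.card (X.S.F (r + 1 + 1)) ≤
        Nat.card (N.S j) := fun j h1 h2 h3 => by
    rw [N.card_seg (a := j) (b := r + 1) (fun i hi => ⟨by omega, by omega, by omega⟩) h3 le_rfl,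
      N.top' (Nat.lt_succ_self r), pow_add, mul_assoc]
    simp only [show N.σ < r + 1 by omega, and_true]
    gcongr
  by_cases hμ : X.μ = 2
  swap
  · exfalso
    refine N.large hG hp7 hB (i := 3) (j := r - 1) (inS_of_le le_rfl) (by omega) (by omega)
      (X.S.F (r + 1 + 1)) (fun y hy u hu => X.S.anti (by omega)
        (N.comm _ _ (by omega) (by omega) y hy u hu)) (le_trans ?_ (seg _ (by omega) (by omega)
          (by omega)))
    rw [cod_ne hμ (by omega)]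
    exact Nat.mul_le_mul_right _ (Nat.pow_le_pow_right hp.out.pos (by omega))
  by_cases hzw : T.z ∈ X.S.F (T.w + 1)
  swap
  · exfalso
    refine N.large hG hp7 hB (i := 8) (j := r - 6) (inS_of_le (by omega)) (by omega) (by omega)
      (X.S.F (r + 1 + 1)) (fun y hy u hu => X.S.anti (by omega)
        (N.comm _ _ (by omega) (by omega) y hy u hu)) (le_trans ?_ (seg _ (by omega) (by omega)
          (by omega)))
    rw [hμ, cod_two, if_pos (by omega), hN1 hzw]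
    exact Nat.mul_le_mul_right _ (Nat.pow_le_pow_right hp.out.pos (by omega))
  by_cases hrp : r + 1 ≤ p
  · obtain ⟨T', h1, h2⟩ := exists_ext hp7 hr hφ t z (r + 1) (by omega) le_rfl
      (fun i h1 hi _ a ha h => T.ker' h1 hi le_rfl (fun e => by subst e; exact hzw) ha h)
      (fun h => absurd rfl h) hz (by rw [if_pos rfl]; exact hz0) (hel z hz) (by
        rw [if_pos rfl]
        intro a ha h
        have hm := pow_mem hz (ψ a / ψ z).val
        refine ⟨(ψ a / ψ z).val, span2 hp7 (by omega) (by omega) hφ hψ t t' (by simpa using hk)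
          (mul_mem ha (inv_mem hm)) ?_ ?_⟩
        · rw [hφ.add _ ha _ (inv_mem hm), hφ.inv hm, hφ.pow hz, h, hz0]; simp
        · rw [hψ.add _ ha _ (inv_mem hm), hψ.inv hm, hψ.pow_val hz]; field_simp; ring)
    exact ⟨T', by rw [h2]; exact hrp, fun h => absurd hμ h⟩
  exfalso
  have h2p : 2 * p ≤ r + 1 := by
    obtain ⟨c, hc⟩ := hdv
    rcases c with _ | _ | c
    · omega
    · omega
    · rw [hc]; nlinarith
  have := Fintype.ofFinite G
  obtain ⟨q, hq⟩ : ∃ q, p = q + 1 := ⟨p - 1, by omega⟩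
  refine hB.agg (X.S.F (r + 1 + 1)) N.S N.anti (Finset.Ico 1 p) (q * p) ?_ fun i hi => ?_
  · rw [Nat.card_Ico, hq, Nat.add_sub_cancel]
    have : 10 ≤ q := by omega
    nlinarith [Nat.mul_le_mul this this]
  · rw [Finset.mem_Ico] at hi
    have hS : inS X.μ i := ⟨hi.1, by omega, by omega⟩
    have e1 := card_layer (N.anti (Nat.le_succ i))
    have e2 := N.card i hi.1 (by omega)
    rw [if_pos hS, hN0 hzw, ite_self, add_zero, pow_one] at e2
    have e3 : (layer (N.S i) (N.S (i + 1))).card = q * Nat.card (N.S (i + 1)) := by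
      simp only [Nat.succ_eq_add_one] at e1
      have e5 : p * Nat.card (N.S (i + 1)) = (q + 1) * Nat.card (N.S (i + 1)) := by rw [← hq]
      linarith
    have e4 := seg (r + 2 - i) (by omega) (Or.inl hμ) (by omega)
    rw [hN0 hzw, ite_self] at e4
    refine le_trans ?_ (Finset.card_nsmul_le_sum _ _ (p * Nat.card (N.S (r + 2 - i))) fun y hy =>
      card_cen_ge hG (fun h => (mem_layer.1 hy).2 (N.anti (by omega) h)) fun u hu =>
        X.S.anti (by omega) (N.comm _ _ hi.1 (by omega) y (mem_layer.1 hy).1 u hu))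
    rw [e3, N.card_top hi.1 (by omega), e2, hμ, cod_two, smul_eq_mul]
    rw [show r + 1 - (r + 2 - i) = i - 1 by omega] at e4
    calc _ = q * Nat.card (N.S (i + 1)) *
          (p * (p ^ (i - 1 + 0 + 2) * Nat.card (X.S.F (r + 1 + 1)))) := by ring
      _ ≤ _ := by gcongr

theorem bound_extra [Finite G] (hG : IsPGroup p G) (hp7 : 7 ≤ p) (hB : Bud p G) (hg : T.Good)
    (hz : T.z ∉ X.S.F (T.w + 1)) : r ≤ p + 13 := by
  by_contra hr
  have hμ : X.μ = 2 := by_contra fun h => hz (hg.2 h)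
  have hw := hg.1
  obtain ⟨N, -, hN⟩ := (T.trunc (r' := p + 14) (by omega) (by omega)).exists_fn hG hp7 hg.2
  have hσ := N.σ_le
  have hσ' := N.le_σ
  refine N.large hG hp7 hB (i := 7) (j := 7 + p) (inS_of_le (by omega)) (by omega) (by omega)
    (X.S.F (7 + (7 + p) + 1)) (N.comm_deep (by omega) (by omega) (by omega)
      (T.zero_lev (by omega) rfl (by omega) (by omega))) (le_of_eq ?_)
  rw [N.card_seg (a := 7 + p) (b := 7 + (7 + p) + 1) (fun i hi => inS_of_le (by omega)) (by omega)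
    (by omega), N.top' (by omega), if_pos (by omega), hN hz, hμ, cod_two]
  congr 2; omega

theorem bound_ne [Finite G] (hG : IsPGroup p G) (hp7 : 7 ≤ p) (hB : Bud p G) (hg : T.Good)
    (hμ : X.μ ≠ 2) {i : ℕ} (hS : inS X.μ i) (hi : 3 ≤ i ∨ X.μ = 4) (hi' : i ≤ 3) : r < p + 2 * i := by
  by_contra hr
  have hw := hg.1
  have h1 := hS.1
  obtain ⟨N, -, -⟩ := (T.trunc (r' := p + 2 * i) (by omega) (by omega)).exists_fn hG hp7 hg.2
  have hσ' := N.le_σ
  refine N.large hG hp7 hB (i := i) (j := i + p) hS (by omega) (by omega)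
    (X.S.F (i + (i + p) + 1)) (N.comm_deep (by omega) (by omega) (Or.inl (N.hx hμ))
      (T.zero_lev (by omega) rfl (by omega) (by omega))) (le_of_eq ?_)
  rw [N.card_seg (a := i + p) (b := i + (i + p) + 1) (fun i hi => inS_of_le (by omega)) (by omega)
    (by omega), N.top' (by omega), N.hx hμ, ite_self, cod_ne hμ hi]
  have := hS.2
  congr 2; omega

end St

end Pool.Agent.P78
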