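import Pool.Agent.Lib.MP_78c6b1_al.Neg.Raise

/-! The chain of normal subgroups used for counting. -/

set_option autoImplicit false
set_option linter.unusedSectionVars false

namespace Pool.Agent.P78

open scoped commutatorElement

variable {p : ℕ} {G : Type} [Group G] [hp : Fact p.Prime] {X : Ctx p G} {r : ℕ}

structure Fn (T : St X r) where
  S : ℕ → Subgroup G
  σ : ℕ
  x : ℕ
  normal : ∀ i, (S i).Normal
  anti : Antitone S
  one : S 1 = ⊤
  le : ∀ i, X.S.F i ≤ S i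
  comm : ∀ i j, 1 ≤ i → 1 ≤ j → ∀ a ∈ S i, ∀ b ∈ S j, ⁅a, b⁆ ∈ X.S.F (i + j)
  top : ∀ i, σ < i → S i = X.S.F i
  σ_le : σ ≤ r
  le_σ : r ≤ σ + 6
  dec : ∀ i, 1 ≤ i → i < σ → ∀ y ∈ S i, ∃ f ∈ X.S.F i, (y ∉ S (i + 1) → T.ε i f ≠ 0) ∧
    ∀ j, 1 ≤ j → ∀ u ∈ S j, ⁅y, u⁆ * ⁅f, u⁆⁻¹ ∈ X.S.F (σ + j)
  card : ∀ i, 1 ≤ i → i ≤ r → Nat.card (S i) =
    p ^ ((if inS X.μ i then 1 else 0) + if i = σ then x else 0) * Nat.card (S (i + 1))
  x_le : x ≤ 1
  hx : X.μ ≠ 2 → x = 0
  eqF : x = 0 → ∀ i, S i = X.S.F i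

namespace St

variable (T : St X r)

def trunc {r' : ℕ} (h : r' ≤ r) (hw : T.w ≤ r') : St X r' where
  ε := T.ε
  e := T.e
  z := T.z
  w := T.w
  lev i h1 h2 := T.lev i h1 (h2.trans h)
  e_mem i h2 := T.e_mem i (h2.trans h)
  e_one i h2 := T.e_one i (h2.trans h)
  br i j h1 h2 h3 := T.br i j h1 h2 (h3.trans h)
  ker i h1 h2 := T.ker i h1 (h2.trans h)
  z_mem := T.z_mem
  z_eps := T.z_eps
  z_pow := T.z_pow
  kerw := T.kerw
  w_ge := T.w_ge
  w_le := hw

lemma e_not_mem {i : ℕ} (hi : i ≤ r) (hS : inS X.μ i) : T.e i ∉ X.S.F (i + 1) := fun h => by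
  have := T.e_one i hi hS
  rw [(T.lev i hS.1 hi).zero _ h] at this
  exact zero_ne_one this

lemma ker' {i : ℕ} (h1 : 1 ≤ i) (hi : i ≤ r) {K : Subgroup G} (hK : X.S.F (i + 1) ≤ K)
    (hz : i = T.w → T.z ∈ K) {a : G} (ha : a ∈ X.S.F i) (h0 : T.ε i a = 0) : a ∈ K := by
  by_cases hw : i = T.w
  · subst hw
    obtain ⟨n, hn⟩ := T.kerw a ha h0
    simpa using mul_mem (hK hn) (pow_mem (hz rfl) n)
  · exact hK (T.ker i h1 hi hw a ha h0)

lemma card_pure [Finite G] (hG : IsPGroup p G) {i : ℕ} (hi : i ≤ r) (hS : inS X.μ i)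
    (hz : i = T.w → T.z ∈ X.S.F (i + 1)) :
    Nat.card (X.S.F i) = p * Nat.card (X.S.F (i + 1)) := by
  refine le_antisymm ?_ (card_lt_mul hG (X.S.anti (Nat.le_succ i))
    fun h => T.e_not_mem hi hS (h (T.e_mem i hi)))
  have := card_le_of_fun (T.ε i) (T.lev i hS.1 hi).add fun a ha h => T.ker' hS.1 hi le_rfl hz ha h
  rwa [Nat.card_zmod] at this

lemma fn_pure [Finite G] (hG : IsPGroup p G) (hz : T.z ∈ X.S.F (T.w + 1)) :
    ∃ N : Fn T, N.x = 0 := by
  refine ⟨⟨X.S.F, r, 0, X.S.normal, X.S.anti, X.S.one, fun _ => le_rfl,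
    fun i j _ _ a ha b hb => NSer.comm_mem ha hb, fun _ _ => rfl, le_rfl, by omega,
    fun i h1 hi y hy => ⟨y, hy, fun h h0 => h ?_, fun j _ u _ => by rw [mul_inv_cancel]; exact one_mem _⟩, fun i h1 hi => ?_,
    by omega, fun _ => rfl, fun _ _ => rfl⟩, rfl⟩
  · exact T.ker' h1 hi.le le_rfl (fun e => by subst e; exact hz) hy h0
  · by_cases hS : inS X.μ i
    · simpa [hS] using T.card_pure hG hi hS (fun e => by subst e; exact hz)
    · simp [hS, ← X.gap i h1 hS]

lemma fn_extra [Finite G] (hG : IsPGroup p G) (hp7 : 7 ≤ p) (hμ : X.μ = 2)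
    (hz : T.z ∉ X.S.F (T.w + 1)) : ∃ N : Fn T, N.x = 1 := by
  obtain ⟨σ, z, h1, h2, h3, h4, h5, hA⟩ := T.exists_raise hp7 hμ
  have hS : ∀ i, 1 ≤ i → inS X.μ i := fun i hi => ⟨hi, by omega, by omega⟩
  have hw := T.w_ge
  have hzw : z ∈ X.S.F T.w := by simpa using mul_mem (X.S.anti (Nat.le_succ _) h5) T.z_mem
  have hz' : z ∉ X.S.F (T.w + 1) := fun h => hz (by simpa using mul_mem (inv_mem h5) h)
  have hzp : ∀ l, T.w ≤ l → l ≤ σ → z ^ p ∈ X.S.F (l + 1) := by
    intro l hl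
    induction l, hl using Nat.le_induction with
    | base =>
      intro _
      have e : (z : G ⧸ X.S.F (T.w + 1)) = T.z := by
        rw [eq_comm, QuotientGroup.eq]
        simpa [mul_assoc] using NSer.conj_mem h5 T.z⁻¹
      rw [← QuotientGroup.eq_one_iff, QuotientGroup.mk_pow, e, ← QuotientGroup.mk_pow,
        QuotientGroup.eq_one_iff]
      exact T.z_pow
    | succ l hl ih =>
      intro hl'
      have hm := ih (by omega)
      refine T.ker _ (by omega) (by omega) (by omega) _ hm ?_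
      have hA' : Acts X.S z (l + 1) := fun j hj b hb => X.S.anti (by omega) (hA j hj b hb)
      have key : ∀ j : ℕ, 1 ≤ j → j ≤ 2 →
          ((j : ZMod p) - (l + 1 : ℕ)) * T.ε (l + 1) (z ^ p) = 0 := fun j hj hj' => by
        have ej := T.e_mem j (by omega)
        have e1 := T.br (l + 1) j (by omega) hj (by omega) _ hm _ ej
        rw [((hA'.lev (by omega) (T.lev (l + 1 + j) (by omega) (by omega))).commL rfl
          (le_raiseF _ _ _ _ ej)).pow (mem_raiseF le_rfl), T.e_one j (by omega) (hS j hj)] at e1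
        simpa using e1.symm
      linear_combination key 2 (by omega) (by omega) - key 1 (by omega) (by omega)
  have hzp' := hzp σ h1 le_rfl
  have hZ : ∀ i, 1 ≤ i → i ≤ σ → ∀ t ∈ Subgroup.zpowers z, t ∈ X.S.F i → T.ε i t = 0 := by
    rintro i hi hi' _ ⟨n, rfl⟩ ht
    rcases lt_trichotomy i T.w with h | rfl | h
    · exact (T.lev i hi (by omega)).zero _ (zpow_mem (X.S.anti h hzw) n)
    · rw [(T.lev _ hi (by omega)).zpow hzw, (T.lev _ hi (by omega)).congr T.z_mem h5, T.z_eps,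
        smul_zero]
    · refine (T.lev i hi (by omega)).zero _ (X.S.anti (by omega : i + 1 ≤ σ + 1) ?_)
      by_cases hd : (p : ℤ) ∣ n
      · obtain ⟨k, rfl⟩ := hd
        show z ^ ((p : ℤ) * k) ∈ _
        rw [zpow_mul, zpow_natCast]; exact zpow_mem hzp' k
      · exfalso
        obtain ⟨a, b, hab⟩ := (Int.prime_iff_natAbs_prime.2 (by simpa using hp.out)
          : Prime (p : ℤ)).coprime_iff_not_dvd.2 hd
        apply hz'
        rw [← zpow_one z, ← hab, zpow_add, mul_comm a, mul_comm b, zpow_mul, zpow_mul, zpow_natCast]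
        exact mul_mem (zpow_mem (hzp T.w le_rfl h1) a) (zpow_mem (X.S.anti h ht) b)
  have hdec : ∀ i, ∀ y ∈ X.S.F i ⊔ Subgroup.zpowers z, ∃ f ∈ X.S.F i, ∃ t ∈ Subgroup.zpowers z,
      f * t = y := fun i y hy => by
    rw [← SetLike.mem_coe, Subgroup.normal_mul] at hy
    exact hy
  have hTz : ∀ i, i = T.w → T.z ∈ X.S.F (i + 1) ⊔ Subgroup.zpowers z := by
    rintro i rfl
    simpa using mul_mem (Subgroup.mem_sup_left (T := Subgroup.zpowers z) (inv_mem h5))
      (Subgroup.mem_sup_right (Subgroup.mem_zpowers z))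
  have hc : ∀ i, 1 ≤ i → i ≤ σ → Nat.card ↥(X.S.F i ⊔ Subgroup.zpowers z) =
      p * Nat.card ↥(X.S.F (i + 1) ⊔ Subgroup.zpowers z) := by
    intro i hi hi'
    have hl := T.lev i hi (by omega)
    have ei := T.e_mem i (by omega)
    refine le_antisymm (card_le_of_pow (z := T.e i) hp.out.pos ?_ fun a ha => ?_)
      (card_lt_mul hG (sup_le_sup_right (X.S.anti (Nat.le_succ i)) _) fun h => ?_)
    · exact T.ker' hi (by omega) le_sup_left (hTz i) (pow_mem ei p) (by simp [hl.pow ei])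
    · obtain ⟨f, hf, t, ht, rfl⟩ := hdec i a ha
      refine ⟨(T.ε i f).val, ?_⟩
      have hm := pow_mem ei (T.ε i f).val
      have e1 : f * (T.e i ^ (T.ε i f).val)⁻¹ ∈ X.S.F (i + 1) ⊔ Subgroup.zpowers z :=
        T.ker' hi (by omega) le_sup_left (hTz i) (mul_mem hf (inv_mem hm)) (by
          rw [hl.add _ hf _ (inv_mem hm), hl.inv hm, hl.pow_val ei,
            T.e_one i (by omega) (hS i hi)]; ring)
      have e2 := hA.zpowers ht i hi _ hm
      have := mul_mem (mul_mem e1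
        (Subgroup.mem_sup_left (X.S.anti (by omega : i + 1 ≤ σ + i) (inv_mem e2))))
        (Subgroup.mem_sup_right ht)
      simpa [commutatorElement_def, mul_assoc] using this
    · obtain ⟨f, hf, t, ht, e⟩ := hdec (i + 1) _ (h (Subgroup.mem_sup_left ei))
      have ht' : t ∈ X.S.F i := by
        simpa [← e] using mul_mem (inv_mem (X.S.anti (Nat.le_succ i) hf)) ei
      have := T.e_one i (by omega) (hS i hi)
      rw [← e, hl.deep_mul ht' hf, hZ i hi hi' t ht ht'] at this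
      exact zero_ne_one this
  refine ⟨⟨raiseF X.S z σ, σ, 1, hA.normal, raiseF_anti _ _ _, hA.ser.one, le_raiseF _ _ _,
    fun i j hi hj a ha b hb => hA.comm hi hj ha hb, fun _ => raiseF_top, h2, h3,
    fun i hi hi' y hy => ?_, fun i hi hi' => ?_, le_rfl, fun h => absurd hμ h, by simp⟩, rfl⟩
  · rw [raiseF, if_pos hi'.le] at hy
    obtain ⟨f, hf, t, ht, rfl⟩ := hdec i y hy
    refine ⟨f, hf, fun h h0 => h ?_, fun j hj u hu => ?_⟩
    · rw [raiseF, if_pos (by omega)]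
      exact mul_mem (T.ker' hi (by omega) le_sup_left (hTz i) hf h0) (Subgroup.mem_sup_right ht)
    · rw [commutatorElement_mul_left_eq_conj_mul, mul_inv_cancel_right]
      refine NSer.conj_mem ?_ f
      exact cen_symm.1 ((Subgroup.zpowers_le.2 (cen_symm.1 (hA.comm_z hj hu)) :
        _ ≤ cen (X.S.F (σ + j)) u) ht)
  · rw [if_pos (hS i hi)]
    rcases lt_trichotomy i σ with h | rfl | h
    · rw [if_neg h.ne, raiseF, raiseF, if_pos h.le, if_pos (by omega), hc i hi h.le]; simp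
    · rw [if_pos rfl, raiseF, if_pos le_rfl, raiseF_top (by omega), hc i hi le_rfl, pow_succ,
        pow_one, mul_assoc]
      congr 1
      refine le_antisymm (card_le_of_pow (z := z) hp.out.pos hzp' fun a ha => ?_)
        (card_lt_mul hG le_sup_left fun h => hz' (X.S.anti (by omega)
          (h (Subgroup.mem_sup_right (Subgroup.mem_zpowers z)))))
      obtain ⟨f, hf, t, ht, rfl⟩ := hdec _ a ha
      obtain ⟨n, rfl⟩ := (mem_powers_iff_mem_zpowers.2 ht)
      exact ⟨n, by simpa using hf⟩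
    · rw [if_neg h.ne', raiseF_top h, raiseF_top (by omega),
        T.card_pure hG hi' (hS i hi) (fun e => by omega)]; simp

end St

end Pool.Agent.P78
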