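import Mathlib

/-! Interfaces between the blocks of the negative answer. -/

set_option autoImplicit false

namespace Pool.Agent.P78

/-- Weights of the three Witt types: `μ = 2` gives `{1, 2, …}`, `μ = 3` gives `{1, 3, 4, …}`,
`μ = 4` gives `{2, 3, 4, …}` (`μ` is the largest weight of a generator). -/
def inS (μ i : ℕ) : Prop := 1 ≤ i ∧ (μ = 3 → i ≠ 2) ∧ (μ = 4 → i ≠ 1)

instance (μ i : ℕ) : Decidable (inS μ i) := by unfold inS; infer_instance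

/-- A filtration of `L` whose layers `1, …, R` are those of a Witt type algebra. -/
structure PureFil (K L : Type*) [Field K] [LieRing L] [LieAlgebra K L] (μ R : ℕ) where
  F : ℕ → Submodule K L
  e : ℕ → L
  one : F 1 = ⊤
  anti : Antitone F
  lie : ∀ i j, i + j ≤ R + 1 → ∀ a ∈ F i, ∀ b ∈ F j, ⁅a, b⁆ ∈ F (i + j)
  gap : ∀ i, 1 ≤ i → ¬ inS μ i → F i = F (i + 1)
  span : ∀ i, i ≤ R → inS μ i → F i = (K ∙ e i) ⊔ F (i + 1)
  ne : ∀ i, i ≤ R → inS μ i → e i ∉ F (i + 1)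
  br : ∀ i j, inS μ i → inS μ j → i + j ≤ R →
    ⁅e i, e j⁆ - ((j : K) - (i : K)) • e (i + j) ∈ F (i + j + 1)

/-- every quotient of `L` has fewer than `0.9 p ^ 4` commuting pairs per element -/
def CountBud (p : ℕ) [Fact p.Prime] (L : Type) [LieRing L] [LieAlgebra (ZMod p) L] : Prop :=
  ∀ I : LieIdeal (ZMod p) L,
    10 * Nat.card {x : L × L // ⁅x.1, x.2⁆ ∈ I} < 9 * p ^ 4 * Nat.card L * Nat.card I

/-- Classification block. -/
def ClassStmt : Prop :=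
  ∀ R : ℕ, ∃ m p₀ : ℕ, ∀ (p : ℕ) [Fact p.Prime], p₀ ≤ p →
    ∀ (L : Type) [LieRing L] [LieAlgebra (ZMod p) L] [Finite L], LieRing.IsNilpotent L →
      p ^ m ≤ Nat.card L → CountBud p L →
      ∃ μ, (μ = 2 ∨ μ = 3 ∨ μ = 4) ∧ Nonempty (PureFil (ZMod p) L μ R)

/-- Point count block (closed sets are enough). -/
def GapStmt : Prop :=
  ∀ (n d : ℕ) (ε : ℝ), 0 < ε → ∃ C : ℕ, ∀ (p : ℕ) [Fact p.Prime]
    (S : Set (MvPolynomial (Fin n) (ZMod p))), (∀ s ∈ S, s.totalDegree ≤ d) → ∀ k : ℕ,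
      Nat.card {x : Fin n → ZMod p // ∀ s ∈ S, MvPolynomial.eval x s = 0} ≤ C * p ^ k ∨
      (1 - ε) * (p : ℝ) ^ (k + 1) ≤
        Nat.card {x : Fin n → ZMod p // ∀ s ∈ S, MvPolynomial.eval x s = 0}

end Pool.Agent.P78
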