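import Pool.Agent.Lib.MP_78c6b1_al.Neg.Iface3

/-! Rigidity of the truncated Witt algebra: the cohomological statement. -/

set_option autoImplicit false

namespace Pool.Agent.P78

/-- homogeneous two-cocycles of degree `s` with adjoint coefficients are coboundaries -/
def RigAlg : Prop :=
  ∃ p₀ : ℕ, ∀ (p : ℕ) [Fact p.Prime], p₀ ≤ p → ∀ (s : ZMod p) (W : ℕ), p + 2 ≤ W → W < 2 * p →
    ∀ g : ℕ → ℕ → ZMod p, (∀ i j, 1 ≤ i → 1 ≤ j → i + j ≤ W → g j i = -g i j) →
      (∀ i j k : ℕ, 1 ≤ i → 2 ≤ j → 2 ≤ k → i + j + k ≤ W →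
        ((j : ZMod p) - i) * g (i + j) k + g i j * ((k : ZMod p) - i - j - s) +
        (((k : ZMod p) - j) * g (j + k) i + g j k * ((i : ZMod p) - j - k - s)) +
        (((i : ZMod p) - k) * g (k + i) j + g k i * ((j : ZMod p) - k - i - s)) = 0) →
      ∃ t : ℕ → ZMod p, ∀ i j : ℕ, 1 ≤ i → 1 ≤ j → i + j ≤ W →
        g i j = t i * ((j : ZMod p) - i - s) + t j * ((j : ZMod p) - i + s) -
          ((j : ZMod p) - i) * t (i + j)

end Pool.Agent.P78
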