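import Pool.Agent.Lib.MP_78c6b1_al.Neg.BCH
import Pool.Agent.Lib.MP_78c6b1_al.Neg.Laz

/-! Universal Baker-Campbell-Hausdorff polynomials in a filtered nilpotent algebra. -/

set_option autoImplicit false

namespace Pool.Agent.P78

open Finset Polynomial WF

attribute [local instance 100] LieRing.ofAssociativeRing

variable {R B : Type*} [CommRing R] [Ring B] [Algebra R B]

/-- span of left normed brackets of length `n` in the elements of `S` -/
def lam (R : Type*) {B : Type*} [CommRing R] [Ring B] [Algebra R B] (S : Set B) :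
    ℕ → Submodule R B
  | 0 => ⊥
  | 1 => Submodule.span R S
  | n + 2 => Submodule.span R {x | ∃ u ∈ lam R S (n + 1), ∃ s ∈ S, x = ⁅u, s⁆}

lemma lam_lie_gen {S : Set B} {i : ℕ} {a s : B} (ha : a ∈ lam R S i) (hs : s ∈ S) :
    ⁅a, s⁆ ∈ lam R S (i + 1) := by
  cases i with
  | zero => obtain rfl : a = 0 := ha; simp
  | succ i => exact Submodule.subset_span ⟨a, ha, s, hs, rfl⟩

lemma lam_lie {S : Set B} (j : ℕ) : ∀ {i : ℕ} {a b : B}, a ∈ lam R S i → b ∈ lam R S j →
    ⁅a, b⁆ ∈ lam R S (i + j) := by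
  induction j with
  | zero => intro i a b _ hb; obtain rfl : b = 0 := hb; simp
  | succ j ih =>
    intro i a b ha hb
    cases j with
    | zero =>
      induction hb using Submodule.span_induction with
      | mem s hs => exact lam_lie_gen ha hs
      | zero => simp
      | add x y _ _ hx hy => rw [lie_add]; exact add_mem hx hy
      | smul r x _ hx => rw [lie_smul]; exact Submodule.smul_mem _ _ hx
    | succ j =>
      induction hb using Submodule.span_induction with
      | mem x hx =>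
        obtain ⟨u, hu, s, hs, rfl⟩ := hx
        rw [leibniz_lie, ← lie_skew u]
        refine add_mem (lam_lie_gen (ih ha hu) hs) (neg_mem ?_)
        have := ih (lam_lie_gen ha hs) hu
        rwa [show i + 1 + (j + 1) = i + (j + 1 + 1) by ring] at this
      | zero => simp
      | add x y _ _ hx hy => rw [lie_add]; exact add_mem hx hy
      | smul r x _ hx => rw [lie_smul]; exact Submodule.smul_mem _ _ hx

lemma lam_le {W : WF R B} {S : Set B} (hS : ∀ s ∈ S, s ∈ W.J 1) : ∀ n, lam R S n ≤ W.J n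
  | 0 => bot_le
  | 1 => Submodule.span_le.2 hS
  | n + 2 => Submodule.span_le.2 (by
      rintro _ ⟨u, hu, s, hs, rfl⟩
      exact lie_mem (i := n + 1) (j := 1) (lam_le hS (n + 1) hu) (hS s hs))

def lamG (W : WF R B) (S : Set B) (hS : ∀ s ∈ S, s ∈ W.J 1) : GLie W where
  Λ := lam R S
  zero := rfl
  le := lam_le hS
  lie := fun ha hb => lam_lie _ ha hb

section ev
variable {L : Type*} [LieRing L]

lemma evC_add (β β' : List Bool →₀ ℤ) (a b : L) :
    evC (β + β') a b = evC β a b + evC β' a b :=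
  Finsupp.sum_add_index' (by simp) (fun _ _ _ => add_smul _ _ _)

lemma evC_zero (a b : L) : evC 0 a b = 0 := by simp [evC]

lemma evC_single (w : List Bool) (n : ℤ) (a b : L) :
    evC (Finsupp.single w n) a b = n • evW w a b := by simp [evC]

lemma evC_zsmul (n : ℤ) (β : List Bool →₀ ℤ) (a b : L) : evC (n • β) a b = n • evC β a b := by
  induction β using Finsupp.induction_linear with
  | zero => simp [evC_zero]
  | add f g hf hg => rw [smul_add, evC_add, evC_add, hf, hg, smul_add]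
  | single w m => rw [Finsupp.smul_single, evC_single, evC_single, smul_smul, smul_eq_mul]

lemma evC_lie (β : List Bool →₀ ℤ) (t : Bool) (a b : L) :
    ∃ β' : List Bool →₀ ℤ, β' [] = 0 ∧ ⁅evC β a b, cond t a b⁆ = evC β' a b := by
  induction β using Finsupp.induction_linear with
  | zero => exact ⟨0, rfl, by simp [evC_zero]⟩
  | add f g hf hg =>
    obtain ⟨f', h1, h2⟩ := hf
    obtain ⟨g', h3, h4⟩ := hg
    exact ⟨f' + g', by simp [h1, h3], by rw [evC_add, evC_add, add_lie, h2, h4]⟩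
  | single w m =>
    exact ⟨Finsupp.single (w ++ [t]) m, by simp, by
      rw [evC_single, evC_single, evW_concat, zsmul_lie]⟩

end ev

/-- values of Lie polynomials as a submodule -/
def evSub (hR : ∀ r : R, ∃ n : ℤ, (n : R) = r) (a b : B) (P : Prop) : Submodule R B where
  carrier := {v | ∃ β : List Bool →₀ ℤ, (P → β [] = 0) ∧ v = evC β a b}
  add_mem' := by
    rintro _ _ ⟨f, h1, rfl⟩ ⟨g, h2, rfl⟩
    exact ⟨f + g, fun h => by simp [h1 h, h2 h], (evC_add _ _ _ _).symm⟩
  zero_mem' := ⟨0, fun _ => rfl, (evC_zero _ _).symm⟩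
  smul_mem' := by
    rintro r _ ⟨f, h1, rfl⟩
    obtain ⟨n, rfl⟩ := hR r
    exact ⟨n • f, fun h => by simp [h1 h], by rw [evC_zsmul, Int.cast_smul_eq_zsmul]⟩

lemma lam_pair_le (hR : ∀ r : R, ∃ n : ℤ, (n : R) = r) (a b : B) :
    ∀ n, lam R {a, b} (n + 2) ≤ evSub hR a b (n ≠ 0)
  | 0 => Submodule.span_le.2 (by
      rintro _ ⟨u, hu, s, hs, rfl⟩
      have hab : ⁅a, b⁆ ∈ evSub hR a b (0 ≠ 0) :=
        ⟨Finsupp.single [] 1, by simp, by simp [evC_single, evW_nil]⟩
      obtain ⟨x, y, rfl⟩ := Submodule.mem_span_pair.1 hu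
      rcases hs with rfl | rfl
      · rw [add_lie, smul_lie, smul_lie, lie_self, smul_zero, zero_add, ← lie_skew]
        exact Submodule.smul_mem _ _ (neg_mem hab)
      · rw [add_lie, smul_lie, smul_lie, lie_self, smul_zero, add_zero]
        exact Submodule.smul_mem _ _ hab)
  | n + 1 => Submodule.span_le.2 (by
      rintro _ ⟨u, hu, s, hs, rfl⟩
      obtain ⟨β, -, rfl⟩ := lam_pair_le hR a b n hu
      rcases hs with rfl | rfl
      · obtain ⟨β', h1, h2⟩ := evC_lie β true s b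
        exact ⟨β', fun _ => h1, h2⟩
      · obtain ⟨β', h1, h2⟩ := evC_lie β false a s
        exact ⟨β', fun _ => h1, h2⟩)

lemma WF.comm_lead {W : WF R B} {i j : ℕ} {u v u' v' : B} (hu : u - 1 ∈ W.J i) (hv : v - 1 ∈ W.J j)
    (h1 : v * u * u' * v' = 1) (h2 : u' * v' - 1 ∈ W.J 1) :
    u * v * u' * v' - 1 - ⁅u - 1, v - 1⁆ ∈ W.J (i + j + 1) := by
  have : u * v * u' * v' - 1 - ⁅u - 1, v - 1⁆ = ⁅u - 1, v - 1⁆ * (u' * v' - 1) := by
    nth_rewrite 1 [← h1]
    rw [Ring.lie_def]; noncomm_ring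
  rw [this]
  exact W.mul (lie_mem hu hv) h2

lemma WF.mul_sub_one {W : WF R B} {i : ℕ} {u v : B} (hu : u - 1 ∈ W.J i) (hv : v - 1 ∈ W.J i) :
    u * v - 1 ∈ W.J i := by
  have : u * v - 1 = (u - 1) * v + (v - 1) := by noncomm_ring
  rw [this]
  exact add_mem (mul' hu (W.mem_zero _) (by omega)) hv

lemma sum_coeff_mem {Z : B[X]} (M : Submodule R B) (m : ℕ) (h : ∀ n, n ≠ m → Z.coeff n ∈ M) :
    Z.eval₂ (RingHom.id B) 1 - Z.coeff m ∈ M := by
  have : Z.eval₂ (RingHom.id B) 1 = ∑ n ∈ range (Z.natDegree + m + 1), Z.coeff n := by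
    rw [eval₂_eq_sum_range' _ (n := Z.natDegree + m + 1) (by omega)]
    simp
  rw [this, ← Finset.add_sum_erase _ _ (a := m) (by simp), add_sub_cancel_left]
  exact Submodule.sum_mem _ fun n hn => h n (ne_of_mem_erase hn)

theorem bch_pt {W : WF R B} {c : ℕ} (h : W.Nil c) (hR : ∀ r : R, ∃ n : ℤ, (n : R) = r) {a b : B}
    (ha : a ∈ W.J 1) (hb : b ∈ W.J 1) :
    ∃ βm βc : List Bool →₀ ℤ, βc [] = 0 ∧
      texp R c (a + b + evC βm a b) = texp R c a * texp R c b ∧
      texp R c (⁅a, b⁆ + evC βc a b) =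
        texp R c a * texp R c b * texp R c (-a) * texp R c (-b) := by
  let Γ := lamG W {a, b} (by rintro s (rfl | rfl); exacts [ha, hb])
  have hm : ∀ s ∈ ({a, b} : Set B), monomial 1 s ∈ Γ.approx ⊤ := fun s hs => by
    rw [GLie.mem_top]
    intro n
    rw [coeff_monomial]
    split_ifs with h1
    · subst h1; exact Submodule.subset_span hs
    · exact zero_mem _
  have hU := hm a (by simp)
  have hV := hm b (by simp)
  set U : B[X] := monomial 1 a with hUd
  set V : B[X] := monomial 1 b with hVd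
  obtain ⟨Z1, hZ1, e1⟩ := GLie.mul_closed h hU hV
  obtain ⟨Z2, hZ2, e2⟩ := GLie.mul_closed h (neg_mem hU) (neg_mem hV)
  obtain ⟨Z, hZ, e⟩ := GLie.mul_closed h hZ1 hZ2
  let ev : B[X] →ₐ[R] B := eval₂AlgHom (AlgHom.id R B) 1 (fun _ => Commute.one_right _)
  have hev : ∀ f, ev f = f.eval₂ (RingHom.id B) 1 := fun _ => rfl
  have evU : ev U = a := by simp [hev, hUd]
  have evV : ev V = b := by simp [hev, hVd]
  have tU := GLie.top_tF hU
  have tV := GLie.top_tF hV
  have c1 : Z1.coeff 1 = a + b := by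
    have h1 := texp_sub_mem h.pos (GLie.top_tF hZ1)
    have h2 := texp_sub_mem h.pos tU
    have h3 := texp_sub_mem h.pos tV
    have h4 := (tF R B).mul (texp_sub_one_mem h.pos tU) (texp_sub_one_mem h.pos tV)
    have h5 := sub_mem (add_mem (add_mem h2 h3) h4) h1
    rw [e1, show ∀ x y u v z : B[X], x - 1 - u + (y - 1 - v) + (x - 1) * (y - 1) - (x * y - 1 - z)
      = z - (u + v) by intros; noncomm_ring] at h5
    have := h5 1 (by omega)
    rw [coeff_sub, sub_eq_zero] at this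
    simp [this, hUd, hVd]
  have c2 : Z - ⁅U, V⁆ ∈ (tF R B).J 3 := by
    have h1 := WF.comm_lead (texp_sub_one_mem h.pos tU) (texp_sub_one_mem h.pos tV)
      (u' := texp R c (-U)) (v' := texp R c (-V))
      (by rw [mul_assoc (texp R c V), h.poly.texp_mul_neg (GLie.top_poly hU), mul_one,
        h.poly.texp_mul_neg (GLie.top_poly hV)])
      (WF.mul_sub_one (texp_sub_one_mem h.pos (neg_mem tU)) (texp_sub_one_mem h.pos (neg_mem tV)))
    rw [mul_assoc, ← e1, ← e2, ← e] at h1
    have h2 : ⁅texp R c U - 1, texp R c V - 1⁆ - ⁅U, V⁆ ∈ (tF R B).J 3 := by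
      have := add_mem (lie_mem (texp_sub_mem h.pos tU) (texp_sub_one_mem h.pos tV))
        (mono (lie_mem tU (texp_sub_mem h.pos tV)) (by omega))
      convert this using 1
      simp only [sub_lie, lie_sub]; abel
    have h3 : texp R c Z - 1 - ⁅U, V⁆ ∈ (tF R B).J 3 := by simpa using add_mem h1 h2
    have h4 : Z ∈ (tF R B).J 2 := by
      refine mem_of_texp_sub_one_mem h.pos (GLie.top_tF hZ) ?_
      simpa using add_mem (mono h3 (by omega : 2 ≤ 3)) (lie_mem tU tV)
    have := sub_mem h3 (mono (texp_sub_mem h.pos h4) (by omega : 3 ≤ 2 * 2))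
    convert this using 1
    abel
  have cl : ⁅U, V⁆ = monomial 2 ⁅a, b⁆ := by
    rw [Ring.lie_def, Ring.lie_def, hUd, hVd, monomial_mul_monomial, monomial_mul_monomial,
      map_sub]
  have c21 : Z.coeff 1 = 0 := by simpa [cl, coeff_monomial] using c2 1 (by omega)
  have c22 : Z.coeff 2 = ⁅a, b⁆ := by simpa [cl, sub_eq_zero] using c2 2 (by omega)
  obtain ⟨βm, -, hm⟩ := sum_coeff_mem (Z := Z1) (evSub hR a b False) 1 (fun n hn => by
    match n, hn with
    | 0, _ => rw [GLie.top_tF hZ1 0 (by omega)]; exact zero_mem _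
    | n + 2, _ =>
      obtain ⟨β, -, h2⟩ := lam_pair_le hR a b n (GLie.mem_top.1 hZ1 (n + 2))
      exact ⟨β, False.elim, h2⟩)
  obtain ⟨βc, hc0, hc⟩ := sum_coeff_mem (Z := Z) (evSub hR a b True) 2 (fun n hn => by
    match n, hn with
    | 0, _ => rw [GLie.top_tF hZ 0 (by omega)]; exact zero_mem _
    | 1, _ => rw [c21]; exact zero_mem _
    | n + 3, _ =>
      obtain ⟨β, h1, h2⟩ := lam_pair_le hR a b (n + 1) (GLie.mem_top.1 hZ (n + 3))
      exact ⟨β, fun _ => h1 (by omega), h2⟩)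
  refine ⟨βm, βc, hc0 trivial, ?_, ?_⟩
  · rw [← hm, ← c1, add_sub_cancel, ← hev, ← map_texp, e1, map_mul, map_texp, map_texp, evU, evV]
  · rw [← hc, ← c22, add_sub_cancel, ← hev, ← map_texp, e, e1, e2]
    simp only [map_mul, map_texp, map_neg, evU, evV, mul_assoc]

def WF.pi (W : WF R B) (ι : Type*) : WF R (ι → B) where
  J k := Submodule.pi Set.univ fun _ => W.J k
  zero := eq_top_iff.2 fun f _ i _ => W.mem_zero _
  anti _ _ h _ hf i hi := mono (hf i hi) h
  mul := fun ha hb i hi => W.mul (ha i hi) (hb i hi)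

theorem bch {W : WF R B} {c : ℕ} (h : W.Nil c) (hR : ∀ r : R, ∃ n : ℤ, (n : R) = r) :
    ∃ βm βc : List Bool →₀ ℤ, βc [] = 0 ∧ ∀ a ∈ W.J 1, ∀ b ∈ W.J 1,
      texp R c (a + b + evC βm a b) = texp R c a * texp R c b ∧
      texp R c (⁅a, b⁆ + evC βc a b) =
        texp R c a * texp R c b * texp R c (-a) * texp R c (-b) := by
  have h' : (W.pi (W.J 1 × W.J 1)).Nil c :=
    ⟨eq_bot_iff.2 fun f hf => by
      rw [Submodule.mem_bot]; ext i; exact h.eq_zero (hf i trivial) (by omega), h.unit, h.pos⟩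
  obtain ⟨βm, βc, h0, h1, h2⟩ := bch_pt h' hR (a := fun x => x.1) (b := fun x => x.2)
    (fun x _ => x.1.2) (fun x _ => x.2.2)
  refine ⟨βm, βc, h0, fun a ha b hb => ?_⟩
  let ev := Pi.evalAlgHom R (fun _ : W.J 1 × W.J 1 => B) (⟨a, ha⟩, ⟨b, hb⟩)
  have hl : ∀ x y, ev ⁅x, y⁆ = ⁅ev x, ev y⁆ := fun x y => by simp [Ring.lie_def]
  have hC : ∀ β x y, ev (evC β x y) = evC β (ev x) (ev y) := fun β x y =>
    map_evC (ev : ((W.J 1 × W.J 1) → B) →+* B).toAddMonoidHom hl β x y
  have e1 := congrArg ev h1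
  have e2 := congrArg ev h2
  simp only [map_mul, map_texp, map_add, hC, hl, map_neg] at e1 e2
  exact ⟨e1, e2⟩

end Pool.Agent.P78
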