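import Pool.Agent.Lib.MP_78c6b1_al.Neg.CaseB

/-! Long groups within the budget have few classes. -/

set_option autoImplicit false
set_option linter.unusedSectionVars false

namespace Pool.Agent.P78

open scoped commutatorElement
open Finset

variable {p : ℕ} {G : Type} [Group G] [hp : Fact p.Prime] {X : Ctx p G} {r : ℕ}

theorem Fn.final_sum {T : St X r} (N : Fn T) [Fintype G] (hn : ¬ T.Std (r + 1)) (hr : 80 ≤ r)
    (hr' : r ≤ 2 * p + 1) (K : ℕ) (hp' : 200 * K + 200 ≤ p) (E : Finset ℕ) (hE : E.card ≤ 16)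
    (h : ∀ i, 1 ≤ i → 2 * i ≤ r + 1 → N.W i ≤
      (if i ∈ E then K * p ^ 2 else if 2 * i ≤ p + 20 then p ^ 2 else p ^ 1) * Nat.card G) :
    10 * Nat.card (ConjClasses G) ≤ 7 * p ^ 4 ∧ Nat.card G ≤ p ^ (2 * p + 10) := by
  have hσ := N.le_σ
  have hσ' := N.σ_le
  have hx := N.x_le
  have hx' := N.hx
  have hc := cod_facts X.μ ((r + 3) / 2)
  have c1 : Nat.card (N.S ((r + 3) / 2)) ≤ p ^ (3 + wcod X.μ ((r + 3) / 2)) := by
    rw [N.card_seg (a := (r + 3) / 2) (b := r + 1) (fun j hj => inS_of_le (by omega)) (by omega)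
      le_rfl, N.top' (Nat.lt_succ_self r), if_pos (by omega)]
    refine (Nat.mul_le_mul_left _ (T.card_tail (by omega) (by omega) hr' hn)).trans ?_
    rw [← pow_add]
    exact Nat.pow_le_pow_right hp.out.pos (by omega)
  have c2 := N.card_top (i := (r + 3) / 2) (by omega) (by omega)
  refine ⟨?_, ?_⟩
  swap
  · rw [c2]
    refine (Nat.mul_le_mul_left _ c1).trans ?_
    rw [← pow_add]
    exact Nat.pow_le_pow_right hp.out.pos (by omega)
  have u := upper_bound (p := p) N.S N.normal N.anti N.one ((r + 3) / 2) (by omega) fun i h1 h2 => by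
    rw [N.card i h1 (by omega), if_neg (by omega : i ≠ N.σ)]
    refine Nat.mul_le_mul_right _ ?_
    split_ifs
    · simp
    · simpa using hp.out.one_le
  have c3 : Nat.card (N.S ((r + 3) / 2)) ^ 2 ≤ p ^ 3 * Nat.card G := by
    rw [c2, ← mul_assoc, ← pow_add, sq]
    exact Nat.mul_le_mul_right _ c1
  have s1 : ∑ i ∈ Ico 1 ((r + 3) / 2), N.W i ≤ ∑ i ∈ Ico 1 ((r + 3) / 2),
      ((if i ∈ E then K * p ^ 2 else 0) + (if 2 * i ≤ p + 20 then p ^ 2 else 0) + p) *
        Nat.card G := by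
    refine sum_le_sum fun i hi => ?_
    rw [mem_Ico] at hi
    refine (h i hi.1 (by omega)).trans (Nat.mul_le_mul_right _ ?_)
    rw [pow_one]
    split_ifs <;> omega
  rw [← sum_mul, sum_add_distrib, sum_add_distrib, ← sum_filter, ← sum_filter, sum_const, sum_const,
    sum_const, smul_eq_mul, smul_eq_mul, smul_eq_mul] at s1
  have a1 : ((Ico 1 ((r + 3) / 2)).filter (· ∈ E)).card ≤ 16 :=
    (card_le_card fun i hi => (mem_filter.1 hi).2).trans hE
  have a2 : 2 * ((Ico 1 ((r + 3) / 2)).filter fun i => 2 * i ≤ p + 20).card ≤ p + 20 := by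
    have := card_le_card (s := (Ico 1 ((r + 3) / 2)).filter fun i => 2 * i ≤ p + 20)
      (t := Ico 1 (p / 2 + 11)) fun i hi => by
        simp only [mem_filter, mem_Ico] at hi ⊢; omega
    rw [Nat.card_Ico] at this
    omega
  have a3 : (Ico 1 ((r + 3) / 2)).card ≤ p + 1 := by rw [Nat.card_Ico]; omega
  generalize ((Ico 1 ((r + 3) / 2)).filter (· ∈ E)).card = n1 at *
  generalize ((Ico 1 ((r + 3) / 2)).filter fun i => 2 * i ≤ p + 20).card = n2 at *
  generalize (Ico 1 ((r + 3) / 2)).card = n3 at *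
  rw [cp_bot] at u
  have u2 : Nat.card (ConjClasses G) * Nat.card G ≤
      ((p + 1) * (n1 * (K * p ^ 2) + n2 * p ^ 2 + n3 * p) + p ^ 3) * Nat.card G := by
    refine u.trans ?_
    rw [add_mul _ (p ^ 3), mul_assoc]
    exact Nat.add_le_add (Nat.mul_le_mul_left _ s1) c3
  have u3 := Nat.le_of_mul_le_mul_right u2 Nat.card_pos
  have b1 : 10 * (n1 * (K * p ^ 2) + n2 * p ^ 2 + n3 * p) ≤ (6 * p - 40) * p ^ 2 := by
    have e1 : n1 * K ≤ 16 * K := by gcongr
    have e2 : n3 * p ≤ 2 * p ^ 2 := by nlinarith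
    have e3 : 10 * (n1 * K) + 10 * n2 + 20 ≤ 6 * p - 40 := by omega
    calc _ = (10 * (n1 * K) + 10 * n2) * p ^ 2 + 10 * (n3 * p) := by ring
      _ ≤ (10 * (n1 * K) + 10 * n2) * p ^ 2 + 10 * (2 * p ^ 2) := by gcongr
      _ = (10 * (n1 * K) + 10 * n2 + 20) * p ^ 2 := by ring
      _ ≤ _ := by gcongr
  obtain ⟨t, ht⟩ : ∃ t, 6 * p = t + 40 := ⟨6 * p - 40, by omega⟩
  rw [ht, Nat.add_sub_cancel] at b1
  calc _ ≤ (p + 1) * (10 * (n1 * (K * p ^ 2) + n2 * p ^ 2 + n3 * p)) + 10 * p ^ 3 := by linarith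
    _ ≤ (p + 1) * (t * p ^ 2) + 10 * p ^ 3 := by gcongr
    _ = ((p + 1) * t + 10 * p) * p ^ 2 := by ring
    _ ≤ (7 * p ^ 2) * p ^ 2 := by gcongr; nlinarith
    _ = _ := by ring

theorem long_bound (hP : PowStmt) (hR : RigStmt) (C : ℕ) : ∃ p₀, ∀ (p : ℕ) [Fact p.Prime], p₀ ≤ p →
    ∀ (G : Type) [Group G] [Finite G], IsPGroup p G → Bud p G → FJ p C G →
      ∀ (X : Ctx p G) (T : St X 100), T.Good →
        10 * Nat.card (ConjClasses G) ≤ 7 * p ^ 4 ∧ Nat.card G ≤ p ^ (2 * p + 10) := by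
  classical
  obtain ⟨p₁, hR⟩ := hR
  refine ⟨p₁ + 200 * (C + 3) + 200, fun p _ hp' G _ _ hG hB hF X T₀ hg₀ => ?_⟩
  have hbd : ∀ r (T : St X r), T.Good → r ≤ 2 * p + 1 ∧
      (p + 15 ≤ r → X.μ = 2 ∧ T.z ∈ X.S.F (T.w + 1)) := by
    intro r T hg
    by_cases hr : r ≤ p + 14
    · exact ⟨by omega, by omega⟩
    have hμ : X.μ = 2 := by
      rcases X.hμ with h | h | h
      · exact h
      · have := St.bound_ne hG (by omega) hB hg (by omega) (i := 3) (inS_of_le le_rfl) (by omega)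
          le_rfl
        omega
      · have := St.bound_ne hG (by omega) hB hg (by omega) (i := 2) ⟨by omega, by omega, by omega⟩
          (by omega) (by omega)
        omega
    have hz : T.z ∈ X.S.F (T.w + 1) := by
      by_contra hz
      have := St.bound_extra hG (by omega) hB hg hz
      omega
    exact ⟨T.bound_pure hG (by omega) hB hμ hg.1 hz
      (hP p (by omega) G hG X r T hμ hz (by omega)), fun _ => ⟨hμ, hz⟩⟩
  obtain ⟨r, hr, T, hg, hn⟩ : ∃ r, 100 ≤ r ∧ ∃ T : St X r, T.Good ∧ ¬ T.Std (r + 1) := by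
    by_contra hc
    push Not at hc
    have : ∀ r, 100 ≤ r → ∃ T : St X r, T.Good := fun r hr => by
      induction r, hr using Nat.le_induction with
      | base => exact ⟨T₀, hg₀⟩
      | succ r hr ih =>
        obtain ⟨T, hg⟩ := ih
        exact St.ext_step hG (by omega) hB (by omega) hg (hc r hr T hg)
    obtain ⟨T, hg⟩ := this (2 * p + 100) (by omega)
    have := (hbd _ T hg).1
    omega
  obtain ⟨hr', hII⟩ := hbd r T hg
  obtain ⟨N, hN, -⟩ := T.exists_fn hG (by omega) hg.2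
  have := Fintype.ofFinite G
  have hσ := N.le_σ
  have hp'' : 200 * (C + 3) + 200 ≤ p := le_trans (Nat.add_le_add_right (Nat.le_add_left _ _) _) hp'
  have hK : ∀ {a K : ℕ}, K ≤ C + 3 → a ≤ K * p ^ 2 * Nat.card G →
      a ≤ (C + 3) * p ^ 2 * Nat.card G := fun h1 h2 => h2.trans (by gcongr)
  have hZ : ∀ m, r < m → m ≤ r + 8 → ((Ico 1 (p + 2)).filter (T.Zer m)).card ≤ 6 := fun m h1 h2 =>
    T.card_zer (by omega) (by omega) h2 _ fun i hi => by
      simp only [mem_filter, mem_Ico] at hi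
      exact ⟨hi.1.1, by omega, hi.2⟩
  by_cases hI : r ≤ p + 14
  · refine N.final_sum hn (by omega) hr' (C + 3) hp''
      (range 10 ∪ (Ico 1 (p + 2)).filter (T.Zer (r + 2))) ((card_union_le _ _).trans (by
        have := hZ (r + 2) (by omega) (by omega)
        rw [card_range]; omega)) fun i h1 h2 => ?_
    by_cases h10 : i < 10
    · rw [if_pos (mem_union_left _ (mem_range.2 h10))]
      exact hK (by omega) (N.cost_small hG (by omega) hB hn (by omega) hI hF h1 (by omega))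
    have hB' : (∀ y ∈ N.S i, y ∉ N.S (i + 1) → X.μ = 4 → r + 2 = p → N.Lv y i (r + 1 + 1) 0) →
        N.W i ≤ p ^ 2 * Nat.card G := fun h => N.W_le h1 (by omega) 2 fun y hy hy' =>
      Fn.boundB hG (by omega) hn (by omega) hI hB (by omega) h2 hy hy' (h y hy hy')
    split_ifs with h3 h4
    · by_cases hs : X.μ = 4 ∧ r + 2 = p
      · exact hK (by omega) (N.sp_zer hG (by omega) hn (by omega) hs.1 hs.2 hB hg (by omega) h2
          (mem_filter.1 ((mem_union.1 h3).resolve_left (by simpa using h10))).2)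
      · exact hK (K := 1) (by omega)
          (by simpa using hB' fun _ _ _ e1 e2 => absurd ⟨e1, e2⟩ hs)
    · refine hB' fun y hy hy' e1 e2 => (Fn.lv_or_zer (by omega) h1 h2 hy hy' (by omega) (by omega)
        (by omega) (Or.inl (by omega)) (N.sp_star hG (by omega) hn (by omega) e1 e2 hB hg)).resolve_right
        fun hz => h3 (mem_union_right _ (mem_filter.2 ⟨mem_Ico.2 ⟨h1, by omega⟩, hz⟩))
    · omega
  obtain ⟨hμ, hz⟩ := hII (by omega)
  have hx := hN hz
  refine N.final_sum hn (by omega) hr' (C + 3) hp''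
    ({1} ∪ ((Ico 1 (p + 2)).filter (T.Zer (r + 1)) ∪ (Ico 1 (p + 2)).filter (T.Zer (r + 1 + 1))))
    ((card_union_le _ _).trans (by
      have := hZ (r + 1) (by omega) (by omega)
      have := hZ (r + 1 + 1) (by omega) (by omega)
      have := card_union_le ((Ico 1 (p + 2)).filter (T.Zer (r + 1)))
        ((Ico 1 (p + 2)).filter (T.Zer (r + 1 + 1)))
      rw [card_singleton]; omega)) fun i h1 h2 => ?_
  by_cases h3 : i ∈ {1} ∪ ((Ico 1 (p + 2)).filter (T.Zer (r + 1)) ∪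
      (Ico 1 (p + 2)).filter (T.Zer (r + 1 + 1)))
  · rw [if_pos h3]
    rcases h1.eq_or_lt with rfl | h1'
    · exact hK (by omega) (N.cost_one hG (by omega) hn (by omega) (by omega) hr' hμ hx hB hz
        (hP p (by omega) G hG X r T hμ hz (by omega)) hF)
    · exact hK (by omega) (N.cost_zer hG (by omega) hn (by omega) (by omega) hr' hμ hx hB hz
        (hR p (by omega) G hG X r T hμ hz) h1' h2)
  rw [if_neg h3]
  have h4 : ¬ (T.Zer (r + 1) i ∨ T.Zer (r + 1 + 1) i) := fun h => h3 (by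
    simp only [mem_union, mem_filter, mem_Ico]
    rcases h with h | h
    exacts [Or.inr (Or.inl ⟨⟨h1, by omega⟩, h⟩), Or.inr (Or.inr ⟨⟨h1, by omega⟩, h⟩)])
  have hc : wcod X.μ i = i - 1 := by rw [hμ, cod_two]
  split_ifs with h5
  all_goals
    refine N.W_le h1 (by omega) _ fun y hy hy' =>
      N.boundC hG (by omega) hn (by omega) (by omega) hr' hμ hx h1 h2 hy hy' _ ?_
    rw [if_neg h4]
    split_ifs <;> omega

lemma exists_normal_p {G : Type} [Group G] [Finite G] (hG : IsPGroup p G) (h : 1 < Nat.card G) :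
    ∃ N : Subgroup G, N.Normal ∧ Nat.card N = p := by
  have := Finite.one_lt_card_iff_nontrivial.1 h
  have := hG.center_nontrivial
  obtain ⟨n, hn, e⟩ := (hG.to_subgroup (Subgroup.center G)).nontrivial_iff_card.1 this
  obtain ⟨z, hz⟩ := exists_prime_orderOf_dvd_card' (G := Subgroup.center G) p
    (e ▸ dvd_pow_self p hn.ne')
  refine ⟨Subgroup.zpowers z.1, ⟨fun a ha g => by
    rw [Subgroup.mem_center_iff.1 (Subgroup.zpowers_le.2 z.2 ha) g, mul_inv_cancel_right]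
    exact ha⟩, ?_⟩
  rw [Nat.card_zpowers, Subgroup.orderOf_coe, hz]

lemma exists_normal_sq {G : Type} [Group G] [Finite G] (hG : IsPGroup p G) (h : p < Nat.card G) :
    ∃ N : Subgroup G, N.Normal ∧ Nat.card N = p ^ 2 := by
  obtain ⟨N, _, hN⟩ := exists_normal_p hG (hp.out.one_lt.trans h)
  obtain ⟨M, _, hM⟩ := exists_normal_p (hG.to_quotient N) (by
    rw [N.card_eq_card_quotient_mul_card_subgroup, hN] at h
    by_contra hc
    nlinarith)
  refine ⟨M.comap (QuotientGroup.mk' N), inferInstance, ?_⟩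
  have := QuotientGroup.card_preimage_mk N (M : Set (G ⧸ N))
  rw [hN, SetLike.coe_sort_coe, hM] at this
  rw [sq, ← this]; rfl

theorem no_group (hS : ShortStmt) (hF : FJStmt) (hH : HallStmt)
    (hb : ∃ m p₀ : ℕ, ∀ (p : ℕ) [Fact p.Prime], p₀ ≤ p →
      ∀ (G : Type) [Group G] [Finite G], IsPGroup p G → p ^ m ≤ Nat.card G → Bud p G →
        ∃ (X : Ctx p G) (T : St X 100), T.Good) (hP : PowStmt) (hR : RigStmt) :
    ¬ (∀ p : ℕ, p.Prime → ∀ a : ℕ,
      ∃ (G : Type) (_ : Group G) (_ : Finite G) (m : ℕ),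
        Nat.card G = p ^ m ∧
        (Nat.card (ConjClasses G) : ℤ) =
          ((m / 2 : ℕ) : ℤ) * ((p : ℤ) ^ 2 - 1) + (p : ℤ) ^ (m % 2)
            + (a : ℤ) * ((p : ℤ) ^ 2 - 1) * ((p : ℤ) - 1)) := by
  intro hall
  obtain ⟨m₀, p₁, hb⟩ := hb
  obtain ⟨C₁, p₂, hS⟩ := hS m₀
  obtain ⟨C₂, p₃, hF⟩ := hF 20
  obtain ⟨p₄, hL⟩ := long_bound hP hR C₂
  obtain ⟨p, hp', hpp⟩ := Nat.exists_infinite_primes (p₁ + p₂ + p₃ + p₄ + m₀ + 2 * C₁ + 200)
  have := Fact.mk hpp
  obtain ⟨a, ha1, ha2⟩ : ∃ a : ℕ, 4 * a ≤ 3 * p ∧ 3 * p ≤ 4 * a + 3 := ⟨3 * p / 4, by omega, by omega⟩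
  have hp0 : (200 : ℤ) ≤ p := by exact_mod_cast (by omega : 200 ≤ p)
  have ha1' : 4 * (a : ℤ) ≤ 3 * p := by exact_mod_cast ha1
  have ha2' : 3 * (p : ℤ) ≤ 4 * a + 3 := by exact_mod_cast ha2
  have q1 : (0 : ℤ) ≤ (p : ℤ) ^ 2 - 1 := by nlinarith
  have small : ∀ (G : Type) [Group G] [Finite G] (m : ℕ), m ≤ 3 * p →
      (Nat.card (ConjClasses G) : ℤ) ≤ ((m / 2 : ℕ) : ℤ) * ((p : ℤ) ^ 2 - 1) + p
        + (a : ℤ) * ((p : ℤ) ^ 2 - 1) * ((p : ℤ) - 1) →
      10 * Nat.card (ConjClasses G) < 8 * p ^ 4 := by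
    intro G _ _ m hm h
    have h1 : 2 * ((m / 2 : ℕ) : ℤ) ≤ 3 * p := by exact_mod_cast (by omega : 2 * (m / 2) ≤ 3 * p)
    have h2 : 4 * ((a : ℤ) * ((p : ℤ) ^ 2 - 1) * ((p : ℤ) - 1)) ≤ 3 * p ^ 4 := by
      have : ((p : ℤ) ^ 2 - 1) * ((p : ℤ) - 1) ≤ p ^ 3 := by nlinarith
      have h0 : (0 : ℤ) ≤ a := by positivity
      nlinarith [mul_le_mul_of_nonneg_left this h0, mul_le_mul_of_nonneg_right ha1'
        (by positivity : (0 : ℤ) ≤ p ^ 3)]
    have h3 : 2 * (((m / 2 : ℕ) : ℤ) * ((p : ℤ) ^ 2 - 1)) ≤ 3 * p ^ 3 := by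
      nlinarith [mul_le_mul_of_nonneg_right h1 q1]
    have h4 : 200 * (p : ℤ) ^ 3 ≤ p ^ 4 := by
      nlinarith [mul_le_mul_of_nonneg_right hp0 (by positivity : (0 : ℤ) ≤ p ^ 3)]
    have h5 : (p : ℤ) ≤ p ^ 3 := by nlinarith
    have : 10 * (Nat.card (ConjClasses G) : ℤ) < 8 * p ^ 4 := by nlinarith
    exact_mod_cast this
  have long : ∀ (G : Type) [Group G] [Finite G], IsPGroup p G → p ^ m₀ ≤ Nat.card G →
      10 * Nat.card (ConjClasses G) < 8 * p ^ 4 →
      10 * Nat.card (ConjClasses G) ≤ 7 * p ^ 4 ∧ Nat.card G ≤ p ^ (2 * p + 10) := by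
    intro G _ _ hG h1 h2
    obtain ⟨X, T, hg⟩ := hb p (by omega) G hG h1 (bud_of_classes h2)
    exact hL p (by omega) G hG (bud_of_classes h2) (hF p (by omega) G hG) X T hg
  have big : ∀ (m : ℕ) (G : Type) [Group G] [Finite G], Nat.card G = p ^ m → 3 * p ≤ m + 1 →
      ¬ (Nat.card (ConjClasses G) : ℤ) ≤ ((m / 2 : ℕ) : ℤ) * ((p : ℤ) ^ 2 - 1) + p
        + (a : ℤ) * ((p : ℤ) ^ 2 - 1) * ((p : ℤ) - 1) := by
    intro m
    induction m using Nat.strong_induction_on with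
    | _ m ih =>
      intro G _ _ hc hm h
      have hG := IsPGroup.of_card hc
      by_cases h3 : m ≤ 3 * p
      · have := (long G hG (hc ▸ Nat.pow_le_pow_right hpp.pos (by omega)) (small G m h3 h)).2
        rw [hc, Nat.pow_le_pow_iff_right hpp.one_lt] at this
        omega
      obtain ⟨m, rfl⟩ : ∃ m', m = m' + 2 := ⟨m - 2, by omega⟩
      obtain ⟨N, _, hN⟩ := exists_normal_sq hG (by
        rw [hc]; exact lt_self_pow₀ hpp.one_lt (by omega))
      have e := N.card_eq_card_quotient_mul_card_subgroup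
      rw [hc, hN, pow_add] at e
      refine ih m (by omega) (G ⧸ N) (Nat.eq_of_mul_eq_mul_right (pow_pos hpp.pos 2) e).symm
        (by omega) ?_
      have h1 : (Nat.card (ConjClasses (G ⧸ N)) : ℤ) + p ^ 2 ≤ Nat.card (ConjClasses G) + 1 := by
        exact_mod_cast hH p G hG N hN
      rw [Nat.add_div_right _ (by omega)] at h
      push_cast at h ⊢
      linarith
  obtain ⟨G, _, _, m, hc, hk⟩ := hall p hpp a
  have hG := IsPGroup.of_card hc
  have hle : (p : ℤ) ^ (m % 2) ≤ p := by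
    rcases Nat.mod_two_eq_zero_or_one m with h | h <;> rw [h] <;> simp; omega
  have hup := hk.le.trans (add_le_add_left (add_le_add_right hle _) _)
  by_cases h3 : m ≤ 3 * p
  swap
  · exact big m G hc (by omega) hup
  have h8 := small G m h3 hup
  have h7 : 7 * p ^ 4 < 10 * Nat.card (ConjClasses G) := by
    have h1 : (0 : ℤ) ≤ ((m / 2 : ℕ) : ℤ) * ((p : ℤ) ^ 2 - 1) := by positivity
    have h2 : (0 : ℤ) ≤ (p : ℤ) ^ (m % 2) := by positivity
    have h4 : (3 * (p : ℤ) - 3) * (((p : ℤ) ^ 2 - 1) * ((p : ℤ) - 1)) ≤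
        4 * a * (((p : ℤ) ^ 2 - 1) * ((p : ℤ) - 1)) :=
      mul_le_mul_of_nonneg_right (by linarith) (mul_nonneg q1 (by linarith))
    have h5 : 200 * (p : ℤ) ^ 3 ≤ p ^ 4 := by
      nlinarith [mul_le_mul_of_nonneg_right hp0 (by positivity : (0 : ℤ) ≤ p ^ 3)]
    have h6 : (p : ℤ) ≤ p ^ 3 := by nlinarith
    have : 7 * (p : ℤ) ^ 4 < 10 * Nat.card (ConjClasses G) := by nlinarith
    exact_mod_cast this
  rcases le_total (p ^ m₀) (Nat.card G) with h | h
  · have := (long G hG h h8).1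
    omega
  · rcases hS p (by omega) G hG h with h | h
    · have : 2 * C₁ * p ^ 3 ≤ p ^ 4 := by
        rw [pow_succ' p 3]; exact Nat.mul_le_mul_right _ (by omega)
      nlinarith
    · omega

end Pool.Agent.P78
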