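import Pool.Agent.Lib.MP_78c6b1_al.Neg.Ext

/-! The levels after the last level of Witt type. -/

set_option autoImplicit false
set_option linter.unusedSectionVars false

namespace Pool.Agent.P78

open scoped commutatorElement

variable {p : ℕ} {G : Type} [Group G] [hp : Fact p.Prime] {X : Ctx p G} {r : ℕ}

lemma cast_eq_cases {a b : ℕ} (h : (a : ZMod p) = b) (ha : a < b + 3 * p) (hb : b < a + p) :
    a = b ∨ a = b + p ∨ a = b + 2 * p := by
  have h1 : b ≡ a + p [MOD p] := by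
    rw [← ZMod.natCast_eq_natCast_iff]; simp [h]
  obtain ⟨c, hc⟩ := (Nat.modEq_iff_dvd' hb.le).1 h1
  have hc' : a + p = b + p * c := by omega
  rcases c with _ | _ | _ | _ | c
  · omega
  · omega
  · omega
  · omega
  · exfalso; nlinarith

lemma cast_neg_cases {a b : ℕ} (h : (a : ZMod p) = -b) (ha : a + b < 3 * p) :
    a + b = 0 ∨ a + b = p ∨ a + b = 2 * p := by
  have := cast_eq_cases (p := p) (a := a + b) (b := 0) (by simp [h]) (by omega)
    (by have := hp.out.pos; omega)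
  omega

lemma Ctx.eq_bot (X : Ctx p G) {a : ℕ} (ha : 1 ≤ a)
    (h : ∀ j, a ≤ j → j < a + 4 → X.S.F j ≤ X.S.F (j + 1)) : X.S.F a = ⊥ := by
  have hμ : X.μ ≤ 4 := by rcases X.hμ with h | h | h <;> omega
  have key : ∀ j, a ≤ j → X.S.F j ≤ X.S.F (j + 1) := by
    intro j
    induction j using Nat.strong_induction_on with
    | _ j ih =>
      intro hj
      by_cases hc : j < a + 4
      · exact h j hj hc
      refine X.gen j (by omega) _ le_rfl fun k l hk hk' hkl => ?_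
      refine (Subgroup.commutator_mono (ih l (by omega) (by omega)) le_rfl).trans ?_
      exact (X.S.comm _ _).trans (X.S.anti (by omega))
  obtain ⟨N, hN⟩ := X.term
  have key2 : ∀ d, X.S.F a ≤ X.S.F (a + d) := fun d => by
    induction d with
    | zero => exact le_rfl
    | succ d ih => exact ih.trans (key _ (by omega))
  exact eq_bot_iff.2 ((key2 N).trans (hN ▸ X.S.anti (by omega)))

namespace St

variable {T : St X r}

lemma Ty.std {φ : G → ZMod p} {m : ℕ} {l : ZMod p} (hφ : IsLev X.S m φ) (t : T.Ty φ m l 0)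
    (hl : l ≠ 0) : T.Std m := by
  have := t.comb t l⁻¹ 0
  simp only [zero_mul, add_zero, mul_zero, inv_mul_cancel₀ hl] at this
  exact ⟨_, hφ.smul _, this⟩

lemma Ty.rule (hp7 : 7 ≤ p) {φ : G → ZMod p} {m n k : ℕ} {l κ : ZMod p} (hm : m ≤ r + 8)
    (hφ : IsLev X.S m φ) (t : T.Ty φ m l κ) (hn : ¬ T.Std n) (hk : inS X.μ k) (hkr : k ≤ r)
    (h : n + k = m) : Psi m l κ k = 0 := by
  by_contra hc
  have := t.comm hp7 hm hφ hk.1 h (T.e_mem k hkr)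
  rw [T.e_one k hkr hk, mul_one] at this
  exact hn (this.std (hφ.commL h (T.e_mem k hkr)) (neg_ne_zero.2 hc))

lemma Ty.exists_ne (hp7 : 7 ≤ p) {φ : G → ZMod p} {m : ℕ} {l : ZMod p} (hm0 : 35 ≤ m)
    (hm : m ≤ r + 8) (t : T.Ty φ m l 0) (hl : l ≠ 0) : ∃ u ∈ X.S.F m, φ u ≠ 0 := by
  obtain ⟨i, j, hi, hj, hij, hne⟩ := exists_split (p := p) hp7 (C := 17) (k := m) (by omega)
  refine ⟨_, NSer.comm_mem' (T.e_mem i (by omega)) (T.e_mem j (by omega)) hij.ge, ?_⟩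
  rw [t.2 i j hi hj hij, ← hij, Psi]
  convert mul_ne_zero hl hne using 1
  push_cast; ring

lemma not_std (hp7 : 7 ≤ p) {m : ℕ} (hm0 : 35 ≤ m) (hm : m ≤ r + 8)
    (h : X.S.F m ≤ X.S.F (m + 1)) : ¬ T.Std m := fun ⟨_, hφ, t⟩ => by
  obtain ⟨u, hu, h1⟩ := t.exists_ne hp7 hm0 hm one_ne_zero
  exact h1 (hφ.zero u (h hu))

variable (T) in
lemma exists_ty_ne (hp7 : 7 ≤ p) {m : ℕ} (hm0 : 77 ≤ m) (hm : m ≤ r + 8)
    (h : ¬ X.S.F m ≤ X.S.F (m + 1)) :
    ∃ φ l k, IsLev X.S m φ ∧ T.Ty φ m l k ∧ (l ≠ 0 ∨ k ≠ 0) := by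
  by_contra hc
  push Not at hc
  refine h fun a ha => mem_of_all (T := T) hp7 hm0 hm ha fun φ l k hφ t => ?_
  obtain ⟨rfl, rfl⟩ := hc φ l k hφ t
  exact t.zero hp7 (by omega) hm (by omega) (by omega) hφ ha

lemma psi_zero (hp7 : 7 ≤ p) {n k : ℕ} {l κ : ZMod p} (h1 : κ * (n + k : ℕ) = 0)
    (hne : l ≠ 0 ∨ κ ≠ 0) (h : Psi (n + k) l κ k = 0) : (n : ZMod p) = k ∨ (n : ZMod p) = -k := by
  by_cases hκ : κ = 0
  · left
    have hl := hne.resolve_right (by simpa using hκ)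
    have : l * ((n : ZMod p) - k) = 0 := by rw [← h, Psi, hκ]; push_cast; ring
    exact sub_eq_zero.1 ((mul_eq_zero.1 this).resolve_left hl)
  · right
    have := (mul_eq_zero.1 h1).resolve_left hκ
    push_cast at this
    exact eq_neg_of_add_eq_zero_left this

lemma small_ne (hp : 17 ≤ p) {k k' : ℕ} (h1 : 1 ≤ k') (h2 : k' < k) (h3 : k ≤ 8) :
    ¬ ((k : ZMod p) = k' ∨ (k : ZMod p) = -k') := by
  rintro (h | h)
  · have := cast_eq_cases h (by omega) (by omega); omega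
  · have := cast_neg_cases h (by omega); omega

variable (T) in
lemma res_of_nontriv (hp7 : 7 ≤ p) (hr : 77 ≤ r) (hn : ¬ T.Std (r + 1)) {k : ℕ} (hk : inS X.μ k)
    (hk7 : k ≤ 7) (h : ¬ X.S.F (r + 1 + k) ≤ X.S.F (r + 1 + k + 1)) :
    ((r + 1 : ℕ) : ZMod p) = k ∨ ((r + 1 : ℕ) : ZMod p) = -k := by
  obtain ⟨φ, l, κ, hφ, t, hne⟩ := T.exists_ty_ne hp7 (by omega) (by omega) h
  exact psi_zero hp7 t.1 hne (t.rule hp7 (by omega) hφ hn hk (by omega) rfl)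

variable (T) in
lemma triv_two (hp17 : 17 ≤ p) (hr : 77 ≤ r) (hn : ¬ T.Std (r + 1)) {a b : ℕ} (ha : inS X.μ a)
    (hb : inS X.μ b) (hab : inS X.μ (a + b)) (h7 : a + b ≤ 7) :
    X.S.F (r + 1 + (a + b)) ≤ X.S.F (r + 1 + (a + b) + 1) := by
  have hp7 : 7 ≤ p := by omega
  have := ha.1
  have := hb.1
  by_contra h
  have h1 := T.res_of_nontriv hp7 hr hn hab h7 h
  have h2 : X.S.F (r + 1 + a) ≤ X.S.F (r + 1 + a + 1) := by
    by_contra h'
    refine small_ne hp17 (k := a + b) (k' := a) ha.1 (by omega) (by omega) ?_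
    rcases h1 with h1 | h1 <;> rcases T.res_of_nontriv hp7 hr hn ha (by omega) h' with h2 | h2
    exacts [Or.inl (h1.symm.trans h2), Or.inr (h1.symm.trans h2),
      Or.inr (neg_eq_iff_eq_neg.1 (h1.symm.trans h2)), Or.inl (neg_inj.1 (h1.symm.trans h2))]
  obtain ⟨φ, l, κ, hφ, t, hne⟩ := T.exists_ty_ne hp7 (by omega) (by omega) h
  exact small_ne hp17 (k := a + b) (k' := b) hb.1 (by omega) (by omega) (two_zeros hp7 t.1 hne
    (t.rule hp7 (by omega) hφ hn hab (by omega) rfl)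
    (t.rule hp7 (by omega) hφ (not_std hp7 (by omega) (by omega) h2) hb (by omega) (by omega))
    (cast_ne_zero' (by omega) (by omega)) (cast_ne_zero' (by omega) (by omega)))

variable (T) in
lemma tail_bot (hp17 : 17 ≤ p) (hr : 77 ≤ r) (hn : ¬ T.Std (r + 1)) : X.S.F (r + 5) = ⊥ := by
  refine X.eq_bot (by omega) fun j h1 h2 => ?_
  by_cases hμ : X.μ = 3
  · obtain ⟨b, rfl⟩ : ∃ b, j = r + 1 + (1 + b) := ⟨j - r - 2, by omega⟩
    exact T.triv_two hp17 hr hn ⟨by omega, by omega, by omega⟩ (inS_of_le (by omega))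
      (inS_of_le (by omega)) (by omega)
  · obtain ⟨b, rfl⟩ : ∃ b, j = r + 1 + (2 + b) := ⟨j - r - 3, by omega⟩
    exact T.triv_two hp17 hr hn ⟨by omega, by omega, by omega⟩ ⟨by omega, by omega, by omega⟩
      (inS_of_le (by omega)) (by omega)

variable [Finite G]

lemma card_of_le {m : ℕ} (h : X.S.F m ≤ X.S.F (m + 1)) (b : ℕ) :
    Nat.card (X.S.F m) ≤ p ^ b * Nat.card (X.S.F (m + 1)) :=
  (Subgroup.card_le_of_le h).trans (Nat.le_mul_of_pos_left _ (pow_pos hp.out.pos b))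

variable (T) in
lemma card_line (hp7 : 7 ≤ p) {m : ℕ} (hm0 : 77 ≤ m) (hm : m ≤ r + 8)
    (h : ∀ φ l k φ' l' k', IsLev X.S m φ → T.Ty φ m l k → IsLev X.S m φ' → T.Ty φ' m l' k' →
      l * k' - l' * k = 0) : Nat.card (X.S.F m) ≤ p ^ 1 * Nat.card (X.S.F (m + 1)) := by
  by_cases hc : X.S.F m ≤ X.S.F (m + 1)
  · exact card_of_le hc 1
  obtain ⟨φ, l, κ, hφ, t, hne⟩ := T.exists_ty_ne hp7 hm0 hm hc
  have := card_le_of_fun φ hφ.add fun a ha h0 =>
    span1 hp7 hm0 hm hφ t hne (fun φ' l' k' h1 h2 => h φ l κ φ' l' k' hφ t h1 h2) ha h0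
  rw [pow_one]; rwa [Nat.card_zmod] at this

variable (T) in
lemma card_or (hp7 : 7 ≤ p) {m : ℕ} (hm0 : 77 ≤ m) (hm : m ≤ r + 8) :
    Nat.card (X.S.F m) ≤ p ^ 1 * Nat.card (X.S.F (m + 1)) ∨
      ((m : ZMod p) = 0 ∧ Nat.card (X.S.F m) ≤ p ^ 2 * Nat.card (X.S.F (m + 1)) ∧
        ∀ l k, ∃ φ, IsLev X.S m φ ∧ T.Ty φ m l k) := by
  by_cases h : ∀ φ l k φ' l' k', IsLev X.S m φ → T.Ty φ m l k → IsLev X.S m φ' → T.Ty φ' m l' k' →
      l * k' - l' * k = 0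
  · exact Or.inl (T.card_line hp7 hm0 hm h)
  push Not at h
  obtain ⟨φ, l₀, k₀, φ', l₁, k₁, hφ, t, hφ', t', hD⟩ := h
  refine Or.inr ⟨?_, ?_, fun l k => ?_⟩
  · by_contra hc
    rw [(mul_eq_zero.1 t.1).resolve_right hc, (mul_eq_zero.1 t'.1).resolve_right hc] at hD
    simp at hD
  · have := card_le_of_fun (fun a => (φ a, φ' a))
      (fun a ha b hb => by rw [hφ.add a ha b hb, hφ'.add a ha b hb]; rfl) fun a ha h0 =>
      span2 hp7 hm0 hm hφ hφ' t t' hD ha (congrArg Prod.fst h0) (congrArg Prod.snd h0)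
    rwa [Nat.card_prod, Nat.card_zmod, ← sq] at this
  · have := t.comb t' ((l * k₁ - l₁ * k) / (l₀ * k₁ - l₁ * k₀))
      ((l₀ * k - l * k₀) / (l₀ * k₁ - l₁ * k₀))
    rw [show (l * k₁ - l₁ * k) / (l₀ * k₁ - l₁ * k₀) * l₀ +
        (l₀ * k - l * k₀) / (l₀ * k₁ - l₁ * k₀) * l₁ = l by
        rw [div_mul_eq_mul_div, div_mul_eq_mul_div, ← add_div, div_eq_iff hD]; ring,
      show (l * k₁ - l₁ * k) / (l₀ * k₁ - l₁ * k₀) * k₀ +
        (l₀ * k - l * k₀) / (l₀ * k₁ - l₁ * k₀) * k₁ = k by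
        rw [div_mul_eq_mul_div, div_mul_eq_mul_div, ← add_div, div_eq_iff hD]; ring] at this
    exact ⟨_, (hφ.smul _).add_fun (hφ'.smul _), this⟩

variable (T) in
lemma card_notStd (hp7 : 7 ≤ p) {m : ℕ} (hm0 : 77 ≤ m) (hm : m ≤ r + 8) (h : ¬ T.Std m) :
    Nat.card (X.S.F m) ≤ p ^ 1 * Nat.card (X.S.F (m + 1)) :=
  (T.card_or hp7 hm0 hm).resolve_right fun h' => h (h'.2.2 1 0)

variable (T) in
lemma card_zero (hp7 : 7 ≤ p) {m : ℕ} (hm0 : 77 ≤ m) (hm : m ≤ r + 8) {k : ℕ}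
    (hk : (k : ZMod p) ≠ 0) (h : ∀ φ l κ, IsLev X.S m φ → T.Ty φ m l κ → Psi m l κ k = 0) :
    Nat.card (X.S.F m) ≤ p ^ 1 * Nat.card (X.S.F (m + 1)) :=
  (T.card_or hp7 hm0 hm).resolve_right fun h' => by
    obtain ⟨φ, hφ, t⟩ := h'.2.2 0 1
    exact hk (by simpa [Psi] using h φ 0 1 hφ t)

variable (T) in
lemma triv_first (hp7 : 7 ≤ p) {m : ℕ} (hm0 : 77 ≤ m) (hm : m ≤ r + 8) (h : ¬ T.Std m)
    (h0 : (m : ZMod p) ≠ 0) : X.S.F m ≤ X.S.F (m + 1) := by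
  by_contra hc
  obtain ⟨φ, l, κ, hφ, t, hne⟩ := T.exists_ty_ne hp7 hm0 hm hc
  obtain rfl := (mul_eq_zero.1 t.1).resolve_right h0
  exact h (t.std hφ (by simpa using hne))

variable (T) in
lemma card_tail (hp17 : 17 ≤ p) (hr : 77 ≤ r) (hr' : r ≤ 2 * p + 1) (hn : ¬ T.Std (r + 1)) :
    Nat.card (X.S.F (r + 1)) ≤ p ^ 2 := by
  have hp7 : 7 ≤ p := by omega
  have key : ∀ k, k ≤ 3 → ∃ d, Nat.card (X.S.F (r + 1 + k)) ≤
      p ^ d * Nat.card (X.S.F (r + 1 + k + 1)) ∧ (d = 0 ∨ (d = 1 ∧ k ≠ 0 ∧ ¬ inS X.μ k) ∨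
        (d = 1 ∧ (r + 1 = p + k ∨ r + 1 = 2 * p + k)) ∨
        ((d = 1 ∨ (d = 2 ∧ k ≠ 0 ∧ ¬ inS X.μ k)) ∧ (r + 1 + k = p ∨ r + 1 + k = 2 * p))) := by
    intro k hk
    by_cases hc : X.S.F (r + 1 + k) ≤ X.S.F (r + 1 + k + 1)
    · exact ⟨0, card_of_le hc 0, Or.inl rfl⟩
    rcases Nat.eq_zero_or_pos k with rfl | hk0
    · refine ⟨1, T.card_notStd hp7 (by omega) (by omega) hn, ?_⟩
      have h0 : ((r + 1 : ℕ) : ZMod p) = (0 : ℕ) := by
        by_contra h0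
        exact hc (T.triv_first hp7 (by omega) (by omega) hn (by simpa using h0))
      have := cast_eq_cases h0 (by omega) (by omega)
      omega
    by_cases hS : inS X.μ k
    · refine ⟨1, T.card_zero hp7 (by omega) (by omega) (cast_ne_zero' hk0 (by omega))
        fun φ l κ hφ t => t.rule hp7 (by omega) hφ hn hS (by omega) rfl, ?_⟩
      rcases T.res_of_nontriv hp7 hr hn hS (by omega) hc with h | h
      · have := cast_eq_cases h (by omega) (by omega); omega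
      · have := cast_neg_cases h (by omega); omega
    · rcases T.card_or hp7 (m := r + 1 + k) (by omega) (by omega) with h | ⟨h0, h, -⟩
      · exact ⟨1, h, Or.inr (Or.inl ⟨rfl, hk0.ne', hS⟩)⟩
      · refine ⟨2, h, Or.inr (Or.inr (Or.inr ⟨Or.inr ⟨rfl, hk0.ne', hS⟩, ?_⟩))⟩
        have := cast_eq_cases (b := 0) (h0.trans Nat.cast_zero.symm) (by omega) (by omega)
        omega
  obtain ⟨d0, c0, e0⟩ := key 0 (by omega)
  obtain ⟨d1, c1, e1⟩ := key 1 (by omega)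
  obtain ⟨d2, c2, e2⟩ := key 2 (by omega)
  obtain ⟨d3, c3, e3⟩ := key 3 (by omega)
  rw [show r + 1 + 3 + 1 = r + 5 by ring, T.tail_bot hp17 hr hn, Subgroup.card_bot] at c3
  have hd : d0 + d1 + d2 + d3 ≤ 2 := by
    have := X.hμ
    simp only [inS] at e1 e2 e3
    omega
  calc _ ≤ p ^ d0 * (p ^ d1 * (p ^ d2 * (p ^ d3 * 1))) :=
        c0.trans (Nat.mul_le_mul_left _ (c1.trans (Nat.mul_le_mul_left _
          (c2.trans (Nat.mul_le_mul_left _ c3)))))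
    _ = p ^ (d0 + d1 + d2 + d3) := by ring
    _ ≤ _ := Nat.pow_le_pow_right hp.out.pos hd

end St

end Pool.Agent.P78
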