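import Pool.Agent.Lib.MP_78c6b1_al.Neg.RigCert
import Pool.Agent.Lib.MP_78c6b1_al.Neg.Tail
import Pool.Agent.Lib.MP_78c6b1_al.Neg.Iface4

/-! Rigidity of the truncated Witt algebra. -/

set_option autoImplicit false

namespace Pool.Agent.P78

section
variable {K : Type*} [Field K]

/-- the coboundary of `t` -/
def dt (s : K) (t : ℕ → K) (i j : ℕ) : K :=
  t i * ((j : K) - i - s) + t j * ((j : K) - i + s) - ((j : K) - i) * t (i + j)

lemma dt_anti (s : K) (t : ℕ → K) (i j : ℕ) : dt s t j i = -dt s t i j := by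
  simp only [dt, add_comm j i]; ring

lemma Coc.sub_dt {s : K} {W : ℕ} {g : ℕ → ℕ → K} (h : Coc s W g) (t : ℕ → K) :
    Coc s W fun i j => g i j - dt s t i j := fun i j k hi hj hk hw => by
  have := h i j k hi hj hk hw
  simp only [dt, show j + k + i = i + j + k by ring, show k + i + j = i + j + k by ring]
  push_cast
  linear_combination this

def nt (s : K) (g : ℕ → K) (E : K) : ℕ → K
  | 0 => 0
  | 1 => E
  | 2 => E
  | j + 3 => (E * ((j : K) + 1 - s) + nt s g E (j + 2) * ((j : K) + 1 + s) - g (j + 2)) / (j + 1)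

lemma nt_spec (s : K) (g : ℕ → K) (E : K) (j : ℕ) (h : (j : K) + 1 ≠ 0) :
    dt s (nt s g E) 1 (j + 2) = g (j + 2) := by
  rw [dt, show 1 + (j + 2) = j + 3 by ring, nt, nt]
  push_cast
  field_simp
  ring

lemma rig_base (hne : ∀ n : ℕ, 0 < n → n ≤ 2000000000 → (n : K) ≠ 0) (s : K) (g : ℕ → ℕ → K)
    (hc : Coc s 15 g) (hA : ∀ i j, 1 ≤ i → 1 ≤ j → i + j ≤ 15 → g j i = -g i j) :
    ∃ t, ∀ i j, 1 ≤ i → 1 ≤ j → i + j ≤ 12 → g i j = dt s t i j := by
  have h2 : (2 : K) ≠ 0 := by exact_mod_cast hne 2 (by decide) (by decide)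
  have sp : ∀ (g : ℕ → K) E j, j ≤ 12 → dt s (nt s g E) 1 (j + 2) = g (j + 2) := fun g E j hj =>
    nt_spec s g E j (by exact_mod_cast hne (j + 1) (by omega) (by omega))
  have ch : ∀ t, (∀ j, j ≤ 12 → dt s t 1 (j + 2) = g 1 (j + 2)) → t 0 = 0 →
      CH s fun i j => if j = 0 then 0 else g i j - dt s t i j := by
    intro t ht h0
    have hA' : ∀ i j, 1 ≤ i → 1 ≤ j → i + j ≤ 15 →
        g j i - dt s t j i = -(g i j - dt s t i j) := fun i j hi hj h => by
      rw [hA i j hi hj h, dt_anti]; ring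
    have hD : ∀ i, 1 ≤ i → i ≤ 7 → g i i - dt s t i i = 0 := fun i hi h =>
      mul_left_cancel₀ h2 (by linear_combination hA' i i hi hi (by omega))
    refine ⟨hne, fun i j k hi hj hk hw => ?_, fun i j hi hj h => ?_, fun j hj => ?_, fun i hi => ?_⟩
    · simp only [if_neg (by omega : i ≠ 0), if_neg (by omega : j ≠ 0), if_neg (by omega : k ≠ 0)]
      exact hc.sub_dt t i j k hi hj hk hw
    · simp only [if_neg (by omega : i ≠ 0), if_neg (by omega : j ≠ 0)]
      exact hA' i j hi hj h
    · split_ifs with h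
      · rfl
      obtain rfl | ⟨j, rfl⟩ : j = 1 ∨ ∃ j', j = j' + 2 := by
        rcases j with _ | _ | j
        exacts [absurd rfl h, Or.inl rfl, Or.inr ⟨j, rfl⟩]
      · exact hD 1 le_rfl (by omega)
      · rw [ht j (by omega), sub_self]
    · split_ifs with h
      exacts [rfl, hD i (by omega) hi]
  set t₀ := nt s (g 1) 0
  set τ := nt s (fun _ => 0) (-1)
  have hΔ := (Cert.rig_cert (ch t₀ (sp _ _) rfl)).1
  simp only [if_neg (by omega : (3 : ℕ) ≠ 0), if_neg (by omega : (4 : ℕ) ≠ 0)] at hΔ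
  have e0 := sp (fun _ => 0) (-1) 0 (by omega)
  have e1 := sp (fun _ => 0) (-1) 1 (by omega)
  have e2 := sp (fun _ => 0) (-1) 2 (by omega)
  have e3 := sp (fun _ => 0) (-1) 3 (by omega)
  have e4 := sp (fun _ => 0) (-1) 4 (by omega)
  have f1 : τ 1 = -1 := rfl
  have f2 : τ 2 = -1 := rfl
  change dt s τ 1 _ = 0 at e0 e1 e2 e3 e4
  simp only [dt, Nat.reduceAdd, f1, f2] at e0 e1 e2 e3 e4
  have b5 : 6 * dt s τ 2 3 = 6 + s + s ^ 2 := by
    simp only [dt, Nat.reduceAdd, f2]
    linear_combination 2 * e2 + (s + 3) * e1 + (s ^ 2 - s) * e0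
  have b7 : 120 * dt s τ 3 4 = 120 + 146 * s + 41 * s ^ 2 + 16 * s ^ 3 + s ^ 4 := by
    simp only [dt, Nat.reduceAdd]
    linear_combination 24 * e4 + (6 * s + 30) * e3 + (2 * s ^ 2 + 18 * s + 40) * e2 +
      (s ^ 3 + 12 * s ^ 2 - 13 * s) * e1 + (s ^ 4 + 14 * s ^ 3 + 11 * s ^ 2 + 94 * s - 120) * e0
  set α := g 2 3 - dt s t₀ 2 3
  set β := g 3 4 - dt s t₀ 3 4
  have n216 : (216 : K) ≠ 0 := by exact_mod_cast hne 216 (by decide) (by decide)
  have n6 : (6 : K) ≠ 0 := by exact_mod_cast hne 6 (by decide) (by decide)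
  have n120 : (120 : K) ≠ 0 := by exact_mod_cast hne 120 (by decide) (by decide)
  obtain ⟨E, hE⟩ : ∃ E, 216 * E =
      (36 + (s + 1) * (s ^ 2 + 15 * s + 20)) * (6 * α) - (s + 1) * (120 * β) :=
    ⟨_, mul_div_cancel₀ _ n216⟩
  have lin : ∀ i j, dt s (fun n => t₀ n + E * τ n) i j = dt s t₀ i j + E * dt s τ i j :=
    fun i j => by simp only [dt]; ring
  have H := ch (fun n => t₀ n + E * τ n) (fun j hj => by
    rw [lin, sp _ _ j hj, sp _ _ j hj, mul_zero, add_zero]) (by simp [t₀, τ, nt])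
  have z := (Cert.rig_cert H).2
  simp only [if_neg (by omega : (3 : ℕ) ≠ 0), if_neg (by omega : (4 : ℕ) ≠ 0), lin] at z
  have z' := z (mul_left_cancel₀ n216 (mul_left_cancel₀ n6 (by
      linear_combination -216 * E * b5 - (6 + s + s ^ 2) * hE - 6 * (s + 1) * hΔ)))
    (mul_left_cancel₀ n216 (mul_left_cancel₀ n120 (by
      linear_combination -216 * E * b7 - (120 + 146 * s + 41 * s ^ 2 + 16 * s ^ 3 + s ^ 4) * hE -
        6 * (36 + (s + 1) * (s ^ 2 + 15 * s + 20)) * hΔ)))
  have key : ∀ i j, 1 ≤ i → i ≤ j → i + j ≤ 12 → g i j = dt s (fun n => t₀ n + E * τ n) i j := by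
    intro i j hi hij hw
    rw [← sub_eq_zero]
    rcases hi.eq_or_lt with rfl | hi'
    · simpa only [if_neg (by omega : j ≠ 0)] using H.h1 j (by omega)
    rcases hij.eq_or_lt with rfl | hij'
    · simpa only [if_neg (by omega : i ≠ 0)] using H.hD i (by omega)
    · simpa only [if_neg (by omega : j ≠ 0), lin] using z' i j hi' hij' hw
  refine ⟨fun n => t₀ n + E * τ n, fun i j hi hj hw => ?_⟩
  rcases le_total i j with h | h
  · exact key i j hi h hw
  · rw [hA j i hj hi (by omega), key j i hj h (by omega), dt_anti s _ j i]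

end

theorem rigAlg : RigAlg := by
  refine ⟨2000000001, fun p _ hp s W hW hW' g hA hc₀ => ?_⟩
  have hne : ∀ n : ℕ, 0 < n → n ≤ 2000000000 → (n : ZMod p) ≠ 0 := fun n h h' =>
    cast_ne_zero' h (by omega)
  have h2 : (2 : ZMod p) ≠ 0 := by exact_mod_cast hne 2 (by decide) (by decide)
  have g11 : g 1 1 = 0 := mul_left_cancel₀ h2 (by linear_combination hA 1 1 le_rfl le_rfl (by omega))
  have hc : Coc s W g := by
    have one : ∀ k, 1 ≤ k → 1 + 1 + k ≤ W → ((1 : ℕ) - (1 : ℕ) : ZMod p) * g (1 + 1) k +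
        g 1 1 * ((k : ZMod p) - (1 : ℕ) - (1 : ℕ) - s) +
        (((k : ZMod p) - (1 : ℕ)) * g (1 + k) 1 + g 1 k * (((1 : ℕ) : ZMod p) - (1 : ℕ) - k - s)) +
        ((((1 : ℕ) : ZMod p) - k) * g (k + 1) 1 + g k 1 * (((1 : ℕ) : ZMod p) - k - (1 : ℕ) - s)) =
        0 := fun k hk h => by
      rw [g11, hA 1 k le_rfl hk (by omega), add_comm 1 k]; ring
    intro i j k hi hj hk hw
    by_cases h1 : 2 ≤ j ∧ 2 ≤ k
    · exact hc₀ i j k hi h1.1 h1.2 hw
    by_cases h2 : 2 ≤ k ∧ 2 ≤ i
    · linear_combination hc₀ j k i hj h2.1 h2.2 (by omega)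
    by_cases h3 : 2 ≤ i ∧ 2 ≤ j
    · linear_combination hc₀ k i j hk h3.1 h3.2 (by omega)
    obtain ⟨rfl, rfl⟩ | ⟨rfl, rfl⟩ | ⟨rfl, rfl⟩ :
      (i = 1 ∧ j = 1) ∨ (j = 1 ∧ k = 1) ∨ (k = 1 ∧ i = 1) := by omega
    · exact one k hk hw
    · linear_combination one i hi (by omega)
    · linear_combination one j hj (by omega)
  suffices key : ∀ w, 12 ≤ w → w ≤ W → ∃ t, ∀ i j, 1 ≤ i → 1 ≤ j → i + j ≤ w → g i j = dt s t i j from
    key W (by omega) le_rfl
  intro w hw
  induction w, hw using Nat.le_induction with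
  | base =>
    exact fun _ => rig_base hne s g (fun i j k hi hj hk h => hc i j k hi hj hk (by omega))
      fun i j hi hj h => hA i j hi hj (by omega)
  | succ w hw ih =>
    intro hwW
    obtain ⟨t, ht⟩ := ih (by omega)
    set h : ℕ → ℕ → ZMod p := fun i j => g i j - dt s t i j with hh
    have hc' : Coc s W h := hc.sub_dt t
    have hA' : ∀ i j, 1 ≤ i → 1 ≤ j → i + j ≤ W → h j i = -h i j := fun i j hi hj hw => by
      simp only [hh]; rw [hA i j hi hj hw, dt_anti]; ring
    have h0 : ∀ i j, 1 ≤ i → 1 ≤ j → i + j ≤ w → h i j = 0 := fun i j hi hj hw =>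
      sub_eq_zero.2 (ht i j hi hj hw)
    have lw : ∀ a m, 1 ≤ a → m = w + a → m ≤ W → 4 * a + 9 ≤ m → ∃ l k : ZMod p, k * m = 0 ∧
        ∀ i j, a ≤ i → a ≤ j → i + j = m → h i j = Psi m l k i := by
      intro a m ha hm hmW hm'
      obtain ⟨l, k, e1, e2⟩ := lemW (p := p) (by omega) hm' (fun i => h i (m - i))
        (fun i j k hi hj hk hs => by
          have := hc' i j k (by omega) (by omega) (by omega) (by omega)
          rw [h0 i j (by omega) (by omega) (by omega), h0 j k (by omega) (by omega) (by omega),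
            h0 k i (by omega) (by omega) (by omega),
            hA' k (i + j) (by omega) (by omega) (by omega),
            hA' i (j + k) (by omega) (by omega) (by omega),
            hA' j (k + i) (by omega) (by omega) (by omega)] at this
          rw [show m - k = i + j by omega, show m - i = j + k by omega, show m - j = k + i by omega]
          linear_combination -this)
        (fun i j hi hj hs => by
          rw [show m - j = i by omega, show m - i = j by omega]
          exact hA' i j (by omega) (by omega) (by omega))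
      exact ⟨l, k, e1, fun i j hi hj hs => by rw [← e2 i j hi hj hs, show m - i = j by omega]⟩
    obtain ⟨l, k, e1, e2⟩ := lw 1 (w + 1) le_rfl rfl hwW (by omega)
    have hk : k = 0 := by
      by_contra hk
      have hwp : w + 1 = p := by
        have := cast_eq_cases (b := 0) (((mul_eq_zero.1 e1).resolve_left hk).trans
          Nat.cast_zero.symm) (by omega) (by omega)
        omega
      obtain ⟨c, c1, c2, c3⟩ : ∃ c : ℕ, 1 ≤ c ∧ c ≤ 2 ∧ (c : ZMod p) - s ≠ 0 := by
        by_cases h1 : ((1 : ℕ) : ZMod p) - s = 0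
        · exact ⟨2, by omega, le_rfl, fun h2 => one_ne_zero (α := ZMod p)
            (by push_cast at h1 h2; linear_combination h2 - h1)⟩
        · exact ⟨1, le_rfl, by omega, h1⟩
      obtain ⟨l', k', e3, e4⟩ := lw (c + 1) (p + c) (by omega) (by omega) (by omega) (by omega)
      have hk' : k' = 0 := (mul_eq_zero.1 e3).resolve_right (by
        simpa using hne c (by omega) (by omega))
      have rel : ∀ i : ℕ, 3 ≤ i → i ≤ 4 → (-2 * h p c - 2 * l * (c - s) + 2 * c * l') +
          k * ((c : ZMod p) - s) * (i : ZMod p) ^ 2 = 0 := by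
        intro i i3 i4
        obtain ⟨j, hj⟩ : ∃ j, i + j = p := ⟨p - i, by omega⟩
        have := hc' i j c (by omega) (by omega) c1 (by omega)
        have hj' : (j : ZMod p) = -i := by
          rw [eq_neg_iff_add_eq_zero, add_comm, ← Nat.cast_add, hj, ZMod.natCast_self]
        rw [hj, h0 j c (by omega) c1 (by omega), h0 c i c1 (by omega) (by omega),
          e2 i j (by omega) (by omega) (by omega), e4 (j + c) i (by omega) (by omega) (by omega),
          e4 (c + i) j (by omega) (by omega) (by omega), hwp, hk'] at this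
        simp only [Psi, Nat.cast_add, hj', ZMod.natCast_self] at this
        refine mul_left_cancel₀ (hne i (by omega) (by omega)) ?_
        linear_combination this
      have : (7 : ℕ) * (k * ((c : ZMod p) - s)) = 0 := by
        linear_combination rel 4 (by omega) le_rfl - rel 3 le_rfl (by omega)
      exact mul_ne_zero (hne 7 (by omega) (by omega)) (mul_ne_zero hk c3) this
    refine ⟨Function.update t (w + 1) (t (w + 1) - l), fun i j hi hj hs => ?_⟩
    have u1 : i ≠ w + 1 := by omega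
    have u2 : j ≠ w + 1 := by omega
    rcases hs.eq_or_lt with hs | hs
    · have := e2 i j hi hj hs
      simp only [hh, dt, Psi, hk, ← hs] at this
      simp only [dt, ← hs] at u1 u2 ⊢
      rw [Function.update_of_ne u1, Function.update_of_ne u2, Function.update_self]
      push_cast at this
      linear_combination this
    · rw [ht i j hi hj (by omega)]
      simp only [dt]
      rw [Function.update_of_ne u1, Function.update_of_ne u2, Function.update_of_ne hs.ne]

end Pool.Agent.P78
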