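import Pool.Agent.Lib.MP_78c6b1_al.Neg.Long
import Pool.Agent.Lib.MP_78c6b1_al.Neg.RigAlg
import Pool.Agent.Lib.MP_78c6b1_al.Rig.Main
import Pool.Agent.Lib.MP_78c6b1_al.Base.D
import Pool.Agent.Lib.MP_78c6b1_al.Base.Pow
import Pool.Agent.Lib.MP_78c6b1_al.Short.Main
import Pool.Agent.Lib.MP_78c6b1_al.Short.Hall

/-! The negative answer follows from the classification block. -/

set_option autoImplicit false

namespace Pool.Agent.P78

theorem neg_of_class (hC : ClassStmt) :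
    ¬ (∀ p : ℕ, p.Prime → ∀ a : ℕ,
      ∃ (G : Type) (_ : Group G) (_ : Finite G) (m : ℕ),
        Nat.card G = p ^ m ∧
        (Nat.card (ConjClasses G) : ℤ) =
          ((m / 2 : ℕ) : ℤ) * ((p : ℤ) ^ 2 - 1) + (p : ℤ) ^ (m % 2)
            + (a : ℤ) * ((p : ℤ) ^ 2 - 1) * ((p : ℤ) - 1)) :=
  no_group shortStmt fjStmt hallStmt (baseStmt' hC 100 (by norm_num)) powStmt (rigStmt rigAlg)

end Pool.Agent.P78
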