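import Mathlib

/-! N-series of a group and additive functions on their layers. -/

set_option autoImplicit false

namespace Pool.Agent.P78

open scoped commutatorElement

/-- A descending series of normal subgroups with `⁅F i, F j⁆ ≤ F (i + j)` and `F 1 = ⊤`. -/
structure NSer (G : Type*) [Group G] where
  F : ℕ → Subgroup G
  normal : ∀ i, (F i).Normal
  anti : Antitone F
  comm : ∀ i j, ⁅F i, F j⁆ ≤ F (i + j)
  one : F 1 = ⊤

variable {G : Type*} [Group G]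

namespace NSer

variable (S : NSer G)

instance (i : ℕ) : (S.F i).Normal := S.normal i

lemma mem_one (g : G) : g ∈ S.F 1 := by rw [S.one]; trivial

variable {S}

lemma comm_mem {i j : ℕ} {a b : G} (ha : a ∈ S.F i) (hb : b ∈ S.F j) : ⁅a, b⁆ ∈ S.F (i + j) :=
  S.comm i j (Subgroup.commutator_mem_commutator ha hb)

lemma comm_mem' {i j w : ℕ} {a b : G} (ha : a ∈ S.F i) (hb : b ∈ S.F j) (h : w ≤ i + j) :
    ⁅a, b⁆ ∈ S.F w := S.anti h (comm_mem ha hb)

lemma mono {i j : ℕ} {a : G} (ha : a ∈ S.F i) (h : j ≤ i) : a ∈ S.F j := S.anti h ha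

lemma conj_mem {i : ℕ} {a : G} (ha : a ∈ S.F i) (g : G) : g * a * g⁻¹ ∈ S.F i :=
  (S.normal i).conj_mem a ha g

end NSer

/-- `φ` is additive on `F w` and kills `F (w + 1)`. -/
structure IsLev {A : Type*} [AddCommGroup A] (S : NSer G) (w : ℕ) (φ : G → A) : Prop where
  add : ∀ a ∈ S.F w, ∀ b ∈ S.F w, φ (a * b) = φ a + φ b
  zero : ∀ a ∈ S.F (w + 1), φ a = 0

namespace IsLev

variable {A : Type*} [AddCommGroup A] {S : NSer G} {w : ℕ} {φ : G → A}

lemma one (h : IsLev S w φ) : φ 1 = 0 := h.zero 1 (one_mem _)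

lemma zero' (h : IsLev S w φ) {v : ℕ} {a : G} (ha : a ∈ S.F v) (hv : w < v) : φ a = 0 :=
  h.zero a (S.anti hv ha)

lemma inv (h : IsLev S w φ) {a : G} (ha : a ∈ S.F w) : φ a⁻¹ = -φ a := by
  have := h.add a ha a⁻¹ (inv_mem ha)
  rw [mul_inv_cancel, h.one] at this
  exact (neg_eq_of_add_eq_zero_right this.symm).symm

lemma pow (h : IsLev S w φ) {a : G} (ha : a ∈ S.F w) (n : ℕ) : φ (a ^ n) = n • φ a := by
  induction n with
  | zero => simp [h.one]
  | succ n ih => rw [pow_succ, h.add _ (pow_mem ha n) _ ha, ih, succ_nsmul]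

lemma zpow (h : IsLev S w φ) {a : G} (ha : a ∈ S.F w) (n : ℤ) : φ (a ^ n) = n • φ a := by
  cases n with
  | ofNat n => simp [h.pow ha]
  | negSucc n => rw [zpow_negSucc, h.inv (pow_mem ha _), h.pow ha, negSucc_zsmul]

lemma mul_deep (h : IsLev S w φ) {a b : G} (ha : a ∈ S.F w) (hb : b ∈ S.F (w + 1)) :
    φ (a * b) = φ a := by
  rw [h.add a ha b (S.anti (Nat.le_succ w) hb), h.zero b hb, add_zero]

lemma deep_mul (h : IsLev S w φ) {a b : G} (ha : a ∈ S.F w) (hb : b ∈ S.F (w + 1)) :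
    φ (b * a) = φ a := by
  rw [h.add b (S.anti (Nat.le_succ w) hb) a ha, h.zero b hb, zero_add]

lemma congr (h : IsLev S w φ) {a b : G} (hb : b ∈ S.F w) (hab : a * b⁻¹ ∈ S.F (w + 1)) :
    φ a = φ b := by
  have := h.deep_mul hb hab
  rwa [inv_mul_cancel_right] at this

lemma congr' (h : IsLev S w φ) {a b : G} (hb : b ∈ S.F w) (hab : b⁻¹ * a ∈ S.F (w + 1)) :
    φ a = φ b := by
  have := h.mul_deep hb hab
  rwa [mul_inv_cancel_left] at this

lemma conj (h : IsLev S w φ) {a : G} (ha : a ∈ S.F w) (g : G) : φ (g * a * g⁻¹) = φ a := by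
  refine h.congr ha ?_
  have := NSer.comm_mem (S.mem_one g) ha
  rw [add_comm] at this
  simpa [commutatorElement_def] using this

lemma commL (h : IsLev S w φ) {j k : ℕ} (hjk : j + k = w) {c : G} (hc : c ∈ S.F k) :
    IsLev S j (fun a => φ ⁅a, c⁆) := by
  subst hjk
  refine ⟨fun a ha b hb => ?_, fun a ha => ?_⟩
  · rw [commutatorElement_mul_left_eq_conj_mul,
      h.add _ (NSer.conj_mem (NSer.comm_mem hb hc) a) _ (NSer.comm_mem ha hc),
      h.conj (NSer.comm_mem hb hc), add_comm]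
  · exact h.zero _ (NSer.comm_mem' ha hc (by omega))

lemma antisymm (h : IsLev S w φ) {j k : ℕ} (hjk : j + k = w) {a c : G} (ha : a ∈ S.F j)
    (hc : c ∈ S.F k) : φ ⁅c, a⁆ = -φ ⁅a, c⁆ := by
  rw [← commutatorElement_inv, h.inv (NSer.comm_mem' ha hc hjk.ge)]

lemma commR (h : IsLev S w φ) {j k : ℕ} (hjk : j + k = w) {c : G} (hc : c ∈ S.F k) :
    IsLev S j (fun a => φ ⁅c, a⁆) := by
  have h1 := h.commL hjk hc
  refine ⟨fun a ha b hb => ?_, fun a ha => ?_⟩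
  · rw [h.antisymm hjk (mul_mem ha hb) hc, h.antisymm hjk ha hc, h.antisymm hjk hb hc,
      h1.add a ha b hb, neg_add]
  · rw [h.antisymm hjk (S.anti (Nat.le_succ j) ha) hc, h1.zero a ha, neg_zero]

lemma jacobi (h : IsLev S w φ) {i j k : ℕ} (hw : i + j + k = w) {a b c : G} (ha : a ∈ S.F i)
    (hb : b ∈ S.F j) (hc : c ∈ S.F k) :
    φ ⁅⁅a, b⁆, c⁆ + φ ⁅⁅b, c⁆, a⁆ + φ ⁅⁅c, a⁆, b⁆ = 0 := by
  have hab := NSer.comm_mem ha hb
  have hbc := NSer.comm_mem hb hc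
  have hca := NSer.comm_mem hc ha
  have e1 : φ ⁅⁅a, b⁆, b * c * b⁻¹⁆ = φ ⁅⁅a, b⁆, c⁆ :=
    (h.commR (j := k) (k := i + j) (by omega) hab).conj hc b
  have e2 : φ ⁅⁅b, c⁆, c * a * c⁻¹⁆ = φ ⁅⁅b, c⁆, a⁆ :=
    (h.commR (j := i) (k := j + k) (by omega) hbc).conj ha c
  have e3 : φ ⁅⁅c, a⁆, a * b * a⁻¹⁆ = φ ⁅⁅c, a⁆, b⁆ :=
    (h.commR (j := j) (k := k + i) (by omega) hca).conj hb a
  have m1 : ⁅⁅a, b⁆, b * c * b⁻¹⁆ ∈ S.F w := NSer.comm_mem' hab (NSer.conj_mem hc b) (by omega)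
  have m2 : ⁅⁅b, c⁆, c * a * c⁻¹⁆ ∈ S.F w := NSer.comm_mem' hbc (NSer.conj_mem ha c) (by omega)
  have m3 : ⁅⁅c, a⁆, a * b * a⁻¹⁆ ∈ S.F w := NSer.comm_mem' hca (NSer.conj_mem hb a) (by omega)
  rw [← e1, ← e2, ← e3, ← h.add _ m1 _ m2, ← h.add _ (mul_mem m1 m2) _ m3,
    commutatorElement_commutatorElement_conj_mul, h.one]

/-- the Leibniz form of the Jacobi identity -/
lemma leibniz (h : IsLev S w φ) {i j k : ℕ} (hw : i + j + k = w) {a b c : G} (ha : a ∈ S.F i)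
    (hb : b ∈ S.F j) (hc : c ∈ S.F k) :
    φ ⁅a, ⁅b, c⁆⁆ = φ ⁅⁅a, b⁆, c⁆ - φ ⁅⁅a, c⁆, b⁆ := by
  have h1 := h.jacobi hw ha hb hc
  have h2 : φ ⁅a, ⁅b, c⁆⁆ = -φ ⁅⁅b, c⁆, a⁆ :=
    h.antisymm (j := j + k) (k := i) (by omega) (NSer.comm_mem hb hc) ha
  have h3 : φ ⁅⁅c, a⁆, b⁆ = -φ ⁅⁅a, c⁆, b⁆ := by
    rw [← commutatorElement_inv c a]
    have := (h.commL (j := k + i) (k := j) (by omega) hb).inv (NSer.comm_mem hc ha)
    rw [this, neg_neg]
  rw [h2]
  rw [h3] at h1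
  have : φ ⁅⁅b, c⁆, a⁆ = φ ⁅⁅a, c⁆, b⁆ - φ ⁅⁅a, b⁆, c⁆ := by
    rw [← sub_eq_zero, ← h1]; abel
  rw [this]; abel

lemma add_fun {ψ : G → A} (h : IsLev S w φ) (h' : IsLev S w ψ) :
    IsLev S w (fun a => φ a + ψ a) :=
  ⟨fun a ha b hb => by rw [h.add a ha b hb, h'.add a ha b hb]; abel,
    fun a ha => by rw [h.zero a ha, h'.zero a ha, add_zero]⟩

lemma sub_fun {ψ : G → A} (h : IsLev S w φ) (h' : IsLev S w ψ) :
    IsLev S w (fun a => φ a - ψ a) :=
  ⟨fun a ha b hb => by rw [h.add a ha b hb, h'.add a ha b hb]; abel,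
    fun a ha => by rw [h.zero a ha, h'.zero a ha, sub_zero]⟩

lemma map {B : Type*} [AddCommGroup B] (h : IsLev S w φ) (f : A →+ B) :
    IsLev S w (fun a => f (φ a)) :=
  ⟨fun a ha b hb => by rw [h.add a ha b hb, map_add],
    fun a ha => by rw [h.zero a ha, map_zero]⟩

/-- The set where a layer function vanishes, inside `F w`, is a subgroup. -/
def kerSub (h : IsLev S w φ) : Subgroup G where
  carrier := {a | a ∈ S.F w ∧ φ a = 0}
  one_mem' := ⟨one_mem _, h.one⟩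
  mul_mem' := fun {a b} ha hb => ⟨mul_mem ha.1 hb.1, by rw [h.add a ha.1 b hb.1, ha.2, hb.2, add_zero]⟩
  inv_mem' := fun {a} ha => ⟨inv_mem ha.1, by rw [h.inv ha.1, ha.2, neg_zero]⟩

lemma eq_zero_of_closure (h : IsLev S w φ) {s : Set G} (hs : ∀ a ∈ s, a ∈ S.F w ∧ φ a = 0)
    {a : G} (ha : a ∈ Subgroup.closure s) : φ a = 0 :=
  ((Subgroup.closure_le h.kerSub).2 hs ha).2

end IsLev

/-- three subgroups lemma modulo a normal subgroup -/
lemma three_subgroups {H₁ H₂ H₃ N : Subgroup G} [N.Normal] (h1 : ⁅⁅H₂, H₃⁆, H₁⁆ ≤ N)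
    (h2 : ⁅⁅H₃, H₁⁆, H₂⁆ ≤ N) : ⁅⁅H₁, H₂⁆, H₃⁆ ≤ N := by
  have key : ∀ K : Subgroup G, K ≤ N ↔ K.map (QuotientGroup.mk' N) = ⊥ := fun K => by
    rw [Subgroup.map_eq_bot_iff, QuotientGroup.ker_mk']
  rw [key] at h1 h2 ⊢
  simp only [Subgroup.map_commutator] at h1 h2 ⊢
  exact Subgroup.commutator_commutator_eq_bot_of_rotate h1 h2

lemma lcs_comm (i j : ℕ) :
    ⁅(⊤ : Subgroup G).lowerCentralSeries i, (⊤ : Subgroup G).lowerCentralSeries j⁆ ≤
      (⊤ : Subgroup G).lowerCentralSeries (i + j + 1) := by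
  induction j generalizing i with
  | zero => exact le_of_eq rfl
  | succ j ih =>
    rw [Subgroup.lowerCentralSeries_succ, Subgroup.commutator_comm]
    refine three_subgroups ?_ ?_
    · rw [Subgroup.commutator_comm ⊤, ← Subgroup.lowerCentralSeries_succ]
      have := ih (i + 1)
      rwa [show i + 1 + j + 1 = i + (j + 1) + 1 by ring] at this
    · rw [show i + (j + 1) + 1 = (i + j + 1) + 1 by ring, Subgroup.lowerCentralSeries_succ]
      exact Subgroup.commutator_mono (ih i) le_rfl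

/-- the lower central series as an N-series (`F n` is the `n`-th term, `F 1 = ⊤`) -/
def lcsN (G : Type*) [Group G] : NSer G where
  F n := (⊤ : Subgroup G).lowerCentralSeries (n - 1)
  normal _ := inferInstance
  anti _ _ h := Subgroup.lowerCentralSeries_antitone _ (by omega)
  comm i j := by
    rcases Nat.eq_zero_or_pos i with rfl | hi
    · rw [zero_add]; exact Subgroup.commutator_le_right _ _
    rcases Nat.eq_zero_or_pos j with rfl | hj
    · rw [add_zero]; exact Subgroup.commutator_le_left _ _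
    have := lcs_comm (G := G) (i - 1) (j - 1)
    rwa [show i - 1 + (j - 1) + 1 = i + j - 1 by omega] at this
  one := rfl

lemma lcsN_succ (n : ℕ) (hn : 1 ≤ n) : (lcsN G).F (n + 1) = ⁅(lcsN G).F n, ⊤⁆ := by
  obtain ⟨m, rfl⟩ := Nat.exists_eq_add_of_le' hn
  rfl

end Pool.Agent.P78
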