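import Pool.Agent.Lib.MP_78c6b1_al.Neg.St
import Pool.Agent.Lib.MP_78c6b1_al.Neg.Cnt

/-! Raising the extra element to a level close to the top. -/

set_option autoImplicit false

namespace Pool.Agent.P78

open scoped commutatorElement

variable {p : ℕ} {G : Type} [Group G]

lemma h1_cert [Fact p.Prime] (hp7 : 7 ≤ p) (t : ZMod p) (d : ℕ → ZMod p)
    (h : ∀ j k : ℕ, 1 ≤ j → 1 ≤ k → j + k ≤ 7 → ((k : ZMod p) - j) * d (j + k) =
      d j * ((k : ZMod p) - j - t) + d k * ((k : ZMod p) - j + t)) :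
    ∃ c, d 1 = c * (1 - t) ∧ d 2 = c * (2 - t) := by
  have h2 := h 1 2 (by omega) (by omega) (by omega)
  have h3 := h 1 3 (by omega) (by omega) (by omega)
  have h4 := h 1 4 (by omega) (by omega) (by omega)
  have h5 := h 1 5 (by omega) (by omega) (by omega)
  have h6 := h 1 6 (by omega) (by omega) (by omega)
  have g3 := h 2 3 (by omega) (by omega) (by omega)
  have g5 := h 2 5 (by omega) (by omega) (by omega)
  norm_num at h2 h3 h4 h5 h6 g3 g5
  set E := (2 - t) * d 1 - (1 - t) * d 2 with hE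
  have a1 : E * (t ^ 2 + t + 6) = 0 := by
    linear_combination 6 * g3 - 2 * h4 + (-t - 3) * h3 + (-t ^ 2 + t) * h2
  have a2 : E * (3 * t ^ 4 + 28 * t ^ 3 + 103 * t ^ 2 + 198 * t + 360) = 0 := by
    linear_combination 120 * g5 - 72 * h6 + (-18 * t - 90) * h5 + (-6 * t ^ 2 - 14 * t) * h4 +
      (-3 * t ^ 3 - 16 * t ^ 2 - 21 * t) * h3 + (-3 * t ^ 4 - 22 * t ^ 3 - 53 * t ^ 2 - 42 * t) * h2
  have a3 : 12 * (E * t) = 0 := by linear_combination (3 * t ^ 2 + 25 * t + 60) * a1 - a2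
  have a4 : (2 * 2 * 2 * 3 * 3) * E = 0 := by linear_combination 12 * a1 - (t + 1) * a3
  have n2 : (2 : ZMod p) ≠ 0 := by exact_mod_cast cast_ne_zero' (p := p) (n := 2) (by omega) (by omega)
  have n3 : (3 : ZMod p) ≠ 0 := by exact_mod_cast cast_ne_zero' (p := p) (n := 3) (by omega) (by omega)
  have a5 : E = 0 := by simpa [n2, n3] using a4
  exact ⟨d 2 - d 1, by linear_combination a5, by linear_combination a5⟩

/-- `z` raises the levels by `σ` -/
def Acts (S : NSer G) (z : G) (σ : ℕ) : Prop := ∀ j, 1 ≤ j → ∀ b ∈ S.F j, ⁅z, b⁆ ∈ S.F (σ + j)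

lemma Acts.of_mem {S : NSer G} {z : G} {σ : ℕ} (h : z ∈ S.F σ) : Acts S z σ :=
  fun _ _ _ hb => NSer.comm_mem h hb

lemma Acts.zpowers {S : NSer G} {z : G} {σ : ℕ} (h : Acts S z σ) {t : G}
    (ht : t ∈ Subgroup.zpowers z) : Acts S t σ := fun j hj b hb =>
  cen_symm.1 ((Subgroup.zpowers_le.2 (cen_symm.1 (h j hj b hb)) : _ ≤ cen (S.F (σ + j)) b) ht)

lemma Ctx.acts (X : Ctx p G) {z : G} {σ : ℕ}
    (h : ∀ j, 1 ≤ j → j ≤ X.μ → ∀ b ∈ X.S.F j, ⁅z, b⁆ ∈ X.S.F (σ + j)) : Acts X.S z σ := by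
  intro j
  induction j using Nat.strong_induction_on with
  | _ j ih =>
    intro hj
    by_cases hμ : j ≤ X.μ
    · exact h j hj hμ
    have hz : ∀ l, 1 ≤ l → l < j → ⁅Subgroup.zpowers z, X.S.F l⁆ ≤ X.S.F (σ + l) := fun l h1 h2 =>
      Subgroup.commutator_le.2 fun t ht b hb => cen_symm.1 ((Subgroup.zpowers_le.2
        (cen_symm.1 (ih l h2 h1 b hb)) : _ ≤ cen (X.S.F (σ + l)) b) ht)
    obtain ⟨N, hN⟩ := X.term
    have key : ∀ d n, j ≤ n → N ≤ n + d → X.S.F n ≤ cen (X.S.F (σ + j)) z := by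
      intro d
      induction d with
      | zero => exact fun n _ hn => (X.S.anti hn).trans (by rw [add_zero] at hn; rw [hN]; exact bot_le)
      | succ d ihd =>
        intro n hn hn'
        refine X.gen n (by omega) _ (ihd (n + 1) (by omega) (by omega)) fun k l hk hkμ hkl => ?_
        have h3 : ⁅⁅X.S.F (j - k), X.S.F k⁆, Subgroup.zpowers z⁆ ≤ X.S.F (σ + j) := by
          refine three_subgroups ?_ ?_
          · rw [Subgroup.commutator_comm (X.S.F k)]
            refine (Subgroup.commutator_mono (hz k hk (by omega)) le_rfl).trans ?_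
            exact (X.S.comm _ _).trans (X.S.anti (by omega))
          · refine (Subgroup.commutator_mono (hz (j - k) (by omega) (by omega)) le_rfl).trans ?_
            exact (X.S.comm _ _).trans (X.S.anti (by omega))
        intro u hu
        exact cen_symm.1 (h3 (Subgroup.commutator_mem_commutator
          (Subgroup.commutator_mono (X.S.anti (by omega)) le_rfl hu) (Subgroup.mem_zpowers z)))
    exact key N j le_rfl (by omega)

/-- the series with `z` put in level `σ` -/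
def raiseF (S : NSer G) (z : G) (σ i : ℕ) : Subgroup G :=
  if i ≤ σ then S.F i ⊔ Subgroup.zpowers z else S.F i

lemma le_raiseF (S : NSer G) (z : G) (σ i : ℕ) : S.F i ≤ raiseF S z σ i := by
  unfold raiseF; split_ifs; exacts [le_sup_left, le_rfl]

lemma raiseF_le {S : NSer G} {z : G} {σ i : ℕ} {K : Subgroup G} (h : S.F i ≤ K)
    (hz : i ≤ σ → z ∈ K) : raiseF S z σ i ≤ K := by
  unfold raiseF; split_ifs with hi
  exacts [sup_le h (Subgroup.zpowers_le.2 (hz hi)), h]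

lemma mem_raiseF {S : NSer G} {z : G} {σ i : ℕ} (h : i ≤ σ) : z ∈ raiseF S z σ i := by
  unfold raiseF; rw [if_pos h]; exact Subgroup.mem_sup_right (Subgroup.mem_zpowers z)

lemma raiseF_top {S : NSer G} {z : G} {σ i : ℕ} (h : σ < i) : raiseF S z σ i = S.F i := by
  unfold raiseF; rw [if_neg (by omega)]

lemma raiseF_anti (S : NSer G) (z : G) (σ : ℕ) : Antitone (raiseF S z σ) := fun _ _ h =>
  raiseF_le ((S.anti h).trans (le_raiseF _ _ _ _)) fun h' => mem_raiseF (h.trans h')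

lemma Acts.comm_z {S : NSer G} {z : G} {σ : ℕ} (h : Acts S z σ) {j : ℕ} (hj : 1 ≤ j) {b : G}
    (hb : b ∈ raiseF S z σ j) : ⁅z, b⁆ ∈ S.F (σ + j) :=
  raiseF_le (K := cen (S.F (σ + j)) z) (h j hj) (fun _ => self_mem_cen _ _) hb

lemma Acts.comm {S : NSer G} {z : G} {σ : ℕ} (h : Acts S z σ) {i j : ℕ} (hi : 1 ≤ i) (hj : 1 ≤ j)
    {a b : G} (ha : a ∈ raiseF S z σ i) (hb : b ∈ raiseF S z σ j) : ⁅a, b⁆ ∈ S.F (i + j) := by
  refine cen_symm.1 (raiseF_le (K := cen (S.F (i + j)) b) (fun a ha => cen_symm.1 ?_)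
    (fun hi' => cen_symm.1 (S.anti (by omega) (h.comm_z hj hb))) ha)
  exact raiseF_le (K := cen (S.F (i + j)) a) (fun b hb => NSer.comm_mem ha hb)
    (fun hj' => cen_symm.1 (S.anti (by omega) (h i hi a ha))) hb

lemma Acts.normal {S : NSer G} {z : G} {σ : ℕ} (h : Acts S z σ) (i : ℕ) :
    (raiseF S z σ i).Normal := by
  refine ⟨fun a ha g => ?_⟩
  rcases Nat.eq_zero_or_pos i with rfl | hi
  · exact le_raiseF _ _ _ _ (S.anti (Nat.zero_le 1) (S.mem_one _))
  have := h.comm le_rfl hi (le_raiseF _ _ _ _ (S.mem_one g)) ha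
  have h2 := mul_mem (le_raiseF S z σ i (S.anti (by omega) this)) ha
  simpa [commutatorElement_def] using h2

def Acts.ser {S : NSer G} {z : G} {σ : ℕ} (h : Acts S z σ) : NSer G where
  F := raiseF S z σ
  normal := h.normal
  anti := raiseF_anti S z σ
  comm i j := by
    have := h.normal (i + j)
    rcases Nat.eq_zero_or_pos i with rfl | hi
    · rw [zero_add] at this ⊢; exact Subgroup.commutator_le_right _ _
    rcases Nat.eq_zero_or_pos j with rfl | hj
    · rw [add_zero] at this ⊢; exact Subgroup.commutator_le_left _ _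
    exact Subgroup.commutator_le.2 fun a ha b hb => le_raiseF _ _ _ _ (h.comm hi hj ha hb)
  one := eq_top_iff.2 (S.one ▸ le_raiseF S z σ 1)

lemma Acts.lev {A : Type*} [AddCommGroup A] {S : NSer G} {z : G} {σ : ℕ} (h : Acts S z σ) {m : ℕ}
    (hm : σ < m) {φ : G → A} (hφ : IsLev S m φ) : IsLev h.ser m φ := by
  have e1 : h.ser.F m = S.F m := raiseF_top hm
  have e2 : h.ser.F (m + 1) = S.F (m + 1) := raiseF_top (by omega)
  exact ⟨by rw [e1]; exact hφ.add, by rw [e2]; exact hφ.zero⟩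

lemma Acts.levR {A : Type*} [AddCommGroup A] {S : NSer G} {z : G} {σ : ℕ} (h : Acts S z σ)
    {j : ℕ} (hj : 1 ≤ j) {φ : G → A} (hφ : IsLev S (σ + j) φ) : IsLev S j fun b => φ ⁅z, b⁆ := by
  have := (h.lev (by omega) hφ).commR (j := j) (k := σ) (by omega) (mem_raiseF le_rfl)
  exact ⟨fun a ha b hb => this.add a (le_raiseF _ _ _ _ ha) b (le_raiseF _ _ _ _ hb),
    fun a ha => this.zero a (le_raiseF _ _ _ _ ha)⟩

namespace St

variable [hp : Fact p.Prime] {X : Ctx p G} {r : ℕ} (T : St X r)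

lemma raise_step (hp7 : 7 ≤ p) (hμ : X.μ = 2) {σ : ℕ} (hw : T.w < σ) (hr : σ + 7 ≤ r) {z : G}
    (hz : z * T.z⁻¹ ∈ X.S.F (T.w + 1)) (h : Acts X.S z σ) :
    ∃ z', z' * T.z⁻¹ ∈ X.S.F (T.w + 1) ∧ Acts X.S z' (σ + 1) := by
  have hS : ∀ i, 1 ≤ i → inS X.μ i := fun i hi => ⟨hi, by omega, by omega⟩
  have hzw : ∀ z : G, z * T.z⁻¹ ∈ X.S.F (T.w + 1) → z ∈ X.S.F T.w := fun z hz => by
    simpa using mul_mem (X.S.anti (Nat.le_succ _) hz) T.z_mem
  have dec : ∀ z : G, z * T.z⁻¹ ∈ X.S.F (T.w + 1) → Acts X.S z σ → ∀ j, 1 ≤ j → j ≤ 7 →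
      ∀ b ∈ X.S.F j, T.ε (σ + j) ⁅z, b⁆ = T.ε j b * T.ε (σ + j) ⁅z, T.e j⁆ := by
    intro z hz h j hj hj' b hb
    have hl := h.levR hj (T.lev (σ + j) (by omega) (by omega))
    refine T.decomp hj (by omega) hl (fun e => ?_) hb
    subst e
    rw [← hl.congr T.z_mem hz]
    simp [(T.lev (σ + T.w) (by omega) (by omega)).one]
  obtain ⟨c, h1, h2⟩ := h1_cert hp7 (σ : ZMod p) (fun j => T.ε (σ + j) ⁅z, T.e j⁆) (by
    intro j k hj hk hjk
    have ej := T.e_mem j (by omega)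
    have ek := T.e_mem k (by omega)
    have e1 := dec z hz h (j + k) (by omega) hjk _ (NSer.comm_mem ej ek)
    rw [T.br_e (hS j hj) (hS k hk) (by omega), (h.lev (by omega) (T.lev (σ + (j + k)) (by omega)
      (by omega))).leibniz (i := σ) (j := j) (k := k) (by omega) (mem_raiseF le_rfl)
      (le_raiseF _ _ _ _ ej) (le_raiseF _ _ _ _ ek)] at e1
    have e2 := T.br (σ + j) k (by omega) hk (by omega) _ (h j hj _ ej) _ ek
    have e3 := T.br (σ + k) j (by omega) hj (by omega) _ (h k hk _ ek) _ ej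
    rw [show σ + j + k = σ + (j + k) by ring, T.e_one k (by omega) (hS k hk)] at e2
    rw [show σ + k + j = σ + (j + k) by ring, T.e_one j (by omega) (hS j hj)] at e3
    rw [← e1, e2, e3]; push_cast; ring)
  have eσ := T.e_mem σ (by omega)
  have hm : T.e σ ^ (-c).val ∈ X.S.F σ := pow_mem eσ _
  have hz' : T.e σ ^ (-c).val * z * T.z⁻¹ ∈ X.S.F (T.w + 1) := by
    rw [mul_assoc]; exact mul_mem (X.S.anti hw hm) hz
  have hA : Acts X.S (T.e σ ^ (-c).val * z) σ := fun j hj b hb =>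
    cen_symm.1 (mul_mem (cen_symm.1 (NSer.comm_mem hm hb)) (cen_symm.1 (h j hj b hb)))
  refine ⟨_, hz', X.acts fun j hj hjμ b hb => ?_⟩
  rw [show σ + 1 + j = σ + j + 1 by ring]
  refine T.ker _ (by omega) (by omega) (by omega) _ (hA j hj b hb) ?_
  have ej := T.e_mem j (by omega)
  rw [dec _ hz' hA j hj (by omega) b hb, ((h.lev (by omega) (T.lev (σ + j) (by omega)
    (by omega))).commL rfl (le_raiseF _ _ _ _ ej)).add _ (le_raiseF _ _ _ _ hm) _
    (mem_raiseF le_rfl), T.br σ j (by omega) hj (by omega) _ hm _ ej,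
    (T.lev σ (by omega) (by omega)).pow_val eσ, T.e_one σ (by omega) (hS σ (by omega)),
    T.e_one j (by omega) (hS j hj)]
  obtain rfl | rfl : j = 1 ∨ j = 2 := by omega
  · rw [h1]; push_cast; ring
  · rw [h2]; push_cast; ring

lemma exists_raise (hp7 : 7 ≤ p) (hμ : X.μ = 2) :
    ∃ σ z, T.w ≤ σ ∧ σ ≤ r ∧ r ≤ σ + 6 ∧ (σ = T.w ∨ σ + 6 = r) ∧ z * T.z⁻¹ ∈ X.S.F (T.w + 1) ∧ Acts X.S z σ := by
  by_cases h : r ≤ T.w + 6
  · exact ⟨T.w, T.z, le_rfl, T.w_le, h, Or.inl rfl, by simp, Acts.of_mem T.z_mem⟩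
  have key : ∀ σ, T.w + 1 ≤ σ → σ + 6 ≤ r →
      ∃ z, z * T.z⁻¹ ∈ X.S.F (T.w + 1) ∧ Acts X.S z σ := by
    intro σ hσ
    induction σ, hσ using Nat.le_induction with
    | base =>
      refine fun _ => ⟨T.z, by simp, X.acts fun j hj hjμ b hb => ?_⟩
      rw [show T.w + 1 + j = T.w + j + 1 by ring]
      exact T.z_comm hj (by omega) hb
    | succ σ hσ ih =>
      intro h'
      obtain ⟨z, hz, hA⟩ := ih (by omega)
      exact T.raise_step hp7 hμ hσ (by omega) hz hA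
  obtain ⟨z, hz, hA⟩ := key (r - 6) (by omega) (by omega)
  exact ⟨r - 6, z, by omega, by omega, by omega, by omega, hz, hA⟩

end St

end Pool.Agent.P78
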