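import Mathlib

/-! Low weight certificate for the rigidity of the positive Witt algebra. -/

set_option autoImplicit false

namespace Pool.Agent.P78

/-- the cocycle identity in degree `s` up to total weight `W` -/
def Coc {K : Type*} [Field K] (s : K) (W : ℕ) (g : ℕ → ℕ → K) : Prop :=
  ∀ i j k : ℕ, 1 ≤ i → 1 ≤ j → 1 ≤ k → i + j + k ≤ W →
    ((j : K) - i) * g (i + j) k + g i j * ((k : K) - i - j - s) +
    (((k : K) - j) * g (j + k) i + g j k * ((i : K) - j - k - s)) +
    (((i : K) - k) * g (k + i) j + g k i * ((j : K) - k - i - s)) = 0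

/-- a normalised cocycle in low weights -/
structure CH {K : Type*} [Field K] (s : K) (h : ℕ → ℕ → K) : Prop where
  hne : ∀ n : ℕ, 0 < n → n ≤ 2000000000 → (n : K) ≠ 0
  hc : Coc s 15 h
  hA : ∀ i j, 1 ≤ i → 1 ≤ j → i + j ≤ 15 → h j i = -h i j
  h1 : ∀ j, j ≤ 14 → h 1 j = 0
  hD : ∀ i, i ≤ 7 → h i i = 0

namespace Cert

variable {K : Type*} [Field K] {s : K} {h : ℕ → ℕ → K}

lemma r1_2_3 (H : CH s h) : (-4 - 1 * s) * h 2 3 + (2) * h 2 4 = 0 := by
    have c := H.hc 1 2 3 (by decide) (by decide) (by decide) (by decide)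
    simp only [Nat.reduceAdd] at c
    linear_combination c
      + (-1) * H.hD 3 (by decide)
      + (1 * s) * H.h1 2 (by decide)
      + (-1) * H.hA 1 5 (by decide) (by decide) (by decide)
      + (1) * H.h1 5 (by decide)
      + (2) * H.hA 2 4 (by decide) (by decide) (by decide)
      + (2 + 1 * s) * H.hA 1 3 (by decide) (by decide) (by decide)
      + (-2 - 1 * s) * H.h1 3 (by decide)

lemma T2_4 (H : CH s h) : 2 * h 2 4 = (4 + 1 * s) * h 2 3 + 0 * h 3 4 :=
    mul_left_cancel₀ (H.hne 1 (by decide) (by decide)) (by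
    linear_combination (1) * r1_2_3 H)

lemma r1_2_4 (H : CH s h) : (1) * h 3 4 + (-5 - 1 * s) * h 2 4 + (3) * h 2 5 = 0 := by
    have c := H.hc 1 2 4 (by decide) (by decide) (by decide) (by decide)
    simp only [Nat.reduceAdd] at c
    linear_combination c
      + (-1 + 1 * s) * H.h1 2 (by decide)
      + (-2) * H.hA 1 6 (by decide) (by decide) (by decide)
      + (2) * H.h1 6 (by decide)
      + (3) * H.hA 2 5 (by decide) (by decide) (by decide)
      + (3 + 1 * s) * H.hA 1 4 (by decide) (by decide) (by decide)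
      + (-3 - 1 * s) * H.h1 4 (by decide)

lemma T2_5 (H : CH s h) : 6 * h 2 5 = (20 + 9 * s + 1 * s ^ 2) * h 2 3 + (-2) * h 3 4 :=
    mul_left_cancel₀ (H.hne 1 (by decide) (by decide)) (by
    linear_combination (2) * r1_2_4 H
      + (5 + 1 * s) * T2_4 H)

lemma r1_2_5 (H : CH s h) : (1) * h 3 5 + (-6 - 1 * s) * h 2 5 + (4) * h 2 6 = 0 := by
    have c := H.hc 1 2 5 (by decide) (by decide) (by decide) (by decide)
    simp only [Nat.reduceAdd] at c
    linear_combination c
      + (-2 + 1 * s) * H.h1 2 (by decide)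
      + (-3) * H.hA 1 7 (by decide) (by decide) (by decide)
      + (3) * H.h1 7 (by decide)
      + (4) * H.hA 2 6 (by decide) (by decide) (by decide)
      + (4 + 1 * s) * H.hA 1 5 (by decide) (by decide) (by decide)
      + (-4 - 1 * s) * H.h1 5 (by decide)

lemma r1_3_4 (H : CH s h) : (-6 - 1 * s) * h 3 4 + (3) * h 3 5 = 0 := by
    have c := H.hc 1 3 4 (by decide) (by decide) (by decide) (by decide)
    simp only [Nat.reduceAdd] at c
    linear_combination c
      + (-2) * H.hD 4 (by decide)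
      + (1 * s) * H.h1 3 (by decide)
      + (-1) * H.hA 1 7 (by decide) (by decide) (by decide)
      + (1) * H.h1 7 (by decide)
      + (3) * H.hA 3 5 (by decide) (by decide) (by decide)
      + (2 + 1 * s) * H.hA 1 4 (by decide) (by decide) (by decide)
      + (-2 - 1 * s) * H.h1 4 (by decide)

lemma T2_6 (H : CH s h) : 24 * h 2 6 = (120 + 74 * s + 15 * s ^ 2 + 1 * s ^ 3) * h 2 3 + (-24 - 4 * s) * h 3 4 :=
    mul_left_cancel₀ (H.hne 1 (by decide) (by decide)) (by
    linear_combination (6) * r1_2_5 H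
      + (-2) * r1_3_4 H
      + (6 + 1 * s) * T2_5 H)

lemma T3_5 (H : CH s h) : 3 * h 3 5 = 0 * h 2 3 + (6 + 1 * s) * h 3 4 :=
    mul_left_cancel₀ (H.hne 1 (by decide) (by decide)) (by
    linear_combination (1) * r1_3_4 H)

lemma r1_2_6 (H : CH s h) : (1) * h 3 6 + (-7 - 1 * s) * h 2 6 + (5) * h 2 7 = 0 := by
    have c := H.hc 1 2 6 (by decide) (by decide) (by decide) (by decide)
    simp only [Nat.reduceAdd] at c
    linear_combination c
      + (-3 + 1 * s) * H.h1 2 (by decide)
      + (-4) * H.hA 1 8 (by decide) (by decide) (by decide)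
      + (4) * H.h1 8 (by decide)
      + (5) * H.hA 2 7 (by decide) (by decide) (by decide)
      + (5 + 1 * s) * H.hA 1 6 (by decide) (by decide) (by decide)
      + (-5 - 1 * s) * H.h1 6 (by decide)

lemma r1_3_5 (H : CH s h) : (2) * h 4 5 + (-7 - 1 * s) * h 3 5 + (4) * h 3 6 = 0 := by
    have c := H.hc 1 3 5 (by decide) (by decide) (by decide) (by decide)
    simp only [Nat.reduceAdd] at c
    linear_combination c
      + (-1 + 1 * s) * H.h1 3 (by decide)
      + (-2) * H.hA 1 8 (by decide) (by decide) (by decide)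
      + (2) * H.h1 8 (by decide)
      + (4) * H.hA 3 6 (by decide) (by decide) (by decide)
      + (3 + 1 * s) * H.hA 1 5 (by decide) (by decide) (by decide)
      + (-3 - 1 * s) * H.h1 5 (by decide)

lemma r2_3_4 (H : CH s h) : (-1) * h 4 5 + (-1 - 1 * s) * h 2 3 + (-1) * h 2 7 + (-5 - 1 * s) * h 3 4 + (2) * h 3 6 + (3 + 1 * s) * h 2 4 = 0 := by
    have c := H.hc 2 3 4 (by decide) (by decide) (by decide) (by decide)
    simp only [Nat.reduceAdd] at c
    linear_combination c
      + (-1) * H.hA 4 5 (by decide) (by decide) (by decide)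
      + (-1) * H.hA 2 7 (by decide) (by decide) (by decide)
      + (2) * H.hA 3 6 (by decide) (by decide) (by decide)
      + (3 + 1 * s) * H.hA 2 4 (by decide) (by decide) (by decide)

lemma T2_7 (H : CH s h) : 126 * h 2 7 = (870 + 653 * s + 182 * s ^ 2 + 22 * s ^ 3 + 1 * s ^ 4) * h 2 3 + (-240 - 71 * s - 5 * s ^ 2) * h 3 4 :=
    mul_left_cancel₀ (H.hne 1 (by decide) (by decide)) (by
    linear_combination (24) * r1_2_6 H
      + (-3) * r1_3_5 H
      + (-6) * r2_3_4 H
      + (7 + 1 * s) * T2_6 H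
      + (-7 - 1 * s) * T3_5 H
      + (9 + 3 * s) * T2_4 H)

lemma T3_6 (H : CH s h) : 504 * h 3 6 = (240 + 338 * s + 119 * s ^ 2 + 22 * s ^ 3 + 1 * s ^ 4) * h 2 3 + (1272 + 328 * s + 16 * s ^ 2) * h 3 4 :=
    mul_left_cancel₀ (H.hne 1 (by decide) (by decide)) (by
    linear_combination (24) * r1_2_6 H
      + (60) * r1_3_5 H
      + (120) * r2_3_4 H
      + (7 + 1 * s) * T2_6 H
      + (140 + 20 * s) * T3_5 H
      + (-180 - 60 * s) * T2_4 H)

lemma T4_5 (H : CH s h) : 252 * h 4 5 = (-240 - 338 * s - 119 * s ^ 2 - 22 * s ^ 3 - 1 * s ^ 4) * h 2 3 + (492 + 218 * s + 26 * s ^ 2) * h 3 4 :=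
    mul_left_cancel₀ (H.hne 1 (by decide) (by decide)) (by
    linear_combination (-24) * r1_2_6 H
      + (66) * r1_3_5 H
      + (-120) * r2_3_4 H
      + (-7 - 1 * s) * T2_6 H
      + (154 + 22 * s) * T3_5 H
      + (180 + 60 * s) * T2_4 H)

lemma r1_2_7 (H : CH s h) : (1) * h 3 7 + (-8 - 1 * s) * h 2 7 + (6) * h 2 8 = 0 := by
    have c := H.hc 1 2 7 (by decide) (by decide) (by decide) (by decide)
    simp only [Nat.reduceAdd] at c
    linear_combination c
      + (-4 + 1 * s) * H.h1 2 (by decide)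
      + (-5) * H.hA 1 9 (by decide) (by decide) (by decide)
      + (5) * H.h1 9 (by decide)
      + (6) * H.hA 2 8 (by decide) (by decide) (by decide)
      + (6 + 1 * s) * H.hA 1 7 (by decide) (by decide) (by decide)
      + (-6 - 1 * s) * H.h1 7 (by decide)

lemma r1_3_6 (H : CH s h) : (2) * h 4 6 + (-8 - 1 * s) * h 3 6 + (5) * h 3 7 = 0 := by
    have c := H.hc 1 3 6 (by decide) (by decide) (by decide) (by decide)
    simp only [Nat.reduceAdd] at c
    linear_combination c
      + (-2 + 1 * s) * H.h1 3 (by decide)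
      + (-3) * H.hA 1 9 (by decide) (by decide) (by decide)
      + (3) * H.h1 9 (by decide)
      + (5) * H.hA 3 7 (by decide) (by decide) (by decide)
      + (4 + 1 * s) * H.hA 1 6 (by decide) (by decide) (by decide)
      + (-4 - 1 * s) * H.h1 6 (by decide)

lemma r1_4_5 (H : CH s h) : (-8 - 1 * s) * h 4 5 + (4) * h 4 6 = 0 := by
    have c := H.hc 1 4 5 (by decide) (by decide) (by decide) (by decide)
    simp only [Nat.reduceAdd] at c
    linear_combination c
      + (-3) * H.hD 5 (by decide)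
      + (1 * s) * H.h1 4 (by decide)
      + (-1) * H.hA 1 9 (by decide) (by decide) (by decide)
      + (1) * H.h1 9 (by decide)
      + (4) * H.hA 4 6 (by decide) (by decide) (by decide)
      + (2 + 1 * s) * H.hA 1 5 (by decide) (by decide) (by decide)
      + (-2 - 1 * s) * H.h1 5 (by decide)

lemma T2_8 (H : CH s h) : 840 * h 2 8 = (7520 + 6444 * s + 2200 * s ^ 2 + 365 * s ^ 3 + 30 * s ^ 4 + 1 * s ^ 5) * h 2 3 + (-2480 - 990 * s - 125 * s ^ 2 - 5 * s ^ 3) * h 3 4 :=
    mul_left_cancel₀ (H.hne 18 (by decide) (by decide)) (by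
    linear_combination (2520) * r1_2_7 H
      + (-504) * r1_3_6 H
      + (252) * r1_4_5 H
      + (160 + 20 * s) * T2_7 H
      + (-8 - 1 * s) * T3_6 H
      + (8 + 1 * s) * T4_5 H)

lemma T3_7 (H : CH s h) : 1260 * h 3 7 = (1920 + 2944 * s + 1290 * s ^ 2 + 295 * s ^ 3 + 30 * s ^ 4 + 1 * s ^ 5) * h 2 3 + (3120 + 830 * s + 15 * s ^ 2 - 5 * s ^ 3) * h 3 4 :=
    mul_left_cancel₀ (H.hne 2 (by decide) (by decide)) (by
    linear_combination (504) * r1_3_6 H
      + (-252) * r1_4_5 H
      + (8 + 1 * s) * T3_6 H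
      + (-8 - 1 * s) * T4_5 H)

lemma T4_6 (H : CH s h) : 1008 * h 4 6 = (-1920 - 2944 * s - 1290 * s ^ 2 - 295 * s ^ 3 - 30 * s ^ 4 - 1 * s ^ 5) * h 2 3 + (3936 + 2236 * s + 426 * s ^ 2 + 26 * s ^ 3) * h 3 4 :=
    mul_left_cancel₀ (H.hne 1 (by decide) (by decide)) (by
    linear_combination (252) * r1_4_5 H
      + (8 + 1 * s) * T4_5 H)

lemma r1_2_8 (H : CH s h) : (1) * h 3 8 + (-9 - 1 * s) * h 2 8 + (7) * h 2 9 = 0 := by
    have c := H.hc 1 2 8 (by decide) (by decide) (by decide) (by decide)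
    simp only [Nat.reduceAdd] at c
    linear_combination c
      + (-5 + 1 * s) * H.h1 2 (by decide)
      + (-6) * H.hA 1 10 (by decide) (by decide) (by decide)
      + (6) * H.h1 10 (by decide)
      + (7) * H.hA 2 9 (by decide) (by decide) (by decide)
      + (7 + 1 * s) * H.hA 1 8 (by decide) (by decide) (by decide)
      + (-7 - 1 * s) * H.h1 8 (by decide)

lemma r1_3_7 (H : CH s h) : (2) * h 4 7 + (-9 - 1 * s) * h 3 7 + (6) * h 3 8 = 0 := by
    have c := H.hc 1 3 7 (by decide) (by decide) (by decide) (by decide)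
    simp only [Nat.reduceAdd] at c
    linear_combination c
      + (-3 + 1 * s) * H.h1 3 (by decide)
      + (-4) * H.hA 1 10 (by decide) (by decide) (by decide)
      + (4) * H.h1 10 (by decide)
      + (6) * H.hA 3 8 (by decide) (by decide) (by decide)
      + (5 + 1 * s) * H.hA 1 7 (by decide) (by decide) (by decide)
      + (-5 - 1 * s) * H.h1 7 (by decide)

lemma r1_4_6 (H : CH s h) : (3) * h 5 6 + (-9 - 1 * s) * h 4 6 + (5) * h 4 7 = 0 := by
    have c := H.hc 1 4 6 (by decide) (by decide) (by decide) (by decide)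
    simp only [Nat.reduceAdd] at c
    linear_combination c
      + (-1 + 1 * s) * H.h1 4 (by decide)
      + (-2) * H.hA 1 10 (by decide) (by decide) (by decide)
      + (2) * H.h1 10 (by decide)
      + (5) * H.hA 4 7 (by decide) (by decide) (by decide)
      + (3 + 1 * s) * H.hA 1 6 (by decide) (by decide) (by decide)
      + (-3 - 1 * s) * H.h1 6 (by decide)

lemma r2_3_6 (H : CH s h) : (1) * h 5 6 + (1 - 1 * s) * h 2 3 + (-3) * h 2 9 + (-7 - 1 * s) * h 3 6 + (4) * h 3 8 + (5 + 1 * s) * h 2 6 = 0 := by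
    have c := H.hc 2 3 6 (by decide) (by decide) (by decide) (by decide)
    simp only [Nat.reduceAdd] at c
    linear_combination c
      + (-3) * H.hA 2 9 (by decide) (by decide) (by decide)
      + (4) * H.hA 3 8 (by decide) (by decide) (by decide)
      + (5 + 1 * s) * H.hA 2 6 (by decide) (by decide) (by decide)

lemma T2_9 (H : CH s h) : 332640 * h 2 9 = (3682560 + 3467584 * s + 1363986 * s ^ 2 + 277935 * s ^ 3 + 31385 * s ^ 4 + 1901 * s ^ 5 + 49 * s ^ 6) * h 2 3 + (-1354080 - 655180 * s - 112550 * s ^ 2 - 8140 * s ^ 3 - 210 * s ^ 4) * h 3 4 :=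
    mul_left_cancel₀ (H.hne 3 (by decide) (by decide)) (by
    linear_combination (136080) * r1_2_8 H
      + (-12600) * r1_3_7 H
      + (5040) * r1_4_6 H
      + (-15120) * r2_3_6 H
      + (1458 + 162 * s) * T2_8 H
      + (-90 - 10 * s) * T3_7 H
      + (45 + 5 * s) * T4_6 H
      + (-210 - 30 * s) * T3_6 H
      + (3150 + 630 * s) * T2_6 H)

lemma T3_8 (H : CH s h) : 332640 * h 3 8 = (1023360 + 1671248 * s + 844722 * s ^ 2 + 226515 * s ^ 3 + 31765 * s ^ 4 + 2137 * s ^ 5 + 53 * s ^ 6) * h 2 3 + (639840 + 75820 * s - 49690 * s ^ 2 - 10340 * s ^ 3 - 510 * s ^ 4) * h 3 4 :=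
    mul_left_cancel₀ (H.hne 3 (by decide) (by decide)) (by
    linear_combination (45360) * r1_2_8 H
      + (88200) * r1_3_7 H
      + (-35280) * r1_4_6 H
      + (105840) * r2_3_6 H
      + (486 + 54 * s) * T2_8 H
      + (630 + 70 * s) * T3_7 H
      + (-315 - 35 * s) * T4_6 H
      + (1470 + 210 * s) * T3_6 H
      + (-22050 - 4410 * s) * T2_6 H)

lemma T4_7 (H : CH s h) : 110880 * h 4 7 = (-263040 - 420944 * s - 204346 * s ^ 2 - 52935 * s ^ 3 - 6905 * s ^ 4 - 421 * s ^ 5 - 9 * s ^ 6) * h 2 3 + (595680 + 390140 * s + 92150 * s ^ 2 + 9020 * s ^ 3 + 290 * s ^ 4) * h 3 4 :=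
    mul_left_cancel₀ (H.hne 3 (by decide) (by decide)) (by
    linear_combination (-45360) * r1_2_8 H
      + (78120) * r1_3_7 H
      + (35280) * r1_4_6 H
      + (-105840) * r2_3_6 H
      + (-486 - 54 * s) * T2_8 H
      + (558 + 62 * s) * T3_7 H
      + (315 + 35 * s) * T4_6 H
      + (-1470 - 210 * s) * T3_6 H
      + (22050 + 4410 * s) * T2_6 H)

lemma T5_6 (H : CH s h) : 66528 * h 5 6 = (-117120 - 204208 * s - 115842 * s ^ 2 - 33855 * s ^ 3 - 5525 * s ^ 4 - 437 * s ^ 5 - 13 * s ^ 6) * h 2 3 + (183648 + 139180 * s + 41390 * s ^ 2 + 5500 * s ^ 3 + 282 * s ^ 4) * h 3 4 :=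
    mul_left_cancel₀ (H.hne 3 (by decide) (by decide)) (by
    linear_combination (45360) * r1_2_8 H
      + (-78120) * r1_3_7 H
      + (31248) * r1_4_6 H
      + (105840) * r2_3_6 H
      + (486 + 54 * s) * T2_8 H
      + (-558 - 62 * s) * T3_7 H
      + (279 + 31 * s) * T4_6 H
      + (1470 + 210 * s) * T3_6 H
      + (-22050 - 4410 * s) * T2_6 H)

lemma r1_2_9 (H : CH s h) : (1) * h 3 9 + (-10 - 1 * s) * h 2 9 + (8) * h 2 10 = 0 := by
    have c := H.hc 1 2 9 (by decide) (by decide) (by decide) (by decide)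
    simp only [Nat.reduceAdd] at c
    linear_combination c
      + (-6 + 1 * s) * H.h1 2 (by decide)
      + (-7) * H.hA 1 11 (by decide) (by decide) (by decide)
      + (7) * H.h1 11 (by decide)
      + (8) * H.hA 2 10 (by decide) (by decide) (by decide)
      + (8 + 1 * s) * H.hA 1 9 (by decide) (by decide) (by decide)
      + (-8 - 1 * s) * H.h1 9 (by decide)

lemma r1_3_8 (H : CH s h) : (2) * h 4 8 + (-10 - 1 * s) * h 3 8 + (7) * h 3 9 = 0 := by
    have c := H.hc 1 3 8 (by decide) (by decide) (by decide) (by decide)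
    simp only [Nat.reduceAdd] at c
    linear_combination c
      + (-4 + 1 * s) * H.h1 3 (by decide)
      + (-5) * H.hA 1 11 (by decide) (by decide) (by decide)
      + (5) * H.h1 11 (by decide)
      + (7) * H.hA 3 9 (by decide) (by decide) (by decide)
      + (6 + 1 * s) * H.hA 1 8 (by decide) (by decide) (by decide)
      + (-6 - 1 * s) * H.h1 8 (by decide)

lemma r1_4_7 (H : CH s h) : (3) * h 5 7 + (-10 - 1 * s) * h 4 7 + (6) * h 4 8 = 0 := by
    have c := H.hc 1 4 7 (by decide) (by decide) (by decide) (by decide)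
    simp only [Nat.reduceAdd] at c
    linear_combination c
      + (-2 + 1 * s) * H.h1 4 (by decide)
      + (-3) * H.hA 1 11 (by decide) (by decide) (by decide)
      + (3) * H.h1 11 (by decide)
      + (6) * H.hA 4 8 (by decide) (by decide) (by decide)
      + (4 + 1 * s) * H.hA 1 7 (by decide) (by decide) (by decide)
      + (-4 - 1 * s) * H.h1 7 (by decide)

lemma r1_5_6 (H : CH s h) : (-10 - 1 * s) * h 5 6 + (5) * h 5 7 = 0 := by
    have c := H.hc 1 5 6 (by decide) (by decide) (by decide) (by decide)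
    simp only [Nat.reduceAdd] at c
    linear_combination c
      + (-4) * H.hD 6 (by decide)
      + (1 * s) * H.h1 5 (by decide)
      + (-1) * H.hA 1 11 (by decide) (by decide) (by decide)
      + (1) * H.h1 11 (by decide)
      + (5) * H.hA 5 7 (by decide) (by decide) (by decide)
      + (2 + 1 * s) * H.hA 1 6 (by decide) (by decide) (by decide)
      + (-2 - 1 * s) * H.h1 6 (by decide)

lemma T2_10 (H : CH s h) : 1330560 * h 2 10 = (17577600 + 17747120 * s + 7752276 * s ^ 2 + 1829584 * s ^ 3 + 254675 * s ^ 4 + 21315 * s ^ 5 + 1009 * s ^ 6 + 21 * s ^ 7) * h 2 3 + (-6933120 - 3844112 * s - 806080 * s ^ 2 - 79900 * s ^ 3 - 3760 * s ^ 4 - 68 * s ^ 5) * h 3 4 :=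
    mul_left_cancel₀ (H.hne 14 (by decide) (by decide)) (by
    linear_combination (2328480) * r1_2_9 H
      + (-332640) * r1_3_8 H
      + (110880) * r1_4_7 H
      + (-66528) * r1_5_6 H
      + (70 + 7 * s) * T2_9 H
      + (-10 - 1 * s) * T3_8 H
      + (10 + 1 * s) * T4_7 H
      + (-10 - 1 * s) * T5_6 H)

lemma T3_9 (H : CH s h) : 332640 * h 3 9 = (1670400 + 2864160 * s + 1602892 * s ^ 2 + 484168 * s ^ 3 + 82435 * s ^ 4 + 7765 * s ^ 5 + 373 * s ^ 6 + 7 * s ^ 7) * h 2 3 + (325440 - 217656 * s - 168520 * s ^ 2 - 34150 * s ^ 3 - 2720 * s ^ 4 - 74 * s ^ 5) * h 3 4 :=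
    mul_left_cancel₀ (H.hne 7 (by decide) (by decide)) (by
    linear_combination (332640) * r1_3_8 H
      + (-110880) * r1_4_7 H
      + (66528) * r1_5_6 H
      + (10 + 1 * s) * T3_8 H
      + (-10 - 1 * s) * T4_7 H
      + (10 + 1 * s) * T5_6 H)

lemma T4_8 (H : CH s h) : 166320 * h 4 8 = (-364800 - 578320 * s - 275444 * s ^ 2 - 69826 * s ^ 3 - 8220 * s ^ 4 - 305 * s ^ 5 + 14 * s ^ 6 + 1 * s ^ 7) * h 2 3 + (1030080 + 730408 * s + 189640 * s ^ 2 + 21490 * s ^ 3 + 900 * s ^ 4 + 2 * s ^ 5) * h 3 4 :=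
    mul_left_cancel₀ (H.hne 4 (by decide) (by decide)) (by
    linear_combination (110880) * r1_4_7 H
      + (-66528) * r1_5_6 H
      + (10 + 1 * s) * T4_7 H
      + (-10 - 1 * s) * T5_6 H)

lemma T5_7 (H : CH s h) : 332640 * h 5 7 = (-1171200 - 2159200 * s - 1362628 * s ^ 2 - 454392 * s ^ 3 - 89105 * s ^ 4 - 9895 * s ^ 5 - 567 * s ^ 6 - 13 * s ^ 7) * h 2 3 + (1836480 + 1575448 * s + 553080 * s ^ 2 + 96390 * s ^ 3 + 8320 * s ^ 4 + 282 * s ^ 5) * h 3 4 :=
    mul_left_cancel₀ (H.hne 1 (by decide) (by decide)) (by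
    linear_combination (66528) * r1_5_6 H
      + (10 + 1 * s) * T5_6 H)

lemma r2_3_7 (H : CH s h) : (1) * h 5 7 + (2 - 1 * s) * h 2 3 + (-4) * h 2 10 + (-8 - 1 * s) * h 3 7 + (5) * h 3 9 + (6 + 1 * s) * h 2 7 = 0 := by
    have c := H.hc 2 3 7 (by decide) (by decide) (by decide) (by decide)
    simp only [Nat.reduceAdd] at c
    linear_combination c
      + (-4) * H.hA 2 10 (by decide) (by decide) (by decide)
      + (5) * H.hA 3 9 (by decide) (by decide) (by decide)
      + (6 + 1 * s) * H.hA 2 7 (by decide) (by decide) (by decide)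

lemma D12 (H : CH s h) : (-672 + 532 * s + 126 * s ^ 2 + 14 * s ^ 3) * ((120 + 146 * s + 41 * s ^ 2 + 16 * s ^ 3 + s ^ 4) * h 2 3 - 20 * (6 + s + s ^ 2) * h 3 4) = 0 := by
    linear_combination (2328480) * r1_2_9 H
      + (-3659040) * r1_3_8 H
      + (1219680) * r1_4_7 H
      + (-1663200) * r1_5_6 H
      + (4656960) * r2_3_7 H
      + (70 + 7 * s) * T2_9 H
      + (-110 - 11 * s) * T3_8 H
      + (110 + 11 * s) * T4_7 H
      + (-250 - 25 * s) * T5_6 H
      + (29568 + 3696 * s) * T3_7 H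
      + (-221760 - 36960 * s) * T2_7 H

lemma r1_2_10 (H : CH s h) : (1) * h 3 10 + (-11 - 1 * s) * h 2 10 + (9) * h 2 11 = 0 := by
    have c := H.hc 1 2 10 (by decide) (by decide) (by decide) (by decide)
    simp only [Nat.reduceAdd] at c
    linear_combination c
      + (-7 + 1 * s) * H.h1 2 (by decide)
      + (-8) * H.hA 1 12 (by decide) (by decide) (by decide)
      + (8) * H.h1 12 (by decide)
      + (9) * H.hA 2 11 (by decide) (by decide) (by decide)
      + (9 + 1 * s) * H.hA 1 10 (by decide) (by decide) (by decide)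
      + (-9 - 1 * s) * H.h1 10 (by decide)

lemma r1_3_9 (H : CH s h) : (2) * h 4 9 + (-11 - 1 * s) * h 3 9 + (8) * h 3 10 = 0 := by
    have c := H.hc 1 3 9 (by decide) (by decide) (by decide) (by decide)
    simp only [Nat.reduceAdd] at c
    linear_combination c
      + (-5 + 1 * s) * H.h1 3 (by decide)
      + (-6) * H.hA 1 12 (by decide) (by decide) (by decide)
      + (6) * H.h1 12 (by decide)
      + (8) * H.hA 3 10 (by decide) (by decide) (by decide)
      + (7 + 1 * s) * H.hA 1 9 (by decide) (by decide) (by decide)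
      + (-7 - 1 * s) * H.h1 9 (by decide)

lemma r1_4_8 (H : CH s h) : (3) * h 5 8 + (-11 - 1 * s) * h 4 8 + (7) * h 4 9 = 0 := by
    have c := H.hc 1 4 8 (by decide) (by decide) (by decide) (by decide)
    simp only [Nat.reduceAdd] at c
    linear_combination c
      + (-3 + 1 * s) * H.h1 4 (by decide)
      + (-4) * H.hA 1 12 (by decide) (by decide) (by decide)
      + (4) * H.h1 12 (by decide)
      + (7) * H.hA 4 9 (by decide) (by decide) (by decide)
      + (5 + 1 * s) * H.hA 1 8 (by decide) (by decide) (by decide)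
      + (-5 - 1 * s) * H.h1 8 (by decide)

lemma r2_3_8 (H : CH s h) : (1) * h 5 8 + (3 - 1 * s) * h 2 3 + (-5) * h 2 11 + (-9 - 1 * s) * h 3 8 + (6) * h 3 10 + (7 + 1 * s) * h 2 8 = 0 := by
    have c := H.hc 2 3 8 (by decide) (by decide) (by decide) (by decide)
    simp only [Nat.reduceAdd] at c
    linear_combination c
      + (-5) * H.hA 2 11 (by decide) (by decide) (by decide)
      + (6) * H.hA 3 10 (by decide) (by decide) (by decide)
      + (7 + 1 * s) * H.hA 2 8 (by decide) (by decide) (by decide)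

lemma T2_11 (H : CH s h) : 47567520 * h 2 11 = (729709920 + 776971416 * s + 367977306 * s ^ 2 + 97084923 * s ^ 3 + 15737892 * s ^ 4 + 1635149 * s ^ 5 + 108089 * s ^ 6 + 4192 * s ^ 7 + 73 * s ^ 8) * h 2 3 + (-301602240 - 185262312 * s - 44798382 * s ^ 2 - 5460815 * s ^ 3 - 356205 * s ^ 4 - 12033 * s ^ 5 - 173 * s ^ 6) * h 3 4 :=
    mul_left_cancel₀ (H.hne 6 (by decide) (by decide)) (by
    linear_combination (30602880) * r1_2_10 H
      + (-2328480) * r1_3_9 H
      + (665280) * r1_4_8 H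
      + (-1995840) * r2_3_8 H
      + (253 + 23 * s) * T2_10 H
      + (-77 - 7 * s) * T3_9 H
      + (44 + 4 * s) * T4_8 H
      + (-54 - 6 * s) * T3_8 H
      + (16632 + 2376 * s) * T2_8 H)

lemma T3_10 (H : CH s h) : 190270080 * h 3 10 = (1380007680 + 2458845584 * s + 1484985292 * s ^ 2 + 491453872 * s ^ 3 + 95670175 * s ^ 4 + 11081656 * s ^ 5 + 743998 * s ^ 6 + 26408 * s ^ 7 + 375 * s ^ 8) * h 2 3 + (-48117120 - 368781104 * s - 204930104 * s ^ 2 - 44362800 * s ^ 3 - 4516800 * s ^ 4 - 211456 * s ^ 5 - 3496 * s ^ 6) * h 3 4 :=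
    mul_left_cancel₀ (H.hne 1 (by decide) (by decide)) (by
    linear_combination (6652800) * r1_2_10 H
      + (13970880) * r1_3_9 H
      + (-3991680) * r1_4_8 H
      + (11975040) * r2_3_8 H
      + (55 + 5 * s) * T2_10 H
      + (462 + 42 * s) * T3_9 H
      + (-264 - 24 * s) * T4_8 H
      + (324 + 36 * s) * T3_8 H
      + (-99792 - 14256 * s) * T2_8 H)

lemma T4_9 (H : CH s h) : 95135040 * h 4 9 = (-132476160 - 173500288 * s - 39046588 * s ^ 2 + 7902076 * s ^ 3 + 7565929 * s ^ 4 + 1839238 * s ^ 5 + 209128 * s ^ 6 + 11534 * s ^ 7 + 251 * s ^ 8) * h 2 3 + (608151360 + 441727240 * s + 113653440 * s ^ 2 + 10909290 * s ^ 3 - 128410 * s ^ 4 - 82450 * s ^ 5 - 3590 * s ^ 6) * h 3 4 :=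
    mul_left_cancel₀ (H.hne 1 (by decide) (by decide)) (by
    linear_combination (-13305600) * r1_2_10 H
      + (19625760) * r1_3_9 H
      + (7983360) * r1_4_8 H
      + (-23950080) * r2_3_8 H
      + (-110 - 10 * s) * T2_10 H
      + (649 + 59 * s) * T3_9 H
      + (528 + 48 * s) * T4_8 H
      + (-648 - 72 * s) * T3_8 H
      + (199584 + 28512 * s) * T2_8 H)

lemma T5_8 (H : CH s h) : 95135040 * h 5 8 = (-455996160 - 877651008 * s - 596855524 * s ^ 2 - 217404564 * s ^ 3 - 48207405 * s ^ 4 - 6498522 * s ^ 5 - 516756 * s ^ 6 - 22146 * s ^ 7 - 395 * s ^ 8) * h 2 3 + (741401280 + 697614072 * s + 271811392 * s ^ 2 + 55774710 * s ^ 3 + 6284650 * s ^ 4 + 368178 * s ^ 5 + 8758 * s ^ 6) * h 3 4 :=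
    mul_left_cancel₀ (H.hne 3 (by decide) (by decide)) (by
    linear_combination (93139200) * r1_2_10 H
      + (-137380320) * r1_3_9 H
      + (39251520) * r1_4_8 H
      + (167650560) * r2_3_8 H
      + (770 + 70 * s) * T2_10 H
      + (-4543 - 413 * s) * T3_9 H
      + (2596 + 236 * s) * T4_8 H
      + (4536 + 504 * s) * T3_8 H
      + (-1397088 - 199584 * s) * T2_8 H)

lemma r1_5_7 (H : CH s h) : (4) * h 6 7 + (-11 - 1 * s) * h 5 7 + (6) * h 5 8 = 0 := by
    have c := H.hc 1 5 7 (by decide) (by decide) (by decide) (by decide)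
    simp only [Nat.reduceAdd] at c
    linear_combination c
      + (-1 + 1 * s) * H.h1 5 (by decide)
      + (-2) * H.hA 1 12 (by decide) (by decide) (by decide)
      + (2) * H.h1 12 (by decide)
      + (6) * H.hA 5 8 (by decide) (by decide) (by decide)
      + (3 + 1 * s) * H.hA 1 7 (by decide) (by decide) (by decide)
      + (-3 - 1 * s) * H.h1 7 (by decide)

lemma T6_7 (H : CH s h) : 95135040 * h 6 7 = (-237154560 - 465475088 * s - 330806436 * s ^ 2 - 128700364 * s ^ 3 - 30259003 * s ^ 4 - 4405642 * s ^ 5 - 378304 * s ^ 6 - 17546 * s ^ 7 - 337 * s ^ 8) * h 2 3 + (332289600 + 323977064 * s + 139924864 * s ^ 2 + 31693890 * s ^ 3 + 4008590 * s ^ 4 + 264406 * s ^ 5 + 7026 * s ^ 6) * h 3 4 :=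
    mul_left_cancel₀ (H.hne 2 (by decide) (by decide)) (by
    linear_combination (-93139200) * r1_2_10 H
      + (137380320) * r1_3_9 H
      + (-39251520) * r1_4_8 H
      + (47567520) * r1_5_7 H
      + (-167650560) * r2_3_8 H
      + (-770 - 70 * s) * T2_10 H
      + (4543 + 413 * s) * T3_9 H
      + (-2596 - 236 * s) * T4_8 H
      + (1573 + 143 * s) * T5_7 H
      + (-4536 - 504 * s) * T3_8 H
      + (1397088 + 199584 * s) * T2_8 H)

lemma r1_2_11 (H : CH s h) : (1) * h 3 11 + (-12 - 1 * s) * h 2 11 + (10) * h 2 12 = 0 := by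
    have c := H.hc 1 2 11 (by decide) (by decide) (by decide) (by decide)
    simp only [Nat.reduceAdd] at c
    linear_combination c
      + (-8 + 1 * s) * H.h1 2 (by decide)
      + (-9) * H.hA 1 13 (by decide) (by decide) (by decide)
      + (9) * H.h1 13 (by decide)
      + (10) * H.hA 2 12 (by decide) (by decide) (by decide)
      + (10 + 1 * s) * H.hA 1 11 (by decide) (by decide) (by decide)
      + (-10 - 1 * s) * H.h1 11 (by decide)

lemma r1_3_10 (H : CH s h) : (2) * h 4 10 + (-12 - 1 * s) * h 3 10 + (9) * h 3 11 = 0 := by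
    have c := H.hc 1 3 10 (by decide) (by decide) (by decide) (by decide)
    simp only [Nat.reduceAdd] at c
    linear_combination c
      + (-6 + 1 * s) * H.h1 3 (by decide)
      + (-7) * H.hA 1 13 (by decide) (by decide) (by decide)
      + (7) * H.h1 13 (by decide)
      + (9) * H.hA 3 11 (by decide) (by decide) (by decide)
      + (8 + 1 * s) * H.hA 1 10 (by decide) (by decide) (by decide)
      + (-8 - 1 * s) * H.h1 10 (by decide)

lemma r1_4_9 (H : CH s h) : (3) * h 5 9 + (-12 - 1 * s) * h 4 9 + (8) * h 4 10 = 0 := by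
    have c := H.hc 1 4 9 (by decide) (by decide) (by decide) (by decide)
    simp only [Nat.reduceAdd] at c
    linear_combination c
      + (-4 + 1 * s) * H.h1 4 (by decide)
      + (-5) * H.hA 1 13 (by decide) (by decide) (by decide)
      + (5) * H.h1 13 (by decide)
      + (8) * H.hA 4 10 (by decide) (by decide) (by decide)
      + (6 + 1 * s) * H.hA 1 9 (by decide) (by decide) (by decide)
      + (-6 - 1 * s) * H.h1 9 (by decide)

lemma r1_5_8 (H : CH s h) : (4) * h 6 8 + (-12 - 1 * s) * h 5 8 + (7) * h 5 9 = 0 := by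
    have c := H.hc 1 5 8 (by decide) (by decide) (by decide) (by decide)
    simp only [Nat.reduceAdd] at c
    linear_combination c
      + (-2 + 1 * s) * H.h1 5 (by decide)
      + (-3) * H.hA 1 13 (by decide) (by decide) (by decide)
      + (3) * H.h1 13 (by decide)
      + (7) * H.hA 5 9 (by decide) (by decide) (by decide)
      + (4 + 1 * s) * H.hA 1 8 (by decide) (by decide) (by decide)
      + (-4 - 1 * s) * H.h1 8 (by decide)

lemma r1_6_7 (H : CH s h) : (-12 - 1 * s) * h 6 7 + (6) * h 6 8 = 0 := by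
    have c := H.hc 1 6 7 (by decide) (by decide) (by decide) (by decide)
    simp only [Nat.reduceAdd] at c
    linear_combination c
      + (-5) * H.hD 7 (by decide)
      + (1 * s) * H.h1 6 (by decide)
      + (-1) * H.hA 1 13 (by decide) (by decide) (by decide)
      + (1) * H.h1 13 (by decide)
      + (6) * H.hA 6 8 (by decide) (by decide) (by decide)
      + (2 + 1 * s) * H.hA 1 7 (by decide) (by decide) (by decide)
      + (-2 - 1 * s) * H.h1 7 (by decide)

lemma T2_12 (H : CH s h) : 1141620480 * h 2 12 = (19909716480 + 22096700544 * s + 11161780976 * s ^ 2 + 3216825188 * s ^ 3 + 586931164 * s ^ 4 + 71618815 * s ^ 5 + 5944534 * s ^ 6 + 326572 * s ^ 7 + 10766 * s ^ 8 + 161 * s ^ 9) * h 2 3 + (-8493511680 - 5654196480 * s - 1523593088 * s ^ 2 - 215972800 * s ^ 3 - 17595600 * s ^ 4 - 852920 * s ^ 5 - 24592 * s ^ 6 - 360 * s ^ 7) * h 3 4 :=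
    mul_left_cancel₀ (H.hne 210 (by decide) (by decide)) (by
    linear_combination (23974030080) * r1_2_11 H
      + (-2663781120) * r1_3_10 H
      + (665945280) * r1_4_9 H
      + (-285405120) * r1_5_8 H
      + (190270080) * r1_6_7 H
      + (6048 + 504 * s) * T2_11 H
      + (-168 - 14 * s) * T3_10 H
      + (84 + 7 * s) * T4_9 H
      + (-36 - 3 * s) * T5_8 H
      + (24 + 2 * s) * T6_7 H)

lemma T3_11 (H : CH s h) : 570810240 * h 3 11 = (5529646080 + 10156900224 * s + 6503484176 * s ^ 2 + 2311830644 * s ^ 3 + 496619704 * s ^ 4 + 66222085 * s ^ 5 + 5463934 * s ^ 6 + 267856 * s ^ 7 + 6986 * s ^ 8 + 71 * s ^ 9) * h 2 3 + (-963164160 - 2026017408 * s - 1056149312 * s ^ 2 - 244073944 * s ^ 3 - 28845300 * s ^ 4 - 1742612 * s ^ 5 - 46348 * s ^ 6 - 276 * s ^ 7) * h 3 4 :=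
    mul_left_cancel₀ (H.hne 42 (by decide) (by decide)) (by
    linear_combination (2663781120) * r1_3_10 H
      + (-665945280) * r1_4_9 H
      + (285405120) * r1_5_8 H
      + (-190270080) * r1_6_7 H
      + (168 + 14 * s) * T3_10 H
      + (-84 - 7 * s) * T4_9 H
      + (36 + 3 * s) * T5_8 H
      + (-24 - 2 * s) * T6_7 H)

lemma T4_10 (H : CH s h) : 190270080 * h 4 10 = (-14423040 + 207727008 * s + 384108280 * s ^ 2 + 223469912 * s ^ 3 + 74818430 * s ^ 4 + 14991896 * s ^ 5 + 1808915 * s ^ 6 + 128663 * s ^ 7 + 4975 * s ^ 8 + 81 * s ^ 9) * h 2 3 + (1156043520 + 802280928 * s + 170252792 * s ^ 2 - 2530936 * s ^ 3 - 6014250 * s ^ 4 - 913218 * s ^ 5 - 57182 * s ^ 6 - 1334 * s ^ 7) * h 3 4 :=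
    mul_left_cancel₀ (H.hne 28 (by decide) (by decide)) (by
    linear_combination (665945280) * r1_4_9 H
      + (-285405120) * r1_5_8 H
      + (190270080) * r1_6_7 H
      + (84 + 7 * s) * T4_9 H
      + (-36 - 3 * s) * T5_8 H
      + (24 + 2 * s) * T6_7 H)

lemma T5_9 (H : CH s h) : 285405120 * h 5 9 = (-1532021760 - 3045387648 * s - 2178492464 * s ^ 2 - 838101324 * s ^ 3 - 200580496 * s ^ 4 - 30330799 * s ^ 5 - 2886886 * s ^ 6 - 167116 * s ^ 7 - 5354 * s ^ 8 - 73 * s ^ 9) * h 2 3 + (2673642240 + 2699754528 * s + 1124557352 * s ^ 2 + 254688664 * s ^ 3 + 33425370 * s ^ 4 + 2535062 * s ^ 5 + 103198 * s ^ 6 + 1746 * s ^ 7) * h 3 4 :=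
    mul_left_cancel₀ (H.hne 7 (by decide) (by decide)) (by
    linear_combination (285405120) * r1_5_8 H
      + (-190270080) * r1_6_7 H
      + (36 + 3 * s) * T5_8 H
      + (-24 - 2 * s) * T6_7 H)

lemma T6_8 (H : CH s h) : 570810240 * h 6 8 = (-2845854720 - 5822855616 * s - 4435152320 * s ^ 2 - 1875210804 * s ^ 3 - 491808400 * s ^ 4 - 83126707 * s ^ 5 - 8945290 * s ^ 6 - 588856 * s ^ 7 - 21590 * s ^ 8 - 337 * s ^ 9) * h 2 3 + (3987475200 + 4220014368 * s + 2003075432 * s ^ 2 + 520251544 * s ^ 3 + 79796970 * s ^ 4 + 7181462 * s ^ 5 + 348718 * s ^ 6 + 7026 * s ^ 7) * h 3 4 :=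
    mul_left_cancel₀ (H.hne 1 (by decide) (by decide)) (by
    linear_combination (95135040) * r1_6_7 H
      + (12 + 1 * s) * T6_7 H)

lemma r1_2_12 (H : CH s h) : (1) * h 3 12 + (-13 - 1 * s) * h 2 12 + (11) * h 2 13 = 0 := by
    have c := H.hc 1 2 12 (by decide) (by decide) (by decide) (by decide)
    simp only [Nat.reduceAdd] at c
    linear_combination c
      + (-9 + 1 * s) * H.h1 2 (by decide)
      + (-10) * H.hA 1 14 (by decide) (by decide) (by decide)
      + (10) * H.h1 14 (by decide)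
      + (11) * H.hA 2 13 (by decide) (by decide) (by decide)
      + (11 + 1 * s) * H.hA 1 12 (by decide) (by decide) (by decide)
      + (-11 - 1 * s) * H.h1 12 (by decide)

lemma r1_3_11 (H : CH s h) : (2) * h 4 11 + (-13 - 1 * s) * h 3 11 + (10) * h 3 12 = 0 := by
    have c := H.hc 1 3 11 (by decide) (by decide) (by decide) (by decide)
    simp only [Nat.reduceAdd] at c
    linear_combination c
      + (-7 + 1 * s) * H.h1 3 (by decide)
      + (-8) * H.hA 1 14 (by decide) (by decide) (by decide)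
      + (8) * H.h1 14 (by decide)
      + (10) * H.hA 3 12 (by decide) (by decide) (by decide)
      + (9 + 1 * s) * H.hA 1 11 (by decide) (by decide) (by decide)
      + (-9 - 1 * s) * H.h1 11 (by decide)

lemma r1_4_10 (H : CH s h) : (3) * h 5 10 + (-13 - 1 * s) * h 4 10 + (9) * h 4 11 = 0 := by
    have c := H.hc 1 4 10 (by decide) (by decide) (by decide) (by decide)
    simp only [Nat.reduceAdd] at c
    linear_combination c
      + (-5 + 1 * s) * H.h1 4 (by decide)
      + (-6) * H.hA 1 14 (by decide) (by decide) (by decide)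
      + (6) * H.h1 14 (by decide)
      + (9) * H.hA 4 11 (by decide) (by decide) (by decide)
      + (7 + 1 * s) * H.hA 1 10 (by decide) (by decide) (by decide)
      + (-7 - 1 * s) * H.h1 10 (by decide)

lemma r1_5_9 (H : CH s h) : (4) * h 6 9 + (-13 - 1 * s) * h 5 9 + (8) * h 5 10 = 0 := by
    have c := H.hc 1 5 9 (by decide) (by decide) (by decide) (by decide)
    simp only [Nat.reduceAdd] at c
    linear_combination c
      + (-3 + 1 * s) * H.h1 5 (by decide)
      + (-4) * H.hA 1 14 (by decide) (by decide) (by decide)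
      + (4) * H.h1 14 (by decide)
      + (8) * H.hA 5 10 (by decide) (by decide) (by decide)
      + (5 + 1 * s) * H.hA 1 9 (by decide) (by decide) (by decide)
      + (-5 - 1 * s) * H.h1 9 (by decide)

lemma r1_6_8 (H : CH s h) : (5) * h 7 8 + (-13 - 1 * s) * h 6 8 + (7) * h 6 9 = 0 := by
    have c := H.hc 1 6 8 (by decide) (by decide) (by decide) (by decide)
    simp only [Nat.reduceAdd] at c
    linear_combination c
      + (-1 + 1 * s) * H.h1 6 (by decide)
      + (-2) * H.hA 1 14 (by decide) (by decide) (by decide)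
      + (2) * H.h1 14 (by decide)
      + (7) * H.hA 6 9 (by decide) (by decide) (by decide)
      + (3 + 1 * s) * H.hA 1 8 (by decide) (by decide) (by decide)
      + (-3 - 1 * s) * H.h1 8 (by decide)

lemma r2_3_10 (H : CH s h) : (1) * h 5 10 + (5 - 1 * s) * h 2 3 + (-7) * h 2 13 + (-11 - 1 * s) * h 3 10 + (8) * h 3 12 + (9 + 1 * s) * h 2 10 = 0 := by
    have c := H.hc 2 3 10 (by decide) (by decide) (by decide) (by decide)
    simp only [Nat.reduceAdd] at c
    linear_combination c
      + (-7) * H.hA 2 13 (by decide) (by decide) (by decide)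
      + (8) * H.hA 3 12 (by decide) (by decide) (by decide)
      + (9 + 1 * s) * H.hA 2 10 (by decide) (by decide) (by decide)

lemma r2_5_8 (H : CH s h) : (3) * h 7 8 + (1 - 1 * s) * h 2 5 + (-3) * h 2 13 + (-11 - 1 * s) * h 5 8 + (6) * h 5 10 + (5 + 1 * s) * h 2 8 = 0 := by
    have c := H.hc 2 5 8 (by decide) (by decide) (by decide) (by decide)
    simp only [Nat.reduceAdd] at c
    linear_combination c
      + (-3) * H.hA 2 13 (by decide) (by decide) (by decide)
      + (6) * H.hA 5 10 (by decide) (by decide) (by decide)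
      + (5 + 1 * s) * H.hA 2 8 (by decide) (by decide) (by decide)

lemma D15 (H : CH s h) : (-229853184 + 119890144 * s + 86726200 * s ^ 2 + 20715024 * s ^ 3 + 2480632 * s ^ 4 + 148544 * s ^ 5 + 3520 * s ^ 6) * ((120 + 146 * s + 41 * s ^ 2 + 16 * s ^ 3 + s ^ 4) * h 2 3 - 20 * (6 + s + s ^ 2) * h 3 4) = 0 := by
    linear_combination (-42239957760) * r1_2_12 H
      + (59935075200) * r1_3_11 H
      + (-13318905600) * r1_4_10 H
      + (7991343360) * r1_5_9 H
      + (-4566481920) * r1_6_8 H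
      + (-69638849280) * r2_3_10 H
      + (7610803200) * r2_5_8 H
      + (-481 - 37 * s) * T2_12 H
      + (1365 + 105 * s) * T3_11 H
      + (-910 - 70 * s) * T4_10 H
      + (364 + 28 * s) * T5_9 H
      + (-104 - 8 * s) * T6_8 H
      + (-4026 - 366 * s) * T3_10 H
      + (471042 + 52338 * s) * T2_10 H
      + (-1268467200 + 1268467200 * s) * T2_5 H
      + (880 + 80 * s) * T5_8 H
      + (-45302400 - 9060480 * s) * T2_8 H

theorem rig_cert (H : CH s h) :
    (120 + 146 * s + 41 * s ^ 2 + 16 * s ^ 3 + s ^ 4) * h 2 3 - 20 * (6 + s + s ^ 2) * h 3 4 = 0 ∧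
      (h 2 3 = 0 → h 3 4 = 0 → ∀ i j, 2 ≤ i → i < j → i + j ≤ 12 → h i j = 0) := by
  refine ⟨mul_left_cancel₀ (H.hne 1775854080 (by decide) (by decide)) (by
    linear_combination (-4422527824 - 2165473420 * s - 458687240 * s ^ 2 - 50873196 * s ^ 3 - 2874784 * s ^ 4 - 65120 * s ^ 5) * D12 H + (12922 + 2835 * s + 259 * s ^ 2) * D15 H), fun a b i j hi hij hw => ?_⟩
  have hj : j ≤ 10 := by omega
  have hi' : i ≤ 5 := by omega
  interval_cases i <;> interval_cases j
  · exact a
  · exact (mul_eq_zero.1 ((T2_4 H).trans (by rw [a, b]; ring))).resolve_left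
      (by exact_mod_cast H.hne 2 (by decide) (by decide))
  · exact (mul_eq_zero.1 ((T2_5 H).trans (by rw [a, b]; ring))).resolve_left
      (by exact_mod_cast H.hne 6 (by decide) (by decide))
  · exact (mul_eq_zero.1 ((T2_6 H).trans (by rw [a, b]; ring))).resolve_left
      (by exact_mod_cast H.hne 24 (by decide) (by decide))
  · exact (mul_eq_zero.1 ((T2_7 H).trans (by rw [a, b]; ring))).resolve_left
      (by exact_mod_cast H.hne 126 (by decide) (by decide))
  · exact (mul_eq_zero.1 ((T2_8 H).trans (by rw [a, b]; ring))).resolve_left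
      (by exact_mod_cast H.hne 840 (by decide) (by decide))
  · exact (mul_eq_zero.1 ((T2_9 H).trans (by rw [a, b]; ring))).resolve_left
      (by exact_mod_cast H.hne 332640 (by decide) (by decide))
  · exact (mul_eq_zero.1 ((T2_10 H).trans (by rw [a, b]; ring))).resolve_left
      (by exact_mod_cast H.hne 1330560 (by decide) (by decide))
  · exact b
  · exact (mul_eq_zero.1 ((T3_5 H).trans (by rw [a, b]; ring))).resolve_left
      (by exact_mod_cast H.hne 3 (by decide) (by decide))
  · exact (mul_eq_zero.1 ((T3_6 H).trans (by rw [a, b]; ring))).resolve_left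
      (by exact_mod_cast H.hne 504 (by decide) (by decide))
  · exact (mul_eq_zero.1 ((T3_7 H).trans (by rw [a, b]; ring))).resolve_left
      (by exact_mod_cast H.hne 1260 (by decide) (by decide))
  · exact (mul_eq_zero.1 ((T3_8 H).trans (by rw [a, b]; ring))).resolve_left
      (by exact_mod_cast H.hne 332640 (by decide) (by decide))
  · exact (mul_eq_zero.1 ((T3_9 H).trans (by rw [a, b]; ring))).resolve_left
      (by exact_mod_cast H.hne 332640 (by decide) (by decide))
  · omega
  · exact (mul_eq_zero.1 ((T4_5 H).trans (by rw [a, b]; ring))).resolve_left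
      (by exact_mod_cast H.hne 252 (by decide) (by decide))
  · exact (mul_eq_zero.1 ((T4_6 H).trans (by rw [a, b]; ring))).resolve_left
      (by exact_mod_cast H.hne 1008 (by decide) (by decide))
  · exact (mul_eq_zero.1 ((T4_7 H).trans (by rw [a, b]; ring))).resolve_left
      (by exact_mod_cast H.hne 110880 (by decide) (by decide))
  · exact (mul_eq_zero.1 ((T4_8 H).trans (by rw [a, b]; ring))).resolve_left
      (by exact_mod_cast H.hne 166320 (by decide) (by decide))
  · omega
  · omega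
  · exact (mul_eq_zero.1 ((T5_6 H).trans (by rw [a, b]; ring))).resolve_left
      (by exact_mod_cast H.hne 66528 (by decide) (by decide))
  · exact (mul_eq_zero.1 ((T5_7 H).trans (by rw [a, b]; ring))).resolve_left
      (by exact_mod_cast H.hne 332640 (by decide) (by decide))
  · omega
  · omega
  · omega

end Cert

end Pool.Agent.P78
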