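import Pool.Agent.Lib.MP_78c6b1_al.Neg.Cost

/-! Weights `2, 3, …, p - 2`, a gap, and a last level `p`. -/

set_option autoImplicit false
set_option linter.unusedSectionVars false

namespace Pool.Agent.P78

open scoped commutatorElement
open Finset

variable {p : ℕ} {G : Type} [Group G] [hp : Fact p.Prime] {X : Ctx p G} {r : ℕ}

lemma St.le_of_e [Finite G] (T : St X r) (hz : T.z ∈ X.S.F (T.w + 1)) {j : ℕ} (h1 : 1 ≤ j)
    (hj : j ≤ r) {K : Subgroup G} (he : T.e j ∈ K) (hK : X.S.F (j + 1) ≤ K) : X.S.F j ≤ K := by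
  intro a ha
  by_cases hS : inS X.μ j
  swap
  · exact hK (X.gap j h1 hS ▸ ha)
  have hl := T.lev j h1 hj
  have ej := T.e_mem j hj
  have hm := pow_mem ej (T.ε j a).val
  have := T.ker' h1 hj hK (fun e => by subst e; exact hK hz) (mul_mem ha (inv_mem hm)) (by
    rw [hl.add _ ha _ (inv_mem hm), hl.inv hm, hl.pow_val ej, T.e_one j hj hS]; ring)
  simpa using mul_mem this (pow_mem he (T.ε j a).val)

namespace Fn

variable {T : St X r} (N : Fn T) [Fintype G]

section
variable (hG : IsPGroup p G) (hp' : 50 ≤ p) (hn : ¬ T.Std (r + 1)) (hr : 80 ≤ r) (hμ : X.μ = 4)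
  (hrp : r + 2 = p)
include hp' hn hr hμ hrp

omit N in
lemma sp_gap : X.S.F (r + 1) = X.S.F (r + 2) :=
  le_antisymm (T.triv_first (by omega) (by omega) (by omega) hn
    (cast_ne_zero' (by omega) (by omega))) (X.S.anti (by omega))

omit N in
lemma sp_bot : X.S.F (r + 3) = ⊥ := by
  have key : ∀ k, 2 ≤ k → k ≤ 3 → X.S.F (r + 1 + k) ≤ X.S.F (r + 1 + k + 1) := fun k h2 h3 => by
    by_contra h
    rcases T.res_of_nontriv (by omega) (by omega) hn ⟨by omega, by omega, by omega⟩ (by omega) h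
      with e | e
    · have := cast_eq_cases e (by omega) (by omega); omega
    · have := cast_neg_cases e (by omega); omega
  exact eq_bot_iff.2 ((key 2 le_rfl (by omega)).trans ((key 3 (by omega) le_rfl).trans
    (T.tail_bot (by omega) (by omega) hn).le))

omit N in
lemma sp_central : ∀ k ∈ X.S.F (r + 2), ∀ g, g * k * g⁻¹ = k := fun k hk g => by
  have := NSer.comm_mem' (X.S.mem_one g) hk (by omega : r + 3 ≤ _)
  rw [sp_bot hp' hn hr hμ hrp, Subgroup.mem_bot, commutatorElement_def, mul_inv_eq_one] at this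
  exact this

include hG N in
theorem sp_star (hB : Bud p G) (hg : T.Good) :
    ¬ ∀ l k, ∃ φ, IsLev X.S (r + 2) φ ∧ T.Ty φ (r + 2) l k := by
  classical
  intro hall
  have hp7 : 7 ≤ p := by omega
  have hz := hg.2 (by omega)
  have hx := N.hx (by omega)
  have hcen := sp_central hp' hn hr hμ hrp
  have hgap := sp_gap hp' hn hr hμ hrp
  have hσ := N.le_σ
  obtain ⟨q, hq⟩ : ∃ q, p = q + 1 := ⟨p - 1, by omega⟩
  have hodd := odd_p hp7
  refine hB.agg ⊥ X.S.F X.S.anti (Ico 2 (q / 2)) (q * (2 * q + 1)) ?_ fun i hi => ?_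
  · obtain ⟨a, ha⟩ : ∃ a, q = 2 * a + 4 := ⟨q / 2 - 2, by omega⟩
    rw [Nat.card_Ico, show q / 2 - 2 = a by omega, hq, ha]
    have : 22 ≤ a := by omega
    nlinarith [Nat.mul_le_mul this this, Nat.mul_le_mul this (Nat.mul_le_mul this this),
      Nat.mul_le_mul this (le_refl (a * a))]
  rw [mem_Ico] at hi
  obtain ⟨j, hj⟩ : ∃ j, i + j = r + 1 := ⟨r + 1 - i, by omega⟩
  obtain ⟨φ, hφ, t⟩ := hall ((i : ZMod p) ^ 2) 2
  have h0 : ((r + 2 : ℕ) : ZMod p) = 0 := by rw [hrp]; simp
  have hS : ∀ a, 2 ≤ a → inS X.μ a := fun a ha => ⟨by omega, by omega, by omega⟩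
  have ej := T.e_mem j (by omega)
  have cm : ∀ y ∈ X.S.F i, ∀ u ∈ X.S.F j, ⁅y, u⁆ ∈ X.S.F (r + 2) := fun y hy u hu =>
    hgap ▸ NSer.comm_mem' hy hu hj.ge
  have hadd : ∀ a ∈ X.S.F i, ∀ b ∈ X.S.F i, φ ⁅a * b, T.e j⁆ = φ ⁅a, T.e j⁆ + φ ⁅b, T.e j⁆ :=
    fun a ha b hb => by
      rw [commutatorElement_mul_left_eq_conj_mul, hcen _ (cm b hb _ ej),
        hφ.add _ (cm b hb _ ej) _ (cm a ha _ ej), add_comm]
  let Y : Subgroup G :=
    { carrier := {y | y ∈ X.S.F i ∧ φ ⁅y, T.e j⁆ = 0}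
      one_mem' := ⟨one_mem _, by simp [hφ.one]⟩
      mul_mem' := fun {a b} ha hb => ⟨mul_mem ha.1 hb.1, by rw [hadd a ha.1 b hb.1, ha.2, hb.2, add_zero]⟩
      inv_mem' := fun {a} ha => ⟨inv_mem ha.1, by
        have := hadd a ha.1 _ (inv_mem ha.1)
        rw [ha.2, mul_inv_cancel, zero_add] at this
        simpa [hφ.one] using this.symm⟩ }
  have hne : φ ⁅T.e (i + 1), T.e j⁆ ≠ 0 := by
    rw [t.full hp7 (by omega) (by omega) hφ (k := i + 1) (l := j) (by omega) (by omega) (by omega)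
      (by omega) (by omega) (T.e_mem _ (by omega)) ej, T.e_one _ (by omega) (hS _ (by omega)),
      T.e_one _ (by omega) (hS _ (by omega)), Psi, h0]
    convert mul_ne_zero (cast_ne_zero' (p := p) (n := 2 * (i + 1)) (by omega) (by omega))
      (cast_ne_zero' (p := p) (n := 2 * i + 1) (by omega) (by omega)) using 1
    push_cast; ring
  have c1 : Nat.card (X.S.F i) = p * Nat.card (X.S.F (i + 1)) :=
    T.card_pure hG (by omega) (hS i hi.1) fun e => by subst e; exact hz
  have c2 : Nat.card (X.S.F (i + 1)) ≤ Nat.card Y := by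
    have := card_le_of_fun (H := Y) _ hadd fun a ha h => ⟨ha, h⟩
    rw [Nat.card_zmod, c1] at this
    exact Nat.le_of_mul_le_mul_left this hp.out.pos
  have c3 := card_lt_mul hG (H := Y ⊓ X.S.F (i + 1)) (K := X.S.F (i + 1)) inf_le_right
    fun h => hne (h (T.e_mem _ (by omega))).1.2
  have c4 := card_layer (inf_le_left : Y ⊓ X.S.F (i + 1) ≤ Y)
  have c5 := card_layer (X.S.anti (Nat.le_succ i))
  have c6 : Nat.card (X.S.F j) = p ^ i * Nat.card (X.S.F (r + 2)) := by
    have := N.card_seg (a := j) (b := r + 1) (fun a ha => hS a (by omega)) (by omega) le_rfl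
    rwa [hx, ite_self, N.eqF hx, N.eqF hx, hgap, show r + 1 - j + 0 = i by omega] at this
  have c7 : Nat.card G = p ^ (i - 2) * (p * Nat.card (X.S.F (i + 1))) := by
    rw [N.card_top (i := i) (by omega) (by omega), N.eqF hx, c1, cod_ne (by omega) (by omega)]
  have c8 := card_lt_mul hG (H := hφ.kerSub) (K := X.S.F (r + 2)) (fun a ha => ha.1)
    fun h => hne (h (NSer.comm_mem' (T.e_mem _ (by omega)) ej (by omega))).2
  have b1 : ∀ y ∈ layer (X.S.F i) (X.S.F (i + 1)), ∀ t, p ^ t ≤ Nat.card ↥(cen ⊥ y ⊓ X.S.F j) →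
      p * p ^ t ≤ Nat.card (cen ⊥ y) := fun y hy t h =>
    (Nat.mul_le_mul_left _ h).trans (card_cen_ge hG
      (fun h => (mem_layer.1 hy).2 (X.S.anti (by omega) h.2)) fun u hu => hu.1)
  have b2 : ∀ y ∈ layer (X.S.F i) (X.S.F (i + 1)), p * p ^ i +
      (if y ∈ layer Y (Y ⊓ X.S.F (i + 1)) then q * (p * p ^ i) else 0) ≤ Nat.card (cen ⊥ y) := by
    intro y hy
    have hy1 := (mem_layer.1 hy).1
    split_ifs with h
    · have hY := (mem_layer.1 h).1
      have e1 := card_le_comm (K := hφ.kerSub) (B := X.S.F j) (fun k hk => hcen k hk.1) (y := y) (by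
        let K : Subgroup G :=
          { carrier := {u | u ∈ X.S.F j ∧ φ ⁅y, u⁆ = 0}
            one_mem' := ⟨one_mem _, by simp [hφ.one]⟩
            mul_mem' := fun {a b} ha hb => ⟨mul_mem ha.1 hb.1, by
              rw [commutatorElement_mul_right_eq_mul_conj, mul_assoc, mul_assoc, ← mul_assoc a,
                hcen _ (cm y hy1 b hb.1), hφ.add _ (cm y hy1 a ha.1) _ (cm y hy1 b hb.1), ha.2, hb.2,
                add_zero]⟩
            inv_mem' := fun {a} ha => ⟨inv_mem ha.1, by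
              have e : ⁅y, a⁻¹⁆ = a⁻¹ * ⁅y, a⁆⁻¹ * a⁻¹⁻¹ := by
                simp [commutatorElement_def, mul_assoc]
              rw [e, hcen _ (inv_mem (cm y hy1 a ha.1)), hφ.inv (cm y hy1 a ha.1), ha.2, neg_zero]⟩ }
        have : X.S.F j ≤ K := T.le_of_e hz (by omega) (by omega) ⟨ej, hY.2⟩ fun u hu =>
          ⟨X.S.anti (Nat.le_succ j) hu, by
            rw [t.full hp7 (by omega) (by omega) hφ (k := i) (l := j + 1) (by omega) (by omega)
              (by omega) (by omega) (by omega) hy1 hu, Psi, h0]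
            ring⟩
        exact fun u hu => ⟨cm y hy1 u hu, (this hu).2⟩)
      have := b1 y hy (i + 1) (by
        refine Nat.le_of_mul_le_mul_left ?_ (Nat.card_pos (α := hφ.kerSub))
        refine le_trans ?_ e1
        rw [c6, pow_succ, mul_comm, mul_assoc]
        exact Nat.mul_le_mul_left _ c8)
      refine le_trans (le_of_eq ?_) this
      rw [pow_succ]
      conv_rhs => rw [← mul_assoc, hq]
      rw [← hq]; ring_nf
      rw [hq]; ring
    · have e1 := card_le_comm (B := X.S.F j) hcen (cm y hy1)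
      rw [c6, mul_comm] at e1
      exact b1 y hy i (Nat.le_of_mul_le_mul_left e1 Nat.card_pos)
  refine le_trans ?_ (sum_le_sum b2)
  rw [sum_add_distrib, sum_ite_mem, sum_const, sum_const, smul_eq_mul, smul_eq_mul,
    inter_eq_right.2 (fun y hy => by
      rw [mem_layer] at hy ⊢; exact ⟨hy.1.1, fun h => hy.2 ⟨hy.1, h⟩⟩), c7, Subgroup.card_bot]
  simp only [Nat.succ_eq_add_one] at c5
  obtain ⟨i', rfl⟩ : ∃ i', i = i' + 2 := ⟨i - 2, by omega⟩
  rw [Nat.add_sub_cancel]
  generalize Nat.card (X.S.F (i' + 2 + 1)) = n1 at *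
  generalize (layer (X.S.F (i' + 2)) (X.S.F (i' + 2 + 1))).card = L at *
  generalize (layer Y (Y ⊓ X.S.F (i' + 2 + 1))).card = L' at *
  generalize Nat.card ↥(Y ⊓ X.S.F (i' + 2 + 1)) = n2 at *
  have d1 : L = q * n1 := by
    have : p * n1 = q * n1 + n1 := by rw [hq]; ring
    omega
  have d2 : q * n1 ≤ p * L' := by
    have : p * n1 = q * n1 + n1 := by rw [hq]; ring
    nlinarith
  calc _ = L * (p * p ^ (i' + 2)) + q * n1 * (q * p ^ (i' + 2)) := by
        rw [d1]
        have : 2 * q + 1 = p + q := by omega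
        rw [this]; ring
    _ ≤ L * (p * p ^ (i' + 2)) + p * L' * (q * p ^ (i' + 2)) := by gcongr
    _ = _ := by ring

include hG in
theorem sp_zer (hB : Bud p G) (hg : T.Good) {i : ℕ} (hi : 10 ≤ i) (hi' : 2 * i ≤ r + 1)
    (hZ : T.Zer (r + 2) i) : N.W i ≤ (1 + 1) * p ^ 2 * Nat.card G := by
  have hp7 : 7 ≤ p := by omega
  have hz := hg.2 (by omega)
  have hx := N.hx (by omega)
  have hgap := sp_gap hp' hn hr hμ hrp
  have hbot := sp_bot hp' hn hr hμ hrp
  have hσ := N.le_σ
  have hcod : wcod X.μ i = i - 2 := cod_ne (by omega) (by omega)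
  have hbot5 := T.tail_bot (by omega) (by omega) hn
  have hc : Nat.card (X.S.F (r + 1)) ≤ p ^ 1 := by
    have := T.card_zero hp7 (m := r + 2) (by omega) (by omega)
      (cast_ne_zero' (n := i) (by omega) (by omega)) hZ.2
    rwa [hbot, Subgroup.card_bot, mul_one, ← hgap] at this
  by_cases h2 : 2 * i = r + 1
  · refine (N.W_le (by omega) (by omega) 2 fun y hy hy' => cy_core hG (by omega) (by omega) hbot5
      (inS_of_le (by omega)) hi' hy hy' ∅ 1 (by simp) (by simpa using hc) _ ?_).trans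
      (Nat.mul_le_mul_right _ (by omega))
    split_ifs <;> omega
  obtain ⟨j, hj⟩ : ∃ j, i + j = r + 1 := ⟨r + 1 - i, by omega⟩
  have hzero := St.comm_zero hp7 (m := r + 2) (i := i) (j := j + 1) (by omega) (by omega) (by omega)
    (by omega) (by omega) (by omega) (by omega) hZ.2
  rw [hbot] at hzero
  have hne : ¬ X.S.F i ≤ cen ⊥ (T.e j) ⊓ X.S.F i := fun h => by
    refine N.large hG hp7 hB (i := i) (j := j) (inS_of_le (by omega)) (by omega) (by omega) ⊥ ?_ ?_
    · rw [N.eqF hx, N.eqF hx]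
      exact fun y hy => T.le_of_e (K := cen ⊥ y) hz (by omega) (by omega) (cen_symm.1 (h hy).1)
        (hzero y hy)
    · rw [N.card_seg (a := j) (b := r + 1) (fun a ha => inS_of_le (by omega)) (by omega) le_rfl,
        N.top' (Nat.lt_succ_self r), hgap]
      refine le_trans ?_ (Nat.mul_le_mul_left _ (card_lt_mul hG (X.S.anti (Nat.le_succ _)) hZ.1))
      rw [Nat.succ_eq_add_one, hbot, ← mul_assoc, ← pow_succ]
      exact Nat.mul_le_mul_right _ (Nat.pow_le_pow_right hp.out.pos (by omega))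
  refine N.W_le' (by omega) (by omega) 2 1 (fun y => y ∈ cen ⊥ (T.e j) ⊓ X.S.F i) ?_
    fun y hy hy' => ⟨boundA hG hp' hn hr (by omega) (inS_of_le (by omega)) hi' hy hy', fun hY => ?_⟩
  · rw [one_mul, N.eqF hx]
    exact card_lt_mul hG inf_le_right hne
  · refine cy_core hG (by omega) (by omega) hbot5 (inS_of_le (by omega)) hi' hy hy' {j} 0
      (fun a ha => ?_) (by simpa using hc) _ ?_
    · obtain rfl := mem_singleton.1 ha
      rw [N.eqF hx] at hy
      refine ⟨by omega, by omega, by omega, act_of (M := ⊥) (N.le _ (T.e_mem a (by omega))) ?_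
        fun h => hY ⟨cen_symm.1 h, hy⟩⟩
      rw [N.eqF hx]; exact hzero y hy
    · split_ifs <;> omega

end

end Fn

end Pool.Agent.P78
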