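import Mathlib

/-! Two-cocycles of the Witt algebra on a middle range of weights. -/

set_option autoImplicit false

namespace Pool.Agent.P78

variable {p : ℕ} [hp : Fact p.Prime]

lemma cast_ne_zero' {n : ℕ} (h0 : 0 < n) (hn : n < p) : (n : ZMod p) ≠ 0 := by
  rw [Ne, ZMod.natCast_eq_zero_iff]
  exact Nat.not_dvd_of_pos_of_lt h0 hn

lemma cast_sub_ne {i j : ℕ} (h : i < j) (h2 : j < i + p) : (j : ZMod p) - i ≠ 0 := by
  obtain ⟨d, rfl⟩ := Nat.exists_eq_add_of_le h.le
  have := cast_ne_zero' (p := p) (n := d) (by omega) (by omega)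
  simpa using this

/-- the cubic describing a cocycle of weight `m` -/
def Psi (m : ℕ) (l k : ZMod p) (i : ℕ) : ZMod p := l * ((m : ZMod p) - 2 * i) + k * (i : ZMod p) ^ 3

lemma Psi_compl {m i j : ℕ} {l k : ZMod p} (hk : k * m = 0) (h : i + j = m) :
    Psi m l k j = -Psi m l k i := by
  subst h
  simp only [Psi] at *
  push_cast at *
  linear_combination ((i : ZMod p) ^ 2 - i * j + j ^ 2) * hk

lemma zero_exp (hp7 : 7 ≤ p) {a m : ℕ} (hm : 3 * a + 9 ≤ m) (g : ℕ → ZMod p)
    (col : ∀ i j k, a ≤ i → a ≤ j → a ≤ k → i + j + k = m →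
      ((j : ZMod p) - i) * g k + ((k : ZMod p) - j) * g i + ((i : ZMod p) - k) * g j = 0)
    (h0 : g (m / 3) = 0) (h1 : g (m / 3 + 1) = 0) (h2 : g (m / 3 + 2) = 0) :
    ∀ k, a ≤ k → k + 2 * a + 1 ≤ m → g k = 0 := by
  have step : ∀ i j k, a ≤ i → a ≤ k → i < j → j ≤ i + 2 → i + j + k = m → g i = 0 → g j = 0 →
      g k = 0 := by
    intro i j k hi hk hij hj hs gi gj
    have := col i j k hi (by omega) hk hs
    rw [gi, gj] at this
    simpa [cast_sub_ne (p := p) hij (by omega)] using this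
  have key : ∀ d k, a ≤ k → k + 2 * a + 1 ≤ m → 3 * k ≤ m + d → m ≤ 3 * k + d → g k = 0 := by
    intro d
    induction d using Nat.strong_induction_on with
    | _ d ih =>
      intro k hk hk' h3 h4
      by_cases hd : 3 * k ≤ m + 6 ∧ m ≤ 3 * k + 6
      · have : k = m / 3 ∨ k = m / 3 + 1 ∨ k = m / 3 + 2 ∨ m / 3 + (m / 3 + 1) + k = m ∨
            m / 3 + (m / 3 + 2) + k = m ∨ m / 3 + 1 + (m / 3 + 2) + k = m := by omega
        rcases this with rfl | rfl | rfl | h | h | h
        exacts [h0, h1, h2, step _ _ _ (by omega) hk (by omega) (by omega) h h0 h1,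
          step _ _ _ (by omega) hk (by omega) (by omega) h h0 h2,
          step _ _ _ (by omega) hk (by omega) (by omega) h h1 h2]
      · refine step ((m - k - 1) / 2) (m - k - (m - k - 1) / 2) k (by omega) hk (by omega)
          (by omega) (by omega) ?_ ?_
        · exact ih (d - 1) (by omega) _ (by omega) (by omega) (by omega) (by omega)
        · exact ih (d - 1) (by omega) _ (by omega) (by omega) (by omega) (by omega)
  intro k hk hk'
  exact key (3 * k + m) k hk hk' (by omega) (by omega)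

theorem lemW (hp7 : 7 ≤ p) {a m : ℕ} (hm : 4 * a + 9 ≤ m) (ψ : ℕ → ZMod p)
    (col : ∀ i j k, a ≤ i → a ≤ j → a ≤ k → i + j + k = m →
      ((j : ZMod p) - i) * ψ k + ((k : ZMod p) - j) * ψ i + ((i : ZMod p) - k) * ψ j = 0)
    (anti : ∀ i j, a ≤ i → a ≤ j → i + j = m → ψ j = -ψ i) :
    ∃ l k : ZMod p, k * m = 0 ∧ ∀ i j, a ≤ i → a ≤ j → i + j = m → ψ i = Psi m l k i := by
  set c := m / 3 with hc
  have h2 : (2 : ZMod p) ≠ 0 := by exact_mod_cast cast_ne_zero' (p := p) (n := 2) (by omega) (by omega)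
  have hD : (3 * (c + 1 : ZMod p) - m) ≠ 0 := by
    have := cast_sub_ne (p := p) (i := m) (j := 3 * (c + 1)) (by omega) (by omega)
    simpa using this
  set κ : ZMod p := (ψ (c + 2) - 2 * ψ (c + 1) + ψ c) / (2 * (3 * (c + 1 : ZMod p) - m)) with hκ
  have hκ' : κ * (2 * (3 * (c + 1 : ZMod p) - m)) = ψ (c + 2) - 2 * ψ (c + 1) + ψ c :=
    div_mul_cancel₀ _ (mul_ne_zero h2 hD)
  let f : ZMod p → ZMod p := fun x => x ^ 3 - m * x ^ 2
  set B : ZMod p := ψ (c + 1) - ψ c - κ * (f (c + 1) - f c) with hB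
  set A : ZMod p := ψ c - B * c - κ * f c with hA
  have hz := zero_exp hp7 (a := a) (m := m) (by omega) (fun i => ψ i - A - B * i - κ * f i)
    (fun i j k hi hj hk hs => by
      have := col i j k hi hj hk hs
      have hs' : (m : ZMod p) = i + j + k := by rw [← hs]; push_cast; ring
      simp only [f, hs']
      linear_combination this)
    (by rw [hA]; ring)
    (by rw [hA, hB]; push_cast; ring)
    (by rw [hA, hB]; simp only [f]; push_cast; linear_combination -hκ')
  have hψ : ∀ k, a ≤ k → k + 2 * a + 1 ≤ m → ψ k = A + B * k + κ * f k := fun k hk hk' => by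
    linear_combination hz k hk hk'
  have hs : ∀ i, 2 * a + 1 ≤ i → i + 2 * a + 1 ≤ m →
      2 * A + B * m + κ * m * (i * (i - m)) = 0 := by
    intro i hi hi'
    obtain ⟨j, hj⟩ : ∃ j, i + j = m := ⟨m - i, by omega⟩
    have h := anti i j (by omega) (by omega) hj
    rw [hψ i (by omega) hi', hψ j (by omega) (by omega)] at h
    have hs' : (m : ZMod p) = i + j := by rw [← hj]; push_cast; ring
    simp only [f, hs'] at h ⊢
    linear_combination h
  have e0 := hs (2 * a + 1) le_rfl (by omega)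
  have e1 := hs (2 * a + 1 + 1) (by omega) (by omega)
  have e2 := hs (2 * a + 1 + 2) (by omega) (by omega)
  have hk : κ * m = 0 := by
    have : 2 * (κ * m) = 0 := by
      push_cast at e0 e1 e2
      linear_combination e0 - 2 * e1 + e2
    exact (mul_eq_zero.1 this).resolve_left h2
  have hAB : 2 * A + B * m = 0 := by rw [hk] at e0; simpa using e0
  have main : ∀ i, a ≤ i → i + 2 * a + 1 ≤ m → ψ i = Psi m (-B / 2) κ i := by
    intro i hi hi'
    rw [hψ i hi hi', Psi]
    simp only [f]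
    field_simp
    linear_combination hAB - 2 * (i : ZMod p) ^ 2 * hk
  refine ⟨-B / 2, κ, hk, fun i j hi hj hij => ?_⟩
  by_cases h : i + 2 * a + 1 ≤ m
  · exact main i hi h
  · rw [anti j i hj hi (by omega), main j hj (by omega), Psi_compl hk (by omega : j + i = m)]

/-- two zeros of a nonzero cubic of this shape are equal up to sign -/
lemma two_zeros (hp7 : 7 ≤ p) {m : ℕ} {l k : ZMod p} (hk : k * m = 0) (hne : l ≠ 0 ∨ k ≠ 0)
    {i j : ℕ} (hi : Psi m l k i = 0) (hj : Psi m l k j = 0) (hi0 : (i : ZMod p) ≠ 0)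
    (hj0 : (j : ZMod p) ≠ 0) : (i : ZMod p) = j ∨ (i : ZMod p) = -j := by
  have h2 : (2 : ZMod p) ≠ 0 := by exact_mod_cast cast_ne_zero' (p := p) (n := 2) (by omega) (by omega)
  simp only [Psi] at hi hj
  by_cases hk0 : k = 0
  · left
    have hl : l ≠ 0 := hne.resolve_right (by simpa using hk0)
    have : l * 2 * ((i : ZMod p) - j) = 0 := by rw [hk0] at hi hj; linear_combination hj - hi
    simpa [hl, h2, sub_eq_zero] using this
  · have hm : (m : ZMod p) = 0 := (mul_eq_zero.1 hk).resolve_left hk0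
    rw [hm] at hi hj
    have : k * i * j * (((i : ZMod p) - j) * (i + j)) = 0 := by
      linear_combination (j : ZMod p) * hi - (i : ZMod p) * hj
    simp only [mul_eq_zero, hk0, hi0, hj0, false_or, sub_eq_zero, add_eq_zero_iff_eq_neg] at this
    exact this

end Pool.Agent.P78
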