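import Pool.Agent.Lib.MP_78c6b1_al.Neg.DSW
import Pool.Agent.Lib.MP_78c6b1_al.Neg.Wlem
import Pool.Agent.Lib.MP_78c6b1_al.Neg.Iface

/-! A series whose first `r` layers are of Witt type, and the functionals on the next layers. -/

set_option autoImplicit false

namespace Pool.Agent.P78

open scoped commutatorElement IsMulCommutative

/-- an N-series generated in degrees at most `μ` -/
structure Ctx (p : ℕ) (G : Type) [Group G] where
  μ : ℕ
  hμ : μ = 2 ∨ μ = 3 ∨ μ = 4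
  S : NSer G
  gap : ∀ i, 1 ≤ i → ¬ inS μ i → S.F i = S.F (i + 1)
  gen : ∀ n, μ < n → ∀ K : Subgroup G, S.F (n + 1) ≤ K →
    (∀ k l, 1 ≤ k → k ≤ μ → k + l = n → ⁅S.F l, S.F k⁆ ≤ K) → S.F n ≤ K
  term : ∃ N, S.F N = ⊥
  elem : ∀ n, μ < n → ∀ a ∈ S.F n, a ^ p ∈ S.F (n + 1)

variable {p : ℕ} {G : Type} [Group G]

/-- the layers `1, …, r` are of Witt type, up to one extra element `z` of level `w` -/
structure St (X : Ctx p G) (r : ℕ) where
  ε : ℕ → G → ZMod p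
  e : ℕ → G
  z : G
  w : ℕ
  lev : ∀ i, 1 ≤ i → i ≤ r → IsLev X.S i (ε i)
  e_mem : ∀ i, i ≤ r → e i ∈ X.S.F i
  e_one : ∀ i, i ≤ r → inS X.μ i → ε i (e i) = 1
  br : ∀ i j, 1 ≤ i → 1 ≤ j → i + j ≤ r → ∀ a ∈ X.S.F i, ∀ b ∈ X.S.F j,
    ε (i + j) ⁅a, b⁆ = ((j : ZMod p) - i) * ε i a * ε j b
  ker : ∀ i, 1 ≤ i → i ≤ r → i ≠ w → ∀ a ∈ X.S.F i, ε i a = 0 → a ∈ X.S.F (i + 1)
  z_mem : z ∈ X.S.F w
  z_eps : ε w z = 0
  z_pow : z ^ p ∈ X.S.F (w + 1)
  kerw : ∀ a ∈ X.S.F w, ε w a = 0 → ∃ n : ℕ, a * (z ^ n)⁻¹ ∈ X.S.F (w + 1)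
  w_ge : 2 ≤ w
  w_le : w ≤ r

lemma inS_of_le {μ i : ℕ} (h : 3 ≤ i) : inS μ i := ⟨by omega, by omega, by omega⟩

lemma exists_split [Fact p.Prime] (hp7 : 7 ≤ p) {C k : ℕ} (hk : 2 * C + 1 ≤ k) :
    ∃ a c, C ≤ a ∧ C ≤ c ∧ a + c = k ∧ (c : ZMod p) - a ≠ 0 :=
  ⟨(k - 1) / 2, k - (k - 1) / 2, by omega, by omega, by omega, cast_sub_ne (by omega) (by omega)⟩

lemma IsLev.smul [Fact p.Prime] {S : NSer G} {w : ℕ} {φ : G → ZMod p} (h : IsLev S w φ)
    (c : ZMod p) : IsLev S w (fun a => c * φ a) := h.map (AddMonoidHom.mulLeft c)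

lemma IsLev.pow_val [Fact p.Prime] {S : NSer G} {w : ℕ} {φ : G → ZMod p} (h : IsLev S w φ)
    {a : G} (ha : a ∈ S.F w) (c : ZMod p) : φ (a ^ c.val) = c * φ a := by
  rw [h.pow ha, nsmul_eq_mul, ZMod.natCast_zmod_val]

lemma exists_addHom₀ {K : Type*} [Field K] {A : Type*} [AddCommGroup A] [Module K A] {x : A}
    (hx : x ≠ 0) : ∃ f : A →+ K, f x ≠ 0 := by
  obtain ⟨f, hf⟩ := Module.Projective.exists_dual_ne_zero K hx
  exact ⟨f.toAddMonoidHom, hf⟩

lemma exists_addHom [Fact p.Prime] {A : Type*} [AddCommGroup A] (h : ∀ x : A, p • x = 0) {x : A}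
    (hx : x ≠ 0) : ∃ f : A →+ ZMod p, f x ≠ 0 :=
  @exists_addHom₀ (ZMod p) _ A _ (AddCommGroup.zmodModule h) x hx

/-- functionals separate the points of an elementary layer -/
lemma exists_fun [Fact p.Prime] (S : NSer G) {n : ℕ} (hn : ∀ a ∈ S.F n, a ^ p ∈ S.F (n + 1))
    {u : G} (hu : u ∈ S.F n) (hu' : u ∉ S.F (n + 1)) :
    ∃ φ : G → ZMod p, IsLev S n φ ∧ φ u ≠ 0 := by
  classical
  obtain ⟨φ, hφ, hk⟩ := exists_lev S n
  let T : AddSubgroup (Additive (Subgroup.center (G ⧸ S.F (n + 1)))) :=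
    { carrier := {x | p • x = 0}
      add_mem' := fun {a b} ha hb => by
        simp only [Set.mem_ofPred_eq] at *
        rw [smul_add, ha, hb, add_zero]
      zero_mem' := by simp
      neg_mem' := fun {a} ha => by
        simp only [Set.mem_ofPred_eq] at *
        rw [smul_neg, ha, neg_zero] }
  have hT : ∀ a ∈ S.F n, φ a ∈ T := fun a ha => by
    show p • φ a = 0
    rw [← hφ.pow ha, hφ.zero _ (hn a ha)]
  have h0 : (⟨φ u, hT u hu⟩ : T) ≠ 0 := fun h => hu' (hk u hu (congrArg Subtype.val h))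
  obtain ⟨f, hf⟩ := exists_addHom (p := p) (fun x : T => Subtype.ext x.2) h0
  refine ⟨fun a => if h : a ∈ S.F n then f ⟨φ a, hT a h⟩ else 0,
    ⟨fun a ha b hb => ?_, fun a ha => ?_⟩, by simpa [hu] using hf⟩
  · simp only [dif_pos ha, dif_pos hb, dif_pos (mul_mem ha hb)]
    rw [← map_add]
    congr 1
    exact Subtype.ext (hφ.add a ha b hb)
  · simp only [dif_pos (S.anti (Nat.le_succ n) ha)]
    rw [← map_zero f]
    congr 1
    exact Subtype.ext (hφ.zero a ha)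

namespace St

variable [hp : Fact p.Prime] {X : Ctx p G} {r : ℕ} (T : St X r)

lemma decomp {i : ℕ} (h1 : 1 ≤ i) (hi : i ≤ r) {ψ : G → ZMod p} (hψ : IsLev X.S i ψ)
    (hz : i = T.w → ψ T.z = 0) {a : G} (ha : a ∈ X.S.F i) : ψ a = T.ε i a * ψ (T.e i) := by
  by_cases hS : inS X.μ i
  · have hm := T.e_mem i hi
    have hb : a * (T.e i ^ (T.ε i a).val)⁻¹ ∈ X.S.F i := mul_mem ha (inv_mem (pow_mem hm _))
    have key : ∀ χ : G → ZMod p, IsLev X.S i χ →
        χ (a * (T.e i ^ (T.ε i a).val)⁻¹) = χ a - T.ε i a * χ (T.e i) := fun χ hχ => by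
      rw [hχ.add _ ha _ (inv_mem (pow_mem hm _)), hχ.inv (pow_mem hm _), hχ.pow_val hm,
        sub_eq_add_neg]
    have h0 := key _ (T.lev i h1 hi)
    rw [T.e_one i hi hS, mul_one, sub_self] at h0
    rw [← sub_eq_zero, ← key ψ hψ]
    by_cases hw : i = T.w
    · subst hw
      obtain ⟨n, hn⟩ := T.kerw _ hb h0
      rw [hψ.congr (pow_mem T.z_mem n) hn, hψ.pow T.z_mem, hz rfl, smul_zero]
    · exact hψ.zero _ (T.ker i h1 hi hw _ hb h0)
  · rw [X.gap i h1 hS] at ha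
    rw [hψ.zero a ha, (T.lev i h1 hi).zero a ha, zero_mul]

lemma z_comm {j : ℕ} (h1 : 1 ≤ j) (hj : T.w + j ≤ r) {b : G} (hb : b ∈ X.S.F j) :
    ⁅T.z, b⁆ ∈ X.S.F (T.w + j + 1) := by
  have hw := T.w_ge
  refine T.ker _ (by omega) hj (by omega) _ (NSer.comm_mem T.z_mem hb) ?_
  rw [T.br _ _ (by omega) h1 hj _ T.z_mem _ hb, T.z_eps]; ring

lemma br_e {i j : ℕ} (hi : inS X.μ i) (hj : inS X.μ j) (h : i + j ≤ r) :
    T.ε (i + j) ⁅T.e i, T.e j⁆ = (j : ZMod p) - i := by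
  rw [T.br i j hi.1 hj.1 h _ (T.e_mem i (by omega)) _ (T.e_mem j (by omega)),
    T.e_one i (by omega) hi, T.e_one j (by omega) hj]; ring

lemma lemZ (hp7 : 7 ≤ p) {m k : ℕ} (hm : m ≤ r + 8) {φ : G → ZMod p} (hφ : IsLev X.S m φ)
    (hk : 17 ≤ k) (hkr : k ≤ r) (hw : k + T.w = m) {b : G} (hb : b ∈ X.S.F k) :
    φ ⁅T.z, b⁆ = 0 := by
  have hψ := hφ.commR hw T.z_mem
  have hzz : k = T.w → φ ⁅T.z, T.z⁆ = 0 := fun _ => by simp [hφ.one]
  obtain ⟨a, c, ha, hc, rfl, hne⟩ := exists_split (p := p) hp7 (C := 8) (k := k) hk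
  have ea := T.e_mem a (by omega)
  have ec := T.e_mem c (by omega)
  have h1 := T.decomp (by omega) hkr hψ hzz (NSer.comm_mem ea ec)
  rw [T.br_e (inS_of_le (by omega)) (inS_of_le (by omega)) hkr,
    hφ.leibniz (i := T.w) (j := a) (k := c) (by omega) T.z_mem ea ec,
    hφ.zero _ (NSer.comm_mem' (T.z_comm (by omega) (by omega) ea) ec (by omega)),
    hφ.zero _ (NSer.comm_mem' (T.z_comm (by omega) (by omega) ec) ea (by omega)), sub_zero] at h1
  rw [T.decomp (by omega) hkr hψ hzz hb, (mul_eq_zero.1 h1.symm).resolve_left hne, mul_zero]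

lemma bilin (hp7 : 7 ≤ p) {m i j : ℕ} (hm : m ≤ r + 8) {φ : G → ZMod p} (hφ : IsLev X.S m φ)
    (hi : 17 ≤ i) (hj : 17 ≤ j) (hij : i + j = m) {u v : G} (hu : u ∈ X.S.F i)
    (hv : v ∈ X.S.F j) : φ ⁅u, v⁆ = T.ε i u * T.ε j v * φ ⁅T.e i, T.e j⁆ := by
  have ei := T.e_mem i (by omega)
  rw [T.decomp (by omega) (by omega) (hφ.commL hij hv)
    (fun h => T.lemZ hp7 hm hφ hj (by omega) (by omega) hv) hu,
    T.decomp (by omega) (by omega) (hφ.commR (j := j) (k := i) (by omega) ei)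
    (fun h => by
      subst h
      rw [hφ.antisymm (j := T.w) (k := i) (by omega) T.z_mem ei,
        T.lemZ hp7 hm hφ hi (by omega) (by omega) ei, neg_zero]) hv, mul_assoc]

/-- the values of `φ` on the brackets of middle weights -/
def Ty (φ : G → ZMod p) (m : ℕ) (l k : ZMod p) : Prop :=
  k * m = 0 ∧ ∀ i j, 17 ≤ i → 17 ≤ j → i + j = m → φ ⁅T.e i, T.e j⁆ = Psi m l k i

lemma exists_ty (hp7 : 7 ≤ p) {m : ℕ} (hm0 : 77 ≤ m) (hm : m ≤ r + 8) {φ : G → ZMod p}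
    (hφ : IsLev X.S m φ) : ∃ l k, T.Ty φ m l k := by
  have anti : ∀ i j, 17 ≤ i → 17 ≤ j → i + j = m →
      φ ⁅T.e j, T.e (m - j)⁆ = -φ ⁅T.e i, T.e (m - i)⁆ := fun i j hi hj h => by
    rw [show m - j = i by omega, show m - i = j by omega]
    exact hφ.antisymm h (T.e_mem i (by omega)) (T.e_mem j (by omega))
  have trip : ∀ i j k, 17 ≤ i → 17 ≤ j → 17 ≤ k → i + j + k = m →
      φ ⁅⁅T.e i, T.e j⁆, T.e k⁆ = -(((j : ZMod p) - i) * φ ⁅T.e k, T.e (m - k)⁆) := by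
    intro i j k hi hj hk h
    rw [T.bilin hp7 hm hφ (i := i + j) (j := k) (by omega) hk h
      (NSer.comm_mem (T.e_mem i (by omega)) (T.e_mem j (by omega))) (T.e_mem k (by omega)),
      T.br_e (inS_of_le (by omega)) (inS_of_le (by omega)) (by omega),
      T.e_one k (by omega) (inS_of_le (by omega)), anti (i + j) k (by omega) hk h,
      show m - (i + j) = k by omega]
    ring
  obtain ⟨l, k, hk, h⟩ := lemW hp7 (a := 17) (m := m) (by omega) (fun i => φ ⁅T.e i, T.e (m - i)⁆)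
    (fun i j k hi hj hk h => by
      have := hφ.jacobi h (T.e_mem i (by omega)) (T.e_mem j (by omega)) (T.e_mem k (by omega))
      rw [trip i j k hi hj hk h, trip j k i hj hk hi (by omega),
        trip k i j hk hi hj (by omega)] at this
      linear_combination -this) anti
  exact ⟨l, k, hk, fun i j hi hj hij => by rw [← h i j hi hj hij, show m - i = j by omega]⟩

variable {T}

lemma Ty.comb {φ φ' : G → ZMod p} {m : ℕ} {l k l' k' : ZMod p} (h : T.Ty φ m l k)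
    (h' : T.Ty φ' m l' k') (s t : ZMod p) :
    T.Ty (fun a => s * φ a + t * φ' a) m (s * l + t * l') (s * k + t * k') :=
  ⟨by linear_combination s * h.1 + t * h'.1, fun i j hi hj hij => by
    simp only [h.2 i j hi hj hij, h'.2 i j hi hj hij, Psi]; ring⟩

lemma Ty.comm (hp7 : 7 ≤ p) {φ : G → ZMod p} {m n k : ℕ} {l κ : ZMod p} (hm : m ≤ r + 8)
    (hφ : IsLev X.S m φ) (h : T.Ty φ m l κ) (hk : 1 ≤ k) (hn : n + k = m) {u : G}
    (hu : u ∈ X.S.F k) : T.Ty (fun v => φ ⁅v, u⁆) n (-(Psi m l κ k * T.ε k u)) 0 := by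
  refine ⟨by simp, fun i j hi hj hij => ?_⟩
  have ei := T.e_mem i (by omega)
  have ej := T.e_mem j (by omega)
  have hJ := hφ.jacobi (i := i) (j := j) (k := k) (by omega) ei ej hu
  rw [T.bilin hp7 hm hφ (i := j + k) (j := i) (by omega) hi (by omega) (NSer.comm_mem ej hu) ei,
    T.bilin hp7 hm hφ (i := k + i) (j := j) (by omega) hj (by omega) (NSer.comm_mem hu ei) ej,
    T.br j k (by omega) hk (by omega) _ ej _ hu, T.br k i hk (by omega) (by omega) _ hu _ ei,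
    T.e_one i (by omega) (inS_of_le (by omega)), T.e_one j (by omega) (inS_of_le (by omega)),
    h.2 _ _ (by omega) hi (by omega), h.2 _ _ (by omega) hj (by omega)] at hJ
  have h1 := h.1
  have hm' : (m : ZMod p) = i + j + k := by rw [← hn, ← hij]; push_cast; ring
  have hn' : (n : ZMod p) = i + j := by rw [← hij]; push_cast; ring
  simp only [Psi, hm', hn'] at hJ h1 ⊢
  push_cast at hJ
  linear_combination hJ + T.ε k u * (-(i : ZMod p) ^ 3 + i ^ 2 * j - i ^ 2 * k - i * j ^ 2 + i * k ^ 2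
    + j ^ 3 + j ^ 2 * k - j * k ^ 2) * h1

lemma ty_eps {n : ℕ} (hn : n ≤ r) : T.Ty (T.ε n) n 1 0 :=
  ⟨by simp, fun i j hi hj hij => by
    subst hij
    rw [T.br_e (inS_of_le (by omega)) (inS_of_le (by omega)) hn, Psi]; push_cast; ring⟩

lemma Ty.zero (hp7 : 7 ≤ p) {n : ℕ} (h0 : 35 ≤ n) (hn : n ≤ r + 8) (hr : 43 ≤ r)
    (hw : n ≠ T.w ∨ 39 ≤ n) {φ : G → ZMod p} (hφ : IsLev X.S n φ) (h : T.Ty φ n 0 0) {a : G}
    (ha : a ∈ X.S.F n) : φ a = 0 := by
  induction n using Nat.strong_induction_on generalizing φ a with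
  | _ n ih =>
    by_cases hc : n ≤ r ∧ n ≠ T.w
    · obtain ⟨i, j, hi, hj, rfl, hne⟩ := exists_split (p := p) hp7 (C := 17) (k := n) h0
      have h1 := T.decomp (by omega) hc.1 hφ (fun h => absurd h hc.2)
        (NSer.comm_mem (T.e_mem i (by omega)) (T.e_mem j (by omega)))
      rw [h.2 i j hi hj rfl, T.br_e (inS_of_le (by omega)) (inS_of_le (by omega)) hc.1] at h1
      have h2 : φ (T.e (i + j)) = 0 := by
        simp only [Psi, zero_mul, add_zero] at h1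
        exact (mul_eq_zero.1 h1.symm).resolve_left hne
      rw [T.decomp (by omega) hc.1 hφ (fun h => absurd h hc.2) ha, h2, mul_zero]
    · have hw := T.w_le
      have hμ : X.μ ≤ 4 := by rcases X.hμ with h | h | h <;> omega
      refine (X.gen n (by omega) hφ.kerSub
        (fun a ha => ⟨X.S.anti (Nat.le_succ n) ha, hφ.zero a ha⟩) ?_ ha).2
      intro k l hk hkμ hkl
      rw [Subgroup.commutator_le]
      intro v hv u hu
      refine ⟨NSer.comm_mem' hv hu (by omega), ?_⟩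
      have := h.comm hp7 hn hφ hk (n := l) (by omega) hu
      simp only [Psi, zero_mul, add_zero, neg_zero] at this
      exact ih l (by omega) (by omega) (by omega) (by omega) (hφ.commL (by omega) hu) this hv

lemma Ty.eq (hp7 : 7 ≤ p) {n : ℕ} (h0 : 39 ≤ n) (hn : n ≤ r + 8) (hr : 43 ≤ r)
    {φ φ' : G → ZMod p} (hφ : IsLev X.S n φ) (hφ' : IsLev X.S n φ') {l k : ZMod p}
    (h : T.Ty φ n l k) (h' : T.Ty φ' n l k) {a : G} (ha : a ∈ X.S.F n) : φ a = φ' a := by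
  have h1 := h.comb h' 1 (-1)
  simp only [one_mul, neg_mul, add_neg_cancel] at h1
  have := Ty.zero hp7 (by omega) hn hr (Or.inr h0) (hφ.add_fun (hφ'.map (-AddMonoidHom.id _))) h1 ha
  simpa [add_neg_eq_zero] using this

lemma Ty.full (hp7 : 7 ≤ p) {m k l : ℕ} (h0 : 78 ≤ m) (hm : m ≤ r + 8) {φ : G → ZMod p}
    (hφ : IsLev X.S m φ) {lam κ : ZMod p} (h : T.Ty φ m lam κ) (hk : 1 ≤ k) (hl : 1 ≤ l)
    (hkr : k ≤ r) (hlr : l ≤ r) (hkl : k + l = m) {u v : G} (hu : u ∈ X.S.F k)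
    (hv : v ∈ X.S.F l) : φ ⁅u, v⁆ = Psi m lam κ k * T.ε k u * T.ε l v := by
  have key : ∀ k l, 1 ≤ k → 39 ≤ l → l ≤ r → l + k = m → ∀ u ∈ X.S.F k, ∀ v ∈ X.S.F l,
      φ ⁅v, u⁆ = -(Psi m lam κ k * T.ε k u * T.ε l v) := by
    intro k l hk hl hlr hkl u hu v hv
    have h1 := h.comm hp7 hm hφ hk hkl hu
    have h2 := (ty_eps (T := T) hlr).comb (ty_eps hlr) (-(Psi m lam κ k * T.ε k u)) 0
    simp only [zero_mul, add_zero, mul_one, mul_zero] at h2
    rw [Ty.eq hp7 hl (by omega) (by omega) (hφ.commL hkl hu)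
      ((T.lev l (by omega) hlr).smul _) h1 h2 hv, neg_mul]
  by_cases h39 : 39 ≤ l
  · rw [hφ.antisymm (j := l) (k := k) (by omega) hv hu, key k l hk h39 hlr (by omega) u hu v hv,
      neg_neg]
  · rw [key l k hl (by omega) hkr hkl v hv u hu, Psi_compl h.1 hkl]; ring

end St

end Pool.Agent.P78
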