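import Pool.Agent.Lib.MP_78c6b1_al.Neg.Main

/-! A whole window of abundances is missing for all large primes. -/

set_option autoImplicit false

namespace Pool.Agent.P78

theorem gap_window (hS : ShortStmt) (hF : FJStmt) (hH : HallStmt)
    (hb : ∃ m p₀ : ℕ, ∀ (p : ℕ) [Fact p.Prime], p₀ ≤ p →
      ∀ (G : Type) [Group G] [Finite G], IsPGroup p G → p ^ m ≤ Nat.card G → Bud p G →
        ∃ (X : Ctx p G) (T : St X 100), T.Good) (hP : PowStmt) (hR : RigStmt) :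
    ∃ p₀ : ℕ, ∀ p : ℕ, p.Prime → p₀ ≤ p → ∀ a : ℕ, 72 * p ≤ 100 * a → 100 * a ≤ 78 * p →
      ∀ (G : Type) [Group G] [Finite G] (m : ℕ), Nat.card G = p ^ m →
        (Nat.card (ConjClasses G) : ℤ) ≠
          ((m / 2 : ℕ) : ℤ) * ((p : ℤ) ^ 2 - 1) + (p : ℤ) ^ (m % 2)
            + (a : ℤ) * ((p : ℤ) ^ 2 - 1) * ((p : ℤ) - 1) := by
  obtain ⟨m₀, p₁, hb⟩ := hb
  obtain ⟨C₁, p₂, hS⟩ := hS m₀
  obtain ⟨C₂, p₃, hF⟩ := hF 20
  obtain ⟨p₄, hL⟩ := long_bound hP hR C₂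
  refine ⟨p₁ + p₂ + p₃ + p₄ + m₀ + 2 * C₁ + 200, fun p hpp hp' a ha2 ha1 => ?_⟩
  have := Fact.mk hpp
  have hp0 : (200 : ℤ) ≤ p := by exact_mod_cast (by omega : 200 ≤ p)
  have ha1' : 100 * (a : ℤ) ≤ 78 * p := by exact_mod_cast ha1
  have ha2' : 72 * (p : ℤ) ≤ 100 * a := by exact_mod_cast ha2
  have q1 : (0 : ℤ) ≤ (p : ℤ) ^ 2 - 1 := by nlinarith
  have small : ∀ (G : Type) [Group G] [Finite G] (m : ℕ), m ≤ 3 * p →
      (Nat.card (ConjClasses G) : ℤ) ≤ ((m / 2 : ℕ) : ℤ) * ((p : ℤ) ^ 2 - 1) + p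
        + (a : ℤ) * ((p : ℤ) ^ 2 - 1) * ((p : ℤ) - 1) →
      10 * Nat.card (ConjClasses G) < 8 * p ^ 4 := by
    intro G _ _ m hm h
    have h1 : 2 * ((m / 2 : ℕ) : ℤ) ≤ 3 * p := by exact_mod_cast (by omega : 2 * (m / 2) ≤ 3 * p)
    have h2 : 100 * ((a : ℤ) * ((p : ℤ) ^ 2 - 1) * ((p : ℤ) - 1)) ≤ 78 * p ^ 4 := by
      have : ((p : ℤ) ^ 2 - 1) * ((p : ℤ) - 1) ≤ p ^ 3 := by nlinarith
      have h0 : (0 : ℤ) ≤ a := by positivity
      nlinarith [mul_le_mul_of_nonneg_left this h0, mul_le_mul_of_nonneg_right ha1'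
        (by positivity : (0 : ℤ) ≤ p ^ 3)]
    have h3 : 2 * (((m / 2 : ℕ) : ℤ) * ((p : ℤ) ^ 2 - 1)) ≤ 3 * p ^ 3 := by
      nlinarith [mul_le_mul_of_nonneg_right h1 q1]
    have h4 : 200 * (p : ℤ) ^ 3 ≤ p ^ 4 := by
      nlinarith [mul_le_mul_of_nonneg_right hp0 (by positivity : (0 : ℤ) ≤ p ^ 3)]
    have h5 : (p : ℤ) ≤ p ^ 3 := by nlinarith
    have : 10 * (Nat.card (ConjClasses G) : ℤ) < 8 * p ^ 4 := by nlinarith
    exact_mod_cast this
  have long : ∀ (G : Type) [Group G] [Finite G], IsPGroup p G → p ^ m₀ ≤ Nat.card G →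
      10 * Nat.card (ConjClasses G) < 8 * p ^ 4 →
      10 * Nat.card (ConjClasses G) ≤ 7 * p ^ 4 ∧ Nat.card G ≤ p ^ (2 * p + 10) := by
    intro G _ _ hG h1 h2
    obtain ⟨X, T, hg⟩ := hb p (by omega) G hG h1 (bud_of_classes h2)
    exact hL p (by omega) G hG (bud_of_classes h2) (hF p (by omega) G hG) X T hg
  have big : ∀ (m : ℕ) (G : Type) [Group G] [Finite G], Nat.card G = p ^ m → 3 * p ≤ m + 1 →
      ¬ (Nat.card (ConjClasses G) : ℤ) ≤ ((m / 2 : ℕ) : ℤ) * ((p : ℤ) ^ 2 - 1) + p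
        + (a : ℤ) * ((p : ℤ) ^ 2 - 1) * ((p : ℤ) - 1) := by
    intro m
    induction m using Nat.strong_induction_on with
    | _ m ih =>
      intro G _ _ hc hm h
      have hG := IsPGroup.of_card hc
      by_cases h3 : m ≤ 3 * p
      · have := (long G hG (hc ▸ Nat.pow_le_pow_right hpp.pos (by omega)) (small G m h3 h)).2
        rw [hc, Nat.pow_le_pow_iff_right hpp.one_lt] at this
        omega
      obtain ⟨m, rfl⟩ : ∃ m', m = m' + 2 := ⟨m - 2, by omega⟩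
      obtain ⟨N, _, hN⟩ := exists_normal_sq hG (by
        rw [hc]; exact lt_self_pow₀ hpp.one_lt (by omega))
      have e := N.card_eq_card_quotient_mul_card_subgroup
      rw [hc, hN, pow_add] at e
      refine ih m (by omega) (G ⧸ N) (Nat.eq_of_mul_eq_mul_right (pow_pos hpp.pos 2) e).symm
        (by omega) ?_
      have h1 : (Nat.card (ConjClasses (G ⧸ N)) : ℤ) + p ^ 2 ≤ Nat.card (ConjClasses G) + 1 := by
        exact_mod_cast hH p G hG N hN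
      rw [Nat.add_div_right _ (by omega)] at h
      push_cast at h ⊢
      linarith
  intro G _ _ m hc hk
  have hG := IsPGroup.of_card hc
  have hle : (p : ℤ) ^ (m % 2) ≤ p := by
    rcases Nat.mod_two_eq_zero_or_one m with h | h <;> rw [h] <;> simp; omega
  have hup := hk.le.trans (add_le_add_left (add_le_add_right hle _) _)
  by_cases h3 : m ≤ 3 * p
  swap
  · exact big m G hc (by omega) hup
  have h8 := small G m h3 hup
  have h7 : 7 * p ^ 4 < 10 * Nat.card (ConjClasses G) := by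
    have h1 : (0 : ℤ) ≤ ((m / 2 : ℕ) : ℤ) * ((p : ℤ) ^ 2 - 1) := by positivity
    have h2 : (0 : ℤ) ≤ (p : ℤ) ^ (m % 2) := by positivity
    have h4 : (72 * (p : ℤ)) * (((p : ℤ) ^ 2 - 1) * ((p : ℤ) - 1)) ≤
        100 * a * (((p : ℤ) ^ 2 - 1) * ((p : ℤ) - 1)) :=
      mul_le_mul_of_nonneg_right (by linarith) (mul_nonneg q1 (by linarith))
    have h5 : 200 * (p : ℤ) ^ 3 ≤ p ^ 4 := by
      nlinarith [mul_le_mul_of_nonneg_right hp0 (by positivity : (0 : ℤ) ≤ p ^ 3)]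
    have h6 : (p : ℤ) ≤ p ^ 3 := by nlinarith
    have : 7 * (p : ℤ) ^ 4 < 10 * Nat.card (ConjClasses G) := by nlinarith
    exact_mod_cast this
  rcases le_total (p ^ m₀) (Nat.card G) with h | h
  · have := (long G hG h h8).1
    omega
  · rcases hS p (by omega) G hG h with h | h
    · have : 2 * C₁ * p ^ 3 ≤ p ^ 4 := by
        rw [pow_succ' p 3]; exact Nat.mul_le_mul_right _ (by omega)
      nlinarith
    · omega

theorem gap_of_class (hC : ClassStmt) :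
    ∃ p₀ : ℕ, ∀ p : ℕ, p.Prime → p₀ ≤ p → ∀ a : ℕ, 72 * p ≤ 100 * a → 100 * a ≤ 78 * p →
      ∀ (G : Type) [Group G] [Finite G] (m : ℕ), Nat.card G = p ^ m →
        (Nat.card (ConjClasses G) : ℤ) ≠
          ((m / 2 : ℕ) : ℤ) * ((p : ℤ) ^ 2 - 1) + (p : ℤ) ^ (m % 2)
            + (a : ℤ) * ((p : ℤ) ^ 2 - 1) * ((p : ℤ) - 1) :=
  gap_window shortStmt fjStmt hallStmt (baseStmt' hC 100 (by norm_num)) powStmt (rigStmt rigAlg)

end Pool.Agent.P78
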